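import Pool.Agent.Lib.MP_5bec91_al.Bu.NewOne

-- part Pool.Agent.Lib.MP_5bec91_al.Bu.AlgA
section

/-!
Algebra of elementary groups: they are the groups that are virtually cyclic.
-/

set_option autoImplicit false

namespace Pool.Agent.Bu

open Subgroup

namespace JA

variable {G : Type} [Group G]

theorem mem_norm {M : Subgroup G} {g : G} (hM : Finite M) (h : ∀ μ ∈ M, g * μ * g⁻¹ ∈ M) :
    g ∈ normalizer (M : Set G) :=
  mem_normalizer_fintype (S := (M : Set G)) h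

theorem nrm (M : Subgroup G) (g : G) (hM : Finite M) (h : ∀ μ ∈ M, g * μ * g⁻¹ ∈ M) :
    ∀ μ ∈ M, g⁻¹ * μ * g ∈ M := fun μ hμ => by
  simpa using (inv_mem (mem_norm hM h) μ).1 hμ

theorem pw (M : Subgroup G) (h : G) (hM : Finite M) (hh : ∀ μ ∈ M, h * μ * h⁻¹ ∈ M) :
    ∃ m : ℕ, 0 < m ∧ ∀ μ ∈ M, Commute (h ^ m) μ ∧ (μ * h) ^ m = h ^ m := by
  obtain ⟨n, hn, e⟩ := isOfFinOrder_iff_pow_eq_one.1
    (isOfFinOrder_of_finite (M.normalizerMonoidHom ⟨h, mem_norm hM hh⟩))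
  rw [← map_pow, ← MonoidHom.mem_ker, normalizerMonoidHom_ker, mem_subgroupOf,
    mem_centralizer_iff] at e
  have c : ∀ μ ∈ M, Commute (h ^ n) μ := fun μ hμ => (e μ hμ).symm
  have d : ∀ μ ∈ M, ∀ k : ℕ, (μ * h) ^ k * (h ^ k)⁻¹ ∈ M := fun μ hμ k => by
    induction k with
    | zero => simp
    | succ k ih =>
      rw [show (μ * h) ^ (k + 1) * (h ^ (k + 1))⁻¹ = μ * (h * ((μ * h) ^ k * (h ^ k)⁻¹) * h⁻¹) by
        rw [pow_succ', pow_succ']; group]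
      exact M.mul_mem hμ (hh _ ih)
  refine ⟨n * Nat.card M, Nat.mul_pos hn Nat.card_pos, fun μ hμ => ⟨?_, ?_⟩⟩
  · rw [pow_mul]
    exact (c μ hμ).pow_left _
  · have e1 : ((μ * h) ^ n * (h ^ n)⁻¹) ^ Nat.card M = 1 :=
      congrArg Subtype.val (pow_card_eq_one' (x := (⟨_, d μ hμ n⟩ : M)))
    rw [pow_mul, pow_mul, ← inv_mul_cancel_right ((μ * h) ^ n) (h ^ n),
      (c _ (d μ hμ n)).symm.mul_pow, e1, one_mul]

theorem two (M : Subgroup G) (s : G) (h : ∀ μ ∈ M, s * μ * s⁻¹ ∈ M) (h2 : s ^ 2 ∈ M) :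
    (∀ g, g ∈ M ⊔ zpowers s ↔ g ∈ M ∨ g * s⁻¹ ∈ M) ∧
      (Finite M → Finite (M ⊔ zpowers s : Subgroup G)) := by
  have h' : ∀ μ ∈ M, s⁻¹ * μ * s ∈ M := fun μ hμ => by
    rw [show s⁻¹ * μ * s = (s ^ 2)⁻¹ * (s * μ * s⁻¹) * s ^ 2 by group]
    exact M.mul_mem (M.mul_mem (M.inv_mem h2) (h μ hμ)) h2
  let Q : Subgroup G :=
    { carrier := {g | g ∈ M ∨ g * s⁻¹ ∈ M}
      one_mem' := Or.inl M.one_mem
      mul_mem' := by
        rintro a b (ha | ha) (hb | hb)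
        · exact Or.inl (M.mul_mem ha hb)
        · exact Or.inr (mul_assoc a b _ ▸ M.mul_mem ha hb)
        · right
          rw [show a * b * s⁻¹ = a * s⁻¹ * (s * b * s⁻¹) by group]
          exact M.mul_mem ha (h b hb)
        · left
          rw [show a * b = a * s⁻¹ * (s * (b * s⁻¹) * s⁻¹) * s ^ 2 by group]
          exact M.mul_mem (M.mul_mem ha (h _ hb)) h2
      inv_mem' := by
        rintro a (ha | ha)
        · exact Or.inl (M.inv_mem ha)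
        · right
          rw [show a⁻¹ * s⁻¹ = s⁻¹ * (a * s⁻¹)⁻¹ * s * (s ^ 2)⁻¹ by group]
          exact M.mul_mem (h' _ (M.inv_mem ha)) (M.inv_mem h2) }
  have key : ∀ g, g ∈ M ⊔ zpowers s ↔ g ∈ M ∨ g * s⁻¹ ∈ M := fun g => by
    constructor
    · exact fun hg => (sup_le (c := Q) (fun _ => Or.inl)
        (zpowers_le.2 (Or.inr (by simp)))) hg
    · rintro (hg | hg)
      · exact mem_sup_left hg
      · rw [← inv_mul_cancel_right g s]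
        exact mul_mem_sup hg (mem_zpowers s)
  refine ⟨key, fun hM => ?_⟩
  have hf : (M : Set G).Finite := hM
  refine ((hf.union (hf.image (· * s))).subset fun g hg => ?_).to_subtype
  rcases (key g).1 hg with hg | hg
  exacts [Or.inl hg, Or.inr ⟨_, hg, by simp⟩]

theorem mem_Ep {h g : G} : g ∈ Ep h ↔ ∃ m : ℤ, m ≠ 0 ∧ g * h ^ m * g⁻¹ = h ^ m := by
  refine ⟨fun ⟨m, hm, e⟩ => ⟨m, by omega, by simpa using e⟩, fun ⟨m, hm, e⟩ => ?_⟩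
  refine ⟨m.natAbs, by omega, ?_⟩
  have := conj_zpow_mul e m.sign
  rwa [← zpow_mul, Int.mul_sign_self, zpow_natCast] at this

theorem mem_E {h g : G} : g ∈ E h ↔
    ∃ m : ℤ, m ≠ 0 ∧ (g * h ^ m * g⁻¹ = h ^ m ∨ g * h ^ m * g⁻¹ = (h ^ m)⁻¹) := by
  refine ⟨fun ⟨m, hm, e⟩ => ⟨m, by omega, by simpa using e⟩, fun ⟨m, hm, e⟩ => ?_⟩
  refine ⟨m.natAbs, by omega, e.imp (fun e => ?_) fun e => ?_⟩
  · have := conj_zpow_mul e m.sign
    rwa [← zpow_mul, Int.mul_sign_self, zpow_natCast] at this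
  · have := conj_zpow_mul e m.sign
    rwa [inv_zpow, ← zpow_mul, Int.mul_sign_self, zpow_natCast] at this

theorem E_zpow (h : G) {i : ℤ} (hi : i ≠ 0) : E (h ^ i) = E h ∧ Ep (h ^ i) = Ep h := by
  constructor <;> ext g
  · rw [mem_E, mem_E]
    refine ⟨fun ⟨m, hm, e⟩ => ⟨i * m, mul_ne_zero hi hm, by rwa [zpow_mul]⟩,
      fun ⟨m, hm, e⟩ => ⟨m, hm, ?_⟩⟩
    rw [← zpow_mul, mul_comm i m, zpow_mul]
    exact e.imp (fun e => conj_zpow_mul e i) fun e => by rw [conj_zpow_mul e i, inv_zpow]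
  · rw [mem_Ep, mem_Ep]
    refine ⟨fun ⟨m, hm, e⟩ => ⟨i * m, mul_ne_zero hi hm, by rwa [zpow_mul]⟩,
      fun ⟨m, hm, e⟩ => ⟨m, hm, ?_⟩⟩
    rw [← zpow_mul, mul_comm i m, zpow_mul]
    exact conj_zpow_mul e i

/-- The powers of `a` have finite index in `P`. -/
def FI (P : Subgroup G) (a : G) : Prop :=
  ∃ T : Set G, T.Finite ∧ ∀ g ∈ P, ∃ τ ∈ T, ∃ k : ℤ, g = τ * a ^ k

theorem FI.pow {P : Subgroup G} {a : G} (h : FI P a) {m : ℕ} (hm : 0 < m) : FI P (a ^ m) := by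
  obtain ⟨T, hT, h⟩ := h
  refine ⟨_, hT.image2 (fun τ r => τ * a ^ r) (Set.finite_Ico (0 : ℤ) m), fun g hg => ?_⟩
  obtain ⟨τ, hτ, k, rfl⟩ := h g hg
  refine ⟨_, ⟨τ, hτ, k % m, ⟨Int.emod_nonneg _ (by omega), Int.emod_lt_of_pos _ (by omega)⟩, rfl⟩,
    k / m, ?_⟩
  rw [mul_assoc, ← zpow_natCast, ← zpow_mul, ← zpow_add, Int.emod_add_mul_ediv]

theorem FI.two {P Q : Subgroup G} {a : G} (h : FI Q a) (r : G)
    (hr : ∀ g ∈ P, g ∈ Q ∨ r⁻¹ * g ∈ Q) : FI P a := by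
  obtain ⟨T, hT, h⟩ := h
  refine ⟨_, hT.union (hT.image (r * ·)), fun g hg => ?_⟩
  rcases hr g hg with hg | hg
  · obtain ⟨τ, hτ, k, e⟩ := h _ hg
    exact ⟨τ, Or.inl hτ, k, e⟩
  · obtain ⟨τ, hτ, k, e⟩ := h _ hg
    exact ⟨_, Or.inr ⟨τ, hτ, rfl⟩, k, by rw [mul_assoc, ← e, mul_inv_cancel_left]⟩

/-- The transfer to a central cyclic subgroup of finite index. -/
theorem transfer {C : Subgroup G} {b : G} (hb : b ∈ C) (hc : ∀ g ∈ C, g * b * g⁻¹ = b)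
    (h : FI C b) : ∃ N : ℕ, 0 < N ∧ (∀ g ∈ C, ∀ g' ∈ C, (g * g') ^ N = g ^ N * g' ^ N) ∧
      ∀ g ∈ C, ∃ k : ℤ, b ^ k = g ^ N := by
  obtain ⟨T, hT, h⟩ := h
  have h1 : (zpowers b).subgroupOf C ≤ center C := by
    rintro x ⟨k, hk⟩
    refine mem_center_iff.2 fun g => Subtype.ext ?_
    have := conj_zpow_mul (hc g g.2) k
    change b ^ k = x at hk
    rw [mul_inv_eq_iff_eq_mul, hk] at this
    exact this
  have h2 : ((zpowers b).subgroupOf C).Normal := ⟨fun x hx g => by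
    rwa [mem_center_iff.1 (h1 hx) g, mul_inv_cancel_right]⟩
  have h3 : Finite (C ⧸ (zpowers b).subgroupOf C) := by
    refine Set.finite_univ_iff.1 (((hT.preimage (f := ((↑) : C → G))
      Subtype.val_injective.injOn).image QuotientGroup.mk).subset fun x _ => ?_)
    obtain ⟨g, rfl⟩ := QuotientGroup.mk_surjective x
    obtain ⟨τ, hτ, k, e⟩ := h g g.2
    have : τ ∈ C := by
      rw [← mul_inv_eq_iff_eq_mul.2 e]
      exact C.mul_mem g.2 (C.inv_mem (C.zpow_mem hb k))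
    refine ⟨⟨τ, this⟩, hτ, QuotientGroup.eq.2 ⟨k, ?_⟩⟩
    change b ^ k = τ⁻¹ * g
    rw [e, inv_mul_cancel_left]
  have h4 : ((zpowers b).subgroupOf C).FiniteIndex := finiteIndex_of_finite_quotient
  have h5 : (center C).FiniteIndex := finiteIndex_of_le h1
  refine ⟨(center C).index * ((zpowers b).subgroupOf C).index,
    Nat.mul_pos (Nat.pos_of_ne_zero h5.1) (Nat.pos_of_ne_zero h4.1), fun g hg g' hg' => ?_,
    fun g hg => ?_⟩
  · have e := congrArg (fun x : center C => ((x : C) : G))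
      (map_mul (MonoidHom.transferCenterPow C) ⟨g, hg⟩ ⟨g', hg'⟩)
    have c := congrArg Subtype.val
      (mem_center_iff.1 ((center C).pow_index_mem ⟨g', hg'⟩) (⟨g, hg⟩ ^ (center C).index))
    simp only [MonoidHom.transferCenterPow_apply, coe_mul, SubmonoidClass.coe_pow] at e c
    rw [pow_mul, pow_mul, pow_mul, e, Commute.mul_pow c]
  · obtain ⟨k, hk⟩ := ((zpowers b).subgroupOf C).pow_index_mem (⟨g, hg⟩ ^ (center C).index)
    exact ⟨k, by rw [pow_mul]; exact hk⟩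

theorem exists_refl (P : Subgroup G) (ε : G → ℤ) : ∃ r, ∀ g ∈ P, ε g = -1 → r ∈ P ∧ ε r = -1 := by
  by_cases c : ∃ r ∈ P, ε r = -1
  · obtain ⟨r, hr⟩ := c
    exact ⟨r, fun _ _ _ => hr⟩
  · exact ⟨1, fun g hg h => absurd ⟨g, hg, h⟩ c⟩

theorem vc0 {P : Subgroup G} {b : G} (hb : b ∈ P) (hi : ¬ IsOfFinOrder b)
    (hn : ∀ g ∈ P, g * b * g⁻¹ = b ∨ g * b * g⁻¹ = b⁻¹) (h : FI P b) : Elem P := by
  classical
  have inj := injective_zpow_iff_not_isOfFinOrder.2 hi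
  obtain ⟨e, he⟩ : ∃ e : G → ℤ, ∀ g ∈ P, (e g = 1 ∨ e g = -1) ∧ g * b * g⁻¹ = b ^ e g :=
    ⟨fun g => if g * b * g⁻¹ = b then 1 else -1, fun g hg => by
      by_cases c : g * b * g⁻¹ = b
      · simp [c]
      · simp only [if_neg c]
        exact ⟨Or.inr trivial, by rw [(hn g hg).resolve_left c, zpow_neg_one]⟩⟩
  have em : ∀ g ∈ P, ∀ k ∈ P, e (g * k) = e g * e k := fun g hg k hk => inj (by
    simp only
    rw [← (he _ (P.mul_mem hg hk)).2, zpow_mul, ← conj_zpow_mul (he g hg).2, ← (he k hk).2]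
    group)
  have ei : ∀ g ∈ P, e g⁻¹ = e g := fun g hg => by
    have h1 := em _ (P.mul_mem hg (P.inv_mem hg)) g hg
    rw [em g hg _ (P.inv_mem hg), mul_inv_cancel, one_mul] at h1
    rcases (he g hg).1 with c | c <;> rw [c] at h1 ⊢ <;> omega
  let C : Subgroup G :=
    { carrier := {g | g ∈ P ∧ e g = 1}
      one_mem' := ⟨P.one_mem, inj (by simp only; rw [← (he 1 P.one_mem).2]; simp)⟩
      mul_mem' := fun {x y} hx hy => ⟨P.mul_mem hx.1 hy.1, by rw [em x hx.1 y hy.1, hx.2, hy.2]; rfl⟩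
      inv_mem' := fun {x} hx => ⟨P.inv_mem hx.1, by rw [ei x hx.1, hx.2]⟩ }
  have hbC : b ∈ C := ⟨hb, inj (by simp only; rw [← (he b hb).2]; simp)⟩
  obtain ⟨T, hT, hT'⟩ := h
  obtain ⟨N, hN, n1, n2⟩ := transfer hbC (fun g hg => by rw [(he g hg.1).2, hg.2, zpow_one])
    ⟨T, hT, fun g hg => hT' g hg.1⟩
  choose! s hs using n2
  have s1 : ∀ g ∈ C, ∀ k ∈ C, s (g * k) = s g + s k := fun g hg k hk => inj (by
    simp only
    rw [zpow_add, hs g hg, hs k hk, hs _ (C.mul_mem hg hk), n1 g hg k hk])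
  have c1 : ∀ r ∈ P, ∀ g ∈ C, r * g * r⁻¹ ∈ C := fun r hr g hg =>
    ⟨P.mul_mem (P.mul_mem hr hg.1) (P.inv_mem hr), by
      rw [em _ (P.mul_mem hr hg.1) _ (P.inv_mem hr), em r hr g hg.1, ei r hr, hg.2]
      rcases (he r hr).1 with c | c <;> rw [c] <;> rfl⟩
  have s2 : ∀ r ∈ P, ∀ g ∈ C, s (r * g * r⁻¹) = e r * s g := fun r hr g hg => inj (by
    simp only
    rw [hs _ (c1 r hr g hg), conj_pow, ← hs g hg, conj_zpow_mul (he r hr).2, zpow_mul])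
  obtain ⟨r, hr⟩ := exists_refl P e
  have c2 : ∀ g ∈ P, e g = -1 → g * r⁻¹ ∈ C := fun g hg h =>
    ⟨P.mul_mem hg (P.inv_mem (hr g hg h).1), by
      rw [em g hg _ (P.inv_mem (hr g hg h).1), ei r (hr g hg h).1, h, (hr g hg h).2]; rfl⟩
  refine ⟨e, fun g => if e g = 1 then s g else s (g * r⁻¹), fun g hg => (he g hg).1, em,
    fun g hg k hk => ?_, (hT.image fun τ => τ * b ^ (-s τ / N)).subset ?_⟩
  · rw [em g hg k hk]
    rcases (he g hg).1 with a1 | a1 <;> rcases (he k hk).1 with a2 | a2 <;> rw [a1, a2] <;>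
      norm_num
    · exact s1 g ⟨hg, a1⟩ k ⟨hk, a2⟩
    · rw [mul_assoc, s1 g ⟨hg, a1⟩ _ (c2 k hk a2)]
    · rw [show g * k * r⁻¹ = g * k * g⁻¹ * (g * r⁻¹) by group,
        s1 _ (c1 g hg k ⟨hk, a2⟩) _ (c2 g hg a1), s2 g hg k ⟨hk, a2⟩, a1]
      ring
    · obtain ⟨r1, r2⟩ := hr g hg a1
      have r3 : r * r ∈ C := ⟨P.mul_mem r1 r1, by rw [em r r1 r r1, r2]; rfl⟩
      have r4 := s2 r r1 _ r3
      rw [show r * (r * r) * r⁻¹ = r * r by group, r2] at r4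
      rw [show g * k = g * r⁻¹ * (r * (k * r⁻¹) * r⁻¹ * (r * r)) by group,
        s1 _ (c2 g hg a1) _ (C.mul_mem (c1 r r1 _ (c2 k hk a2)) r3),
        s1 _ (c1 r r1 _ (c2 k hk a2)) _ r3, s2 r r1 _ (c2 k hk a2), r2]
      omega
  · rintro g ⟨hg, a1, a2⟩
    simp only [if_pos a1] at a2
    obtain ⟨τ, hτ, k, rfl⟩ := hT' g hg
    have a3 : τ ∈ C := by
      rw [← mul_inv_cancel_right τ (b ^ k)]
      exact C.mul_mem ⟨hg, a1⟩ (C.inv_mem (C.zpow_mem hbC k))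
    have a4 : s (b ^ k) = k * N := inj (by
      simp only
      rw [hs _ (C.zpow_mem hbC k), zpow_mul, zpow_natCast])
    rw [s1 τ a3 _ (C.zpow_mem hbC k), a4] at a2
    refine ⟨τ, hτ, ?_⟩
    simp only
    rw [show -s τ = k * N by omega, Int.mul_ediv_cancel _ (by omega)]

/-- Virtually cyclic groups are elementary. -/
theorem vc {P : Subgroup G} {a : G} (ha : a ∈ P) (hE : P ≤ E a) (h : FI P a) : Elem P := by
  by_cases hi : IsOfFinOrder a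
  · obtain ⟨T, hT, h⟩ := h
    refine Elem.of_fin ((hT.image2 (· * ·) (finite_zpowers.2 hi)).subset fun g hg => ?_).to_subtype
    obtain ⟨τ, hτ, k, e⟩ := h g hg
    exact ⟨τ, hτ, _, ⟨k, rfl⟩, e.symm⟩
  obtain ⟨T, hT, h'⟩ := id h
  have h1 : ∀ τ ∈ T ∩ P, ∀ᶠ n : ℕ in Filter.atTop, τ * a ^ n.factorial * τ⁻¹ = a ^ n.factorial ∨
      τ * a ^ n.factorial * τ⁻¹ = (a ^ n.factorial)⁻¹ := fun τ hτ => by
    obtain ⟨m, hm, e⟩ := hE hτ.2
    filter_upwards [Filter.eventually_ge_atTop m] with n hn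
    obtain ⟨c, hc⟩ := Nat.dvd_factorial hm hn
    rw [hc, pow_mul]
    exact e.imp (fun e => conj_pow_mul e c) fun e => by rw [conj_pow_mul e c, inv_pow]
  obtain ⟨n, hn⟩ := ((Filter.eventually_all_finite (hT.inter_of_left _)).2 h1).exists
  refine vc0 (P.pow_mem ha n.factorial) (fun c => hi (c.of_pow n.factorial_ne_zero))
    (fun g hg => ?_) (h.pow n.factorial_pos)
  obtain ⟨τ, hτ, k, rfl⟩ := h' g hg
  have : τ ∈ P := by
    rw [← mul_inv_cancel_right τ (a ^ k)]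
    exact P.mul_mem hg (P.inv_mem (P.zpow_mem ha k))
  rw [show τ * a ^ k * a ^ n.factorial * (τ * a ^ k)⁻¹ = τ * a ^ n.factorial * τ⁻¹ by group]
  exact hn τ ⟨hτ, this⟩

section Aff

variable {P : Subgroup G} {ε t : G → ℤ} (h : Aff P ε t)
include h

theorem fibre (e τ : ℤ) : {g | g ∈ P ∧ ε g = e ∧ t g = τ}.Finite := by
  rcases Set.eq_empty_or_nonempty {g | g ∈ P ∧ ε g = e ∧ t g = τ} with c | ⟨r, hr, r1, r2⟩
  · rw [c]
    exact Set.finite_empty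
  refine (h.fin.image (· * r)).subset fun g ⟨hg, g1, g2⟩ =>
    ⟨g * r⁻¹, ⟨P.mul_mem hg (P.inv_mem hr), ?_⟩, by simp⟩
  rw [h.em g hg _ (P.inv_mem hr), h.tm g hg _ (P.inv_mem hr), h.e_inv hr, h.t_inv hr, g1, g2, r1,
    r2]
  rcases h.sq g hg with c | c <;> rw [← g1, c] <;> simp

theorem bdd {S : Set ℤ} (hS : S.Finite) : {g | g ∈ P ∧ t g ∈ S}.Finite := by
  refine (hS.biUnion fun τ _ => (fibre h 1 τ).union (fibre h (-1) τ)).subset fun g ⟨hg, g1⟩ => ?_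
  refine Set.mem_biUnion g1 ?_
  rcases h.sq g hg with c | c
  exacts [Or.inl ⟨hg, c, rfl⟩, Or.inr ⟨hg, c, rfl⟩]

theorem inf_iff {v : G} (hv : v ∈ P) (hi : ¬ IsOfFinOrder v) : ε v = 1 ∧ t v ≠ 0 := by
  rw [h.fin_iff hv, not_or] at hi
  exact ⟨(h.sq v hv).resolve_right hi.1, hi.2⟩

theorem fi {v : G} (hv : v ∈ P) (hi : ¬ IsOfFinOrder v) : FI P v := by
  obtain ⟨v1, v2⟩ := inf_iff h hv hi
  refine ⟨_, bdd h (Set.finite_Ico 0 |t v|), fun g hg => ⟨g * v ^ (-(ε g * (t g / t v))),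
    ⟨P.mul_mem hg (P.zpow_mem hv _), ?_⟩, ε g * (t g / t v), by group⟩⟩
  rw [h.tm g hg _ (P.zpow_mem hv _), (h.zpow_of_e hv v1 _).2,
    show t g + ε g * (-(ε g * (t g / t v)) * t v) = t g % t v by
      rw [Int.emod_def]
      rcases h.sq g hg with c | c <;> rw [c] <;> ring]
  exact ⟨Int.emod_nonneg _ v2, Int.emod_lt_abs _ v2⟩

theorem gen : ∃ a ∈ P, ε a = 1 ∧ ∀ g ∈ P, ε g = 1 → ∃ n : ℤ, t g = n * t a := by
  let H : AddSubgroup ℤ :=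
    { carrier := {x | ∃ g ∈ P, ε g = 1 ∧ t g = x}
      zero_mem' := ⟨1, P.one_mem, h.e_one, h.t_one⟩
      add_mem' := by
        rintro _ _ ⟨g, hg, g1, rfl⟩ ⟨k, hk, k1, rfl⟩
        exact ⟨g * k, P.mul_mem hg hk, by rw [h.em g hg k hk, g1, k1]; rfl,
          by rw [h.tm g hg k hk, g1, one_mul]⟩
      neg_mem' := by
        rintro _ ⟨g, hg, g1, rfl⟩
        exact ⟨g⁻¹, P.inv_mem hg, by rw [h.e_inv hg, g1], by rw [h.t_inv hg, g1, one_mul]⟩ }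
  obtain ⟨x, hx⟩ := Int.subgroup_cyclic H
  obtain ⟨a, ha, a1, rfl⟩ : x ∈ H := hx ▸ AddSubgroup.mem_closure_singleton_self x
  refine ⟨a, ha, a1, fun g hg g1 => ?_⟩
  have : t g ∈ H := ⟨g, hg, g1, rfl⟩
  rw [hx] at this
  obtain ⟨n, hn⟩ := AddSubgroup.mem_closure_singleton.1 this
  exact ⟨n, hn.symm⟩

theorem refl_mul {g r : G} (hg : g ∈ P) (hr : r ∈ P) (g1 : ε g = -1) (r1 : ε r = -1) :
    ε (g * r⁻¹) = 1 ∧ t (g * r⁻¹) = t g - t r := by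
  rw [h.em g hg _ (P.inv_mem hr), h.tm g hg _ (P.inv_mem hr), h.e_inv hr, h.t_inv hr, g1, r1]
  constructor <;> ring

theorem dec : (∃ a ∈ P, P = h.ker ⊔ zpowers a) ∨
    ∃ s ∈ P, ∃ s' ∈ P, s ^ 2 ∈ h.ker ∧ s' ^ 2 ∈ h.ker ∧ P = h.ker ⊔ closure {s, s'} := by
  obtain ⟨a, ha, a1, a2⟩ := gen h
  have key : ∀ Q : Subgroup G, a ∈ Q → ∀ g ∈ P, ε g = 1 → g ∈ h.ker ⊔ Q := fun Q hQ g hg g1 => by
    obtain ⟨n, hn⟩ := a2 g hg g1
    have b1 := h.zpow_of_e ha a1 n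
    have b2 := P.zpow_mem ha n
    rw [← inv_mul_cancel_right g (a ^ n)]
    refine mul_mem_sup ⟨P.mul_mem hg (P.inv_mem b2), ?_, ?_⟩ (Q.zpow_mem hQ n)
    · rw [h.em _ hg _ (P.inv_mem b2), h.e_inv b2, g1, b1.1]; rfl
    · rw [h.tm _ hg _ (P.inv_mem b2), h.t_inv b2, g1, b1.1, b1.2, hn]; ring
  by_cases c : ∃ s ∈ P, ε s = -1
  · obtain ⟨s, hs, s1⟩ := c
    have hs' := P.mul_mem hs ha
    have s2 : ε (s * a) = -1 := by rw [h.em s hs a ha, s1, a1]; rfl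
    have m1 : s ∈ closure {s, s * a} := subset_closure (Or.inl rfl)
    have m2 : a ∈ closure {s, s * a} := (mul_mem_cancel_left m1).1 (subset_closure (Or.inr rfl))
    refine Or.inr ⟨s, hs, s * a, hs', ⟨P.pow_mem hs 2, h.sq_of_neg hs s1⟩,
      ⟨P.pow_mem hs' 2, h.sq_of_neg hs' s2⟩, le_antisymm (fun g hg => ?_)
        (sup_le (fun _ hg => hg.1) ((closure_le _).2 ?_))⟩
    · rcases h.sq g hg with g1 | g1
      · exact key _ m2 g hg g1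
      · rw [← inv_mul_cancel_right g s]
        exact mul_mem (key _ m2 _ (P.mul_mem hg (P.inv_mem hs)) (refl_mul h hg hs g1 s1).1)
          (mem_sup_right m1)
    · rintro _ (rfl | rfl) <;> assumption
  · exact Or.inl ⟨a, ha, le_antisymm (fun g hg => key _ (mem_zpowers a) g hg
      ((h.sq g hg).resolve_right fun g1 => c ⟨g, hg, g1⟩))
      (sup_le (fun _ hg => hg.1) (zpowers_le.2 ha))⟩

theorem tors (hf : ∀ g ∈ P, IsOfFinOrder g) : Finite P := by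
  obtain ⟨r, hr⟩ := exists_refl P ε
  refine ((bdd h (Set.toFinite {0, t r})).subset fun g hg => ⟨hg, ?_⟩).to_subtype
  rcases (h.fin_iff hg).1 (hf g hg) with g1 | g1
  · obtain ⟨r1, r2⟩ := hr g hg g1
    have h1 := P.mul_mem hg (P.inv_mem r1)
    have h2 := (h.fin_iff h1).1 (hf _ h1)
    have h3 := refl_mul h hg r1 g1 r2
    exact Or.inr (show t g = t r by omega)
  · exact Or.inl g1

theorem comm {u v : G} (hu : u ∈ P) (hv : v ∈ P) (hi : ¬ IsOfFinOrder u) (hj : ¬ IsOfFinOrder v) :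
    ∃ i j : ℤ, i ≠ 0 ∧ j ≠ 0 ∧ u ^ i = v ^ j := by
  obtain ⟨T, hT, h1⟩ := fi h hv hj
  choose f f1 k f2 using fun n : ℤ => h1 _ (P.zpow_mem hu n)
  obtain ⟨n, -, n', -, e1, e2⟩ := Set.infinite_univ.exists_ne_map_eq_of_mapsTo
    (fun n _ => f1 n) hT
  have e3 : u ^ (-n + n') = v ^ (-k n + k n') := by
    rw [zpow_add, zpow_neg, f2 n, f2 n', e2]
    group
  refine ⟨_, _, by omega, fun c => ?_, e3⟩
  rw [c, zpow_zero, ← zpow_zero u] at e3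
  have := injective_zpow_iff_not_isOfFinOrder.2 hi e3
  omega

theorem leE {v : G} (hv : v ∈ P) (hi : ¬ IsOfFinOrder v) : P ≤ E v := fun g hg => by
  obtain ⟨v1, v2⟩ := inf_iff h hv hi
  have hu := P.mul_mem (P.mul_mem hg hv) (P.inv_mem hg)
  obtain ⟨u1, u2⟩ := h.conj hg hv v1
  obtain ⟨i, j, i0, -, e⟩ := comm h hu hv (fun c => by
    rw [h.fin_iff hu, u1, u2] at c
    rcases h.sq g hg with g1 | g1 <;> rw [g1] at c <;> omega) hi
  have e1 := (h.zpow_of_e hu u1 i).2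
  rw [e, (h.zpow_of_e hv v1 j).2, u2, ← mul_assoc] at e1
  rw [conj_zpow, mul_right_cancel₀ v2 e1] at e
  refine mem_E.2 ⟨i, i0, (h.sq g hg).imp (fun g1 => ?_) fun g1 => ?_⟩ <;> simpa [g1] using e

theorem norm {v : G} (hv : v ∈ P) (hi : ¬ IsOfFinOrder v) :
    ∃ ε t a, Aff P ε t ∧ a ∈ P ∧ ε a = 1 ∧ t a = 1 := by
  obtain ⟨v1, v2⟩ := inf_iff h hv hi
  obtain ⟨a, ha, a1, a2⟩ := gen h
  obtain ⟨r, hr⟩ := exists_refl P ε
  have a0 : t a ≠ 0 := fun c => by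
    obtain ⟨n, hn⟩ := a2 v hv v1
    exact v2 (by rw [hn, c, mul_zero])
  have : ∀ g ∈ P, ∃ n : ℤ, 2 * t g - (1 - ε g) * t r = n * (2 * t a) := fun g hg => by
    rcases h.sq g hg with g1 | g1
    · obtain ⟨n, hn⟩ := a2 g hg g1
      exact ⟨n, by rw [g1, hn]; ring⟩
    · obtain ⟨r1, r2⟩ := hr g hg g1
      obtain ⟨b1, b2⟩ := refl_mul h hg r1 g1 r2
      obtain ⟨n, hn⟩ := a2 _ (P.mul_mem hg (P.inv_mem r1)) b1
      exact ⟨n, by rw [g1]; linear_combination 2 * hn - 2 * b2⟩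
  choose! s hs using this
  have a3 : 2 * t a ≠ 0 := by omega
  refine ⟨ε, s, a, ⟨h.sq, h.em, fun g hg k hk => mul_right_cancel₀ a3 ?_,
    h.fin.subset fun g ⟨hg, g1, g2⟩ => ⟨hg, g1, ?_⟩⟩, ha, a1, mul_right_cancel₀ a3 ?_⟩
  · rw [← hs _ (P.mul_mem hg hk), h.em g hg k hk, h.tm g hg k hk]
    linear_combination hs g hg + ε g * hs k hk
  · have := hs g hg
    rw [g1, g2] at this
    omega
  · rw [← hs a ha, a1]
    ring

end Aff

theorem map {G' : Type} [Group G'] (φ : G →* G') (P : Subgroup G) (h : Elem P) :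
    Elem (P.map φ) := by
  obtain ⟨ε, t, h⟩ := h
  by_cases c : ∃ v ∈ P, ¬ IsOfFinOrder v
  · obtain ⟨v, hv, hi⟩ := c
    obtain ⟨T, hT, h1⟩ := fi h hv hi
    refine vc (mem_map_of_mem φ hv) ?_ ⟨_, hT.image φ, ?_⟩
    · rintro _ ⟨g, hg, rfl⟩
      obtain ⟨m, hm, e⟩ := leE h hv hi hg
      exact ⟨m, hm, e.imp (fun e => by simpa using congrArg φ e) fun e => by
        simpa using congrArg φ e⟩
    · rintro _ ⟨g, hg, rfl⟩
      obtain ⟨τ, hτ, k, rfl⟩ := h1 g hg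
      exact ⟨_, ⟨τ, hτ, rfl⟩, k, by simp⟩
  · have : (P : Set G).Finite := tors h fun g hg => by_contra fun c' => c ⟨g, hg, c'⟩
    exact Elem.of_fin (this.image φ).to_subtype

theorem mem_cyc {M : Subgroup G} {a : G} (hM : Finite M) (h : ∀ μ ∈ M, a * μ * a⁻¹ ∈ M) :
    ∀ g ∈ M ⊔ zpowers a, ∃ μ ∈ M, ∃ k : ℤ, g = μ * a ^ k := fun g hg => by
  rw [← SetLike.mem_coe, coe_mul_of_right_le_normalizer_left _ _ (zpowers_le.2 (mem_norm hM h))]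
    at hg
  obtain ⟨μ, hμ, _, ⟨k, rfl⟩, rfl⟩ := hg
  exact ⟨μ, hμ, k, rfl⟩

theorem cyc_le {M : Subgroup G} {a : G} (hM : Finite M) (h : ∀ μ ∈ M, a * μ * a⁻¹ ∈ M) :
    M ⊔ zpowers a ≤ E a := by
  obtain ⟨m, hm, e⟩ := pw M a hM h
  exact sup_le (fun μ hμ => ⟨m, hm, Or.inl (by rw [← (e μ hμ).1.eq, mul_inv_cancel_right])⟩)
    (zpowers_le.2 (mem_E_self a))

theorem dih (M : Subgroup G) (s t : G) (hM : Finite M) (hs : ∀ μ ∈ M, s * μ * s⁻¹ ∈ M)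
    (ht : ∀ μ ∈ M, t * μ * t⁻¹ ∈ M) (s2 : s ^ 2 ∈ M) (t2 : t ^ 2 ∈ M) :
    Elem (M ⊔ closure {s, t}) := by
  have ha : ∀ μ ∈ M, s * t * μ * (s * t)⁻¹ ∈ M := fun μ hμ => by
    rw [show s * t * μ * (s * t)⁻¹ = s * (t * μ * t⁻¹) * s⁻¹ by group]
    exact hs _ (ht μ hμ)
  have e1 : s * (s * t) * s⁻¹ = s ^ 2 * t ^ 2 * (s * t)⁻¹ := by
    rw [pow_two, pow_two]
    group
  have h1 : ∀ g ∈ M ⊔ zpowers (s * t), s * g * s⁻¹ ∈ M ⊔ zpowers (s * t) := fun g hg => by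
    obtain ⟨μ, hμ, k, rfl⟩ := mem_cyc hM ha g hg
    rw [show s * (μ * (s * t) ^ k) * s⁻¹ = s * μ * s⁻¹ * (s * (s * t) ^ k * s⁻¹) by group,
      conj_zpow_mul e1]
    exact mul_mem (mem_sup_left (hs μ hμ))
      (zpow_mem (mul_mem_sup (M.mul_mem s2 t2) (inv_mem (mem_zpowers _))) k)
  have h2 := (two _ s h1 (mem_sup_left s2)).1
  have m1 : s ∈ M ⊔ zpowers (s * t) ⊔ zpowers s := mem_sup_right (mem_zpowers s)
  have m2 : s * t ∈ M ⊔ zpowers (s * t) ⊔ zpowers s := mem_sup_left (mem_sup_right (mem_zpowers _))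
  refine (vc m2 (sup_le (cyc_le hM ha) (zpowers_le.2 ?_))
    (FI.two ⟨M, hM, mem_cyc hM ha⟩ s⁻¹ fun g hg => ((h2 g).1 hg).imp_right fun hg => ?_)).mono
    (sup_le (le_sup_left.trans le_sup_left) ((closure_le _).2 ?_))
  · obtain ⟨m, hm, e⟩ := pw M (s * t)⁻¹ hM (by simpa only [inv_inv] using nrm M _ hM ha)
    exact ⟨m, hm, Or.inr (by rw [conj_pow_mul e1, (e _ (M.mul_mem s2 t2)).2, inv_pow])⟩
  · rw [show s⁻¹⁻¹ * g = s * (g * s⁻¹) * s⁻¹ * s ^ 2 by group]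
    exact mul_mem (h1 _ hg) (mem_sup_left s2)
  · rintro _ (rfl | rfl)
    exacts [m1, (mul_mem_cancel_left m1).1 m2]

theorem epE (h : G) (hi : ¬ IsOfFinOrder h) (hE : Elem (Ep h)) : Elem (E h) := by
  obtain ⟨ε, t, hA⟩ := hE
  obtain ⟨r, hr⟩ : ∃ r, ∀ g ∈ E h, g ∈ Ep h ∨ r⁻¹ * g ∈ Ep h := by
    by_cases c : ∃ r ∈ E h, r ∉ Ep h
    · obtain ⟨r, ⟨m, hm, e⟩, r2⟩ := c
      have e := e.resolve_left fun e => r2 ⟨m, hm, e⟩
      refine ⟨r, fun g ⟨n, hn, e'⟩ => e'.imp (fun e' => ⟨n, hn, e'⟩) fun e' =>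
        ⟨m * n, Nat.mul_pos hm hn, ?_⟩⟩
      have b1 := conj_pow_mul e n
      have b2 := conj_pow_mul e' m
      rw [inv_pow, ← pow_mul] at b1 b2
      rw [mul_comm n m, ← b1] at b2
      rw [show r⁻¹ * g * h ^ (m * n) * (r⁻¹ * g)⁻¹ = r⁻¹ * (g * h ^ (m * n) * g⁻¹) * r by group, b2]
      group
    · exact ⟨1, fun g hg => Or.inl (by_contra fun c' => c ⟨g, hg, c'⟩)⟩
  exact vc (mem_E_self h) le_rfl ((fi hA (mem_Ep_self h) hi).two r hr)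

end JA

theorem algA : AlgA where
  map := JA.map
  cyc M a hM h := JA.vc (mem_sup_right (mem_zpowers a)) (JA.cyc_le hM h)
    ⟨M, hM, JA.mem_cyc hM h⟩
  dih := JA.dih
  dec _ _ _ h := JA.dec h
  tors _ := fun ⟨_, _, h⟩ => JA.tors h
  comm _ := fun ⟨_, _, h⟩ _ hu _ hv => JA.comm h hu hv
  leE _ := fun ⟨_, _, h⟩ _ hv => JA.leE h hv
  eqE u v _ _ hi hj e := by
    rw [← (JA.E_zpow u hi).1, ← (JA.E_zpow u hi).2, e]
    exact JA.E_zpow v hj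
  norm _ := fun ⟨_, _, h⟩ ⟨_, hv, hi⟩ => JA.norm h hv hi
  epE := JA.epE
  nrm := JA.nrm
  pw := JA.pw
  two := JA.two

end Pool.Agent.Bu
end

-- part Pool.Agent.Lib.MP_5bec91_al.Bu.AlgB
section

/-!
Laws and cone data for elementary groups.
-/

set_option autoImplicit false

namespace Pool.Agent.Bu

namespace AlgBJ

section Laws
variable {G : Type} [Group G]

theorem mem_norm {M : Subgroup G} {a : G} (h1 : ∀ μ ∈ M, a * μ * a⁻¹ ∈ M)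
    (h2 : ∀ μ ∈ M, a⁻¹ * μ * a ∈ M) : a ∈ Subgroup.normalizer (M : Set G) := by
  rw [Subgroup.mem_normalizer_iff]
  intro μ
  refine ⟨h1 μ, fun h => ?_⟩
  have := h2 _ h
  rwa [show a⁻¹ * (a * μ * a⁻¹) * a = μ by group] at this

/-- The quotient of the normaliser. -/
abbrev qn (M : Subgroup G) :=
  QuotientGroup.mk' (M.subgroupOf (Subgroup.normalizer (M : Set G)))

theorem lift {M : Subgroup G} {S : Set G} (hS : ∀ s ∈ S, s ∈ Subgroup.normalizer (M : Set G))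
    (T : Subgroup _) (hT : ∀ s (hs : s ∈ S), qn M ⟨s, hS s hs⟩ ∈ T) :
    ∀ x ∈ M ⊔ Subgroup.closure S, ∃ hx, qn M ⟨x, hx⟩ ∈ T := by
  have h : M ⊔ Subgroup.closure S ≤ (T.comap (qn M)).map (Subgroup.subtype _) := by
    rw [sup_le_iff, Subgroup.closure_le]
    constructor
    · intro μ hμ
      refine ⟨⟨μ, Subgroup.le_normalizer hμ⟩, ?_, rfl⟩
      have : qn M ⟨μ, Subgroup.le_normalizer hμ⟩ = 1 := (QuotientGroup.eq_one_iff _).2 hμ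
      show qn M _ ∈ T
      rw [this]; exact one_mem _
    · exact fun s hs => ⟨⟨s, hS s hs⟩, hT s hs, rfl⟩
  intro x hx
  obtain ⟨⟨y, hy⟩, h1, rfl⟩ := h hx
  exact ⟨hy, h1⟩

theorem comm_mem {M : Subgroup G} {x y : Subgroup.normalizer (M : Set G)}
    (h : Commute (qn M x) (qn M y)) : x.1 * y.1 * x.1⁻¹ * y.1⁻¹ ∈ M := by
  have h1 : qn M (x * y * x⁻¹ * y⁻¹) = 1 := by
    rw [map_mul, map_mul, map_mul, map_inv, map_inv, h.eq]; group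
  exact (QuotientGroup.eq_one_iff (x * y * x⁻¹ * y⁻¹)).1 h1

theorem law1 (M : Subgroup G) (a : G) (h1 : ∀ μ ∈ M, a * μ * a⁻¹ ∈ M)
    (h2 : ∀ μ ∈ M, a⁻¹ * μ * a ∈ M) : ∀ x ∈ M ⊔ Subgroup.zpowers a, ∀ y ∈ M ⊔ Subgroup.zpowers a,
    x * y * x⁻¹ * y⁻¹ ∈ M := by
  have ha := mem_norm h1 h2
  have key := lift (M := M) (S := {a}) (fun s hs => hs ▸ ha) (Subgroup.zpowers (qn M ⟨a, ha⟩))
    (by rintro s rfl; exact Subgroup.mem_zpowers _)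
  rw [← Subgroup.zpowers_eq_closure] at key
  intro x hx y hy
  obtain ⟨hx', i, hi⟩ := key x hx
  obtain ⟨hy', j, hj⟩ := key y hy
  refine comm_mem (x := ⟨x, hx'⟩) (y := ⟨y, hy'⟩) ?_
  rw [← hi, ← hj]
  exact Commute.zpow_zpow_self _ _ _

/-- Normal forms in a group generated by two involutions. -/
def dihT {s c : G} (hs : s * s = 1) (hc : s * c * s⁻¹ = c⁻¹) : Subgroup G where
  carrier := {x | ∃ j : ℤ, x = c ^ j ∨ x = c ^ j * s}
  one_mem' := ⟨0, Or.inl (by simp)⟩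
  mul_mem' := by
    have h : ∀ j : ℤ, s * c ^ j = c ^ (-j) * s := fun j => by
      have := conj_zpow_mul hc j
      rw [inv_zpow', mul_inv_eq_iff_eq_mul] at this
      exact this
    rintro _ _ ⟨i, rfl | rfl⟩ ⟨j, rfl | rfl⟩
    · exact ⟨i + j, Or.inl (by rw [zpow_add])⟩
    · exact ⟨i + j, Or.inr (by rw [zpow_add, mul_assoc])⟩
    · exact ⟨i + -j, Or.inr (by rw [zpow_add, mul_assoc, h, mul_assoc])⟩
    · exact ⟨i + -j, Or.inl (by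
        rw [zpow_add, mul_assoc, ← mul_assoc s, h, mul_assoc, hs, mul_one])⟩
  inv_mem' := by
    have h : ∀ j : ℤ, s * c ^ j = c ^ (-j) * s := fun j => by
      have := conj_zpow_mul hc j
      rw [inv_zpow', mul_inv_eq_iff_eq_mul] at this
      exact this
    rintro _ ⟨i, rfl | rfl⟩
    · exact ⟨-i, Or.inl (by rw [zpow_neg])⟩
    · exact ⟨i, Or.inr (by
        rw [mul_inv_rev, inv_eq_of_mul_eq_one_right hs, ← zpow_neg, h, neg_neg])⟩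

theorem dihT_sq {s c : G} (hs : s * s = 1) (hc : s * c * s⁻¹ = c⁻¹) {x : G}
    (hx : x ∈ dihT hs hc) : ∃ j : ℤ, x ^ 2 = c ^ j := by
  obtain ⟨j, rfl | rfl⟩ := hx
  · exact ⟨j + j, by rw [zpow_add, pow_two]⟩
  · refine ⟨0, ?_⟩
    have := conj_zpow_mul hc j
    rw [inv_zpow', mul_inv_eq_iff_eq_mul] at this
    rw [pow_two, mul_assoc, ← mul_assoc s, this, mul_assoc, hs]
    simp

theorem inv_conj_of_sq {M : Subgroup G} {s : G} (h1 : ∀ μ ∈ M, s * μ * s⁻¹ ∈ M)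
    (h2 : s ^ 2 ∈ M) : ∀ μ ∈ M, s⁻¹ * μ * s ∈ M := fun μ hμ => by
  have := M.mul_mem (M.mul_mem (M.inv_mem h2) (h1 μ hμ)) h2
  rwa [show (s ^ 2)⁻¹ * (s * μ * s⁻¹) * s ^ 2 = s⁻¹ * μ * s by group] at this

theorem law2 (M : Subgroup G) (s t : G) (hs : ∀ μ ∈ M, s * μ * s⁻¹ ∈ M)
    (ht : ∀ μ ∈ M, t * μ * t⁻¹ ∈ M) (hs2 : s ^ 2 ∈ M) (ht2 : t ^ 2 ∈ M) :
    ∀ x ∈ M ⊔ Subgroup.closure {s, t}, ∀ y ∈ M ⊔ Subgroup.closure {s, t},
    x ^ 2 * y ^ 2 * (x ^ 2)⁻¹ * (y ^ 2)⁻¹ ∈ M := by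
  have hsn := mem_norm hs (inv_conj_of_sq hs hs2)
  have htn := mem_norm ht (inv_conj_of_sq ht ht2)
  have sq : ∀ (u : G) (hu : u ∈ Subgroup.normalizer (M : Set G)), u ^ 2 ∈ M →
      qn M ⟨u, hu⟩ * qn M ⟨u, hu⟩ = 1 := fun u hu h => by
    rw [← map_mul]
    refine (QuotientGroup.eq_one_iff _).2 ?_
    rw [pow_two] at h
    exact h
  have e1 := sq s hsn hs2
  have e2 := sq t htn ht2
  generalize hs' : qn M ⟨s, hsn⟩ = s' at e1
  generalize ht' : qn M ⟨t, htn⟩ = t' at e2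
  have i1 : s'⁻¹ = s' := inv_eq_of_mul_eq_one_right e1
  have i2 : t'⁻¹ = t' := inv_eq_of_mul_eq_one_right e2
  have hc : s' * (s' * t') * s'⁻¹ = (s' * t')⁻¹ := by
    rw [← mul_assoc, e1, one_mul, mul_inv_rev, i2]
  have key := lift (M := M) (S := {s, t}) (by rintro u (rfl | rfl); exacts [hsn, htn])
    (dihT e1 hc) (by
      rintro u (rfl | rfl)
      · exact ⟨0, Or.inr (by rw [hs']; simp)⟩
      · exact ⟨-1, Or.inr (by
          rw [ht', zpow_neg, zpow_one, mul_inv_rev, i2, mul_assoc, inv_mul_cancel, mul_one])⟩)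
  intro x hx y hy
  obtain ⟨hx', hx2⟩ := key x hx
  obtain ⟨hy', hy2⟩ := key y hy
  obtain ⟨i, hi⟩ := dihT_sq e1 hc hx2
  obtain ⟨j, hj⟩ := dihT_sq e1 hc hy2
  refine comm_mem (x := ⟨x, hx'⟩ ^ 2) (y := ⟨y, hy'⟩ ^ 2) ?_
  rw [map_pow, map_pow, hi, hj]
  exact Commute.zpow_zpow_self _ _ _

/-- The diagonal copy of a subgroup. -/
def dg (M : Subgroup G) : Subgroup (G × G) := M.map ((MonoidHom.id G).prod (MonoidHom.id G))

theorem mem_dg {M : Subgroup G} {x : G × G} : x ∈ dg M ↔ x.1 ∈ M ∧ x.2 = x.1 := by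
  constructor
  · rintro ⟨μ, hμ, rfl⟩
    exact ⟨hμ, rfl⟩
  · rintro ⟨h1, h2⟩
    exact ⟨x.1, h1, Prod.ext rfl h2.symm⟩

theorem dg_fst (M : Subgroup G) : (dg M).map (MonoidHom.fst G G) = M := by
  rw [dg, Subgroup.map_map]; exact Subgroup.map_id M

theorem dg_snd (M : Subgroup G) : (dg M).map (MonoidHom.snd G G) = M := by
  rw [dg, Subgroup.map_map]; exact Subgroup.map_id M

theorem dg_conj {M : Subgroup G} {a a' : G} (h1 : ∀ μ ∈ M, a * μ * a⁻¹ ∈ M)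
    (h2 : ∀ μ ∈ M, a' * μ * a'⁻¹ = a * μ * a⁻¹) :
    ∀ μ ∈ dg M, (a, a') * μ * (a, a')⁻¹ ∈ dg M := by
  rintro _ ⟨μ, hμ, rfl⟩
  exact mem_dg.2 ⟨h1 μ hμ, h2 μ hμ⟩

theorem transfer {M : Subgroup G} {R : Subgroup (G × G)}
    (h : ∀ x ∈ R, ∀ y ∈ R, x ^ 2 * y ^ 2 * (x ^ 2)⁻¹ * (y ^ 2)⁻¹ ∈ dg M)
    (h' : SqC (R.map (MonoidHom.snd G G))) : SqC (R.map (MonoidHom.fst G G)) := by
  rintro _ ⟨x, hx, rfl⟩ _ ⟨y, hy, rfl⟩
  have h1 : x.2 ^ 2 * y.2 ^ 2 * (x.2 ^ 2)⁻¹ * (y.2 ^ 2)⁻¹ =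
      x.1 ^ 2 * y.1 ^ 2 * (x.1 ^ 2)⁻¹ * (y.1 ^ 2)⁻¹ := (mem_dg.1 (h x hx y hy)).2
  have h2 : Commute (x.2 ^ 2) (y.2 ^ 2) := h' _ ⟨x, hx, rfl⟩ _ ⟨y, hy, rfl⟩
  rw [h2.eq, mul_inv_cancel_right, mul_inv_cancel, eq_comm, mul_inv_eq_one,
    mul_inv_eq_iff_eq_mul] at h1
  exact h1

theorem tr1 (hA : AlgA) (M : Subgroup G) (a a' : G) (hM : Finite M)
    (h1 : ∀ μ ∈ M, a * μ * a⁻¹ ∈ M) (h2 : ∀ μ ∈ M, a' * μ * a'⁻¹ = a * μ * a⁻¹)
    (h : SqC (M ⊔ Subgroup.zpowers a')) : SqC (M ⊔ Subgroup.zpowers a) := by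
  have h3 := hA.nrm M a hM h1
  have h4 : ∀ μ ∈ dg M, (a, a')⁻¹ * μ * (a, a') ∈ dg M := by
    rintro _ ⟨μ, hμ, rfl⟩
    refine mem_dg.2 ⟨h3 μ hμ, ?_⟩
    have h5 := h2 _ (h3 μ hμ)
    show a'⁻¹ * μ * a' = a⁻¹ * μ * a
    calc a'⁻¹ * μ * a' = a'⁻¹ * (a * (a⁻¹ * μ * a) * a⁻¹) * a' := by group
      _ = _ := by rw [← h5]; group
  have key := transfer (M := M) (R := dg M ⊔ Subgroup.zpowers (a, a')) fun x hx y hy =>
    law1 _ _ (dg_conj h1 h2) h4 _ (pow_mem hx 2) _ (pow_mem hy 2)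
  rw [Subgroup.map_sup, Subgroup.map_sup, dg_fst, dg_snd, MonoidHom.map_zpowers,
    MonoidHom.map_zpowers] at key
  exact key h

theorem tr2 (M : Subgroup G) (s t s' t' : G) (h1 : ∀ μ ∈ M, s * μ * s⁻¹ ∈ M)
    (h2 : ∀ μ ∈ M, t * μ * t⁻¹ ∈ M) (h3 : s ^ 2 ∈ M) (h4 : t ^ 2 ∈ M)
    (h5 : ∀ μ ∈ M, s' * μ * s'⁻¹ = s * μ * s⁻¹) (h6 : ∀ μ ∈ M, t' * μ * t'⁻¹ = t * μ * t⁻¹)
    (h7 : s' ^ 2 = s ^ 2) (h8 : t' ^ 2 = t ^ 2)
    (h : SqC (M ⊔ Subgroup.closure {s', t'})) : SqC (M ⊔ Subgroup.closure {s, t}) := by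
  have key := transfer (M := M) (R := dg M ⊔ Subgroup.closure {(s, s'), (t, t')})
    (law2 _ _ _ (dg_conj h1 h5) (dg_conj h2 h6) (mem_dg.2 ⟨h3, h7⟩) (mem_dg.2 ⟨h4, h8⟩))
  rw [Subgroup.map_sup, Subgroup.map_sup, dg_fst, dg_snd, MonoidHom.map_closure,
    MonoidHom.map_closure, Set.image_pair, Set.image_pair] at key
  exact key h

theorem chA (P : Subgroup G) (hP : SqC P) (g : G) (hg : g ∈ P) (h : G) (hh : h ∈ P) :
    g ∈ Subgroup.closure {cj h 1 g, cj h 2 g, cj h 3 g} := by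
  have h1 : Commute (h ^ 2) (h ^ 2 * (h⁻¹ * g) ^ 2 * g⁻¹ ^ 2) :=
    ((Commute.refl _).mul_right (hP _ hh _ (mul_mem (inv_mem hh) hg))).mul_right
      (hP _ hh _ (inv_mem hg))
  have h2 : h ^ 2 * (h⁻¹ * g) ^ 2 * g⁻¹ ^ 2 = h * g * h⁻¹ * g⁻¹ := by
    simp only [pow_two]; group
  rw [h2] at h1
  have h3 : g = cj h 2 g * (cj h 3 g)⁻¹ * cj h 1 g := by
    have h4 : cj h 2 g * (cj h 3 g)⁻¹ = (h ^ 2 * (h * g * h⁻¹ * g⁻¹) * (h ^ 2)⁻¹)⁻¹ := by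
      simp only [cj]; group
    rw [h4, h1.eq]
    simp only [cj]; group
  have h5 : cj h 2 g * (cj h 3 g)⁻¹ * cj h 1 g ∈
      Subgroup.closure {cj h 1 g, cj h 2 g, cj h 3 g} :=
    mul_mem (mul_mem (Subgroup.subset_closure (by simp))
      (inv_mem (Subgroup.subset_closure (by simp)))) (Subgroup.subset_closure (by simp))
  rwa [← h3] at h5

theorem chN (hA : AlgA) (g h : G) (hg : g ∈ Subgroup.closure {cj h 1 g, cj h 2 g, cj h 3 g}) :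
    (∀ μ ∈ Subgroup.closure {g, cj h 1 g, cj h 2 g},
      h⁻¹ * μ * h ∈ Subgroup.closure {g, cj h 1 g, cj h 2 g}) ∧
    (Finite (Subgroup.closure {g, cj h 1 g, cj h 2 g}) →
      ∃ m : ℕ, 0 < m ∧ Commute (h ^ m) g ∧ (g * h) ^ m = h ^ m) := by
  have e : ∀ x : G, (MulAut.conj h⁻¹).toMonoidHom x = h⁻¹ * x * h := fun x => by simp
  have e' : ∀ i, h⁻¹ * cj h (i + 1) g * h = cj h i g := fun i => by rw [cj_succ]; group
  have e0 : h⁻¹ * cj h 1 g * h = g := by rw [e' 0, cj_zero]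
  have h1 : Subgroup.closure {cj h 1 g, cj h 2 g, cj h 3 g} ≤
      (Subgroup.closure {g, cj h 1 g, cj h 2 g}).comap (MulAut.conj h⁻¹).toMonoidHom := by
    rw [Subgroup.closure_le]
    rintro _ (rfl | rfl | rfl) <;> refine Subgroup.mem_comap.2 (Subgroup.subset_closure ?_)
    · rw [e, e0]; simp
    · rw [e, e' 1]; simp
    · rw [e, e' 2]; simp
  have h2 : Subgroup.closure {g, cj h 1 g, cj h 2 g} ≤
      (Subgroup.closure {g, cj h 1 g, cj h 2 g}).comap (MulAut.conj h⁻¹).toMonoidHom := by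
    rw [Subgroup.closure_le]
    rintro x (hx | hx | hx)
    · rw [hx]; exact h1 hg
    · rw [hx]; exact h1 (Subgroup.subset_closure (by simp))
    · rw [hx]; exact h1 (Subgroup.subset_closure (by simp))
  have h3 : ∀ μ ∈ Subgroup.closure {g, cj h 1 g, cj h 2 g},
      h⁻¹ * μ * h ∈ Subgroup.closure {g, cj h 1 g, cj h 2 g} := fun μ hμ => e μ ▸ h2 hμ
  refine ⟨h3, fun hf => ?_⟩
  have h4 := hA.nrm _ h⁻¹ hf (by simpa only [inv_inv] using h3)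
  obtain ⟨m, hm, h5⟩ := hA.pw _ h hf (by simpa only [inv_inv] using h4)
  exact ⟨m, hm, h5 g (Subgroup.subset_closure (by simp))⟩

end Laws

section Cones
variable {A G : Type} [CommGroup A] [Group G]

theorem n0_two : 2 < n0 := by norm_num [n0]

theorem dich (hA : AlgA) (π : G →* A) (hok : AOK A) (hnk : NK π) (hmal : Mal π)
    (P : Subgroup G) (ε t : G → ℤ) (a : G) (h : Aff P ε t) (ha : a ∈ P) (ea : ε a = 1)
    (ta : t a = 1) : P ≤ π.ker ∨ (P = Subgroup.zpowers a ∧ π a ≠ 1) := by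
  by_cases hP : P ≤ π.ker
  · exact Or.inl hP
  right
  obtain ⟨g0, hg0, hπ⟩ := SetLike.not_le_iff_exists.1 hP
  have hfin := h.ker_fin
  have h1 : h.ker ⊓ π.ker = ⊥ := by
    by_contra hne
    refine hπ (hnk (h.ker ⊓ π.ker) (Finite.Set.subset (h.ker : Set G) fun _ hx => hx.1)
      inf_le_right hne g0 fun μ hμ => ⟨h.ker_conj hg0 hμ.1, ?_⟩)
    have : π μ = 1 := hμ.2
    show π (g0 * μ * g0⁻¹) = 1
    simp [this]
  have hj : 0 < orderOf (π a) := by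
    by_cases h2 : π a = 1
    · rw [h2, orderOf_one]; exact one_pos
    · have := (hok _ h2).1
      have := n0_two
      omega
  have h2 : ∀ μ ∈ h.ker, μ = 1 := by
    intro μ hμ
    by_contra hne
    have h3 : π μ ≠ 1 := fun e => hne (by
      have : μ ∈ h.ker ⊓ π.ker := ⟨hμ, e⟩
      rwa [h1] at this)
    obtain ⟨m, hm, h4⟩ := hA.pw h.ker (a ^ orderOf (π a)) hfin
      fun ν hν => h.ker_conj (pow_mem ha _) hν
    have h5 := hmal μ ((a ^ orderOf (π a)) ^ m) (h.fin_of_ker hμ) h3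
      (by rw [map_pow, map_pow, pow_orderOf_eq_one, one_pow]) (h4 μ hμ).1.symm
    have h6 := (h.pow_of_e ha ea (orderOf (π a) * m)).2
    rw [pow_mul, h5, h.t_one, ta, mul_one] at h6
    have h7 := Nat.mul_pos hj hm
    omega
  have h3 : ∀ g ∈ P, ε g = 1 → g ∈ Subgroup.zpowers a := fun g hg he =>
    ⟨t g, (mul_inv_eq_one.1 (h2 _ (h.dec ha ea ta hg he))).symm⟩
  have h4 : ∀ r ∈ P, ε r = -1 → π r = 1 := by
    intro r hr he
    by_contra hne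
    have h5 := h.sq_of_neg hr he
    have h6 : (π r) ^ 2 = 1 := by rw [← map_pow, h2 _ ⟨pow_mem hr 2, h5.1, h5.2⟩, map_one]
    have h7 := Nat.le_of_dvd two_pos (orderOf_dvd_of_pow_eq_one h6)
    have := (hok _ hne).1
    have := n0_two
    omega
  have h5 : π a ≠ 1 := by
    intro e
    rcases h.sq g0 hg0 with he | he
    · obtain ⟨k, rfl⟩ := h3 g0 hg0 he
      exact hπ (by simp [MonoidHom.mem_ker, e])
    · exact hπ (h4 g0 hg0 he)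
  refine ⟨le_antisymm (fun g hg => ?_) ((Subgroup.zpowers_le).2 ha), h5⟩
  rcases h.sq g hg with he | he
  · exact h3 g hg he
  · have h6 := h4 (g * a) (mul_mem hg ha) (by rw [h.em _ hg _ ha, he, ea]; rfl)
    rw [map_mul, h4 g hg he, one_mul] at h6
    exact absurd h6 h5

theorem elemLaw (hA : AlgA) (π : G →* A) (hok : AOK A) (hnk : NK π) (hmal : Mal π)
    (hl : Law π) (P : Subgroup G) (hP : Elem P) (hv : ∃ v ∈ P, ¬ IsOfFinOrder v) : SqC P := by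
  obtain ⟨ε, t, a, h, ha, ea, ta⟩ := hA.norm P hP hv
  rcases dich hA π hok hnk hmal P ε t a h ha ea ta with h1 | ⟨rfl, -⟩
  · exact hl P hP h1
  · rintro _ ⟨i, rfl⟩ _ ⟨j, rfl⟩
    exact (Commute.zpow_zpow_self a i j).pow_pow 2 2

theorem exists_exp {M : Subgroup G} (hM : Finite M) (h : ∀ μ ∈ M, ∃ k : ℕ, μ ^ (2 ^ k) = 1) :
    ∃ e : ℕ, ∀ μ ∈ M, μ ^ (2 ^ e) = 1 := by
  choose k hk using h
  obtain ⟨e, he⟩ := Finite.exists_le fun μ : M => k μ.1 μ.2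
  refine ⟨e, fun μ hμ => ?_⟩
  obtain ⟨d, hd⟩ := Nat.exists_eq_add_of_le (he ⟨μ, hμ⟩)
  rw [hd, pow_add, pow_mul, hk μ hμ, one_pow]

theorem coneEx (hA : AlgA) (π : G →* A) (hok : AOK A) (hI : AInv π) (P : Subgroup G)
    (hP : Elem P) (hv : ∃ v ∈ P, ¬ IsOfFinOrder v) :
    ∃ ε t a n, ConeData π P (Subgroup.zpowers (a ^ n)) ε t a n := by
  obtain ⟨ε, t, a, h, ha, ea, ta⟩ := hA.norm P hP hv
  rcases dich hA π hok hI.nk hI.mal P ε t a h ha ea ta with h1 | ⟨h1, h2⟩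
  swap
  · exact ⟨ε, t, a, orderOf (π a), h, ha, ea, ta, (hok _ h2).1, rfl, Or.inr ⟨h1, rfl⟩⟩
  have hl := hI.law P hP h1
  obtain ⟨e, he⟩ := exists_exp h.ker_fin fun μ hμ => hI.fin1 μ (h1 hμ.1) (h.fin_of_ker hμ)
  have h2 : ∀ μ ∈ h.ker, Commute μ (a ^ (4 * 2 ^ e)) := by
    intro μ hμ
    have ha2 := pow_mem ha 2
    have c1 : Commute ((μ * a ^ 2) ^ 2) (a ^ 2) := hl _ (mul_mem hμ.1 ha2) _ ha
    have c2 : Commute ((μ * a ^ 2) ^ 2) μ := by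
      have := ((Commute.refl (μ * a ^ 2)).pow_left 2).mul_right c1.inv_right
      rwa [mul_inv_cancel_right] at this
    have c3 : (μ * a ^ 2) ^ 2 = μ * (a ^ 2 * μ * (a ^ 2)⁻¹) * (a ^ 2) ^ 2 := by
      generalize a ^ 2 = b
      simp only [pow_two]; group
    have c4 : μ * (a ^ 2 * μ * (a ^ 2)⁻¹) ∈ h.ker := mul_mem hμ (h.ker_conj ha2 hμ)
    generalize μ * (a ^ 2 * μ * (a ^ 2)⁻¹) = ν at c3 c4
    have c5 : Commute ν ((a ^ 2) ^ 2) := by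
      have := (c1.pow_right 2).mul_left (Commute.refl ((a ^ 2) ^ 2)).inv_left
      rwa [c3, mul_inv_cancel_right] at this
    have c6 := c2.pow_left (2 ^ e)
    rw [c3, c5.mul_pow, he ν c4, one_mul, ← pow_mul, ← pow_mul, ← mul_assoc] at c6
    exact c6.symm
  have h3 : ∀ g ∈ P, g * a ^ (4 * 2 ^ e * 2 ^ e) * g⁻¹ = (a ^ (4 * 2 ^ e * 2 ^ e)) ^ (ε g) := by
    intro g hg
    have hc := pow_mem ha (4 * 2 ^ e)
    have c0 := h.pow_of_e ha ea (4 * 2 ^ e)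
    have c1 := h.conj hg hc c0.1
    have c2 := h.dec ha ea ta (mul_mem (mul_mem hg hc) (inv_mem hg)) c1.1
    rw [c1.2, c0.2, ta, mul_one, mul_comm (ε g), zpow_mul, zpow_natCast] at c2
    have c3 := ((h2 _ c2).zpow_right (ε g)).mul_pow (2 ^ e)
    rw [he _ c2, one_mul, inv_mul_cancel_right, conj_pow, ← pow_mul] at c3
    rw [c3, pow_mul a (4 * 2 ^ e), ← zpow_natCast, ← zpow_natCast _ (2 ^ e), ← zpow_mul,
      ← zpow_mul, mul_comm (ε g)]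
  refine ⟨ε, t, a, 4 * (4 * 2 ^ e * 2 ^ e * 2 ^ 123), h, ha, ea, ta, ?_, rfl,
    Or.inl ⟨h1, _, 2 + 2 + e + e + 123, rfl, by ring, fun g hg => ?_⟩⟩
  · have c1 : n0 ≤ 2 ^ 123 := by norm_num [n0]
    have c2 : 0 < 4 * (4 * 2 ^ e * 2 ^ e) := by positivity
    rw [← mul_assoc]
    exact c1.trans (Nat.le_mul_of_pos_left _ c2)
  · rw [pow_mul a _ (2 ^ 123), conj_pow_mul (h3 g hg), ← zpow_natCast, ← zpow_natCast _ (2 ^ 123),
      ← zpow_mul, ← zpow_mul, mul_comm (ε g)]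

theorem coneConj (π : G →* A) (P H P' H' : Subgroup G) (ε t : G → ℤ) (a : G) (n : ℕ) (g : G)
    (h : ConeData π P H ε t a n) (hP : ∀ x, x ∈ P' ↔ g⁻¹ * x * g ∈ P)
    (hH : ∀ x, x ∈ H' ↔ g⁻¹ * x * g ∈ H) :
    ConeData π P' H' (fun x => ε (g⁻¹ * x * g)) (fun x => t (g⁻¹ * x * g)) (g * a * g⁻¹) n := by
  have e1 : ∀ x y : G, g⁻¹ * (x * y) * g = (g⁻¹ * x * g) * (g⁻¹ * y * g) := fun x y => by group
  have e2 : g⁻¹ * (g * a * g⁻¹) * g = a := by group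
  have e3 : ∀ b x : G, g⁻¹ * x * g ∈ Subgroup.zpowers b ↔ x ∈ Subgroup.zpowers (g * b * g⁻¹) := by
    intro b x
    simp only [Subgroup.mem_zpowers_iff, conj_zpow]
    refine exists_congr fun k => ⟨fun e => by rw [e]; group, fun e => by rw [← e]; group⟩
  refine ⟨⟨fun x hx => h.aff.sq _ ((hP x).1 hx), fun x hx y hy => ?_, fun x hx y hy => ?_, ?_⟩,
    (hP _).2 (e2.symm ▸ h.mem), by simp only [e2, h.ea], by simp only [e2, h.ta], h.big, ?_, ?_⟩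
  · simp only [e1]; exact h.aff.em _ ((hP x).1 hx) _ ((hP y).1 hy)
  · simp only [e1]; exact h.aff.tm _ ((hP x).1 hx) _ ((hP y).1 hy)
  · refine (h.aff.fin.preimage (f := fun x => g⁻¹ * x * g) fun x _ y _ e => ?_).subset
      fun x hx => ⟨(hP x).1 hx.1, hx.2⟩
    simpa using e
  · ext x
    rw [hH, h.rot, e3, conj_pow]
  · rcases h.typ with ⟨h1, m, k, h2, h3, h4⟩ | ⟨h1, h2⟩
    · refine Or.inl ⟨fun x hx => ?_, m, k, h2, h3, fun x hx => ?_⟩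
      · have := h1 ((hP x).1 hx)
        simpa [MonoidHom.mem_ker] using this
      · rw [conj_pow, conj_zpow, ← h4 _ ((hP x).1 hx)]; group
    · refine Or.inr ⟨?_, by simpa using h2⟩
      ext x
      rw [hP, h1, e3]

theorem rot_pow {π : G →* A} {P H : Subgroup G} {ε t : G → ℤ} {a : G} {n : ℕ}
    (h : ConeData π P H ε t a n) (k : ℤ) :
    (a ^ n) ^ k ∈ H ∧ (a ^ n) ^ k ∈ P ∧ ε ((a ^ n) ^ k) = 1 ∧ t ((a ^ n) ^ k) = k * n := by
  have h1 := h.aff.pow_of_e h.mem h.ea n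
  have h2 := h.aff.zpow_of_e (pow_mem h.mem n) h1.1 k
  refine ⟨h.rot ▸ ⟨k, rfl⟩, zpow_mem (pow_mem h.mem n) k, h2.1, ?_⟩
  rw [h2.2, h1.2, h.ta, mul_one]

theorem coneWild (π : G →* A) (P H : Subgroup G) (ε t : G → ℤ) (a : G) (n : ℕ)
    (h : ConeData π P H ε t a n) (g : G) (hg : g ∈ P) :
    (Wild H g ↔ ε g = 1 ∧ ¬ (n : ℤ) ∣ t g) ∧ (Wild H g → π g = 1 → P ≤ π.ker) := by
  have e : ∀ k : ℤ, IsOfFinOrder (g * (a ^ n) ^ k) ↔ ε g = -1 ∨ t g + ε g * (k * n) = 0 := by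
    intro k
    obtain ⟨-, h1, h2, h3⟩ := rot_pow h k
    rw [h.aff.fin_iff (mul_mem hg h1), h.aff.em _ hg _ h1, h.aff.tm _ hg _ h1, h2, h3, mul_one]
  have h1 : Wild H g ↔ ε g = 1 ∧ ¬ (n : ℤ) ∣ t g := by
    constructor
    · intro hw
      have h2 : ε g = 1 := (h.aff.sq g hg).resolve_right fun h2 =>
        hw _ (rot_pow h 0).1 ((e 0).2 (Or.inl h2))
      refine ⟨h2, fun ⟨c, hc⟩ => hw _ (rot_pow h (-c)).1 ((e _).2 (Or.inr ?_))⟩
      rw [h2, hc]; ring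
    · rintro ⟨h2, h3⟩ x hx hf
      rw [h.rot] at hx
      obtain ⟨k, rfl⟩ := hx
      rcases (e k).1 hf with h4 | h4
      · omega
      · exact h3 ⟨-k, by rw [h2] at h4; linarith⟩
  refine ⟨h1, fun hw hπ => ?_⟩
  rcases h.typ with ⟨h2, -⟩ | ⟨h2, h3⟩
  · exact h2
  · exfalso
    have h4 := hg
    rw [h2] at h4
    obtain ⟨j, rfl⟩ := h4
    refine (h1.1 hw).2 ?_
    rw [(h.aff.zpow_of_e h.mem h.ea j).2, h.ta, mul_one, ← h3, orderOf_dvd_iff_zpow_eq_one,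
      ← map_zpow]
    exact hπ

theorem fibre {P : Subgroup G} {ε t : G → ℤ} (h : Aff P ε t) (e τ : ℤ) :
    {g | g ∈ P ∧ ε g = e ∧ t g = τ}.Finite := by
  rcases Set.eq_empty_or_nonempty {g | g ∈ P ∧ ε g = e ∧ t g = τ} with h0 | ⟨g0, h1, h2, h3⟩
  · rw [h0]; exact Set.finite_empty
  refine (h.fin.preimage (f := fun x => g0⁻¹ * x) fun x _ y _ e => by simpa using e).subset ?_
  rintro g ⟨h4, h5, h6⟩
  refine ⟨mul_mem (inv_mem h1) h4, ?_, ?_⟩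
  · rw [h.em _ (inv_mem h1) _ h4, h.e_inv h1, h5, ← h2]
    rcases h.sq g0 h1 with e | e <;> rw [e] <;> rfl
  · rw [h.tm _ (inv_mem h1) _ h4, h.e_inv h1, h.t_inv h1, h6, h3]; ring

theorem coneFin {G' : Type} [Group G'] (π : G →* A) (φ : G →* G') (P H : Subgroup G)
    (ε t : G → ℤ) (a : G) (n : ℕ) (h : ConeData π P H ε t a n) (hφ : ∀ x ∈ H, φ x = 1) :
    Finite (P.map φ) := by
  have hn : (0 : ℤ) < n := by have := h.big; have := n0_two; omega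
  have h1 : (⋃ e ∈ ({1, -1} : Set ℤ), ⋃ τ ∈ Set.Ico (0 : ℤ) n,
      {g | g ∈ P ∧ ε g = e ∧ t g = τ}).Finite :=
    (Set.toFinite _).biUnion fun e _ => (Set.finite_Ico _ _).biUnion fun τ _ => fibre h.aff e τ
  refine ((h1.image φ).subset ?_).to_subtype
  rintro _ ⟨g, hg, rfl⟩
  obtain ⟨h2, h3, h4, h5⟩ := rot_pow h (-(t g / n))
  refine ⟨(a ^ n) ^ (-(t g / n)) * g, ?_, by rw [map_mul, hφ _ h2, one_mul]⟩
  simp only [Set.mem_iUnion]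
  refine ⟨_, h.aff.sq _ (mul_mem h3 hg), t g % n, ⟨Int.emod_nonneg _ hn.ne',
    Int.emod_lt_of_pos _ hn⟩, mul_mem h3 hg, rfl, ?_⟩
  rw [h.aff.tm _ h3 _ hg, h4, h5, Int.emod_def]; ring

theorem tame {G' : Type} [Group G'] (π : G →* A) (φ : G →* G') (P H : Subgroup G)
    (ε t : G → ℤ) (a : G) (n : ℕ) (h : ConeData π P H ε t a n)
    (hφ : ∀ g ∈ P, φ g = 1 ↔ g ∈ H) (Q : Subgroup G') (hQ : Q ≤ P.map φ)
    (hw : ∀ g ∈ P, φ g ∈ Q → ¬ Wild H g) :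
    ∃ Q' : Subgroup G, Finite Q' ∧ Q' ≤ P ∧ Q'.map φ = Q := by
  have h1 : ∀ g ∈ P, φ g ∈ Q → ε g = 1 → (n : ℤ) ∣ t g := fun g hg hq he =>
    by_contra fun e => hw g hg hq ((coneWild π P H ε t a n h g hg).1.2 ⟨he, e⟩)
  obtain ⟨t0, ht0⟩ : ∃ t0 : ℤ, ∀ g ∈ P, φ g ∈ Q → ε g = -1 → (n : ℤ) ∣ t g - t0 := by
    by_cases h2 : ∃ r ∈ P, φ r ∈ Q ∧ ε r = -1
    · obtain ⟨r, hr, hq, he⟩ := h2
      refine ⟨t r, fun g hg hq' he' => ?_⟩
      have h3 := h1 (g * r⁻¹) (mul_mem hg (inv_mem hr))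
        (by rw [map_mul, map_inv]; exact mul_mem hq' (inv_mem hq))
        (by rw [h.aff.em _ hg _ (inv_mem hr), h.aff.e_inv hr, he, he']; rfl)
      rw [h.aff.tm _ hg _ (inv_mem hr), h.aff.t_inv hr, he, he'] at h3
      convert h3 using 1
      ring
    · exact ⟨0, fun g hg hq he => absurd ⟨g, hg, hq, he⟩ h2⟩
  let Q' : Subgroup G :=
    { carrier := {g | g ∈ P ∧ φ g ∈ Q ∧ ((ε g = 1 ∧ t g = 0) ∨ (ε g = -1 ∧ t g = t0))}
      one_mem' := ⟨one_mem _, by rw [map_one]; exact one_mem _, Or.inl ⟨h.aff.e_one, h.aff.t_one⟩⟩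
      mul_mem' := by
        rintro x y ⟨hx, qx, ex⟩ ⟨hy, qy, ey⟩
        refine ⟨mul_mem hx hy, by rw [map_mul]; exact mul_mem qx qy, ?_⟩
        rw [h.aff.em _ hx _ hy, h.aff.tm _ hx _ hy]
        rcases ex with ⟨e1, e2⟩ | ⟨e1, e2⟩ <;> rcases ey with ⟨e3, e4⟩ | ⟨e3, e4⟩ <;>
          rw [e1, e2, e3, e4] <;> simp
      inv_mem' := by
        rintro x ⟨hx, qx, ex⟩
        refine ⟨inv_mem hx, by rw [map_inv]; exact inv_mem qx, ?_⟩
        rw [h.aff.e_inv hx, h.aff.t_inv hx]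
        rcases ex with ⟨e1, e2⟩ | ⟨e1, e2⟩ <;> rw [e1, e2] <;> simp }
  refine ⟨Q', (((fibre h.aff 1 0).union (fibre h.aff (-1) t0)).subset ?_).to_subtype,
    fun g hg => hg.1, le_antisymm ?_ fun q hq => ?_⟩
  · rintro g ⟨h2, -, h3 | h3⟩
    · exact Or.inl ⟨h2, h3⟩
    · exact Or.inr ⟨h2, h3⟩
  · rintro _ ⟨g, hg, rfl⟩
    exact hg.2.1
  · obtain ⟨g, hg, rfl⟩ := hQ hq
    have key : ∀ c : ℤ, (ε g = 1 ∧ t g = n * c) ∨ (ε g = -1 ∧ t g - t0 = n * c) →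
        φ g ∈ Q'.map φ := by
      intro c hc
      obtain ⟨h2, h3, h4, h5⟩ := rot_pow h (-c)
      have h6 : φ ((a ^ n) ^ (-c) * g) = φ g := by rw [map_mul, (hφ _ h3).2 h2, one_mul]
      refine ⟨(a ^ n) ^ (-c) * g, ⟨mul_mem h3 hg, h6 ▸ hq, ?_⟩, h6⟩
      rw [h.aff.em _ h3 _ hg, h.aff.tm _ h3 _ hg, h4, h5, one_mul, one_mul]
      rcases hc with ⟨e1, e2⟩ | ⟨e1, e2⟩
      · exact Or.inl ⟨e1, by linarith⟩
      · exact Or.inr ⟨e1, by linarith⟩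
    rcases h.aff.sq g hg with he | he
    · obtain ⟨c, hc⟩ := h1 g hg hq he
      exact key c (Or.inl ⟨he, hc⟩)
    · obtain ⟨c, hc⟩ := ht0 g hg hq he
      exact key c (Or.inr ⟨he, hc⟩)

end Cones

end AlgBJ

theorem algB : AlgA → AlgB := fun hA =>
  { law1 := AlgBJ.law1
    law2 := AlgBJ.law2
    tr1 := AlgBJ.tr1 hA
    tr2 := AlgBJ.tr2
    chA := AlgBJ.chA
    chN := AlgBJ.chN hA
    dich := AlgBJ.dich hA
    elemLaw := AlgBJ.elemLaw hA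
    coneEx := AlgBJ.coneEx hA
    coneConj := AlgBJ.coneConj
    coneWild := AlgBJ.coneWild
    coneFin := AlgBJ.coneFin
    tame := AlgBJ.tame }

end Pool.Agent.Bu
end
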