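import Pool.Agent.Lib.MP_5bec91_al.Bu.NewOne

-- part Pool.Agent.Lib.MP_5bec91_al.Bu.NewLaw
section

/-!
The law for elementary subgroups of the kernel at the new level.
-/

set_option autoImplicit false

namespace Pool.Agent.Bu

open MulAction

namespace NewLaw

theorem sqc_mono {G : Type} [Group G] {P Q : Subgroup G} (h : Q ≤ P) (hP : SqC P) : SqC Q :=
  fun x hx y hy => hP x (h hx) y (h hy)

theorem sqc_map {G G' : Type} [Group G] [Group G'] (φ : G →* G') {Q : Subgroup G}
    (h : SqC Q) : SqC (Q.map φ) := by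
  rintro _ ⟨x, hx, rfl⟩ _ ⟨y, hy, rfl⟩
  have h1 := (h x hx y hy).map φ
  rwa [map_pow, map_pow] at h1

variable {A G C Gb : Type} [CommGroup A] [Group G] [MulAction G C] [Group Gb]
  {π : G →* A} {φ : G →* Gb} {πb : Gb →* A} {H : C → Subgroup G}

theorem lift_law (S : AlgS π φ πb H) {Q : Subgroup G} (hQ : Elem Q)
    (hk : Q.map φ ≤ πb.ker) : SqC (Q.map φ) := by
  refine sqc_map φ (S.old.law Q hQ ?_)
  intro g hg
  have h1 : πb (φ g) = 1 := hk ⟨g, hg, rfl⟩
  rw [S.comp] at h1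
  exact h1

/-- The cyclic case. -/
theorem cyc_case (hA : AlgA) (hB : AlgB) (S : AlgS π φ πb H) (M' : Subgroup G)
    (hM' : Finite M') (a : Gb) (hn : ∀ μ ∈ M'.map φ, a * μ * a⁻¹ ∈ M'.map φ)
    (hk : M'.map φ ≤ πb.ker) (ha : πb a = 1) : SqC (M'.map φ ⊔ Subgroup.zpowers a) := by
  obtain ⟨a0, rfl⟩ := S.surj a
  obtain ⟨Q, hQ⟩ : ∃ Q : Subgroup G, Q = M'.map (MulAut.conj a0).toMonoidHom := ⟨_, rfl⟩
  have hQm : ∀ μ ∈ M', a0 * μ * a0⁻¹ ∈ Q := by
    intro μ hμ
    rw [hQ]
    exact ⟨μ, hμ, rfl⟩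
  have hQf : Finite Q := by
    rw [hQ]
    exact Finite.of_surjective _ (MonoidHom.subgroupMap_surjective _ M')
  have hQle : Q.map φ ≤ M'.map φ := by
    rintro _ ⟨g, hg, rfl⟩
    rw [hQ] at hg
    obtain ⟨μ, hμ, rfl⟩ := hg
    have h1 := hn (φ μ) ⟨μ, hμ, rfl⟩
    have h2 : φ ((MulAut.conj a0).toMonoidHom μ) = φ a0 * φ μ * (φ a0)⁻¹ := by
      simp [MulAut.conj_apply]
    rw [h2]
    exact h1
  obtain ⟨y, hy, hy2, -⟩ := S.l2 Q M' hQf hM' hQle
  have e : ∀ μ : G, y * a0 * μ * (y * a0)⁻¹ = y * (a0 * μ * a0⁻¹) * y⁻¹ := by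
    intro μ; group
  have hE : Elem (M' ⊔ Subgroup.zpowers (y * a0)) := by
    refine hA.cyc M' (y * a0) hM' ?_
    intro μ hμ
    rw [e]
    exact (hy2 _ (hQm μ hμ)).1
  have hmap : (M' ⊔ Subgroup.zpowers (y * a0)).map φ =
      M'.map φ ⊔ Subgroup.zpowers (φ (y * a0)) := by
    rw [Subgroup.map_sup, MonoidHom.map_zpowers]
  have hS : SqC (M'.map φ ⊔ Subgroup.zpowers (φ (y * a0))) := by
    rw [← hmap]
    refine lift_law S hE ?_
    rw [hmap]
    refine sup_le hk ?_
    rw [Subgroup.zpowers_le, MonoidHom.mem_ker, S.comp, map_mul, hy, one_mul, ← S.comp, ha]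
  have hMf : Finite (M'.map φ) := Finite.of_surjective _ (MonoidHom.subgroupMap_surjective _ M')
  refine hB.tr1 (M'.map φ) (φ a0) (φ (y * a0)) hMf hn ?_ hS
  rintro _ ⟨μ, hμ, rfl⟩
  have h1 := (hy2 _ (hQm μ hμ)).2
  rw [← e] at h1
  simpa only [map_mul, map_inv] using h1

/-- Replacing a reflection by one generating a liftable extension. -/
theorem fix_refl (hA : AlgA) (hB : AlgB) (S : AlgS π φ πb H) (L : NewLib π φ πb H)
    (M : Subgroup Gb) (hM : Finite M) (hl : ∃ Q : Subgroup G, Finite Q ∧ Q.map φ = M)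
    (hk : M ≤ πb.ker) (s : Gb) (hs : πb s = 1) (hn : ∀ μ ∈ M, s * μ * s⁻¹ ∈ M)
    (h2 : s ^ 2 ∈ M) :
    ∃ s1 : Gb, (∀ μ ∈ M, s1 * μ * s1⁻¹ = s * μ * s⁻¹) ∧ s1 ^ 2 = s ^ 2 ∧ πb s1 = 1 ∧
      ∃ Q : Subgroup G, Finite Q ∧ Q.map φ = M ⊔ Subgroup.zpowers s1 := by
  have hR : Finite (M ⊔ Subgroup.zpowers s : Subgroup Gb) := (hA.two M s hn h2).2 hM
  rcases L.alt _ hR with hq | ⟨c, hc, g, hg, hw, hgm⟩
  · exact ⟨s, fun _ _ => rfl, rfl, hs, hq⟩
  · obtain ⟨ε, t, a, n, hd⟩ := S.cone c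
    have hRk : M ⊔ Subgroup.zpowers s ≤ πb.ker := by
      refine sup_le hk ?_
      rw [Subgroup.zpowers_le, MonoidHom.mem_ker, hs]
    have hπg : π g = 1 := by
      have h1 : πb (φ g) = 1 := hRk hgm
      rwa [S.comp] at h1
    have hst : stabilizer G c ≤ π.ker :=
      (hB.coneWild π _ _ ε t a n hd g (mem_stabilizer_iff.2 hg)).2 hw hπg
    rcases hd.typ with ⟨-, m, k, hm, -, hcj⟩ | ⟨-, ho⟩
    · subst hm
      obtain ⟨hq, hz, hz2, -⟩ := L.repair M s c ε t a m hd hcj hl hn h2 hc ⟨g, hg, hw, hgm⟩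
      obtain ⟨z, hzd⟩ : ∃ z, z = φ (a ^ (2 * m)) := ⟨_, rfl⟩
      rw [← hzd] at hq hz hz2
      have hzs : Commute z s := hz s (hc (Subgroup.mem_sup_right (Subgroup.mem_zpowers s)))
      refine ⟨z * s, ?_, ?_, ?_, hq⟩
      · intro μ hμ
        have h1 : Commute z (s * μ * s⁻¹) := hz _ (hc (Subgroup.mem_sup_left (hn μ hμ)))
        calc z * s * μ * (z * s)⁻¹ = z * (s * μ * s⁻¹) * z⁻¹ := by group
          _ = s * μ * s⁻¹ := by rw [h1.eq]; group
      · rw [hzs.mul_pow, hz2, one_mul]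
      · have h1 : π (a ^ (2 * m)) = 1 := hst (Subgroup.pow_mem _ hd.mem _)
        rw [map_mul, hs, mul_one, hzd, S.comp, h1]
    · exfalso
      have h1 : π a = 1 := hst hd.mem
      rw [h1, orderOf_one] at ho
      have h3 := hd.big
      rw [← ho] at h3
      unfold n0 at h3
      omega

/-- The dihedral case. -/
theorem dih_case (hA : AlgA) (hB : AlgB) (S : AlgS π φ πb H) (L : NewLib π φ πb H)
    (M : Subgroup Gb) (hM : Finite M) (hl : ∃ Q : Subgroup G, Finite Q ∧ Q.map φ = M)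
    (hk : M ≤ πb.ker) (s t : Gb) (hs : πb s = 1) (ht : πb t = 1)
    (hns : ∀ μ ∈ M, s * μ * s⁻¹ ∈ M) (hnt : ∀ μ ∈ M, t * μ * t⁻¹ ∈ M)
    (h2s : s ^ 2 ∈ M) (h2t : t ^ 2 ∈ M) : SqC (M ⊔ Subgroup.closure {s, t}) := by
  obtain ⟨s1, hs1, hs2, hs3, hs4⟩ := fix_refl hA hB S L M hM hl hk s hs hns h2s
  obtain ⟨t1, ht1, ht2, ht3, ht4⟩ := fix_refl hA hB S L M hM hl hk t ht hnt h2t
  obtain ⟨M', s', t', y, hM', hmap, es, et, hy, hc, n1, n2, q1, q2⟩ :=
    L.pair M s1 t1 hM (fun μ hμ => by rw [hs1 μ hμ]; exact hns μ hμ)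
      (fun μ hμ => by rw [ht1 μ hμ]; exact hnt μ hμ) (by rw [hs2]; exact h2s)
      (by rw [ht2]; exact h2t) hs4 ht4
  have hE : Elem (M' ⊔ Subgroup.closure {s', t'}) := hA.dih M' s' t' hM' n1 n2 q1 q2
  have hm : (M' ⊔ Subgroup.closure {s', t'}).map φ =
      M ⊔ Subgroup.closure {s1, y * t1 * y⁻¹} := by
    rw [Subgroup.map_sup, hmap, MonoidHom.map_closure, Set.image_pair, es, et]
  have hS : SqC (M ⊔ Subgroup.closure {s1, y * t1 * y⁻¹}) := by
    rw [← hm]
    refine lift_law S hE ?_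
    rw [hm]
    refine sup_le hk ?_
    rw [Subgroup.closure_le]
    intro x hx
    rcases hx with rfl | hx
    · exact hs3
    · rw [Set.mem_singleton_iff] at hx
      rw [hx]
      show πb (y * t1 * y⁻¹) = 1
      rw [map_mul, map_mul, map_inv, hy, ht3]
      simp
  refine hB.tr2 M s t s1 (y * t1 * y⁻¹) hns hnt h2s h2t hs1 ?_ hs2 ?_ hS
  · intro μ hμ
    have h1 : y⁻¹ * μ * y = μ := by
      rw [mul_assoc, ← (hc μ hμ).eq]; group
    have h3 : y * (t * μ * t⁻¹) * y⁻¹ = t * μ * t⁻¹ := by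
      rw [(hc _ (hnt μ hμ)).eq]; group
    calc y * t1 * y⁻¹ * μ * (y * t1 * y⁻¹)⁻¹ = y * (t1 * (y⁻¹ * μ * y) * t1⁻¹) * y⁻¹ := by group
      _ = t * μ * t⁻¹ := by rw [h1, ht1 μ hμ, h3]
  · rw [conj_pow, ht2, (hc _ h2t).eq]
    group

end NewLaw

open NewLaw in
theorem newLawStmt : AlgA → AlgB → NewLawStmt := by
  intro hA hB A G C Gb _ _ _ _ π φ πb H S L P hP hk
  by_cases hc : ∃ c : C, P ≤ (stabilizer G c).map φ
  · obtain ⟨c, hc⟩ := hc
    exact sqc_mono hc (L.claw c)
  obtain ⟨ε, t, h⟩ := hP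
  have hle : h.ker ≤ P := fun g hg => hg.1
  have hkk : h.ker ≤ πb.ker := hle.trans hk
  have hl : ∃ Q : Subgroup G, Finite Q ∧ Q.map φ = h.ker := by
    rcases L.alt _ h.ker_fin with hq | ⟨c, hc', g, hg, hw, hgm⟩
    · exact hq
    · exact absurd ⟨c, fun k hk' => L.fix c g hg hw k (hc' (h.ker_conj hk' hgm))⟩ hc
  rcases hA.dec P ε t h with ⟨a, ha, e⟩ | ⟨s, hs, s', hs', q1, q2, e⟩
  · obtain ⟨M', hM', hm⟩ := hl
    have h1 := cyc_case hA hB S M' hM' a (by rw [hm]; exact fun μ hμ => h.ker_conj ha hμ)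
      (by rw [hm]; exact hkk) (hk ha)
    rw [hm, ← e] at h1
    exact h1
  · have h1 := dih_case hA hB S L h.ker h.ker_fin hl hkk s s' (hk hs) (hk hs')
      (fun μ hμ => h.ker_conj hs hμ) (fun μ hμ => h.ker_conj hs' hμ) q1 q2
    rw [← e] at h1
    exact h1

end Pool.Agent.Bu
end

-- part Pool.Agent.Lib.MP_5bec91_al.Bu.Ext
section

/-!
The central extension: lifting the rotation groups, and the involutions of the new extension.
-/

set_option autoImplicit false

namespace Pool.Agent.Bu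

open MulAction

namespace Ext

section
variable {F G Gt : Type} [Field F] [Group G] [Group Gt] {π : G →* Fˣ} {p : Gt →* G}
  {ι : Multiplicative F →* Gt} {σ : Fˣ →* Gt}

theorem central (hD : ExtD π p ι σ) {g : Gt} (hg : π (p g) = 1) (f : Multiplicative F) :
    Commute g (ι f) := by
  have h := hD.conj g (Multiplicative.toAdd f)
  rw [hg] at h
  simp only [Units.val_one, one_mul, ofAdd_toAdd] at h
  rw [Commute, SemiconjBy]
  calc g * ι f = g * ι f * g⁻¹ * g := by group
    _ = ι f * g := by rw [h]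

theorem iota_sq [CharP F 2] (ι : Multiplicative F →* Gt) (f : Multiplicative F) :
    ι f ^ 2 = 1 := by
  rw [← map_pow, pow_two]
  have : f * f = 1 := by
    have h := CharTwo.add_self_eq_zero (Multiplicative.toAdd f)
    apply Multiplicative.toAdd.injective
    simpa using h
  rw [this, map_one]

/-- Two lifts of an element of the kernel of `π` have the same square. -/
theorem sq_eq [CharP F 2] (hD : ExtD π p ι σ) {x y : Gt} (hx : π (p x) = 1) (h : p y = p x) :
    y ^ 2 = x ^ 2 := by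
  obtain ⟨f, hf⟩ := (hD.ker (x⁻¹ * y)).1 (by simp [h])
  have e : y = x * ι f := by rw [hf]; group
  rw [e, (central hD hx f).mul_pow, iota_sq, mul_one]

theorem n0_gt : 1 < n0 := by unfold n0; norm_num

/-- One cone. -/
theorem one_cone [CharP F 2] [Infinite F] (hD : ExtD π p ι σ) {E : Subgroup G} {ε t : G → ℤ}
    {a : G} {n : ℕ} (hc : ConeData π E (Subgroup.zpowers (a ^ n)) ε t a n) :
    ∃ Ht, ExtCone π p E Ht := by
  have hn := hc.big
  have hn0 := n0_gt
  rcases hc.typ with ⟨hk, m, k, hm, -, hcj⟩ | ⟨hE, ho⟩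
  · obtain ⟨w, hw⟩ := hD.surj (a ^ m)
    have πw : π (p w) = 1 := by rw [hw]; exact hk (E.pow_mem hc.mem m)
    have cj2 : ∀ g : Gt, p g ∈ E → g * w ^ 2 * g⁻¹ = (w ^ 2) ^ (ε (p g)) := by
      intro g hg
      have h1 : p (g * w * g⁻¹) = p (w ^ (ε (p g))) := by
        simp only [map_mul, map_inv, map_zpow, hw]
        exact hcj _ hg
      have h2 := sq_eq hD (x := w ^ (ε (p g))) (by rw [map_zpow, map_zpow, πw, one_zpow]) h1
      rw [conj_pow] at h2
      rw [h2, ← zpow_natCast, ← zpow_natCast, ← zpow_mul, ← zpow_mul, mul_comm]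
    choose s hs using hD.surj
    have hfin : ((fun κ : G => s κ ^ 2) '' {g | g ∈ E ∧ ε g = 1 ∧ t g = 0}).Finite :=
      hc.aff.fin.image _
    have hinf : (Set.range ι).Infinite := Set.infinite_range_of_injective hD.inj
    obtain ⟨z, ⟨ω, rfl⟩, hz⟩ := hinf.exists_notMem_finite hfin
    have cω : Commute (w ^ 2) (ι ω) := (central hD πw ω).pow_left 2
    have pω : p (ι ω) = 1 := (hD.ker _).2 ⟨ω, rfl⟩
    have pρ : p ((w ^ 2) ^ 2 * ι ω) = a ^ n := by
      rw [map_mul, pω, mul_one, map_pow, map_pow, hw, ← pow_mul, ← pow_mul, hm]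
      congr 1; ring
    refine ⟨Subgroup.zpowers ((w ^ 2) ^ 2 * ι ω), ε, t, a, n, (w ^ 2) ^ 2 * ι ω, ?_, rfl, pρ,
      ?_, ?_⟩
    · rw [MonoidHom.map_zpowers, pρ]; exact hc
    · intro g hg
      have cg := central hD (hk hg) ω
      have e : g * ((w ^ 2) ^ 2 * ι ω) * g⁻¹ = (g * w ^ 2 * g⁻¹) ^ 2 * ι ω := by
        rw [conj_pow]
        calc g * ((w ^ 2) ^ 2 * ι ω) * g⁻¹ = g * (w ^ 2) ^ 2 * (ι ω * g⁻¹) := by group
          _ = g * (w ^ 2) ^ 2 * (g⁻¹ * ι ω) := by rw [cg.inv_left.eq]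
          _ = _ := by group
      rw [e, cj2 g hg]
      rcases hc.aff.sq _ hg with he | he <;> rw [he]
      · rw [zpow_one]; exact Subgroup.mem_zpowers _
      · have hi : (ι ω)⁻¹ = ι ω := by
          rw [inv_eq_iff_mul_eq_one, ← pow_two]; exact iota_sq ι ω
        have : ((w ^ 2) ^ (-1 : ℤ)) ^ 2 * ι ω = ((w ^ 2) ^ 2 * ι ω)⁻¹ := by
          rw [(cω.pow_left 2).eq, mul_inv_rev, hi, zpow_neg_one, inv_pow]
        rw [this]
        exact Subgroup.inv_mem _ (Subgroup.mem_zpowers _)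
    · intro _ g hg hsq
      have h1 : p g ^ 2 = a ^ n := by rw [← map_pow, hsq, pρ]
      have tn := (hc.aff.pow_of_e hc.mem hc.ea n).2
      rw [hc.ta, ← h1] at tn
      have he : ε (p g) = 1 := by
        rcases hc.aff.sq _ hg with he | he
        · exact he
        · have := (hc.aff.sq_of_neg hg he).2
          omega
      have t2 := (hc.aff.pow_of_e hg he 2).2
      have tg : t (p g) = ((2 * m : ℕ) : ℤ) := by push_cast; omega
      have hker := hc.aff.dec hc.mem hc.ea hc.ta hg he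
      rw [tg, zpow_natCast] at hker
      have pμ : p (g * (w ^ 2)⁻¹) = p g * (a ^ (2 * m))⁻¹ := by
        rw [map_mul, map_inv, map_pow, hw, ← pow_mul, mul_comm m 2]
      have cw : Commute g (w ^ 2) := by
        have := cj2 g hg
        rw [he, zpow_one] at this
        rw [Commute, SemiconjBy]
        calc g * w ^ 2 = g * w ^ 2 * g⁻¹ * g := by group
          _ = _ := by rw [this]
      have μ2 : (g * (w ^ 2)⁻¹) ^ 2 = ι ω := by
        rw [cw.inv_right.mul_pow, hsq, (cω.pow_left 2).eq, inv_pow, mul_inv_cancel_right]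
      apply hz
      refine ⟨p g * (a ^ (2 * m))⁻¹, hker, ?_⟩
      rw [← μ2]
      exact sq_eq hD (by rw [pμ]; exact hk hker.1) (by rw [hs, pμ])
  · obtain ⟨w, hw⟩ := hD.surj a
    have pρ : p (w ^ n) = a ^ n := by rw [map_pow, hw]
    have πρ : π (p (w ^ n)) = 1 := by rw [pρ, map_pow, ← ho, pow_orderOf_eq_one]
    refine ⟨Subgroup.zpowers (w ^ n), ε, t, a, n, w ^ n, ?_, rfl, pρ, ?_, ?_⟩
    · rw [MonoidHom.map_zpowers, pρ]; exact hc
    · intro g hg
      rw [hE] at hg
      obtain ⟨j, hj⟩ := Subgroup.mem_zpowers_iff.1 hg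
      obtain ⟨f, hf⟩ := (hD.ker ((w ^ j)⁻¹ * g)).1 (by simp [hw, hj])
      have e : g = w ^ j * ι f := by rw [hf]; group
      have c1 : Commute g (w ^ n) := by
        rw [e]
        exact Commute.mul_left (((Commute.refl w).zpow_left j).pow_right n)
          (central hD πρ f).symm
      rw [c1.eq, mul_inv_cancel_right]
      exact Subgroup.mem_zpowers _
    · intro hk
      have : π a = 1 := hk hc.mem
      rw [this, orderOf_one] at ho
      omega

end

/-- Conjugating the data of a lifted rotation group. -/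
theorem extCone_conj (aB : AlgB) {A G Gt : Type} [CommGroup A] [Group G] [Group Gt] {π : G →* A}
    {p : Gt →* G} {E E' : Subgroup G} {Ht Ht' : Subgroup Gt} (g : Gt) (h : ExtCone π p E Ht)
    (hE : ∀ x, x ∈ E' ↔ (p g)⁻¹ * x * p g ∈ E) (hH : ∀ x, x ∈ Ht' ↔ g⁻¹ * x * g ∈ Ht) :
    ExtCone π p E' Ht' := by
  obtain ⟨ε, t, a, n, ρ, hc, hρ, pρ, hcj, hsq⟩ := h
  refine ⟨_, _, _, n, g * ρ * g⁻¹,
    aB.coneConj π E (Ht.map p) E' (Ht'.map p) ε t a n (p g) hc hE ?_, ?_, ?_, ?_, ?_⟩
  · intro x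
    constructor
    · rintro ⟨y, hy, rfl⟩
      exact ⟨g⁻¹ * y * g, (hH y).1 hy, by simp⟩
    · rintro ⟨y, hy, e⟩
      refine ⟨g * y * g⁻¹, (hH _).2 (by simpa [mul_assoc] using hy), ?_⟩
      simp only [map_mul, map_inv, e]
      group
  · ext x
    rw [hH, hρ, Subgroup.mem_zpowers_iff, Subgroup.mem_zpowers_iff]
    constructor
    · rintro ⟨j, hj⟩
      exact ⟨j, by rw [conj_zpow, hj]; group⟩
    · rintro ⟨j, hj⟩
      exact ⟨j, by rw [← hj, conj_zpow]; group⟩
  · rw [map_mul, map_mul, map_inv, pρ, conj_pow]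
  · intro y hy
    rw [hH]
    have := hcj (g⁻¹ * y * g) (by simpa using (hE _).1 hy)
    convert this using 1
    group
  · intro hk y hy e
    refine hsq ?_ (g⁻¹ * y * g) (by simpa using (hE _).1 hy) ?_
    · intro x hx
      have h1 : p g * x * (p g)⁻¹ ∈ E' := (hE _).2 (by simpa [mul_assoc] using hx)
      have h2 : π (p g * x * (p g)⁻¹) = 1 := hk h1
      rw [map_mul, map_mul, map_inv, mul_inv_cancel_comm] at h2
      exact h2
    · calc (g⁻¹ * y * g) ^ 2 = g⁻¹ * y ^ 2 * g := by rw [pow_two, pow_two]; group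
        _ = ρ := by rw [e]; group

theorem extCone_norm {A G Gt : Type} [CommGroup A] [Group G] [Group Gt] {π : G →* A}
    {p : Gt →* G} {E : Subgroup G} {Ht : Subgroup Gt} (h : ExtCone π p E Ht) {g x : Gt}
    (hg : p g ∈ E) (hx : x ∈ Ht) : g * x * g⁻¹ ∈ Ht := by
  obtain ⟨ε, t, a, n, ρ, -, hρ, -, hcj, -⟩ := h
  have h1 := hcj g hg
  rw [hρ] at hx
  obtain ⟨j, rfl⟩ := Subgroup.mem_zpowers_iff.1 hx
  rw [← conj_zpow]
  exact Ht.zpow_mem h1 j

theorem choose (aB : AlgB) {F G Gt C : Type} [Field F] [CharP F 2] [Infinite F] [Group G]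
    [Group Gt] [MulAction G C] (π : G →* Fˣ) (p : Gt →* G) (ι : Multiplicative F →* Gt)
    (σ : Fˣ →* Gt) (hD : ExtD π p ι σ)
    (hc : ∀ c : C, ∃ ε t a n, ConeData π (stabilizer G c) (Subgroup.zpowers (a ^ n)) ε t a n) :
    ∃ Ht : C → Subgroup Gt, (∀ c, ExtCone π p (stabilizer G c) (Ht c)) ∧
      ∀ (g : Gt) c, ∀ h ∈ Ht c, g * h * g⁻¹ ∈ Ht (p g • c) := by
  have h0 : ∀ c : C, ∃ Ht, ExtCone π p (stabilizer G c) Ht := by
    intro c
    obtain ⟨ε, t, a, n, h⟩ := hc c
    exact one_cone hD h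
  choose H0 hH0 using h0
  let rep : C → C := fun c => (Quotient.mk (orbitRel G C) c).out
  have hrep : ∀ c, ∃ g : Gt, p g • rep c = c := by
    intro c
    have h1 : (orbitRel G C) c (rep c) :=
      Quotient.exact (Quotient.out_eq (Quotient.mk (orbitRel G C) c)).symm
    obtain ⟨g, hg⟩ := orbitRel_apply.1 h1
    obtain ⟨g, rfl⟩ := hD.surj g
    exact ⟨g, hg⟩
  have rep_smul : ∀ (g : G) c, rep (g • c) = rep c := by
    intro g c
    have : Quotient.mk (orbitRel G C) (g • c) = Quotient.mk (orbitRel G C) c :=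
      Quotient.sound (orbitRel_apply.2 ⟨g, rfl⟩)
    simp only [rep, this]
  choose γ hγ using hrep
  refine ⟨fun c => (H0 (rep c)).comap (MulAut.conj (γ c)⁻¹).toMonoidHom, fun c => ?_, ?_⟩
  · refine extCone_conj aB (γ c) (hH0 (rep c)) (fun x => ?_) (fun x => by simp)
    rw [mem_stabilizer_iff, mem_stabilizer_iff, mul_smul, mul_smul, hγ, inv_smul_eq_iff, hγ]
  · intro g c h hh
    simp only [Subgroup.mem_comap, MulEquiv.coe_toMonoidHom, MulAut.conj_apply, inv_inv,
      rep_smul] at hh ⊢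
    have hk : p ((γ (p g • c))⁻¹ * g * γ c) ∈ stabilizer G (rep c) := by
      rw [mem_stabilizer_iff, map_mul, map_mul, map_inv, mul_smul, mul_smul, hγ,
        inv_smul_eq_iff, ← rep_smul (p g) c, hγ]
    have := extCone_norm (hH0 (rep c)) hk hh
    convert this using 1
    group

theorem lift_sq {G Gt Gb : Type} [Group G] [Group Gt] [Group Gb] {p : Gt →* G} {φ : G →* Gb}
    {Nt : Subgroup Gt} (hN : Nt.Normal) (hφ : ∀ g, φ g = 1 ↔ g ∈ Nt.map p) {x : Gt}
    (hx : x ^ 2 ∈ Nt) {g : G} (hg : φ g = φ (p x)) :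
    ∃ y, p y = g ∧ y ^ 2 ∈ Nt ∧ x * y⁻¹ ∈ Nt := by
  obtain ⟨ν, hν, e⟩ := (hφ (p x * g⁻¹)).1 (by simp [hg])
  refine ⟨ν⁻¹ * x, by simp [e], ?_, by simpa using hν⟩
  have : (ν⁻¹ * x) ^ 2 = ν⁻¹ * (x * ν⁻¹ * x⁻¹) * x ^ 2 := by rw [pow_two, pow_two]; group
  rw [this]
  exact Nt.mul_mem (Nt.mul_mem (Nt.inv_mem hν) (hN.conj_mem _ (Nt.inv_mem hν) x)) hx

theorem invol (aB : AlgB) {F G Gt C Gb : Type} [Field F] [Group G] [Group Gt] [MulAction G C]
    [Group Gb] (π : G →* Fˣ) (p : Gt →* G) (ι : Multiplicative F →* Gt) (σ : Fˣ →* Gt)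
    (φ : G →* Gb) (πb : Gb →* Fˣ) (Ht : C → Subgroup Gt) (Nt : Subgroup Gt)
    (hD : ExtD π p ι σ) (hS : AlgS π φ πb (fun c => (Ht c).map p))
    (hL : NewLib π φ πb (fun c => (Ht c).map p))
    (hE : ∀ c, ExtCone π p (stabilizer G c) (Ht c)) (hN : Nt.Normal) (hle : ∀ c, Ht c ≤ Nt)
    (hφ : ∀ g, φ g = 1 ↔ g ∈ Nt.map p) (hinj : ∀ x ∈ Nt, p x = 1 → x = 1)
    (x : Gt) (hπ : π (p x) = 1) (hx : x ^ 2 ∈ Nt) : ∃ f, x * (ι f)⁻¹ ∈ Nt := by
  have x2 : φ (p x) ^ 2 = 1 := by
    rw [← map_pow, ← map_pow]; exact (hφ _).2 ⟨_, hx, rfl⟩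
  have hfo : IsOfFinOrder (φ (p x)) := isOfFinOrder_iff_pow_eq_one.2 ⟨2, two_pos, x2⟩
  have πg : ∀ g, φ g = φ (p x) → π g = 1 := by
    intro g hg
    rw [← hS.comp, hg, hS.comp, hπ]
  rcases hL.alt (Subgroup.zpowers (φ (p x))) hfo.finite_zpowers with
    ⟨Q, hQ, e⟩ | ⟨c, -, g, hg, hw, hm⟩
  · have h1 : φ (p x) ∈ Q.map φ := by rw [e]; exact Subgroup.mem_zpowers _
    obtain ⟨x', hx', e'⟩ := h1
    have h2 : x' ^ 2 = 1 := by
      apply hS.tf _ (by rw [map_pow, e', x2])
      have h3 : IsOfFinOrder (⟨x', hx'⟩ : Q) := isOfFinOrder_of_finite _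
      exact (Q.subtype.isOfFinOrder h3).pow
    obtain ⟨y, py, y2, hy⟩ := lift_sq hN hφ hx e'
    have h4 : y ^ 2 = 1 := hinj _ y2 (by rw [map_pow, py, h2])
    obtain ⟨f, hf⟩ := hD.invol y (by rw [py]; exact πg _ e') h4
    exact ⟨f, by rw [hf]; exact hy⟩
  · exfalso
    have hgx : φ g = φ (p x) := by
      obtain ⟨j, hj⟩ := Subgroup.mem_zpowers_iff.1 hm
      have z2 : φ (p x) ^ (2 : ℤ) = 1 := by rw [← x2]; exact zpow_natCast _ 2
      rcases Int.even_or_odd' j with ⟨l, rfl | rfl⟩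
      · exfalso
        rw [zpow_mul, z2, one_zpow] at hj
        have := (hS.stab c g hg).1 hj.symm
        exact hw g⁻¹ (Subgroup.inv_mem _ this) (by simp)
      · rw [← hj, zpow_add_one, zpow_mul, z2, one_zpow, one_mul]
    obtain ⟨ε, t, a, n, ρ, hc, hρ, pρ, -, hsq⟩ := hE c
    have gE : g ∈ stabilizer G c := hg
    obtain ⟨w1, w2⟩ := aB.coneWild π _ _ ε t a n hc g gE
    obtain ⟨he, hnd⟩ := w1.1 hw
    have hk := w2 hw (πg g hgx)
    have g2 : g ^ 2 ∈ (Ht c).map p :=
      (hS.stab c _ ((stabilizer G c).pow_mem gE 2)).1 (by rw [map_pow, hgx, x2])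
    rw [hc.rot] at g2
    obtain ⟨k, hk2⟩ := Subgroup.mem_zpowers_iff.1 g2
    have anE := (stabilizer G c).pow_mem hc.mem n
    have tn := hc.aff.pow_of_e hc.mem hc.ea n
    have tk := (hc.aff.zpow_of_e anE tn.1 k).2
    rw [hk2, (hc.aff.pow_of_e gE he 2).2, tn.2, hc.ta] at tk
    have cm : Commute g (a ^ n) := by
      rcases hc.typ with ⟨-, m, -, hm4, -, hcj⟩ | ⟨hz, -⟩
      · have h1 := hcj g gE
        rw [he, zpow_one] at h1
        have h2 : Commute g (a ^ m) := by
          rw [Commute, SemiconjBy]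
          calc g * a ^ m = g * a ^ m * g⁻¹ * g := by group
            _ = _ := by rw [h1]
        rw [hm4, mul_comm, pow_mul]
        exact h2.pow_right 4
      · rw [hz] at gE
        obtain ⟨j, rfl⟩ := Subgroup.mem_zpowers_iff.1 gE
        exact ((Commute.refl a).zpow_left j).pow_right n
    have φn : φ (a ^ n) = 1 :=
      (hS.stab c _ anE).2 (by rw [hc.rot]; exact Subgroup.mem_zpowers _)
    rcases Int.even_or_odd' k with ⟨l, rfl | rfl⟩
    · apply hnd
      refine ⟨l, ?_⟩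
      push_cast at tk
      linarith
    · have g1 : (g * ((a ^ n) ^ l)⁻¹) ^ 2 = a ^ n := by
        rw [(cm.zpow_right l).inv_right.mul_pow, ← hk2]
        generalize a ^ n = b
        group
      have φ1 : φ (g * ((a ^ n) ^ l)⁻¹) = φ (p x) := by
        rw [map_mul, map_inv, map_zpow, φn, hgx]; simp
      obtain ⟨y, py, y2, -⟩ := lift_sq hN hφ hx φ1
      have ρN : ρ ∈ Nt := hle c (by rw [hρ]; exact Subgroup.mem_zpowers _)
      have h5 : y ^ 2 * ρ⁻¹ = 1 := hinj _ (Nt.mul_mem y2 (Nt.inv_mem ρN))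
        (by rw [map_mul, map_inv, map_pow, py, g1, pρ, mul_inv_cancel])
      refine hsq hk y ?_ (mul_inv_eq_one.1 h5)
      rw [py]
      exact Subgroup.mul_mem _ gE (Subgroup.inv_mem _ (Subgroup.zpow_mem _ anE l))

end Ext

theorem extLib : AlgA → AlgB → ExtLib := fun _ aB =>
  ⟨fun π p ι σ hD hc => Ext.choose aB π p ι σ hD hc,
    fun π p ι σ φ πb Ht Nt hD hS hL hE hN hle hφ hinj x hπ hx =>
      Ext.invol aB π p ι σ φ πb Ht Nt hD hS hL hE hN hle hφ hinj x hπ hx⟩

end Pool.Agent.Bu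
end

-- part Pool.Agent.Lib.MP_5bec91_al.Bu.Base
section

/-!
The first level: the free product of `Fˣ` and `ℤ` acting on the Cayley tree of the free group
on `Fˣ`.
-/

set_option autoImplicit false

namespace Pool.Agent.Bu

namespace Base

open FreeGroup

/-! ### The tree of a free group -/

section Tree
variable {α : Type} [DecidableEq α]

/-- Length of the longest common initial segment. -/
def lcp : List (α × Bool) → List (α × Bool) → ℕ
  | a :: l, b :: m => if a = b then lcp l m + 1 else 0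
  | [], _ => 0
  | _ :: _, [] => 0

theorem lcp_ultra : ∀ x y z : List (α × Bool), min (lcp x z) (lcp y z) ≤ lcp x y
  | [], _, _ => by simp [lcp]
  | _ :: _, [], _ => by simp [lcp]
  | _ :: _, _ :: _, [] => by simp [lcp]
  | a :: x, b :: y, c :: z => by
    have ih := lcp_ultra x y z
    by_cases h1 : a = c
    · by_cases h2 : b = c
      · subst h1; subst h2
        simp only [lcp, if_true]
        omega
      · simp [lcp, h2]
    · simp [lcp, h1]

theorem norm_mk_red {L : List (α × Bool)} (h : IsReduced L) : norm (mk L) = L.length := by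
  rw [FreeGroup.norm, toWord_mk, h.reduce_eq]

theorem red_invRev {L : List (α × Bool)} (h : IsReduced L) : IsReduced (invRev L) := by
  rw [isReduced_iff_reduce_eq, reduce_invRev, h.reduce_eq]

omit [DecidableEq α] in
theorem mk_cons (a : α × Bool) (L : List (α × Bool)) : mk (a :: L) = mk [a] * mk L := by
  rw [mul_mk]; rfl

theorem norm_lcp : ∀ x y : List (α × Bool), IsReduced x → IsReduced y →
    norm ((mk x)⁻¹ * mk y) + 2 * lcp x y = x.length + y.length
  | [], y, _, hy => by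
    rw [← one_eq_mk, inv_one, one_mul, norm_mk_red hy]; simp [lcp]
  | a :: x, [], hx, _ => by
    rw [← one_eq_mk, mul_one, norm_inv_eq, norm_mk_red hx]; simp [lcp]
  | a :: x, b :: y, hx, hy => by
    by_cases hab : a = b
    · subst hab
      have ih := norm_lcp x y (List.IsChain.tail hx) (List.IsChain.tail hy)
      have e : (mk (a :: x))⁻¹ * mk (a :: y) = (mk x)⁻¹ * mk y := by
        rw [mk_cons a x, mk_cons a y]; group
      rw [e]
      simp only [lcp, if_true, List.length_cons]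
      omega
    · have h1 : IsReduced (invRev x ++ [(a.1, !a.2)]) := by
        have := red_invRev hx
        rwa [invRev_cons] at this
      have h2 : IsReduced ([(a.1, !a.2)] ++ b :: y) := by
        refine isReduced_cons_cons.2 ⟨fun h => ?_, hy⟩
        obtain ⟨a1, a2⟩ := a
        obtain ⟨b1, b2⟩ := b
        simp only [Prod.mk.injEq, not_and] at hab h ⊢
        have := hab h
        cases a2 <;> cases b2 <;> simp_all
      have h3 := h1.append_overlap h2 (by simp)
      have e : (mk (a :: x))⁻¹ * mk (b :: y) = mk (invRev x ++ [(a.1, !a.2)] ++ b :: y) := by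
        rw [inv_mk, mul_mk, invRev_cons]; rfl
      rw [e, norm_mk_red h3]
      simp [lcp, hab]
      omega

theorem norm_lcp' (u v : FreeGroup α) :
    norm (u⁻¹ * v) + 2 * lcp u.toWord v.toWord = norm u + norm v := by
  have := norm_lcp u.toWord v.toWord isReduced_toWord isReduced_toWord
  rwa [mk_toWord, mk_toWord] at this

theorem tree_hyp (x y z w : FreeGroup α) : norm (x⁻¹ * y) + norm (z⁻¹ * w) ≤
    max (norm (x⁻¹ * z) + norm (y⁻¹ * w)) (norm (x⁻¹ * w) + norm (y⁻¹ * z)) := by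
  have h1 := norm_lcp' (w⁻¹ * x) (w⁻¹ * y)
  have h2 := norm_lcp' (w⁻¹ * x) (w⁻¹ * z)
  have h3 := norm_lcp' (w⁻¹ * y) (w⁻¹ * z)
  have h4 := lcp_ultra (w⁻¹ * x).toWord (w⁻¹ * y).toWord (w⁻¹ * z).toWord
  have e : ∀ a b : FreeGroup α, (w⁻¹ * a)⁻¹ * (w⁻¹ * b) = a⁻¹ * b := fun a b => by group
  have e' : ∀ a : FreeGroup α, norm (w⁻¹ * a) = norm (a⁻¹ * w) := fun a => by
    rw [← norm_inv_eq]; congr 1; group
  rw [e] at h1 h2 h3
  simp only [e'] at h1 h2 h3
  omega

theorem tree_par (x y z : FreeGroup α) :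
    ∃ l, norm (y⁻¹ * z) + 2 * l = norm (x⁻¹ * y) + norm (x⁻¹ * z) := by
  have h1 := norm_lcp' (x⁻¹ * y) (x⁻¹ * z)
  have e : (x⁻¹ * y)⁻¹ * (x⁻¹ * z) = y⁻¹ * z := by group
  rw [e] at h1
  exact ⟨_, h1⟩

theorem tree_geo (u : FreeGroup α) (t : ℕ) (ht : t ≤ norm u) :
    ∃ z : FreeGroup α, norm z = t ∧ norm z + norm (z⁻¹ * u) = norm u := by
  have hr : IsReduced u.toWord := isReduced_toWord
  have h1 : norm (mk (u.toWord.take t)) = t := by
    rw [norm_mk_red (List.IsChain.take hr t), List.length_take]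
    exact min_eq_left ht
  have e : (mk (u.toWord.take t))⁻¹ * u = mk (u.toWord.drop t) := by
    rw [inv_mul_eq_iff_eq_mul, mul_mk, List.take_append_drop, mk_toWord]
  refine ⟨mk (u.toWord.take t), h1, ?_⟩
  rw [e, h1, norm_mk_red (List.IsChain.drop hr t), List.length_drop]
  unfold FreeGroup.norm at ht ⊢
  omega

theorem toWord_map {f : α → α} (hf : Function.Injective f) (u : FreeGroup α) :
    (FreeGroup.map f u).toWord = u.toWord.map fun x => (f x.1, x.2) := by
  have hr : IsReduced u.toWord := isReduced_toWord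
  have h2 : IsReduced (u.toWord.map fun x => (f x.1, x.2)) := by
    unfold FreeGroup.IsReduced at hr ⊢
    rw [List.isChain_map]
    exact hr.imp fun a b h e => h (hf e)
  conv_lhs => rw [← mk_toWord (x := u), map.mk, toWord_mk, h2.reduce_eq]

end Tree

/-! ### The group and its metric -/

section Grp
variable {A : Type} [CommGroup A]

/-- The action of `A` on the free group on `A`. -/
def act (A : Type) [CommGroup A] : A →* MulAut (FreeGroup A) where
  toFun a := freeGroupCongr (Equiv.mulLeft a)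
  map_one' := by
    apply MulEquiv.toMonoidHom_injective
    ext x
    simp
  map_mul' a b := by
    apply MulEquiv.toMonoidHom_injective
    ext x
    simp [mul_assoc]

theorem act_apply (a : A) (u : FreeGroup A) : act A a u = FreeGroup.map (fun x => a * x) u := rfl

/-- The group of the first level. -/
abbrev GG (A : Type) [CommGroup A] : Type := FreeGroup A ⋊[act A] A

variable [DecidableEq A]

theorem toWord_act (a : A) (u : FreeGroup A) :
    (act A a u).toWord = u.toWord.map fun x => (a * x.1, x.2) :=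
  toWord_map (mul_right_injective a) u

theorem norm_act (a : A) (u : FreeGroup A) : norm (act A a u) = norm u := by
  rw [FreeGroup.norm, toWord_act, List.length_map, FreeGroup.norm]

theorem act_fix {a : A} {u : FreeGroup A} (hu : u ≠ 1) (h : act A a u = u) : a = 1 := by
  have h1 := toWord_act a u
  rw [h] at h1
  cases hw : u.toWord with
  | nil => exact absurd (toWord_eq_nil_iff.1 hw) hu
  | cons b l =>
    rw [hw] at h1
    simp only [List.map_cons, List.cons.injEq] at h1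
    have := congrArg Prod.fst h1.1
    simpa using this

theorem act_noinv (a : A) {u : FreeGroup A} (hu : norm u = 1) : u * act A a u ≠ 1 := by
  obtain ⟨b, hb⟩ := List.length_eq_one_iff.1 hu
  have h1 := toWord_act a u
  intro h
  have h2 := toWord_mul u (act A a u)
  have h3 : IsReduced [b, (a * b.1, b.2)] := isReduced_cons_cons.2 ⟨fun _ => rfl, .singleton⟩
  rw [h, h1, hb, toWord_one] at h2
  simp only [List.map_cons, List.map_nil, List.cons_append, List.nil_append] at h2
  rw [h3.reduce_eq] at h2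
  simp at h2

/-- The tree metric. -/
def DD (A : Type) [CommGroup A] [DecidableEq A] : PM (GG A) where
  d g h := norm (g.left⁻¹ * h.left)
  refl x := by simp
  symm x y := by rw [← norm_inv_eq]; congr 1; group
  tri x y z := by
    have := norm_mul_le (x.left⁻¹ * y.left) (y.left⁻¹ * z.left)
    rwa [show x.left⁻¹ * y.left * (y.left⁻¹ * z.left) = x.left⁻¹ * z.left by group] at this

theorem DD_d (g h : GG A) : (DD A).d g h = norm (g.left⁻¹ * h.left) := rfl

theorem iso : (DD A).Iso (GG A) := by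
  intro g x y
  simp only [DD_d, smul_eq_mul, SemidirectProduct.mul_left]
  rw [← norm_act g.right (x.left⁻¹ * y.left), _root_.map_mul, _root_.map_inv]
  congr 1
  group

theorem hyp0 : (DD A).Hyp 0 := fun x y z w => tree_hyp x.left y.left z.left w.left

theorem par (x y z : GG A) : ∃ l, (DD A).d y z + 2 * l = (DD A).d x y + (DD A).d x z :=
  tree_par x.left y.left z.left

theorem geo0 (x y : GG A) (t : ℕ) (ht : t ≤ (DD A).d x y) :
    ∃ z, (DD A).d x z + (DD A).d z y = (DD A).d x y ∧ (DD A).d x z = t := by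
  obtain ⟨z, h1, h2⟩ := tree_geo (x.left⁻¹ * y.left) t ht
  refine ⟨⟨x.left * z, 1⟩, ?_, ?_⟩
  · simp only [DD_d]
    rw [← h2]
    congr 2 <;> group
  · simp only [DD_d]
    rw [← h1]
    congr 1
    group

theorem geom : Geom (GG A) (DD A) 1 where
  iso := iso
  pos := le_rfl
  hyp x y z w := (hyp0 x y z w).trans (by omega)
  geo x y t ht := by
    obtain ⟨z, h1, h2⟩ := geo0 x y t ht
    exact ⟨z, h1, by omega, by omega⟩
  ne := ⟨1⟩

theorem d_conj (g x y : GG A) :
    (DD A).d (x • y) (g • x • y) = (DD A).d y ((x⁻¹ * g * x) • y) := by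
  rw [← iso x y]
  simp [mul_assoc]

theorem fix_left {g x : GG A} (h : (DD A).d x (g • x) = 0) : (x⁻¹ * g * x).left = 1 := by
  have h1 := d_conj g x 1
  simp only [smul_eq_mul, mul_one] at h h1
  rw [h, DD_d] at h1
  simpa using h1.symm

/-- An element fixing two points at positive distance is trivial. -/
theorem rigid {g x y : GG A} (hx : (DD A).d x (g • x) = 0) (hy : (DD A).d y (g • y) = 0)
    (hxy : (DD A).d x y ≠ 0) : g = 1 := by
  have h1 := fix_left hx
  have h2 := d_conj g x (x⁻¹ * y)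
  have h3 := iso x 1 (x⁻¹ * y)
  simp only [smul_eq_mul, mul_inv_cancel_left, mul_one] at hy h2 h3
  rw [hy, DD_d, SemidirectProduct.mul_left (x⁻¹ * g * x), h1, one_mul, eq_comm,
    FreeGroup.norm_eq_zero, inv_mul_eq_one] at h2
  have h4 : (x⁻¹ * y).left ≠ 1 := by
    intro h
    rw [h3, DD_d, h] at hxy
    simp at hxy
  have h5 := act_fix h4 h2.symm
  have h6 : x⁻¹ * g * x = 1 := SemidirectProduct.ext h1 h5
  calc g = x * (x⁻¹ * g * x) * x⁻¹ := by group
    _ = 1 := by rw [h6]; group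

theorem noinv {g x : GG A} (h : (DD A).d x (g • x) = 1) : (DD A).d x (g • g • x) ≠ 0 := by
  have h1 := d_conj g x 1
  have h2 := d_conj (g * g) x 1
  have e : x⁻¹ * (g * g) * x = (x⁻¹ * g * x) * (x⁻¹ * g * x) := by group
  simp only [smul_eq_mul, mul_one] at h h1 h2 ⊢
  rw [← mul_assoc, h2, e, DD_d, SemidirectProduct.mul_left (x⁻¹ * g * x)]
  rw [h, DD_d] at h1
  simp only [SemidirectProduct.one_left, inv_one, one_mul] at h1 ⊢
  rw [Ne, FreeGroup.norm_eq_zero]
  exact act_noinv _ h1.symm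

/-- The kernel acts freely. -/
theorem free {k x : GG A} (hk : k.right = 1) (h : (DD A).d x (k • x) = 0) : k = 1 := by
  rw [DD_d, FreeGroup.norm_eq_zero, inv_mul_eq_one, smul_eq_mul, SemidirectProduct.mul_left,
    hk] at h
  refine SemidirectProduct.ext ?_ hk
  simpa using h

theorem fin_of_fix (hA : ∀ a : A, IsOfFinOrder a) {g x : GG A} (h : (DD A).d x (g • x) = 0) :
    IsOfFinOrder g := by
  have h1 := fix_left h
  have h2 : x⁻¹ * g * x = SemidirectProduct.inr (x⁻¹ * g * x).right :=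
    SemidirectProduct.ext (by simpa using h1) (by simp)
  have h3 : IsOfFinOrder (x⁻¹ * g * x) := by
    rw [h2]; exact SemidirectProduct.inr.isOfFinOrder (hA _)
  have h4 := (MulAut.conj x).toMonoidHom.isOfFinOrder h3
  have e : (MulAut.conj x).toMonoidHom (x⁻¹ * g * x) = g := by simp [mul_assoc]
  rwa [e] at h4

/-- Elements fix a point or translate. -/
theorem classify (H : HypLib) (g : GG A) : (∃ x, (DD A).d x (g • x) = 0) ∨
    (¬ IsOfFinOrder g ∧ ∀ x (k : ℕ), k ≤ (DD A).d x (g ^ k • x)) := by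
  classical
  have hex : ∃ n, ∃ x, (DD A).d x (g • x) = n := ⟨_, 1, rfl⟩
  obtain ⟨x, hx⟩ := Nat.find_spec hex
  have hmin : ∀ y, (DD A).d x (g • x) ≤ (DD A).d y (g • y) := fun y =>
    hx ▸ Nat.find_min' hex ⟨y, rfl⟩
  by_cases h0 : (DD A).d x (g • x) = 0
  · exact Or.inl ⟨x, h0⟩
  right
  have i1 := iso g x (g • x)
  have hb : (DD A).d x (g • x) + (DD A).d x (g • x) ≤ (DD A).d x (g • g • x) := by
    obtain ⟨l, hl⟩ := par (g • x) x (g • g • x)
    have s1 := (DD A).symm x (g • x)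
    by_cases h1 : (DD A).d x (g • x) = 1
    · have := noinv h1
      omega
    obtain ⟨m, hm1, hm2⟩ := geo0 x (g • x) 1 (by omega)
    have i2 := iso g x m
    have i3 := iso g m (g • x)
    have q1 := hyp0 x (g • m) (g • x) (g • g • x)
    have q2 := hyp0 m (g • m) x (g • x)
    have s2 := (DD A).symm (g • x) (g • m)
    have s3 := (DD A).symm x m
    have s4 := (DD A).symm x (g • m)
    have := hmin m
    omega
  have hB : (DD A).Btw 0 (g⁻¹ • x) x (g • x) := by
    have j1 := iso g (g⁻¹ • x) x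
    have j2 := iso g (g⁻¹ • x) (g • x)
    rw [smul_inv_smul] at j1 j2
    unfold PM.Btw
    omega
  obtain ⟨c1, c2, -⟩ := H.chainO (DD A) 0 0 g x iso hyp0 hB (by omega)
  refine ⟨c1, fun y k => ?_⟩
  have := H.mult (DD A) g x 1 1 0 iso (fun k => by simpa using c2 k) y k
  simpa using this

theorem tf (H : HypLib) {k : GG A} (hk : k.right = 1) (hf : IsOfFinOrder k) : k = 1 := by
  rcases classify H k with ⟨x, hx⟩ | h
  · exact free hk hx
  · exact absurd hf h.1

theorem lox (H : HypLib) (hA : ∀ a : A, IsOfFinOrder a) : Lox (GG A) (DD A) 1 := by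
  intro g hg x k
  rcases classify H g with ⟨y, hy⟩ | h
  · exact absurd (fin_of_fix hA hy) hg
  · have := h.2 x k
    omega

theorem p1 (H : HypLib) (S : ShiftLib) (Li : LineLib) (Al : AlgA) : P1 (GG A) (DD A) 1 := by
  classical
  intro x y hxy
  norm_num at hxy
  obtain ⟨b, hb1, hb2⟩ := geo0 x y 20000 (by omega)
  obtain ⟨b', hb1', hb2'⟩ := geo0 x y 30000 (by omega)
  have hbb : (DD A).d b b' ≠ 0 := by
    have := (DD A).tri x b b'
    omega
  have B1 : (DD A).Btw 0 x b y := by unfold PM.Btw; omega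
  have B2 : (DD A).Btw 0 x b' y := by unfold PM.Btw; omega
  have hcomm : ∀ s h : GG A, (DD A).d x (s • x) ≤ 1000 → (DD A).d y (s • y) ≤ 1000 →
      (DD A).d x (h • x) ≤ 1000 → (DD A).d y (h • y) ≤ 1000 → s * h = h * s := by
    intro s h s1 s2 h1 h2
    have c1 := S.comm (DD A) 0 1000 s h x y b iso hyp0 s1 s2 h1 h2 B1 (by omega) (by omega) 0
      (by omega)
    have c2 := S.comm (DD A) 0 1000 s h x y b' iso hyp0 s1 s2 h1 h2 B2 (by omega) (by omega) 0
      (by omega)
    rw [cj_zero] at c1 c2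
    have := rigid (Nat.le_zero.1 c1) (Nat.le_zero.1 c2) hbb
    calc s * h = s * h * s⁻¹ * h⁻¹ * (h * s) := by group
      _ = h * s := by rw [this, one_mul]
  by_cases hall : ∀ g : GG A, (DD A).d x (g • x) ≤ 1000 → (DD A).d y (g • y) ≤ 1000 →
      (DD A).d b (g • b) = 0
  · refine ⟨⊥, Elem.of_fin inferInstance, fun g g1 g2 => ?_⟩
    have c1 := hall g (by omega) (by omega)
    have c2 := S.small (DD A) 0 1000 g x y b b' iso hyp0 (by omega) (by omega) B1 (by omega)
      (by omega) B2 (by omega) (by omega)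
    exact Subgroup.mem_bot.2 (rigid c1 (by omega) hbb)
  push Not at hall
  obtain ⟨h, h1, h2, h3⟩ := hall
  have hB := S.big (DD A) 0 1000 h x y b iso hyp0 h1 h2 B1 (by omega) (by omega) (by omega)
  have hLn : b ∈ (DD A).Ln 0 h :=
    Li.mem (DD A) 0 h 1 b iso hyp0 one_pos (by simpa using hB) (by rw [pow_one]; omega)
  have hEp : ∀ g : GG A, g * h = h * g → g ∈ Ep h := fun g hg =>
    ⟨1, one_pos, by rw [pow_one, hg]; group⟩
  have hpos : ∀ g : GG A, g * h = h * g → (DD A).d b (g • b) = 0 → g = 1 := by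
    intro g hg h0
    refine rigid h0 (y := h • b) ?_ h3
    rw [smul_smul, hg, ← smul_smul, iso h]
    exact h0
  by_cases hex : ∃ n, ∃ a : GG A, a * h = h * a ∧ a ≠ 1 ∧ (DD A).d b (a • b) = n
  swap
  · refine ⟨⊥, Elem.of_fin inferInstance, fun g g1 g2 => ?_⟩
    by_contra hg
    exact hex ⟨_, g, hcomm g h (by omega) (by omega) h1 h2, fun e => hg (e ▸ Subgroup.one_mem _),
      rfl⟩
  obtain ⟨a, ha, ha1, hn⟩ := Nat.find_spec hex
  have hmin : ∀ g : GG A, g * h = h * g → g ≠ 1 → (DD A).d b (a • b) ≤ (DD A).d b (g • b) :=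
    fun g hg hg1 => hn ▸ Nat.find_min' hex ⟨g, hg, hg1, rfl⟩
  have ha0 : (DD A).d b (a • b) ≠ 0 := fun e => ha1 (hpos a ha e)
  have hgrow : ∀ k : ℕ, k ≤ (DD A).d b (a ^ k • b) := by
    rcases classify H a with ⟨z, hz⟩ | hc
    · have := Li.disp (DD A) 0 a h b z iso hyp0 (hEp a ha) hLn
      omega
    · exact hc.2 b
  refine ⟨⊥ ⊔ Subgroup.zpowers a, Al.cyc ⊥ a inferInstance (by simp), fun g g1 g2 => ?_⟩
  have hg := hcomm g h (by omega) (by omega) h1 h2
  obtain ⟨j, hj⟩ := Li.ivt (DD A) 0 a g h b iso hyp0 (Ep_le_E h (hEp a ha)) (Ep_le_E h (hEp g hg))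
    hLn (fun R => ⟨R, fun j hj => hj.trans (hgrow j)⟩)
  have hc : a ^ j * g * h = h * (a ^ j * g) :=
    ((Commute.zpow_left (show Commute a h from ha) j).mul_left (show Commute g h from hg)).eq
  have h1' : a ^ j * g = 1 := by
    by_contra hne
    have := hmin _ hc hne
    omega
  rw [bot_sup_eq, eq_inv_of_mul_eq_one_right h1']
  exact Subgroup.inv_mem _ (Subgroup.zpow_mem_zpowers a j)

/-- An elementary subgroup of the kernel embeds in the integers. -/
theorem aff_ker (H : HypLib) {P : Subgroup (GG A)} {ε t : GG A → ℤ} (h : Aff P ε t) {g : GG A}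
    (hg : g ∈ P) (hk : g.right = 1) : ε g = 1 ∧ (t g = 0 → g = 1) := by
  refine ⟨?_, fun h0 => tf H hk ((h.fin_iff hg).2 (Or.inr h0))⟩
  rcases h.sq g hg with he | he
  · exact he
  · rw [tf H hk ((h.fin_iff hg).2 (Or.inl he))]
    exact h.e_one

theorem aff_inj (H : HypLib) {P : Subgroup (GG A)} {ε t : GG A → ℤ} (h : Aff P ε t)
    {g k : GG A} (hg : g ∈ P) (hk : k ∈ P) (g1 : g.right = 1) (k1 : k.right = 1)
    (e : t g = t k) : g = k := by
  have hm := P.mul_mem hg (P.inv_mem hk)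
  refine mul_inv_eq_one.1 ((aff_ker H h hm (by simp [g1, k1])).2 ?_)
  rw [h.tm _ hg _ (P.inv_mem hk), h.t_inv hk, (aff_ker H h hg g1).1, (aff_ker H h hk k1).1, e]
  ring

theorem a_fin1 (H : HypLib) : Fin1 (SemidirectProduct.rightHom : GG A →* A) :=
  fun g hg hf => ⟨0, by rw [pow_zero, pow_one]; exact tf H hg hf⟩

theorem fin_of_mem {G : Type} [Group G] {M : Subgroup G} (hM : Finite M) {μ : G} (hμ : μ ∈ M) :
    IsOfFinOrder μ :=
  M.subtype.isOfFinOrder (isOfFinOrder_of_finite (⟨μ, hμ⟩ : M))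

theorem a_nk (H : HypLib) : NK (SemidirectProduct.rightHom : GG A →* A) := by
  intro M hM hle hne
  exfalso
  apply hne
  rw [Subgroup.eq_bot_iff_forall]
  intro μ hμ
  exact tf H (MonoidHom.mem_ker.1 (hle hμ)) (fin_of_mem hM hμ)

theorem a_mal (H : HypLib) : Mal (SemidirectProduct.rightHom : GG A →* A) := by
  intro g k hf hg hk hc
  rcases classify H g with ⟨x, hx⟩ | h
  · by_contra hk1
    refine hg ?_
    have : g = 1 := by
      refine rigid hx (y := k • x) ?_ fun e => hk1 (free hk e)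
      rw [smul_smul, hc.eq, ← smul_smul, iso k]
      exact hx
    rw [this, _root_.map_one]
  · exact absurd hf h.1

theorem a_law (H : HypLib) : Law (SemidirectProduct.rightHom : GG A →* A) := by
  intro P hP hle x hx y hy
  obtain ⟨ε, t, h⟩ := hP
  have x1 : x.right = 1 := hle hx
  have y1 : y.right = 1 := hle hy
  have : x * y = y * x := by
    refine aff_inj H h (P.mul_mem hx hy) (P.mul_mem hy hx) (by simp [x1, y1]) (by simp [x1, y1]) ?_
    rw [h.tm _ hx _ hy, h.tm _ hy _ hx, (aff_ker H h hx x1).1, (aff_ker H h hy y1).1]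
    ring
  exact Commute.pow_pow this 2 2

theorem a_chn (H : HypLib) (Al : AlgA) (hA : ∀ a : A, IsOfFinOrder a) :
    Chn (SemidirectProduct.rightHom : GG A →* A) := by
  rintro g h hg ⟨P, hP, hmem⟩
  by_cases g1 : g = 1
  · rw [g1]; exact Subgroup.one_mem _
  have hg0 : g ∈ P := by
    have := hmem 0 (by omega)
    rwa [cj_zero] at this
  have hg1 : cj h 1 g ∈ P := hmem 1 (by omega)
  have k1 : (cj h 1 g).right = 1 := (ker_cj SemidirectProduct.rightHom h g 1).trans hg
  have e1 : cj h 1 g = h * g * h⁻¹ := by rw [cj, pow_one]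
  have m0 : ¬ IsOfFinOrder g := fun hf => g1 (tf H hg hf)
  have m1 : ¬ IsOfFinOrder (cj h 1 g) := fun hf => g1 (by
    have := tf H k1 hf
    rw [e1] at this
    exact conj_eq_one_iff.1 this)
  obtain ⟨i, j, hi, hj, e⟩ := Al.comm P hP _ hg1 _ hg0 m1 m0
  have hb := (H.bs (DD A) 1 geom (lox H hA) h g i j m0 hi (by rw [← e, e1, conj_zpow])).1
  obtain ⟨ε, t, ha⟩ := hP
  have t1 := (ha.zpow_of_e hg1 (aff_ker H ha hg1 k1).1 i).2
  have t0 := (ha.zpow_of_e hg0 (aff_ker H ha hg0 hg).1 j).2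
  rw [e, t0] at t1
  have hin : cj h 1 g ∈ Subgroup.closure {cj h 1 g, cj h 2 g, cj h 3 g} :=
    Subgroup.subset_closure (Set.mem_insert _ _)
  generalize Subgroup.closure {cj h 1 g, cj h 2 g, cj h 3 g} = Q at hin ⊢
  rcases hb with hb | hb
  · rw [hb] at t1
    have := aff_inj H ha hg0 hg1 hg k1 (mul_left_cancel₀ hi t1)
    rwa [← this] at hin
  · have h2 : t g = t (cj h 1 g)⁻¹ := by
      rw [ha.t_inv hg1, (aff_ker H ha hg1 k1).1]
      apply mul_left_cancel₀ hi
      rw [hb] at t1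
      linear_combination -t1
    have := aff_inj H ha hg0 (P.inv_mem hg1) hg
      (by rw [SemidirectProduct.inv_right, k1, inv_one]) h2
    have hin' := Q.inv_mem hin
    rwa [← this] at hin'

theorem ainv (H : HypLib) (Al : AlgA) (hA : ∀ a : A, IsOfFinOrder a) :
    AInv (SemidirectProduct.rightHom : GG A →* A) where
  fin1 := a_fin1 H
  nk := a_nk H
  mal := a_mal H
  law := a_law H
  chn := a_chn H Al hA
  sec g := ⟨SemidirectProduct.inr g.right, SemidirectProduct.inr.isOfFinOrder (hA _), rfl⟩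
  nt := ⟨SemidirectProduct.inl (of 1), rfl, fun h =>
    of_ne_one (1 : A) (SemidirectProduct.inl_injective (h.trans (_root_.map_one _).symm))⟩

end Grp

/-! ### The extension -/

section Ext
variable (F : Type) [Field F]

/-- Multiplication by units as automorphisms of the additive group. -/
def scal : Fˣ →* MulAut (Multiplicative F) where
  toFun a :=
    { toFun := fun x => Multiplicative.ofAdd ((a : F) * x.toAdd)
      invFun := fun x => Multiplicative.ofAdd (((a⁻¹ : Fˣ) : F) * x.toAdd)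
      left_inv := fun x => by simp
      right_inv := fun x => by simp
      map_mul' := fun x y => by simp [mul_add] }
  map_one' := by ext x; simp
  map_mul' a b := by ext x; simp [mul_assoc]

/-- The extension of the first level. -/
abbrev GT : Type :=
  Multiplicative F ⋊[(scal F).comp (SemidirectProduct.rightHom : GG Fˣ →* Fˣ)] GG Fˣ

theorem extD (H : HypLib) : ExtD (SemidirectProduct.rightHom : GG Fˣ →* Fˣ)
    (SemidirectProduct.rightHom : GT F →* GG Fˣ) SemidirectProduct.inl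
    (SemidirectProduct.inr.comp SemidirectProduct.inr) where
  surj := SemidirectProduct.rightHom_surjective
  inj := SemidirectProduct.inl_injective
  ker g := by rw [SemidirectProduct.range_inl_eq_ker_rightHom, MonoidHom.mem_ker]
  conj g f := by
    refine SemidirectProduct.ext ?_ (by simp)
    simp only [SemidirectProduct.mul_left, SemidirectProduct.inv_left, SemidirectProduct.left_inl,
      SemidirectProduct.mul_right, SemidirectProduct.right_inl, mul_one]
    rw [← MulAut.mul_apply, ← _root_.map_mul, mul_inv_cancel, _root_.map_one, MulAut.one_apply,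
      mul_inv_cancel_comm]
    rfl
  sec a := by simp
  invol x hx h2 := by
    classical
    rw [SemidirectProduct.range_inl_eq_ker_rightHom, MonoidHom.mem_ker]
    refine tf H hx (isOfFinOrder_iff_pow_eq_one.2 ⟨2, two_pos, ?_⟩)
    rw [← _root_.map_pow, h2, _root_.map_one]

theorem gen (g : GT F) (hg : g.right.right = 1) :
    g ∈ Subgroup.normalClosure (insert (SemidirectProduct.inr (SemidirectProduct.inl (of 1)))
      (Set.range (SemidirectProduct.inl : Multiplicative F →* GT F))) := by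
  set N := Subgroup.normalClosure (insert (SemidirectProduct.inr (SemidirectProduct.inl (of 1)))
      (Set.range (SemidirectProduct.inl : Multiplicative F →* GT F))) with hN
  have hn : N.Normal := Subgroup.normalClosure_normal
  have h1 : ∀ w : FreeGroup Fˣ,
      (SemidirectProduct.inr (SemidirectProduct.inl w : GG Fˣ) : GT F) ∈ N := by
    intro w
    induction w using FreeGroup.induction_on with
    | C1 => simp only [_root_.map_one]; exact N.one_mem
    | of a =>
      have e : (SemidirectProduct.inl (of a) : GG Fˣ) = SemidirectProduct.inr a *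
          SemidirectProduct.inl (of 1) * (SemidirectProduct.inr a)⁻¹ := by
        rw [← _root_.map_inv, ← SemidirectProduct.inl_aut, act_apply]
        simp
      rw [e, _root_.map_mul, _root_.map_mul, _root_.map_inv]
      exact hn.conj_mem _ (Subgroup.subset_normalClosure (Set.mem_insert _ _)) _
    | inv_of a ih => simp only [_root_.map_inv]; exact N.inv_mem ih
    | mul x y hx hy => simp only [_root_.map_mul]; exact N.mul_mem hx hy
  have h2 : g.right = SemidirectProduct.inl g.right.left := SemidirectProduct.ext (by simp) hg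
  rw [← SemidirectProduct.inl_left_mul_inr_right g, h2]
  exact N.mul_mem (Subgroup.subset_normalClosure (Set.mem_insert_of_mem _ ⟨_, rfl⟩)) (h1 _)

end Ext

end Base

open Base in
theorem baseStmt : HypLib → ShiftLib → LineLib → AlgA → BaseStmt := by
  intro H S Li Al F _ hF
  classical
  have hA : ∀ a : Fˣ, IsOfFinOrder a := by
    intro a
    by_cases h : a = 1
    · rw [h]; exact IsOfFinOrder.one
    · exact orderOf_pos_iff.1 (hF a h).2.pos
  exact ⟨⟨GG Fˣ, GT F, SemidirectProduct.rightHom, SemidirectProduct.rightHom,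
    SemidirectProduct.inl, SemidirectProduct.inr.comp SemidirectProduct.inr, DD Fˣ, 1,
    ⟨geom, lox H hA, p1 H S Li Al, ainv H Al hA⟩, extD F H⟩,
    SemidirectProduct.inr (SemidirectProduct.inl (FreeGroup.of 1)), rfl, gen F⟩

end Pool.Agent.Bu
end
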