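import Mathlib

/-!
Definitions and basic API for the Burnside-type construction (plan: team-store bu_PLAN.md).
All metrics are natural-number valued pseudo-metrics.
-/

set_option autoImplicit false

namespace Pool.Agent.Bu

open MulAction

/-! ### Pseudo-metrics -/

structure PM (X : Type) where
  d : X → X → ℕ
  refl : ∀ x, d x x = 0
  symm : ∀ x y, d x y = d y x
  tri : ∀ x y z, d x z ≤ d x y + d y z

namespace PM
variable {X : Type} (D : PM X)

/-- Four point condition. -/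
def Hyp (δ : ℕ) : Prop :=
  ∀ x y z w, D.d x y + D.d z w ≤ max (D.d x z + D.d y w) (D.d x w + D.d y z) + δ

/-- Coarse geodesicity with exact intermediate points. -/
def Geo (δ : ℕ) : Prop :=
  ∀ x y t, t ≤ D.d x y → ∃ z, D.d x z + D.d z y = D.d x y ∧ t ≤ D.d x z ∧ D.d x z ≤ t + δ

/-- `z` lies between `x` and `y` up to `a`. -/
def Btw (a : ℕ) (x z y : X) : Prop := D.d x z + D.d z y ≤ D.d x y + a

def Thin (τ : ℕ) : Prop :=
  ∀ x y z m, D.d x m + D.d m y = D.d x y → D.Btw τ x m z ∨ D.Btw τ z m y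

def Iso (G : Type) [Group G] [MulAction G X] : Prop :=
  ∀ (g : G) x y, D.d (g • x) (g • y) = D.d x y

/-- `p` is a closest point of `Y` to `x`. -/
def Pr (Y : Set X) (x p : X) : Prop := p ∈ Y ∧ ∀ p' ∈ Y, D.d x p ≤ D.d x p'

/-- Largest distance between closest points of `x` and of `x'`. -/
noncomputable def ang (Y : Set X) (x x' : X) : ℕ :=
  sSup {n | ∃ p p', D.Pr Y x p ∧ D.Pr Y x' p' ∧ n = D.d p p'}

/-- The coarse axis of `h`. -/
def Ln {G : Type} [Group G] [MulAction G X] (δ : ℕ) (h : G) : Set X :=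
  {b | ∀ a a', ∃ N : ℕ, ∀ I I' : ℕ, N ≤ I → N ≤ I' →
    D.Btw (6 * δ) ((h ^ I)⁻¹ • a) b (h ^ I' • a')}

end PM

structure Geom (G : Type) [Group G] {X : Type} [MulAction G X] (D : PM X) (δ : ℕ) : Prop where
  iso : D.Iso G
  pos : 1 ≤ δ
  hyp : D.Hyp δ
  geo : D.Geo δ
  ne : Nonempty X

/-! ### Elementary groups -/

section Alg
variable {G : Type} [Group G]

/-- An affine action `n ↦ t g + ε g * n` of `E` on the integers, with finite kernel. -/
structure Aff (E : Subgroup G) (ε t : G → ℤ) : Prop where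
  sq : ∀ g ∈ E, ε g = 1 ∨ ε g = -1
  em : ∀ g ∈ E, ∀ h ∈ E, ε (g * h) = ε g * ε h
  tm : ∀ g ∈ E, ∀ h ∈ E, t (g * h) = t g + ε g * t h
  fin : {g | g ∈ E ∧ ε g = 1 ∧ t g = 0}.Finite

def Elem (P : Subgroup G) : Prop := ∃ ε t, Aff P ε t

theorem conj_pow_mul {g x y : G} (h : g * x * g⁻¹ = y) (n : ℕ) : g * x ^ n * g⁻¹ = y ^ n := by
  rw [← h, conj_pow]

theorem conj_zpow_mul {g x y : G} (h : g * x * g⁻¹ = y) (n : ℤ) : g * x ^ n * g⁻¹ = y ^ n := by
  rw [← h, conj_zpow]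

/-- Elements commuting with a positive power of `h`. -/
def Ep (h : G) : Subgroup G where
  carrier := {g | ∃ m : ℕ, 0 < m ∧ g * h ^ m * g⁻¹ = h ^ m}
  one_mem' := ⟨1, one_pos, by simp⟩
  mul_mem' := by
    rintro a b ⟨m, hm, ha⟩ ⟨n, hn, hb⟩
    refine ⟨m * n, Nat.mul_pos hm hn, ?_⟩
    have h1 := conj_pow_mul ha n
    have h2 := conj_pow_mul hb m
    rw [← pow_mul] at h1
    rw [← pow_mul, mul_comm n m] at h2
    calc a * b * h ^ (m * n) * (a * b)⁻¹ = a * (b * h ^ (m * n) * b⁻¹) * a⁻¹ := by group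
      _ = _ := by rw [h2, h1]
  inv_mem' := by
    rintro a ⟨m, hm, ha⟩
    refine ⟨m, hm, ?_⟩
    calc a⁻¹ * h ^ m * a⁻¹⁻¹ = a⁻¹ * (a * h ^ m * a⁻¹) * a := by rw [ha]; group
      _ = _ := by group

/-- Elements commuting with or inverting a positive power of `h`. -/
def E (h : G) : Subgroup G where
  carrier := {g | ∃ m : ℕ, 0 < m ∧ (g * h ^ m * g⁻¹ = h ^ m ∨ g * h ^ m * g⁻¹ = (h ^ m)⁻¹)}
  one_mem' := ⟨1, one_pos, Or.inl (by simp)⟩
  mul_mem' := by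
    rintro a b ⟨m, hm, ha⟩ ⟨n, hn, hb⟩
    refine ⟨m * n, Nat.mul_pos hm hn, ?_⟩
    have e : a * b * h ^ (m * n) * (a * b)⁻¹ = a * (b * h ^ (m * n) * b⁻¹) * a⁻¹ := by group
    have ha' : a * h ^ (m * n) * a⁻¹ = h ^ (m * n) ∨ a * h ^ (m * n) * a⁻¹ = (h ^ (m * n))⁻¹ := by
      rcases ha with ha | ha
      · left; have := conj_pow_mul ha n; rwa [← pow_mul] at this
      · right; have := conj_pow_mul ha n; rwa [inv_pow, ← pow_mul] at this
    have hb' : b * h ^ (m * n) * b⁻¹ = h ^ (m * n) ∨ b * h ^ (m * n) * b⁻¹ = (h ^ (m * n))⁻¹ := by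
      rcases hb with hb | hb
      · left; have := conj_pow_mul hb m; rwa [← pow_mul, mul_comm n m] at this
      · right; have := conj_pow_mul hb m; rwa [inv_pow, ← pow_mul, mul_comm n m] at this
    rw [e]
    have inv : a * (h ^ (m * n))⁻¹ * a⁻¹ = (a * h ^ (m * n) * a⁻¹)⁻¹ := by group
    rcases hb' with hb' | hb' <;> rcases ha' with ha' | ha' <;> rw [hb']
    · exact Or.inl ha'
    · exact Or.inr ha'
    · right; rw [inv, ha']
    · left; rw [inv, ha', inv_inv]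
  inv_mem' := by
    rintro a ⟨m, hm, ha | ha⟩
    · refine ⟨m, hm, Or.inl ?_⟩
      calc a⁻¹ * h ^ m * a⁻¹⁻¹ = a⁻¹ * (a * h ^ m * a⁻¹) * a := by rw [ha]; group
        _ = _ := by group
    · refine ⟨m, hm, Or.inr ?_⟩
      calc a⁻¹ * h ^ m * a⁻¹⁻¹ = a⁻¹ * (a * h ^ m * a⁻¹)⁻¹ * a := by rw [ha]; group
        _ = _ := by group

/-- `h ^ i * g * h ^ (-i)`. -/
def cj (h : G) (i : ℕ) (g : G) : G := h ^ i * g * (h ^ i)⁻¹

/-- The law: squares commute. -/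
def SqC (P : Subgroup G) : Prop := ∀ x ∈ P, ∀ y ∈ P, Commute (x ^ 2) (y ^ 2)

/-- No element of the coset `g H` has finite order. -/
def Wild (H : Subgroup G) (g : G) : Prop := ∀ h ∈ H, ¬ IsOfFinOrder (g * h)

end Alg

/-- Lower bound for the orders of the nontrivial elements of `A`. -/
def n0 : ℕ := 10 ^ 37

def AOK (A : Type) [CommGroup A] : Prop := ∀ a : A, a ≠ 1 → n0 ≤ orderOf a ∧ Odd (orderOf a)

/-! ### The invariants of a level -/

section Invs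
variable {A G X : Type} [CommGroup A] [Group G] [MulAction G X]

def Lox (G : Type) [Group G] [MulAction G X] (D : PM X) (δ : ℕ) : Prop :=
  ∀ g : G, ¬ IsOfFinOrder g → ∀ x (k : ℕ), k * δ ≤ 10 ^ 18 * D.d x (g ^ k • x)

def P1 (G : Type) [Group G] [MulAction G X] (D : PM X) (δ : ℕ) : Prop :=
  ∀ x y, 10 ^ 7 * δ ≤ D.d x y → ∃ P : Subgroup G, Elem P ∧
    ∀ g : G, D.d x (g • x) ≤ 1000 * δ → D.d y (g • y) ≤ 1000 * δ → g ∈ P

/-- The same for an arbitrary displacement bound `R`, with threshold `30 R + w`. -/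
def P1D (G : Type) [Group G] [MulAction G X] (D : PM X) (w : ℕ) : Prop :=
  ∀ x y R, 30 * R + w ≤ D.d x y → ∃ P : Subgroup G, Elem P ∧
    ∀ g : G, D.d x (g • x) ≤ R → D.d y (g • y) ≤ R → g ∈ P

def St (G : Type) [Group G] : Prop := ∀ h : G, ¬ IsOfFinOrder h → Elem (E h)

def Fin1 (π : G →* A) : Prop := ∀ g, π g = 1 → IsOfFinOrder g → ∃ k : ℕ, g ^ (2 ^ k) = 1

def NK (π : G →* A) : Prop :=
  ∀ M : Subgroup G, Finite M → M ≤ π.ker → M ≠ ⊥ → ∀ g, (∀ μ ∈ M, g * μ * g⁻¹ ∈ M) → π g = 1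

def Mal (π : G →* A) : Prop :=
  ∀ g k, IsOfFinOrder g → π g ≠ 1 → π k = 1 → Commute g k → k = 1

def Law (π : G →* A) : Prop := ∀ P : Subgroup G, Elem P → P ≤ π.ker → SqC P

def Chn (π : G →* A) : Prop :=
  ∀ g h : G, π g = 1 → (∃ P : Subgroup G, Elem P ∧ ∀ i ≤ 5, cj h i g ∈ P) →
    g ∈ Subgroup.closure {cj h 1 g, cj h 2 g, cj h 3 g}

def ChFin (π : G →* A) : Prop :=
  ∀ g h : G, π g = 1 → (∃ P : Subgroup G, Finite P ∧ ∀ i ≤ 5, cj h i g ∈ P) →
    g ∈ Subgroup.closure {cj h 1 g, cj h 2 g, cj h 3 g}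

def Sec (π : G →* A) : Prop := ∀ g, ∃ g', IsOfFinOrder g' ∧ π g' = π g

def NT (π : G →* A) : Prop := ∃ g, π g = 1 ∧ g ≠ 1

/-- The purely algebraic invariants. -/
structure AInv (π : G →* A) : Prop where
  fin1 : Fin1 π
  nk : NK π
  mal : Mal π
  law : Law π
  chn : Chn π
  sec : Sec π
  nt : NT π

structure Inv (π : G →* A) (D : PM X) (δ : ℕ) : Prop where
  geom : Geom G D δ
  lox : Lox G D δ
  p1 : P1 G D δ
  alg : AInv π

/-- Algebraic data of a cone: stabilizer `E`, rotation group `H`. -/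
structure ConeData (π : G →* A) (E H : Subgroup G) (ε t : G → ℤ) (a : G) (n : ℕ) : Prop where
  aff : Aff E ε t
  mem : a ∈ E
  ea : ε a = 1
  ta : t a = 1
  big : n0 ≤ n
  rot : H = Subgroup.zpowers (a ^ n)
  typ : (E ≤ π.ker ∧ ∃ m k : ℕ, n = 4 * m ∧ n = 2 ^ k ∧
      ∀ g ∈ E, g * a ^ m * g⁻¹ = (a ^ m) ^ (ε g)) ∨
    (E = Subgroup.zpowers a ∧ orderOf (π a) = n)

end Invs

/-! ### Cone systems -/

structure CS (G X C : Type) [Group G] [MulAction G X] [MulAction G C] where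
  D : PM X
  δ : ℕ
  θ : ℕ
  Y : C → Set X
  H : C → Subgroup G
  geom : Geom G D δ
  hθ : 10 * δ ≤ θ
  ne : ∀ c, (Y c).Nonempty
  Yeq : ∀ (g : G) c x, x ∈ Y c → g • x ∈ Y (g • c)
  gate : ∀ c x p x' p', D.Pr (Y c) x p → D.Pr (Y c) x' p' →
    D.d p p' ≤ θ ∨ D.d x p + D.d p p' + D.d p' x' ≤ D.d x x' + θ
  ovl : ∀ c c' x x', c ≠ c' → x ∈ Y c' → x' ∈ Y c' → D.ang (Y c) x x' ≤ θ
  behr : ∀ c c' x y y', c ≠ c' → y ∈ Y c → y' ∈ Y c' →
    D.ang (Y c) x y' ≤ θ ∨ D.ang (Y c') x y ≤ θ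
  Hfix : ∀ c, ∀ h ∈ H c, h • c = c
  Hconj : ∀ (g : G) c, ∀ h ∈ H c, g * h * g⁻¹ ∈ H (g • c)
  spin : ∀ c, ∀ h ∈ H c, h ≠ 1 → ∀ b ∈ Y c, 10 ^ 10 * θ ≤ D.d b (h • b)

namespace CS
variable {G X C : Type} [Group G] [MulAction G X] [MulAction G C] (S : CS G X C)

abbrev d (x y : X) : ℕ := S.D.d x y
abbrev Pr (c : C) (x p : X) : Prop := S.D.Pr (S.Y c) x p
noncomputable abbrev ang (c : C) (x y : X) : ℕ := S.D.ang (S.Y c) x y
/-- The normal subgroup generated by the rotation groups. -/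
def N : Subgroup G := ⨆ c, S.H c

/-- Chains of segments and jumps (each jump costs `J = 1000 θ`) using only cones in `U`. -/
inductive Ch (U : Set C) : X → X → ℕ → Prop
  | seg (x y : X) : Ch U x y (S.D.d x y)
  | jump (x a b y : X) (c : C) (n : ℕ) : c ∈ U → a ∈ S.Y c → b ∈ S.Y c → Ch U b y n →
      Ch U x y (S.D.d x a + 1000 * S.θ + n)

/-- The electric metric. -/
noncomputable def dh (x y : X) : ℕ := sInf {n | S.Ch Set.univ x y n}

/-- Exact jump from `a` to `b` in `c` on an optimal chain from `x` to `y`. -/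
def EJ (c : C) (x y a b : X) : Prop :=
  a ∈ S.Y c ∧ b ∈ S.Y c ∧ S.dh x a + 1000 * S.θ + S.dh b y = S.dh x y

/-- Greendlinger property. -/
def Gr : Prop :=
  ∀ y, ∀ g ∈ S.N, g ≠ 1 → ∃ c, ∃ Q ∈ S.H c, Q ≠ 1 ∧ S.ang c y ((Q * g) • y) ≤ 13 * S.θ

end CS

/-- A cone system with its quotient. -/
structure QS (G X C Gb Xb : Type) [Group G] [MulAction G X] [MulAction G C]
    [Group Gb] [MulAction Gb Xb] extends CS G X C where
  φ : G →* Gb
  q : X → Xb
  Db : PM Xb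
  φ_surj : Function.Surjective φ
  φ_ker : ∀ g, φ g = 1 ↔ g ∈ toCS.N
  q_surj : Function.Surjective q
  q_smul : ∀ (g : G) x, q (g • x) = φ g • q x
  q_eq : ∀ x y, q x = q y → ∃ n ∈ toCS.N, y = n • x
  db_le : ∀ x y, Db.d (q x) (q y) ≤ toCS.dh x y
  db_ex : ∀ x y, ∃ n ∈ toCS.N, toCS.dh x (n • y) = Db.d (q x) (q y)

namespace QS
variable {G X C Gb Xb : Type} [Group G] [MulAction G X] [MulAction G C]
  [Group Gb] [MulAction Gb Xb] (S : QS G X C Gb Xb)

abbrev db (u v : Xb) : ℕ := S.Db.d u v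
def Exact (x y : X) : Prop := S.dh x y = S.db (S.q x) (S.q y)
/-- Distance in the quotient from `u` to the image of the cone `c`. -/
noncomputable def r (c : C) (u : Xb) : ℕ := sInf {n | ∃ p ∈ S.Y c, n = S.db u (S.q p)}
def Pi (c : C) (u : Xb) (p : X) : Prop := p ∈ S.Y c ∧ S.db u (S.q p) = S.r c u
/-- Angle in the quotient. -/
noncomputable def qang (c : C) (u v : Xb) : ℕ :=
  sInf {n | ∃ p p', S.Pi c u p ∧ S.Pi c v p' ∧ n = S.d p p'}
def Sim (c c' : C) : Prop := ∃ n ∈ S.N, c' = n • c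

end QS

/-- The full setting of the induction step. -/
structure FS (A G X C Gb Xb : Type) [CommGroup A] [Group G] [MulAction G X] [MulAction G C]
    [Group Gb] [MulAction Gb Xb] extends QS G X C Gb Xb where
  π : G →* A
  πb : Gb →* A
  πb_φ : ∀ g, πb (φ g) = π g
  hA : AOK A
  hθδ : θ = 10 ^ 8 * δ
  inv : Inv π D δ
  cone : ∀ c, ∃ ε t a n, ConeData π (stabilizer G c) (H c) ε t a n
  mov : ∀ c ε t, Aff (stabilizer G c) ε t → ∀ g ∈ stabilizer G c, ε g = 1 → t g = 0 →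
    ∀ b ∈ Y c, D.d b (g • b) ≤ θ
  far : ∀ c ε t a, Aff (stabilizer G c) ε t → a ∈ stabilizer G c → ε a = 1 → t a = 1 →
    ∀ g ∈ stabilizer G c, ε g = 1 → (n0 : ℤ) ≤ 3 * |t g| → ∀ b ∈ Y c, 10 ^ 10 * θ ≤ D.d b (g • b)
  over2 : ∀ c (g : G) z z' R, D.d z (g • z) ≤ R → D.d z' (g • z') ≤ R →
    30 * R + 100 * θ ≤ D.ang (Y c) z z' → g • c = c
  p1d : P1D G D θ
  short : ∀ (g : G) x, ¬ IsOfFinOrder g → D.d x (g • x) ≤ 21 * δ → ∃ c : C, g • c = c

/-- The algebraic setting of the induction step. -/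
structure AlgS {A G C Gb : Type} [CommGroup A] [Group G] [MulAction G C] [Group Gb]
    (π : G →* A) (φ : G →* Gb) (πb : Gb →* A) (H : C → Subgroup G) : Prop where
  hA : AOK A
  old : AInv π
  surj : Function.Surjective φ
  comp : ∀ g, πb (φ g) = π g
  cone : ∀ c, ∃ ε t a n, ConeData π (stabilizer G c) (H c) ε t a n
  Hconj : ∀ (g : G) c, ∀ h ∈ H c, g * h * g⁻¹ ∈ H (g • c)
  stab : ∀ c (g : G), g • c = c → (φ g = 1 ↔ g ∈ H c)
  tf : ∀ g, φ g = 1 → IsOfFinOrder g → g = 1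
  exc : ∀ g, φ g = 1 → g ≠ 1 → Nonempty C
  l1 : ∀ P : Subgroup Gb, Finite P →
    (∃ Q : Subgroup G, Finite Q ∧ Q.map φ = P) ∨ ∃ c : C, P ≤ (stabilizer G c).map φ
  rot1 : ∀ c (g : G), g • c = c → Wild (H c) g → ∀ (c' : C) (g' : G), g' • c' = c' → φ g' = φ g →
    ∃ n, φ n = 1 ∧ c' = n • c
  rot2 : ∀ c (g : G), g • c = c → Wild (H c) g → ∀ g', φ g' = φ g → ¬ IsOfFinOrder g'
  l2 : ∀ Q Q' : Subgroup G, Finite Q → Finite Q' → Q.map φ ≤ Q'.map φ →
    ∃ y, π y = 1 ∧ (∀ g ∈ Q, y * g * y⁻¹ ∈ Q' ∧ φ (y * g * y⁻¹) = φ g) ∧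
      (Q ⊓ π.ker = ⊥ → φ y = 1)

/-- Extension of `G` by the additive group of the field `F`. -/
structure ExtD {F G Gt : Type} [Field F] [Group G] [Group Gt] (π : G →* Fˣ) (p : Gt →* G)
    (ι : Multiplicative F →* Gt) (σ : Fˣ →* Gt) : Prop where
  surj : Function.Surjective p
  inj : Function.Injective ι
  ker : ∀ g, p g = 1 ↔ g ∈ ι.range
  conj : ∀ (g : Gt) (f : F), g * ι (Multiplicative.ofAdd f) * g⁻¹ =
    ι (Multiplicative.ofAdd ((π (p g) : F) * f))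
  sec : ∀ a, π (p (σ a)) = a
  invol : ∀ x, π (p x) = 1 → x ^ 2 = 1 → x ∈ ι.range

/-- Data of a lifted rotation group. -/
def ExtCone {A G Gt : Type} [CommGroup A] [Group G] [Group Gt] (π : G →* A) (p : Gt →* G)
    (E : Subgroup G) (Ht : Subgroup Gt) : Prop :=
  ∃ ε t a n, ∃ ρ : Gt, ConeData π E (Ht.map p) ε t a n ∧ Ht = Subgroup.zpowers ρ ∧ p ρ = a ^ n ∧
    (∀ g, p g ∈ E → g * ρ * g⁻¹ ∈ Ht) ∧ (E ≤ π.ker → ∀ g, p g ∈ E → g ^ 2 ≠ ρ)

/-- A level of the construction. -/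
structure Lvl (F : Type) [Field F] where
  G : Type
  Gt : Type
  [gG : Group G]
  [gGt : Group Gt]
  π : G →* Fˣ
  p : Gt →* G
  ι : Multiplicative F →* Gt
  σ : Fˣ →* Gt
  D : PM G
  δ : ℕ
  inv : Inv π D δ
  ext : ExtD π p ι σ

attribute [instance] Lvl.gG Lvl.gGt


/-! ### Basic API: projections and angles -/

namespace PM
variable {X : Type} (D : PM X)

theorem pr_ex {Y : Set X} (hY : Y.Nonempty) (x : X) : ∃ p, D.Pr Y x p := by
  classical
  have h : ∃ n, ∃ p ∈ Y, D.d x p = n := by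
    obtain ⟨p, hp⟩ := hY; exact ⟨_, p, hp, rfl⟩
  obtain ⟨p, hp, e⟩ := Nat.find_spec h
  exact ⟨p, hp, fun p' hp' => e ▸ Nat.find_min' h ⟨p', hp', rfl⟩⟩

theorem pr_self {Y : Set X} {p : X} (hp : p ∈ Y) : D.Pr Y p p :=
  ⟨hp, fun _ _ => by rw [D.refl]; exact Nat.zero_le _⟩

theorem ang_bdd (Y : Set X) (x x' : X) :
    BddAbove {n | ∃ p p', D.Pr Y x p ∧ D.Pr Y x' p' ∧ n = D.d p p'} := by
  by_cases hY : Y.Nonempty
  · obtain ⟨y, hy⟩ := hY
    refine ⟨D.d x y + D.d x x' + D.d x' y, ?_⟩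
    rintro n ⟨p, p', hp, hp', rfl⟩
    have h1 := hp.2 y hy
    have h2 := hp'.2 y hy
    have h3 := D.tri p x p'
    have h4 := D.tri x x' p'
    have h5 := D.symm p x
    omega
  · refine ⟨0, ?_⟩
    rintro n ⟨p, p', hp, -, -⟩
    exact absurd ⟨p, hp.1⟩ hY

theorem le_ang {Y : Set X} {x x' p p' : X} (hp : D.Pr Y x p) (hp' : D.Pr Y x' p') :
    D.d p p' ≤ D.ang Y x x' :=
  le_csSup (D.ang_bdd Y x x') ⟨p, p', hp, hp', rfl⟩

theorem ang_ex {Y : Set X} (hY : Y.Nonempty) (x x' : X) :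
    ∃ p p', D.Pr Y x p ∧ D.Pr Y x' p' ∧ D.ang Y x x' = D.d p p' := by
  obtain ⟨p, hp⟩ := D.pr_ex hY x
  obtain ⟨p', hp'⟩ := D.pr_ex hY x'
  exact Nat.sSup_mem (s := {n | ∃ p p', D.Pr Y x p ∧ D.Pr Y x' p' ∧ n = D.d p p'})
    ⟨_, p, p', hp, hp', rfl⟩ (D.ang_bdd Y x x')

theorem ang_symm (Y : Set X) (x x' : X) : D.ang Y x x' = D.ang Y x' x := by
  unfold ang
  congr 1
  ext n
  constructor <;> rintro ⟨p, p', hp, hp', rfl⟩ <;> exact ⟨p', p, hp', hp, D.symm _ _⟩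

theorem ang_tri {Y : Set X} (hY : Y.Nonempty) (x y z : X) :
    D.ang Y x z ≤ D.ang Y x y + D.ang Y y z := by
  obtain ⟨p, p', hp, hp', e⟩ := D.ang_ex hY x z
  obtain ⟨s, hs⟩ := D.pr_ex hY y
  have h1 := D.le_ang hp hs
  have h2 := D.le_ang hs hp'
  have h3 := D.tri p s p'
  omega

theorem ang_mem {Y : Set X} {a b : X} (ha : a ∈ Y) (hb : b ∈ Y) : D.ang Y a b = D.d a b := by
  apply le_antisymm
  · obtain ⟨p, p', hp, hp', e⟩ := D.ang_ex ⟨a, ha⟩ a b
    have h1 := hp.2 a ha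
    have h2 := hp'.2 b hb
    have h3 := D.tri p a p'
    have h4 := D.tri a b p'
    have h5 := D.symm p a
    have h6 := D.refl a
    have h7 := D.refl b
    omega
  · exact D.le_ang (D.pr_self ha) (D.pr_self hb)

theorem Iso.inv_smul {G : Type} [Group G] [MulAction G X] {D : PM X} (h : D.Iso G) (g : G)
    (x y : X) : D.d (g⁻¹ • x) y = D.d x (g • y) := by
  rw [← h g, smul_inv_smul]

end PM

/-! ### Basic API: affine actions -/

namespace Aff
variable {G : Type} [Group G] {P : Subgroup G} {ε t : G → ℤ} (h : Aff P ε t)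
include h

theorem e_one : ε 1 = 1 := by
  have h1 := h.em 1 P.one_mem 1 P.one_mem
  rw [mul_one] at h1
  rcases h.sq 1 P.one_mem with h2 | h2
  · exact h2
  · rw [h2] at h1; omega

theorem t_one : t 1 = 0 := by
  have h1 := h.tm 1 P.one_mem 1 P.one_mem
  rw [mul_one, h.e_one] at h1
  omega

theorem e_inv {g : G} (hg : g ∈ P) : ε g⁻¹ = ε g := by
  have h1 := h.em g hg g⁻¹ (P.inv_mem hg)
  rw [mul_inv_cancel, h.e_one] at h1
  rcases h.sq g hg with h2 | h2 <;> rw [h2] at h1 ⊢ <;> omega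

theorem t_inv {g : G} (hg : g ∈ P) : t g⁻¹ = -(ε g * t g) := by
  have h1 := h.tm g hg g⁻¹ (P.inv_mem hg)
  rw [mul_inv_cancel, h.t_one] at h1
  rcases h.sq g hg with h2 | h2 <;> rw [h2] at h1 ⊢ <;> omega

theorem pow_of_e {g : G} (hg : g ∈ P) (he : ε g = 1) (n : ℕ) :
    ε (g ^ n) = 1 ∧ t (g ^ n) = n * t g := by
  induction n with
  | zero => simp [h.e_one, h.t_one]
  | succ n ih =>
    rw [pow_succ, h.em _ (P.pow_mem hg n) _ hg, h.tm _ (P.pow_mem hg n) _ hg, ih.1, ih.2, he]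
    constructor
    · rfl
    · push_cast; ring

theorem zpow_of_e {g : G} (hg : g ∈ P) (he : ε g = 1) (n : ℤ) :
    ε (g ^ n) = 1 ∧ t (g ^ n) = n * t g := by
  obtain ⟨m, rfl | rfl⟩ := n.eq_nat_or_neg
  · rw [zpow_natCast]; exact h.pow_of_e hg he m
  · have h1 := h.pow_of_e hg he m
    rw [zpow_neg, zpow_natCast, h.e_inv (P.pow_mem hg m), h.t_inv (P.pow_mem hg m), h1.1, h1.2]
    constructor
    · rfl
    · ring

theorem sq_of_neg {g : G} (hg : g ∈ P) (he : ε g = -1) : ε (g ^ 2) = 1 ∧ t (g ^ 2) = 0 := by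
  rw [pow_two, h.em _ hg _ hg, h.tm _ hg _ hg, he]
  constructor
  · rfl
  · ring

theorem conj {g x : G} (hg : g ∈ P) (hx : x ∈ P) (he : ε x = 1) :
    ε (g * x * g⁻¹) = 1 ∧ t (g * x * g⁻¹) = ε g * t x := by
  have hi := P.inv_mem hg
  rw [h.em _ (P.mul_mem hg hx) _ hi, h.tm _ (P.mul_mem hg hx) _ hi, h.em _ hg _ hx,
    h.tm _ hg _ hx, h.e_inv hg, h.t_inv hg, he]
  rcases h.sq g hg with h2 | h2 <;> rw [h2] <;> constructor <;> ring

/-- The finite kernel of the affine action. -/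
def ker : Subgroup G where
  carrier := {g | g ∈ P ∧ ε g = 1 ∧ t g = 0}
  one_mem' := ⟨P.one_mem, h.e_one, h.t_one⟩
  mul_mem' := by
    rintro a b ⟨ha, ea, ta⟩ ⟨hb, eb, tb⟩
    refine ⟨P.mul_mem ha hb, ?_, ?_⟩
    · rw [h.em _ ha _ hb, ea, eb]; rfl
    · rw [h.tm _ ha _ hb, ta, tb]; simp
  inv_mem' := by
    rintro a ⟨ha, ea, ta⟩
    refine ⟨P.inv_mem ha, ?_, ?_⟩
    · rw [h.e_inv ha, ea]
    · rw [h.t_inv ha, ta]; simp

theorem mem_ker {g : G} : g ∈ h.ker ↔ g ∈ P ∧ ε g = 1 ∧ t g = 0 := Iff.rfl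

theorem ker_fin : Finite h.ker := h.fin.to_subtype

theorem ker_conj {g μ : G} (hg : g ∈ P) (hμ : μ ∈ h.ker) : g * μ * g⁻¹ ∈ h.ker := by
  obtain ⟨h1, h2, h3⟩ := hμ
  have := h.conj hg h1 h2
  exact ⟨P.mul_mem (P.mul_mem hg h1) (P.inv_mem hg), this.1, by rw [this.2, h3]; simp⟩

theorem fin_of_ker {μ : G} (hμ : μ ∈ h.ker) : IsOfFinOrder μ := by
  have := h.ker_fin
  have h1 : IsOfFinOrder (⟨μ, hμ⟩ : h.ker) := isOfFinOrder_of_finite _
  exact (h.ker.subtype.isOfFinOrder h1)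

theorem fin_iff {g : G} (hg : g ∈ P) : IsOfFinOrder g ↔ ε g = -1 ∨ t g = 0 := by
  constructor
  · intro hf
    rcases h.sq g hg with he | he
    · right
      obtain ⟨n, hn, e⟩ := isOfFinOrder_iff_pow_eq_one.1 hf
      have h1 := (h.pow_of_e hg he n).2
      rw [e, h.t_one] at h1
      rcases mul_eq_zero.1 h1.symm with h2 | h2
      · exfalso; omega
      · exact h2
    · exact Or.inl he
  · intro hh
    rcases h.sq g hg with he | he
    · rcases hh with hh | hh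
      · omega
      · exact h.fin_of_ker ⟨hg, he, hh⟩
    · have h1 := h.sq_of_neg hg he
      exact (h.fin_of_ker ⟨P.pow_mem hg 2, h1.1, h1.2⟩).of_pow two_ne_zero

theorem mono {Q : Subgroup G} (hQ : Q ≤ P) : Aff Q ε t :=
  ⟨fun g hg => h.sq g (hQ hg), fun g hg k hk => h.em g (hQ hg) k (hQ hk),
    fun g hg k hk => h.tm g (hQ hg) k (hQ hk),
    h.fin.subset fun _ hg => ⟨hQ hg.1, hg.2⟩⟩

/-- Decomposition `g = μ * a ^ (t g)`. -/
theorem dec {a g : G} (ha : a ∈ P) (ea : ε a = 1) (ta : t a = 1) (hg : g ∈ P) (he : ε g = 1) :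
    g * (a ^ t g)⁻¹ ∈ h.ker := by
  have h1 := h.zpow_of_e ha ea (t g)
  have h2 := P.zpow_mem ha (t g)
  refine ⟨P.mul_mem hg (P.inv_mem h2), ?_, ?_⟩
  · rw [h.em _ hg _ (P.inv_mem h2), h.e_inv h2, he, h1.1]; rfl
  · rw [h.tm _ hg _ (P.inv_mem h2), h.t_inv h2, he, h1.1, h1.2, ta]; ring

end Aff

section
variable {G : Type} [Group G]

theorem Elem.mono {P Q : Subgroup G} (h : Elem P) (hQ : Q ≤ P) : Elem Q := by
  obtain ⟨ε, t, h⟩ := h
  exact ⟨ε, t, h.mono hQ⟩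

theorem Elem.of_fin {P : Subgroup G} (h : Finite P) : Elem P :=
  ⟨fun _ => 1, fun _ => 0, fun _ _ => Or.inl rfl, fun _ _ _ _ => rfl, fun _ _ _ _ => rfl,
    (Set.toFinite (P : Set G)).subset fun _ hg => hg.1⟩

/-- An additive map to the integers with finite kernel. -/
theorem Elem.of_hom {P : Subgroup G} (s : G → ℤ) (hs : ∀ g ∈ P, ∀ h ∈ P, s (g * h) = s g + s h)
    (hf : {g | g ∈ P ∧ s g = 0}.Finite) : Elem P :=
  ⟨fun _ => 1, s, fun _ _ => Or.inl rfl, fun _ _ _ _ => rfl,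
    fun g hg k hk => by rw [hs g hg k hk]; simp, hf.subset fun _ hg => ⟨hg.1, hg.2.2⟩⟩

theorem Ep_le_E (h : G) : Ep h ≤ E h := fun _ ⟨m, hm, e⟩ => ⟨m, hm, Or.inl e⟩

theorem mem_Ep_self (h : G) : h ∈ Ep h := ⟨1, one_pos, by simp⟩

theorem mem_E_self (h : G) : h ∈ E h := Ep_le_E h (mem_Ep_self h)

theorem cj_zero (h g : G) : cj h 0 g = g := by simp [cj]

theorem cj_succ (h g : G) (i : ℕ) : cj h (i + 1) g = h * cj h i g * h⁻¹ := by
  simp only [cj, pow_succ']; group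

theorem map_cj {G' : Type} [Group G'] (φ : G →* G') (h g : G) (i : ℕ) :
    φ (cj h i g) = cj (φ h) i (φ g) := by simp [cj]

theorem ker_cj {A : Type} [CommGroup A] (π : G →* A) (h g : G) (i : ℕ) :
    π (cj h i g) = π g := by simp [cj]

end

/-! ### Basic API: cone systems -/

namespace CS
variable {G X C : Type} [Group G] [MulAction G X] [MulAction G C] (S : CS G X C)

theorem iso (g : G) (x y : X) : S.d (g • x) (g • y) = S.d x y := S.geom.iso g x y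

theorem θ_pos : 10 ≤ S.θ := by have := S.geom.pos; have := S.hθ; omega

theorem mem_smul {g : G} {c : C} {x : X} : g • x ∈ S.Y (g • c) ↔ x ∈ S.Y c :=
  ⟨fun h => by simpa using S.Yeq g⁻¹ _ _ h, S.Yeq g c x⟩

theorem pr_ex (c : C) (x : X) : ∃ p, S.Pr c x p := S.D.pr_ex (S.ne c) x

theorem pr_smul (g : G) {c : C} {x p : X} (h : S.Pr c x p) : S.Pr (g • c) (g • x) (g • p) := by
  refine ⟨S.Yeq g c p h.1, fun p' hp' => ?_⟩
  have h1 : g⁻¹ • p' ∈ S.Y c := by simpa using S.Yeq g⁻¹ _ _ hp'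
  have h2 := h.2 _ h1
  have h3 := S.iso g x (g⁻¹ • p')
  have h4 := S.iso g x p
  rw [smul_inv_smul] at h3
  simp only [d] at h3 h4
  omega

theorem ang_ex (c : C) (x x' : X) :
    ∃ p p', S.Pr c x p ∧ S.Pr c x' p' ∧ S.ang c x x' = S.d p p' := S.D.ang_ex (S.ne c) x x'

theorem ang_symm (c : C) (x y : X) : S.ang c x y = S.ang c y x := S.D.ang_symm _ x y

theorem ang_tri (c : C) (x y z : X) : S.ang c x z ≤ S.ang c x y + S.ang c y z :=
  S.D.ang_tri (S.ne c) x y z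

theorem ang_smul_le (g : G) (c : C) (x y : X) :
    S.ang c x y ≤ S.ang (g • c) (g • x) (g • y) := by
  obtain ⟨p, p', hp, hp', e⟩ := S.ang_ex c x y
  rw [e, ← S.iso g]
  exact S.D.le_ang (S.pr_smul g hp) (S.pr_smul g hp')

theorem ang_smul (g : G) (c : C) (x y : X) : S.ang (g • c) (g • x) (g • y) = S.ang c x y := by
  apply le_antisymm
  · simpa using S.ang_smul_le g⁻¹ (g • c) (g • x) (g • y)
  · exact S.ang_smul_le g c x y

theorem ang_le_d (c : C) (x y : X) : S.ang c x y ≤ S.d x y + S.θ := by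
  obtain ⟨p, p', hp, hp', e⟩ := S.ang_ex c x y
  have := S.gate c x p y p' hp hp'
  simp only [d, ang] at *
  omega

theorem ang_pr {c : C} {x p : X} (hp : S.Pr c x p) : S.ang c x p ≤ S.θ := by
  obtain ⟨s, s', hs, hs', e⟩ := S.ang_ex c x p
  have h1 := S.gate c x s x p hs hp
  have h2 := hs'.2 p hp.1
  have h3 := S.D.refl p
  have h4 := S.D.refl x
  have h5 := S.D.tri s p s'
  simp only [d, ang] at *
  omega

/-- Gatedness. -/
theorem gate0 {c : C} {x p b : X} (hp : S.Pr c x p) (hb : b ∈ S.Y c) :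
    S.d x p + S.d p b ≤ S.d x b + S.θ := by
  have h1 := S.gate c x p b b hp (S.D.pr_self hb)
  have h2 := hp.2 b hb
  have h3 := S.D.refl b
  simp only [d] at *
  omega

/-- Quasiconvexity. -/
theorem qc {c : C} {a b u p : X} {e : ℕ} (ha : a ∈ S.Y c) (hb : b ∈ S.Y c)
    (h : S.D.Btw e a u b) (hp : S.Pr c u p) : 2 * S.d u p ≤ e + 2 * S.θ := by
  have h1 := S.gate0 hp ha
  have h2 := S.gate0 hp hb
  have h3 := S.geom.hyp a b u p
  have h4 := S.hθ
  have h5 := S.D.symm a u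
  have h6 := S.D.symm a p
  have h7 := S.D.symm b u
  have h8 := S.D.symm b p
  simp only [d, PM.Btw] at *
  omega

theorem spin_ang {c : C} {h : G} (hh : h ∈ S.H c) (h1 : h ≠ 1) (x : X) :
    10 ^ 10 * S.θ ≤ S.ang c x (h • x) := by
  obtain ⟨p, hp⟩ := S.pr_ex c x
  have h2 := S.pr_smul h hp
  rw [S.Hfix c h hh] at h2
  exact (S.spin c h hh h1 p hp.1).trans (S.D.le_ang hp h2)

theorem H_le_N (c : C) : S.H c ≤ S.N := le_iSup S.H c

theorem N_normal : S.N.Normal := by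
  constructor
  intro n hn g
  refine Subgroup.iSup_induction S.H (C := fun n => g * n * g⁻¹ ∈ S.N) hn ?_ ?_ ?_
  · intro c h hh; exact S.H_le_N _ (S.Hconj g c h hh)
  · simp
  · intro x y hx hy
    have : g * (x * y) * g⁻¹ = g * x * g⁻¹ * (g * y * g⁻¹) := by group
    rw [this]; exact S.N.mul_mem hx hy

theorem H_mem {c : C} {h : G} (hh : h ∈ S.H c) {b : X} (hb : b ∈ S.Y c) : h • b ∈ S.Y c := by
  have := S.Yeq h c b hb
  rwa [S.Hfix c h hh] at this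

variable {S}

theorem Ch.mono {U V : Set C} (hUV : U ⊆ V) {x y : X} {n : ℕ} (h : S.Ch U x y n) :
    S.Ch V x y n := by
  induction h with
  | seg x y => exact Ch.seg x y
  | jump x a b y c n hc ha hb _ ih => exact Ch.jump x a b y c n (hUV hc) ha hb ih

/-- Moving the starting point. -/
theorem Ch.start {U : Set C} {y z : X} {n : ℕ} (h : S.Ch U y z n) (x : X) :
    ∃ k ≤ S.d x y + n, S.Ch U x z k := by
  cases h with
  | seg => exact ⟨_, S.D.tri x y z, Ch.seg x z⟩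
  | jump _ a b _ c n hc ha hb h =>
    refine ⟨_, ?_, Ch.jump x a b z c n hc ha hb h⟩
    have := S.D.tri x y a
    simp only [d]; omega

theorem Ch.trans {U : Set C} {x y z : X} {m n : ℕ} (h : S.Ch U x y m) (h' : S.Ch U y z n) :
    ∃ k ≤ m + n, S.Ch U x z k := by
  induction h with
  | seg x y => exact h'.start x
  | jump x a b y c m hc ha hb _ ih =>
    obtain ⟨k, hk, h1⟩ := ih h'
    exact ⟨_, by omega, Ch.jump x a b z c k hc ha hb h1⟩

theorem Ch.symm {U : Set C} {x y : X} {n : ℕ} (h : S.Ch U x y n) : ∃ k ≤ n, S.Ch U y x k := by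
  induction h with
  | seg x y => exact ⟨_, (S.D.symm y x).le, Ch.seg y x⟩
  | jump x a b y c n hc ha hb _ ih =>
    obtain ⟨k, hk, h1⟩ := ih
    obtain ⟨l, hl, h2⟩ := h1.trans (Ch.jump b b a x c _ hc hb ha (Ch.seg a x))
    refine ⟨l, ?_, h2⟩
    have := S.D.refl b
    have := S.D.symm a x
    omega

theorem Ch.smul {x y : X} {n : ℕ} (g : G) (h : S.Ch Set.univ x y n) :
    S.Ch Set.univ (g • x) (g • y) n := by
  induction h with
  | seg x y => rw [← S.geom.iso g x y]; exact Ch.seg _ _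
  | jump x a b y c n hc ha hb _ ih =>
    rw [← S.geom.iso g x a]
    exact Ch.jump _ _ _ _ (g • c) n trivial (S.Yeq g c a ha) (S.Yeq g c b hb) ih

theorem Ch.dh_le {U : Set C} {x y : X} {n : ℕ} (h : S.Ch U x y n) : S.dh x y ≤ n :=
  Nat.sInf_le (h.mono (Set.subset_univ U))

variable (S)

theorem dh_ch (x y : X) : S.Ch Set.univ x y (S.dh x y) :=
  Nat.sInf_mem (s := {n | S.Ch Set.univ x y n}) ⟨_, Ch.seg x y⟩

theorem dh_le_d (x y : X) : S.dh x y ≤ S.d x y := (Ch.seg (U := Set.univ) x y).dh_le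

theorem dh_refl (x : X) : S.dh x x = 0 := by
  have := S.dh_le_d x x
  have := S.D.refl x
  simp only [d] at *
  omega

theorem dh_tri (x y z : X) : S.dh x z ≤ S.dh x y + S.dh y z := by
  obtain ⟨k, hk, h⟩ := (S.dh_ch x y).trans (S.dh_ch y z)
  exact h.dh_le.trans hk

theorem dh_symm (x y : X) : S.dh x y = S.dh y x := by
  apply le_antisymm
  · obtain ⟨k, hk, h⟩ := (S.dh_ch y x).symm
    exact h.dh_le.trans hk
  · obtain ⟨k, hk, h⟩ := (S.dh_ch x y).symm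
    exact h.dh_le.trans hk

theorem dh_smul (g : G) (x y : X) : S.dh (g • x) (g • y) = S.dh x y := by
  apply le_antisymm
  · exact ((S.dh_ch x y).smul g).dh_le
  · simpa using ((S.dh_ch (g • x) (g • y)).smul g⁻¹).dh_le

theorem dh_jump {c : C} {a b : X} (ha : a ∈ S.Y c) (hb : b ∈ S.Y c) :
    S.dh a b ≤ 1000 * S.θ := by
  have h := (Ch.jump (U := Set.univ) a a b b c _ trivial ha hb (Ch.seg b b)).dh_le
  have := S.D.refl a
  have := S.D.refl b
  omega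

theorem dh_small {x y : X} (h : S.dh x y < 1000 * S.θ) : S.dh x y = S.d x y := by
  have h1 := S.dh_ch x y
  generalize S.dh x y = n at h h1
  cases h1 with
  | seg => rfl
  | jump => omega

/-- The electric metric as a pseudo-metric. -/
noncomputable def Dh : PM X := ⟨S.dh, S.dh_refl, S.dh_symm, S.dh_tri⟩

theorem EJ.symm {c : C} {x y a b : X} (h : S.EJ c x y a b) : S.EJ c y x b a := by
  obtain ⟨ha, hb, e⟩ := h
  refine ⟨hb, ha, ?_⟩
  rw [S.dh_symm y b, S.dh_symm a x, S.dh_symm y x]; omega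

end CS

/-! ### Basic API: the quotient -/

namespace QS
variable {G X C Gb Xb : Type} [Group G] [MulAction G X] [MulAction G C]
  [Group Gb] [MulAction Gb Xb] (S : QS G X C Gb Xb)

theorem q_N {n : G} (hn : n ∈ S.N) (x : X) : S.q (n • x) = S.q x := by
  rw [S.q_smul, (S.φ_ker n).2 hn, one_smul]

theorem db_iso : S.Db.Iso Gb := by
  have key : ∀ (g : Gb) u v, S.Db.d (g • u) (g • v) ≤ S.Db.d u v := by
    intro g u v
    obtain ⟨g, rfl⟩ := S.φ_surj g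
    obtain ⟨x, rfl⟩ := S.q_surj u
    obtain ⟨y, rfl⟩ := S.q_surj v
    obtain ⟨n, hn, e⟩ := S.db_ex x y
    have h1 := S.db_le (g • x) (g • n • y)
    rw [S.dh_smul, e, S.q_smul, S.q_smul, S.q_N hn] at h1
    exact h1
  intro g u v
  apply le_antisymm (key g u v)
  simpa using key g⁻¹ (g • u) (g • v)

/-- Every point of the quotient has an exact lift seen from `x`. -/
theorem exact_ex (x : X) (v : Xb) : ∃ y, S.q y = v ∧ S.Exact x y := by
  obtain ⟨y, rfl⟩ := S.q_surj v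
  obtain ⟨n, hn, e⟩ := S.db_ex x y
  exact ⟨n • y, S.q_N hn y, by unfold Exact; rw [e, S.q_N hn]⟩

theorem Exact.symm {x y : X} (h : S.Exact x y) : S.Exact y x := by
  unfold Exact at *
  rw [S.dh_symm, h]; exact S.Db.symm _ _

theorem Exact.smul {x y : X} (h : S.Exact x y) (g : G) : S.Exact (g • x) (g • y) := by
  unfold Exact at *
  rw [S.dh_smul, h, S.q_smul, S.q_smul]; exact (S.db_iso _ _ _).symm

theorem r_le {c : C} {p : X} (hp : p ∈ S.Y c) (u : Xb) : S.r c u ≤ S.db u (S.q p) :=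
  Nat.sInf_le ⟨p, hp, rfl⟩

theorem pi_ex (c : C) (u : Xb) : ∃ p, S.Pi c u p := by
  obtain ⟨p, hp⟩ := S.ne c
  obtain ⟨p', hp', e⟩ := Nat.sInf_mem (s := {n | ∃ p ∈ S.Y c, n = S.db u (S.q p)}) ⟨_, p, hp, rfl⟩
  exact ⟨p', hp', e.symm⟩

theorem r_lip (c : C) (u v : Xb) : S.r c u ≤ S.db u v + S.r c v := by
  obtain ⟨p, hp, e⟩ := S.pi_ex c v
  rw [← e]
  exact (S.r_le hp u).trans (S.Db.tri _ _ _)

theorem r_mem {c : C} {p : X} (hp : p ∈ S.Y c) : S.r c (S.q p) = 0 := by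
  have h := S.r_le hp (S.q p)
  have := S.Db.refl (S.q p)
  simp only [db] at h
  omega

theorem pi_mem {c : C} {p : X} (hp : p ∈ S.Y c) : S.Pi c (S.q p) p :=
  ⟨hp, by rw [S.r_mem hp]; exact S.Db.refl _⟩

theorem db_le_r (c : C) (u v : Xb) : S.db u v ≤ S.r c u + 1000 * S.θ + S.r c v := by
  obtain ⟨p, hp, e⟩ := S.pi_ex c u
  obtain ⟨p', hp', e'⟩ := S.pi_ex c v
  have h1 := (S.db_le p p').trans (S.dh_jump hp hp')
  have h2 := S.Db.tri u (S.q p) v
  have h3 := S.Db.tri (S.q p) (S.q p') v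
  have h4 := S.Db.symm v (S.q p')
  simp only [db] at *
  omega

theorem r_smul (g : G) (c : C) (u : Xb) : S.r (g • c) (S.φ g • u) = S.r c u := by
  have key : ∀ (g : G) (c : C) (u : Xb), S.r (g • c) (S.φ g • u) ≤ S.r c u := by
    intro g c u
    obtain ⟨p, hp, e⟩ := S.pi_ex c u
    have h1 := S.r_le (S.Yeq g c p hp) (S.φ g • u)
    rw [S.q_smul] at h1
    rw [← e]
    exact h1.trans (S.db_iso _ _ _).le
  apply le_antisymm (key g c u)
  simpa [← mul_smul] using key g⁻¹ (g • c) (S.φ g • u)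

theorem Pi.smul {c : C} {u : Xb} {p : X} (h : S.Pi c u p) (g : G) :
    S.Pi (g • c) (S.φ g • u) (g • p) :=
  ⟨S.Yeq g c p h.1, by rw [S.r_smul, S.q_smul, ← h.2]; exact S.db_iso _ _ _⟩

theorem Pi.rot {c : C} {u : Xb} {p : X} (hp : S.Pi c u p) {h : G} (hh : h ∈ S.H c) :
    S.Pi c u (h • p) := by
  have := hp.smul S h
  rwa [S.Hfix c h hh, (S.φ_ker h).2 (S.H_le_N c hh), one_smul] at this

theorem qang_le {c : C} {u v : Xb} {p p' : X} (hp : S.Pi c u p) (hp' : S.Pi c v p') :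
    S.qang c u v ≤ S.d p p' := Nat.sInf_le ⟨p, p', hp, hp', rfl⟩

theorem qang_ex (c : C) (u v : Xb) :
    ∃ p p', S.Pi c u p ∧ S.Pi c v p' ∧ S.qang c u v = S.d p p' := by
  obtain ⟨p, hp⟩ := S.pi_ex c u
  obtain ⟨p', hp'⟩ := S.pi_ex c v
  exact Nat.sInf_mem (s := {n | ∃ p p', S.Pi c u p ∧ S.Pi c v p' ∧ n = S.d p p'})
    ⟨_, p, p', hp, hp', rfl⟩

theorem qang_symm (c : C) (u v : Xb) : S.qang c u v = S.qang c v u := by
  have key : ∀ u v, S.qang c u v ≤ S.qang c v u := by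
    intro u v
    obtain ⟨p, p', hp, hp', e⟩ := S.qang_ex c v u
    rw [e]
    exact (S.qang_le hp' hp).trans (S.D.symm _ _).le
  exact le_antisymm (key u v) (key v u)

theorem qang_self (c : C) (u : Xb) : S.qang c u u = 0 := by
  obtain ⟨p, hp⟩ := S.pi_ex c u
  have h := S.qang_le hp hp
  have := S.D.refl p
  simp only [CS.d] at h
  omega

theorem qang_smul (g : G) (c : C) (u v : Xb) :
    S.qang (g • c) (S.φ g • u) (S.φ g • v) = S.qang c u v := by
  have key : ∀ (g : G) (c : C) (u v : Xb),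
      S.qang (g • c) (S.φ g • u) (S.φ g • v) ≤ S.qang c u v := by
    intro g c u v
    obtain ⟨p, p', hp, hp', e⟩ := S.qang_ex c u v
    rw [e, ← S.iso g]
    exact S.qang_le (hp.smul S g) (hp'.smul S g)
  apply le_antisymm (key g c u v)
  simpa [← mul_smul] using key g⁻¹ (g • c) (S.φ g • u) (S.φ g • v)

theorem Sim.refl (c : C) : S.Sim c c := ⟨1, S.N.one_mem, by simp⟩

theorem Sim.symm {c c' : C} (h : S.Sim c c') : S.Sim c' c := by
  obtain ⟨n, hn, rfl⟩ := h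
  exact ⟨n⁻¹, S.N.inv_mem hn, by simp⟩

theorem Sim.trans {c c' c'' : C} (h : S.Sim c c') (h' : S.Sim c' c'') : S.Sim c c'' := by
  obtain ⟨n, hn, rfl⟩ := h
  obtain ⟨m, hm, rfl⟩ := h'
  exact ⟨m * n, S.N.mul_mem hm hn, by rw [mul_smul]⟩

theorem Sim.smul {c c' : C} (h : S.Sim c c') (g : G) : S.Sim (g • c) (g • c') := by
  obtain ⟨n, hn, rfl⟩ := h
  exact ⟨g * n * g⁻¹, S.N_normal.conj_mem n hn g, by simp [← mul_smul]⟩

theorem Sim.r_eq {c c' : C} (h : S.Sim c c') (u : Xb) : S.r c' u = S.r c u := by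
  obtain ⟨n, hn, rfl⟩ := h
  have := S.r_smul n c u
  rwa [(S.φ_ker n).2 hn, one_smul] at this

theorem Sim.qang_eq {c c' : C} (h : S.Sim c c') (u v : Xb) : S.qang c' u v = S.qang c u v := by
  obtain ⟨n, hn, rfl⟩ := h
  have := S.qang_smul n c u v
  rwa [(S.φ_ker n).2 hn, one_smul, one_smul] at this

theorem sim_of_φ {g g' : G} (h : S.φ g = S.φ g') (c : C) : S.Sim (g • c) (g' • c) :=
  ⟨g' * g⁻¹, (S.φ_ker _).1 (by simp [h]), by simp [← mul_smul]⟩

/-- `φ g` lies in the image of the stabilizer of `c` iff `g • c` is equivalent to `c`. -/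
theorem mem_stab_iff (g : G) (c : C) :
    S.φ g ∈ (stabilizer G c).map S.φ ↔ S.Sim c (g • c) := by
  constructor
  · rintro ⟨g', hg', e⟩
    have := S.sim_of_φ e c
    rwa [mem_stabilizer_iff.1 hg'] at this
  · rintro ⟨n, hn, e⟩
    refine ⟨n⁻¹ * g, ?_, ?_⟩
    · change (n⁻¹ * g) • c = c
      rw [mul_smul, e, inv_smul_smul]
    · rw [map_mul, map_inv, (S.φ_ker n).2 hn]; simp

end QS

end Pool.Agent.Bu
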