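import Pool.Agent.Lib.MP_5bec91_al.Bu.NewOne

-- part Pool.Agent.Lib.MP_5bec91_al.Bu.L1
section

/-!
Finite subgroups of the quotient lift or fix an apex.
-/

set_option autoImplicit false

namespace Pool.Agent.Bu

open MulAction

namespace L1aux

variable {G X C Gb Xb : Type} [Group G] [MulAction G X] [MulAction G C]
  [Group Gb] [MulAction Gb Xb] (S : QS G X C Gb Xb)

/-- The cones in one orbit of a finite group are seen from each other under a small angle. -/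
theorem orbit_ang (hQ : QGeo S) (P : Subgroup Gb) (hP : Finite P) (c : C) {g1 g2 : G}
    (h1 : S.φ g1 ∈ P) (h2 : S.φ g2 ∈ P) (n1 : ¬ S.Sim c (g1 • c)) (n2 : ¬ S.Sim c (g2 • c))
    {v1 v2 : X} (m1 : v1 ∈ S.Y (g1 • c)) (m2 : v2 ∈ S.Y (g2 • c)) :
    S.qang c (S.q v1) (S.q v2) < 9000 * S.θ := by
  have hfin : (P : Set Gb).Finite := Set.toFinite _
  obtain ⟨p, hp, hmax⟩ := Set.exists_max_image (P : Set Gb) (fun p => S.r c (p • S.q v1)) hfin
    ⟨1, P.one_mem⟩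
  have key : ∀ (g : G) (v : X), S.φ g ∈ P → ¬ S.Sim c (g • c) → v ∈ S.Y (g • c) →
      S.qang c (p • S.q v1) (S.q v) < 4000 * S.θ := by
    intro g v hg ng mv
    by_contra hc
    obtain ⟨w, -, e⟩ := hQ.q7 c (g • c) (p • S.q v1) v ng mv (not_lt.1 hc)
    have e1 := S.r_smul g c (((S.φ g)⁻¹ * p) • S.q v1)
    rw [← mul_smul, mul_inv_cancel_left] at e1
    have e2 := hmax ((S.φ g)⁻¹ * p) (P.mul_mem (P.inv_mem hg) hp)
    have := S.θ_pos
    omega
  have a1 := key g1 v1 h1 n1 m1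
  have a2 := key g2 v2 h2 n2 m2
  have a3 := hQ.q1 c (S.q v1) (p • S.q v1) (S.q v2)
  have a4 := S.qang_symm c (S.q v1) (p • S.q v1)
  omega

/-- A point of the cone `c` whose orbit is seen from `c` under a small angle. -/
theorem base_pt (hQ : QGeo S) (P : Subgroup Gb) (hP : Finite P) (c : C) {g0 : G}
    (h0 : S.φ g0 ∈ P) (n0 : ¬ S.Sim c (g0 • c)) :
    ∃ z ∈ S.Y c, ∀ g : G, S.φ g ∈ P → S.qang c (S.q z) (S.q (g • z)) < 10000 * S.θ := by
  obtain ⟨v, hv⟩ := S.ne (g0 • c)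
  obtain ⟨z, hz⟩ := S.pi_ex c (S.q v)
  have hθ := S.θ_pos
  have e0 : S.qang c (S.q z) (S.q v) = 0 := by
    have h := S.qang_le (S.pi_mem hz.1) hz
    have := S.D.refl z
    simp only [CS.d] at h
    omega
  refine ⟨z, hz.1, fun g hg => ?_⟩
  by_cases hs : S.Sim c (g • c)
  · have e1 : S.qang c (S.q (g • z)) (S.q (g • v)) = 0 := by
      rw [← hs.qang_eq S, S.q_smul, S.q_smul, S.qang_smul, e0]
    have n1 : ¬ S.Sim c ((g * g0) • c) := by
      intro h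
      apply n0
      have h1 := ((hs.symm S).trans S h).smul S g⁻¹
      rwa [inv_smul_smul, mul_smul, inv_smul_smul] at h1
    have m1 : g • v ∈ S.Y ((g * g0) • c) := by
      rw [mul_smul]; exact S.Yeq g _ _ hv
    have a1 := orbit_ang S hQ P hP c h0 (by rw [map_mul]; exact P.mul_mem hg h0) n0 n1 hv m1
    have a2 := hQ.q1 c (S.q z) (S.q v) (S.q (g • z))
    have a3 := hQ.q1 c (S.q v) (S.q (g • v)) (S.q (g • z))
    have a4 := S.qang_symm c (S.q (g • v)) (S.q (g • z))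
    omega
  · have a1 := orbit_ang S hQ P hP c h0 hg n0 hs hv (S.Yeq g c z hz.1)
    have a2 := hQ.q1 c (S.q z) (S.q v) (S.q (g • z))
    omega

/-- One of the two cones `c`, `c'` is seen from `e` far from a third cone `e'`. -/
theorem side (hQ : QGeo S) {e e' c c' : C} {z z' : X} (hz : z ∈ S.Y c) (hz' : z' ∈ S.Y c')
    (nc : ¬ S.Sim e c) (nc' : ¬ S.Sim e c') (ne : ¬ S.Sim e e')
    (h : 20000 * S.θ ≤ S.qang e (S.q z) (S.q z')) :
    (∀ x ∈ S.Y c, ∀ w ∈ S.Y e', 9000 * S.θ ≤ S.qang e (S.q x) (S.q w)) ∨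
    (∀ x ∈ S.Y c', ∀ w ∈ S.Y e', 9000 * S.θ ≤ S.qang e (S.q x) (S.q w)) := by
  by_contra hc
  rw [not_or] at hc
  obtain ⟨h1, h2⟩ := hc
  simp only [not_forall, not_le] at h1 h2
  obtain ⟨x, hx, w, hw, a1⟩ := h1
  obtain ⟨x', hx', w', hw', a2⟩ := h2
  have b1 := hQ.q4 e c z x nc hz hx
  have b2 := hQ.q4 e c' x' z' nc' hx' hz'
  have b3 := hQ.q4 e e' w w' ne hw hw'
  have t1 := hQ.q1 e (S.q z) (S.q x) (S.q z')
  have t2 := hQ.q1 e (S.q x) (S.q w) (S.q z')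
  have t3 := hQ.q1 e (S.q w) (S.q w') (S.q z')
  have t4 := hQ.q1 e (S.q w') (S.q x') (S.q z')
  have s1 := S.qang_symm e (S.q w') (S.q x')
  omega

/-- All translates of `c` under the preimage of `P` are `R`-close to `c` in the quotient. -/
def Near (P : Subgroup Gb) (c : C) (R : ℕ) : Prop :=
  ∀ g : G, S.φ g ∈ P → ∃ x ∈ S.Y c, ∃ y ∈ S.Y (g • c), S.db (S.q x) (S.q y) ≤ R

theorem near_ex (P : Subgroup Gb) (hP : Finite P) (c : C) : ∃ R, Near S P c R := by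
  obtain ⟨x, hx⟩ := S.ne c
  have hfin : (P : Set Gb).Finite := Set.toFinite _
  obtain ⟨p, -, hmax⟩ := Set.exists_max_image (P : Set Gb)
    (fun p => S.db (S.q x) (p • S.q x)) hfin ⟨1, P.one_mem⟩
  refine ⟨S.db (S.q x) (p • S.q x), fun g hg => ⟨x, hx, g • x, S.Yeq g c x hx, ?_⟩⟩
  rw [S.q_smul]
  exact hmax _ hg

theorem Near.pair {P : Subgroup Gb} {c : C} {R : ℕ} (h : Near S P c R) {g1 g2 : G}
    (h1 : S.φ g1 ∈ P) (h2 : S.φ g2 ∈ P) :
    ∃ x ∈ S.Y (g1 • c), ∃ y ∈ S.Y (g2 • c), S.db (S.q x) (S.q y) ≤ R := by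
  obtain ⟨x, hx, y, hy, e⟩ := h (g1⁻¹ * g2)
    (by rw [map_mul, map_inv]; exact P.mul_mem (P.inv_mem h1) h2)
  refine ⟨g1 • x, S.Yeq g1 _ _ hx, g1 • y, ?_, ?_⟩
  · have := S.Yeq g1 _ _ hy
    rwa [← mul_smul, mul_inv_cancel_left] at this
  · rw [S.q_smul, S.q_smul]
    exact (S.db_iso _ _ _).le.trans e

/-- Two cones separating `x` from `y` are closer to each other than `x` to `y`. -/
theorem closer (hQ : QGeo S) {e e' : C} (ne : ¬ S.Sim e e') {u v : Xb}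
    (hu : ∀ w ∈ S.Y e', 9000 * S.θ ≤ S.qang e u (S.q w))
    (hv : ∀ w ∈ S.Y e, 9000 * S.θ ≤ S.qang e' v (S.q w)) :
    ∃ x ∈ S.Y e, ∃ y ∈ S.Y e', S.db (S.q x) (S.q y) + 2000 * S.θ ≤ S.db u v := by
  have hθ := S.θ_pos
  obtain ⟨w', hw'⟩ := S.ne e'
  obtain ⟨w, hw⟩ := S.ne e
  have a1 := hu w' hw'
  have a2 := hv w hw
  obtain ⟨p, hp, e1⟩ := hQ.q7 e e' u w' ne hw' (by omega)
  have a3 : S.qang e' u (S.q w) < 4000 * S.θ := by
    by_contra hc
    obtain ⟨p', -, e2⟩ := hQ.q7 e' e u w (fun h => ne (h.symm S)) hw (not_lt.1 hc)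
    omega
  have t1 := hQ.q1 e' v u (S.q w)
  have s1 := S.qang_symm e' v u
  have e2 := hQ.q2 e' u v (by omega)
  obtain ⟨p', hp', e3⟩ := S.pi_ex e (S.q p)
  refine ⟨p', hp', p, hp, ?_⟩
  have s2 := S.Db.symm (S.q p) (S.q p')
  simp only [QS.db] at *
  omega

/-- A cone seeing the orbit of a point of `c` under a large angle is more central than `c`. -/
theorem better (hQ : QGeo S) {P : Subgroup Gb} {c e : C} {R : ℕ} (hc : Near S P c R) {z : X}
    (hz : z ∈ S.Y c) {g : G} (hg : S.φ g ∈ P) (n1 : ¬ S.Sim e c) (n2 : ¬ S.Sim e (g • c))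
    (h : 20000 * S.θ ≤ S.qang e (S.q z) (S.q (g • z))) {k : G} (hk : S.φ k ∈ P)
    (nk : ¬ S.Sim e (k • e)) :
    ∃ x ∈ S.Y e, ∃ y ∈ S.Y (k • e), S.db (S.q x) (S.q y) + 2000 * S.θ ≤ R := by
  have hz' := S.Yeq g c z hz
  have nk' : ¬ S.Sim e (k⁻¹ • e) := by
    intro h1
    apply nk
    have h2 := (h1.smul S k).symm S
    rwa [smul_inv_smul] at h2
  have A : ∃ g1 : G, S.φ g1 ∈ P ∧
      ∀ x ∈ S.Y (g1 • c), ∀ w ∈ S.Y (k • e), 9000 * S.θ ≤ S.qang e (S.q x) (S.q w) := by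
    rcases side S hQ hz hz' n1 n2 nk h with h1 | h1
    · exact ⟨1, by rw [map_one]; exact P.one_mem, by rwa [one_smul]⟩
    · exact ⟨g, hg, h1⟩
  have B : ∃ g1 : G, S.φ g1 ∈ P ∧
      ∀ x ∈ S.Y (g1 • c), ∀ w ∈ S.Y (k⁻¹ • e), 9000 * S.θ ≤ S.qang e (S.q x) (S.q w) := by
    rcases side S hQ hz hz' n1 n2 nk' h with h1 | h1
    · exact ⟨1, by rw [map_one]; exact P.one_mem, by rwa [one_smul]⟩
    · exact ⟨g, hg, h1⟩
  obtain ⟨g1, hg1, A⟩ := A
  obtain ⟨g2, hg2, B⟩ := B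
  obtain ⟨x, hx, y, hy, hxy⟩ := hc.pair S hg1 (g2 := k * g2)
    (by rw [map_mul]; exact P.mul_mem hk hg2)
  have hv : ∀ w ∈ S.Y e, 9000 * S.θ ≤ S.qang (k • e) (S.q y) (S.q w) := by
    intro w hw
    have m1 : k⁻¹ • y ∈ S.Y (g2 • c) := by
      have := S.Yeq k⁻¹ _ _ hy
      rwa [mul_smul, inv_smul_smul] at this
    have b1 := B _ m1 _ (S.Yeq k⁻¹ e w hw)
    rw [← S.qang_smul k, ← S.q_smul, ← S.q_smul, smul_inv_smul, smul_inv_smul] at b1
    exact b1
  obtain ⟨x', hx', y', hy', e1⟩ := closer S hQ nk (A x hx) hv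
  exact ⟨x', hx', y', hy', e1.trans hxy⟩

/-- A point whose orbit is seen from every cone under a small angle. -/
theorem center (hQ : QGeo S) (P : Subgroup Gb) (hP : Finite P)
    (hno : ∀ c : C, ∃ g : G, S.φ g ∈ P ∧ ¬ S.Sim c (g • c)) :
    ∃ z : X, ∀ g : G, S.φ g ∈ P → ∀ e, S.qang e (S.q z) (S.q (g • z)) < 20000 * S.θ := by
  classical
  have hθ := S.θ_pos
  rcases isEmpty_or_nonempty C with hC | ⟨⟨c0⟩⟩
  · obtain ⟨z⟩ := S.geom.ne
    exact ⟨z, fun g _ e => (hC.false e).elim⟩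
  have hex : ∃ R, ∃ c, Near S P c R := by
    obtain ⟨R, hR⟩ := near_ex S P hP c0
    exact ⟨R, c0, hR⟩
  obtain ⟨c, hc⟩ := Nat.find_spec hex
  obtain ⟨g0, h0, n0⟩ := hno c
  obtain ⟨z, hz, hang⟩ := base_pt S hQ P hP c h0 n0
  refine ⟨z, fun g hg e => ?_⟩
  by_cases n1 : S.Sim e c
  · have := hang g hg
    rw [n1.qang_eq S] at this
    omega
  by_cases n2 : S.Sim e (g • c)
  · have := hang g⁻¹ (by rw [map_inv]; exact P.inv_mem hg)
    rw [← S.qang_smul g, ← S.q_smul, ← S.q_smul, smul_inv_smul, n2.qang_eq S,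
      S.qang_symm] at this
    omega
  by_contra hbig
  rw [not_lt] at hbig
  obtain ⟨k0, hk0, nk0⟩ := hno e
  obtain ⟨x0, -, y0, -, b0⟩ := better S hQ hc hz hg n1 n2 hbig hk0 nk0
  have hlt : Nat.find hex - 1 < Nat.find hex := by omega
  refine Nat.find_min hex hlt ⟨e, fun k hk => ?_⟩
  by_cases nk : S.Sim e (k • e)
  · obtain ⟨n, hn, en⟩ := nk
    obtain ⟨x, hx⟩ := S.ne e
    refine ⟨x, hx, n • x, by rw [en]; exact S.Yeq n e x hx, ?_⟩
    rw [S.q_N hn]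
    have := S.Db.refl (S.q x)
    simp only [QS.db]
    omega
  · obtain ⟨x, hx, y, hy, b1⟩ := better S hQ hc hz hg n1 n2 hbig hk nk
    exact ⟨x, hx, y, hy, by omega⟩

/-- Two lifts with small angles agree. -/
theorem uniq (hL : LiftLib S) {z : X} {g g' : G} (h : S.φ g = S.φ g')
    (h1 : ∀ e, S.ang e z (g • z) ≤ 42000 * S.θ) (h2 : ∀ e, S.ang e z (g' • z) ≤ 42000 * S.θ) :
    g = g' := by
  have hn : g' * g⁻¹ ∈ S.N := (S.φ_ker _).1 (by simp [h])
  have := hL.small (g • z) (g' * g⁻¹) hn (fun c => by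
    rw [mul_smul, inv_smul_smul]
    have a1 := h1 c
    have a2 := h2 c
    have a3 := S.ang_tri c (g • z) z (g' • z)
    have a4 := S.ang_symm c (g • z) z
    norm_num
    omega)
  exact (mul_inv_eq_one.1 this).symm

/-- Each element has a lift with small angles. -/
theorem lift_ex (hQ : QGeo S) {P : Subgroup Gb} {z : X}
    (hz : ∀ g : G, S.φ g ∈ P → ∀ e, S.qang e (S.q z) (S.q (g • z)) < 20000 * S.θ)
    {p : Gb} (hp : p ∈ P) : ∃ g : G, S.φ g = p ∧ ∀ e, S.ang e z (g • z) ≤ 21000 * S.θ := by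
  obtain ⟨g, rfl⟩ := S.φ_surj p
  obtain ⟨y, hy, -, ha⟩ := hQ.sl z (S.q (g • z))
  obtain ⟨n, hn, en⟩ := S.q_eq _ _ hy.symm
  refine ⟨n * g, by rw [map_mul, (S.φ_ker n).2 hn, one_mul], fun e => ?_⟩
  rw [mul_smul, ← en]
  have a1 := ha e
  have a2 := hz g hp e
  omega

theorem lift_fin (hL : LiftLib S) (hQ : QGeo S) (P : Subgroup Gb) (hP : Finite P) {z : X}
    (hz : ∀ g : G, S.φ g ∈ P → ∀ e, S.qang e (S.q z) (S.q (g • z)) < 20000 * S.θ) :
    ∃ Q : Subgroup G, Finite Q ∧ Q.map S.φ = P := by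
  let Q : Subgroup G :=
    { carrier := {g | S.φ g ∈ P ∧ ∀ e, S.ang e z (g • z) ≤ 21000 * S.θ}
      one_mem' := by
        refine ⟨by rw [map_one]; exact P.one_mem, fun e => ?_⟩
        rw [one_smul]
        have a1 := S.ang_le_d e z z
        have a2 := S.D.refl z
        simp only [CS.d] at a1
        omega
      mul_mem' := by
        rintro a b ⟨ha, ha'⟩ ⟨hb, hb'⟩
        have hab : S.φ (a * b) ∈ P := by rw [map_mul]; exact P.mul_mem ha hb
        obtain ⟨g, hg, hg'⟩ := lift_ex S hQ hz hab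
        have : g = a * b := uniq S hL (z := z) hg
          (fun e => by have := hg' e; omega)
          (fun e => by
            have a1 := ha' e
            have a2 := hb' (a⁻¹ • e)
            have a3 := S.ang_tri e z (a • z) ((a * b) • z)
            have a4 := S.ang_smul a (a⁻¹ • e) z (b • z)
            rw [smul_inv_smul, ← mul_smul] at a4
            omega)
        exact ⟨hab, this ▸ hg'⟩
      inv_mem' := by
        rintro a ⟨ha, ha'⟩
        refine ⟨by rw [map_inv]; exact P.inv_mem ha, fun e => ?_⟩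
        have a1 := ha' (a • e)
        have a2 := S.ang_smul a e z (a⁻¹ • z)
        rw [smul_inv_smul] at a2
        have a3 := S.ang_symm (a • e) z (a • z)
        omega }
  have hmem : ∀ g, g ∈ Q ↔ S.φ g ∈ P ∧ ∀ e, S.ang e z (g • z) ≤ 21000 * S.θ := fun _ => Iff.rfl
  refine ⟨Q, ?_, ?_⟩
  · refine Finite.of_injective (fun g : Q => (⟨S.φ g, ((hmem g).1 g.2).1⟩ : P)) ?_
    intro a b hab
    apply Subtype.ext
    exact uniq S hL (z := z) (congrArg Subtype.val hab)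
      (fun e => by have := ((hmem a).1 a.2).2 e; omega)
      (fun e => by have := ((hmem b).1 b.2).2 e; omega)
  · apply le_antisymm
    · rintro _ ⟨g, hg, rfl⟩
      exact ((hmem g).1 hg).1
    · intro p hp
      obtain ⟨g, hg, hg'⟩ := lift_ex S hQ hz hp
      exact ⟨g, (hmem g).2 ⟨hg ▸ hp, hg'⟩, hg⟩

end L1aux

theorem l1Stmt : L1Stmt := by
  intro G X C Gb Xb _ _ _ _ _ S hL hQ P hP
  by_cases h : ∃ c : C, P ≤ (stabilizer G c).map S.φ
  · exact Or.inr h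
  left
  have hno : ∀ c : C, ∃ g : G, S.φ g ∈ P ∧ ¬ S.Sim c (g • c) := by
    intro c
    by_contra hc
    apply h
    refine ⟨c, fun p hp => ?_⟩
    obtain ⟨g, rfl⟩ := S.φ_surj p
    rw [S.mem_stab_iff]
    by_contra hs
    exact hc ⟨g, hp, hs⟩
  obtain ⟨z, hz⟩ := L1aux.center S hQ P hP hno
  exact L1aux.lift_fin S hL hQ P hP hz

end Pool.Agent.Bu
end

-- part Pool.Agent.Lib.MP_5bec91_al.Bu.Rot
section

/-!
Wild elements rotate by a large angle in the quotient; the field of coefficients.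
-/

set_option autoImplicit false

namespace Pool.Agent.Bu

open MulAction

namespace Rot

theorem arith0 {n s : ℕ} (hs : 0 < s) (h : 2 * s ≤ n) : ∃ j : ℕ, n ≤ 3 * (j * s) ∧
    3 * (j * s) ≤ 2 * n := by
  classical
  have h0 : ∃ j : ℕ, n ≤ 3 * (j * s) := ⟨n, by nlinarith⟩
  refine ⟨Nat.find h0, Nat.find_spec h0, ?_⟩
  obtain h1 | ⟨j, h1⟩ := Nat.eq_zero_or_eq_succ_pred (Nat.find h0) |>.imp id
    fun h => (⟨_, h⟩ : ∃ j, Nat.find h0 = j + 1)
  · rw [h1]; omega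
  · have h2 := Nat.find_min h0 (m := j) (by omega)
    rw [h1, add_mul, one_mul]
    rcases Nat.eq_zero_or_pos j with rfl | hj
    · omega
    · have := Nat.le_mul_of_pos_left s hj
      omega

theorem arith {n : ℕ} {τ : ℤ} (hn : 0 < n) (h : ¬ (n : ℤ) ∣ τ) :
    ∃ j : ℕ, ∀ k : ℤ, (n : ℤ) ≤ 3 * |k * n + j * τ| := by
  have hn' : (0 : ℤ) < n := by exact_mod_cast hn
  have key : ∀ (s : ℕ) (j : ℕ), n ≤ 3 * (j * s) → 3 * (j * s) ≤ 2 * n → ∀ k : ℤ,
      (n : ℤ) ≤ 3 * |k * n + j * s| := by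
    intro s j h1 h2 k
    have h1' : (n : ℤ) ≤ 3 * (j * s) := by exact_mod_cast h1
    have h2' : 3 * ((j : ℤ) * s) ≤ 2 * n := by exact_mod_cast h2
    rcases le_or_gt 0 k with hk | hk
    · have := mul_nonneg hk hn'.le
      have := le_abs_self (k * n + j * s)
      linarith
    · have := mul_le_mul_of_nonneg_right (show k ≤ -1 by omega) hn'.le
      have := neg_le_abs (k * n + j * s)
      linarith
  have h1 := Int.emod_nonneg τ hn'.ne'
  have h2 := Int.emod_lt_of_pos τ hn'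
  have h3 : τ % n ≠ 0 := fun e => h (Int.dvd_of_emod_eq_zero e)
  have h4 := Int.mul_ediv_add_emod τ n
  obtain ⟨r, hr⟩ := Int.eq_ofNat_of_zero_le h1
  rw [hr] at h2 h3 h4
  rcases le_total (2 * r) n with h5 | h5
  · obtain ⟨j, a, b⟩ := arith0 (s := r) (by omega) h5
    refine ⟨j, fun k => (key r j a b (k + j * (τ / n))).trans_eq ?_⟩
    congr 2
    linear_combination (j : ℤ) * h4
  · obtain ⟨s, hs⟩ : ∃ s : ℕ, (s : ℤ) = n - r := ⟨n - r, by omega⟩
    obtain ⟨j, a, b⟩ := arith0 (n := n) (s := s) (by omega) (by omega)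
    refine ⟨j, fun k => (key s j a b (-k - j * (τ / n + 1))).trans_eq ?_⟩
    rw [← abs_neg, hs]
    congr 2
    linear_combination (j : ℤ) * h4

variable {A G X C Gb Xb : Type} [CommGroup A] [Group G] [MulAction G X] [MulAction G C] [Group Gb]
  [MulAction Gb Xb]

theorem big (hB : AlgB) (S : FS A G X C Gb Xb) (Q : QGeo S.toQS) {c : C} {g : G}
    (hg : g • c = c) (hw : Wild (S.H c) g) :
    ∃ j : ℕ, ∀ u, 10 ^ 10 * S.θ ≤ S.qang c u (S.φ g ^ j • u) + 100 * S.θ := by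
  obtain ⟨ε, t, a, n, hc⟩ := S.cone c
  have hg' : g ∈ stabilizer G c := hg
  obtain ⟨he, hd⟩ := (hB.coneWild S.π _ _ ε t a n hc g hg').1.1 hw
  have hn : 0 < n := lt_of_lt_of_le (by norm_num [n0]) hc.big
  obtain ⟨j, hj⟩ := arith hn hd
  refine ⟨j, fun u => ?_⟩
  obtain ⟨p, p', hp, hp', e⟩ := S.qang_ex c u (S.φ g ^ j • u)
  have hgj := (stabilizer G c).pow_mem hg' j
  have h1 := hp.smul S.toQS (g ^ j)
  rw [mem_stabilizer_iff.1 hgj, map_pow] at h1
  obtain ⟨h, hh, h2⟩ := Q.q0 c _ p' _ hp' h1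
  rw [hc.rot] at hh
  obtain ⟨k, rfl⟩ := hh
  have han := (stabilizer G c).pow_mem hc.mem n
  have e1 := hc.aff.pow_of_e hc.mem hc.ea n
  have e2 := hc.aff.zpow_of_e han e1.1 k
  have e3 := hc.aff.pow_of_e hg' he j
  have hk := (stabilizer G c).zpow_mem han k
  have h3 := S.far c ε t a hc.aff hc.mem hc.ea hc.ta ((a ^ n) ^ k * g ^ j)
    ((stabilizer G c).mul_mem hk hgj) (by rw [hc.aff.em _ hk _ hgj, e2.1, e3.1, mul_one])
    (by
      rw [hc.aff.tm _ hk _ hgj, e2.1, e2.2, e3.2, e1.2, hc.ta, one_mul, mul_one]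
      exact le_trans (by exact_mod_cast hc.big) (hj k)) p hp.1
  have h4 := S.D.tri p p' (((a ^ n) ^ k * g ^ j) • p)
  rw [e]
  simp only [← mul_smul] at h2
  simp only [CS.d] at *
  omega

end Rot

theorem rotStmt : HypLib → AlgB → RotStmt := by
  intro hH hB A G X C Gb Xb _ _ _ _ _ _ S Q c g hg hw
  obtain ⟨j, hj⟩ := Rot.big hB S Q hg hw
  have hθ := S.θ_pos
  refine ⟨fun c' g' hg' e => ?_, fun g' e hf => ?_⟩
  · by_contra hs
    obtain ⟨x, hx⟩ := S.ne c'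
    have hy := S.Yeq (g' ^ j) c' x hx
    rw [mem_stabilizer_iff.1 ((stabilizer G c').pow_mem (mem_stabilizer_iff.2 hg') j)] at hy
    have h1 := Q.q4 c c' x _ hs hx hy
    rw [S.q_smul, map_pow, e] at h1
    have h2 := hj (S.q x)
    omega
  · obtain ⟨x, hx⟩ := hH.center0 S.D S.δ (Subgroup.zpowers g') S.geom
      (Set.finite_coe_iff.2 (finite_zpowers.2 hf))
    have h1 := hx (g' ^ j) (Subgroup.npow_mem_zpowers g' j)
    have h2 := (S.db_le x (g' ^ j • x)).trans (S.dh_le_d _ _)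
    rw [S.q_smul, map_pow, e] at h2
    have h3 := Q.q5 c (S.q x) (S.φ g ^ j • S.q x)
    have h4 := hj (S.q x)
    have h5 := S.hθ
    simp only [CS.d, QS.db] at *
    omega

namespace Rot

theorem fix_mul {K : Type} [Monoid K] {x : K} {m : ℕ} (h : x ^ 2 ^ m = x) (l : ℕ) :
    x ^ 2 ^ (m * l) = x := by
  induction l with
  | zero => simp
  | succ l ih => rw [Nat.mul_succ, pow_add, pow_mul, ih, h]

theorem fix_le {K : Type} [Monoid K] {x : K} {r k k' : ℕ} (h : x ^ 2 ^ r ^ k = x) (hk : k ≤ k') :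
    x ^ 2 ^ r ^ k' = x := by
  obtain ⟨d, rfl⟩ := Nat.exists_eq_add_of_le hk
  rw [pow_add]
  exact fix_mul h _

/-- The union of the fields with `2 ^ r ^ k` elements. -/
noncomputable def fld (r : ℕ) : Subfield (AlgebraicClosure (ZMod 2)) where
  carrier := {x | ∃ k : ℕ, x ^ 2 ^ r ^ k = x}
  zero_mem' := ⟨0, by simp⟩
  one_mem' := ⟨0, by simp⟩
  mul_mem' := by
    rintro x y ⟨k, hx⟩ ⟨l, hy⟩
    exact ⟨max k l, by rw [mul_pow, fix_le hx (le_max_left _ _), fix_le hy (le_max_right _ _)]⟩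
  add_mem' := by
    rintro x y ⟨k, hx⟩ ⟨l, hy⟩
    exact ⟨max k l, by
      rw [add_pow_char_pow, fix_le hx (le_max_left _ _), fix_le hy (le_max_right _ _)]⟩
  neg_mem' := by
    rintro x hx
    rwa [CharTwo.neg_eq]
  inv_mem' := by
    rintro x ⟨k, hx⟩
    exact ⟨k, by rw [inv_pow, hx]⟩

open Polynomial in
theorem fld_inf {r : ℕ} (hr : 1 < r) : Infinite (fld r) := by
  classical
  refine Set.infinite_coe_iff.2 fun hf => ?_
  obtain ⟨k, hk⟩ : ∃ k, k = hf.toFinset.card := ⟨_, rfl⟩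
  have h0 : r ^ k ≠ 0 := by positivity
  have h1 : (X ^ 2 ^ r ^ k - X : (AlgebraicClosure (ZMod 2))[X]).Separable :=
    galois_poly_separable 2 _ (dvd_pow_self 2 h0)
  have h2 : (X ^ 2 ^ r ^ k - X : (AlgebraicClosure (ZMod 2))[X]).natDegree = 2 ^ r ^ k :=
    FiniteField.X_pow_card_pow_sub_X_natDegree_eq _ h0 one_lt_two
  have h3 := (IsAlgClosed.splits (X ^ 2 ^ r ^ k - X : (AlgebraicClosure (ZMod 2))[X])
    ).natDegree_eq_card_roots
  rw [h2, ← Multiset.toFinset_card_of_nodup (nodup_roots h1)] at h3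
  have h4 : (X ^ 2 ^ r ^ k - X : (AlgebraicClosure (ZMod 2))[X]).roots.toFinset ⊆ hf.toFinset := by
    intro x hx
    have := (mem_roots h1.ne_zero).1 (Multiset.mem_toFinset.1 hx)
    simp only [IsRoot.def, eval_sub, eval_pow, eval_X, sub_eq_zero] at this
    exact hf.mem_toFinset.2 ⟨k, this⟩
  have h5 := Finset.card_le_card h4
  have h6 : k < r ^ k := Nat.lt_pow_self hr
  have h7 : r ^ k < 2 ^ r ^ k := Nat.lt_two_pow_self
  omega

theorem order {K : Type} [Group K] {r k : ℕ} (hr : r.Prime) {a : K} (h : a ^ 2 ^ r ^ k = a)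
    (h1 : a ≠ 1) : r ≤ orderOf a ∧ Odd (orderOf a) := by
  have h0 : r ^ k ≠ 0 := pow_ne_zero _ hr.ne_zero
  obtain ⟨m, hm⟩ : ∃ m, 2 ^ r ^ k = m + 1 := ⟨_, (Nat.succ_pred_eq_of_pos (by positivity)).symm⟩
  have hd : orderOf a ∣ m := orderOf_dvd_of_pow_eq_one (by
    rwa [hm, pow_succ, mul_eq_right] at h)
  have ho : Odd m := by
    have : Even (m + 1) := hm ▸ (Nat.even_pow.2 ⟨even_two, h0⟩)
    exact Nat.not_even_iff_odd.1 (Nat.even_add_one.1 this)
  have ho' := ho.of_dvd_nat hd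
  refine ⟨?_, ho'⟩
  obtain ⟨l, hl, hl'⟩ := Nat.exists_prime_and_dvd (n := orderOf a) (by simpa using h1)
  have := Fact.mk hl
  have e : (2 : ZMod l) ^ r ^ k = 1 := by
    have := congrArg (Nat.cast : ℕ → ZMod l) hm
    rw [Nat.cast_add, (ZMod.natCast_eq_zero_iff m l).2 (hl'.trans hd)] at this
    simpa using this
  have e0 : (2 : ZMod l) ≠ 0 := fun e0 => by
    rw [e0, zero_pow h0] at e
    exact zero_ne_one e
  obtain ⟨i, -, hi⟩ := (Nat.dvd_prime_pow hr).1 (orderOf_dvd_of_pow_eq_one e)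
  have hi0 : i ≠ 0 := by
    rintro rfl
    rw [pow_zero, orderOf_eq_one_iff] at hi
    exact one_ne_zero (α := ZMod l) (by linear_combination hi)
  have h2 := ZMod.orderOf_dvd_card_sub_one e0
  rw [hi] at h2
  have h3 := Nat.le_of_dvd (by have := hl.two_le; omega) ((dvd_pow_self r hi0).trans h2)
  have h4 := Nat.le_of_dvd ho'.pos hl'
  omega

end Rot

theorem fieldStmt : FieldStmt := by
  obtain ⟨r, hr0, hr⟩ := Nat.exists_infinite_primes n0
  refine ⟨Rot.fld r, inferInstance, inferInstance, Rot.fld_inf hr.one_lt, fun a ha => ?_⟩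
  obtain ⟨k, hk⟩ := (a : Rot.fld r).2
  have h := Rot.order (k := k) hr (a := a) (Units.ext (Subtype.ext (by simpa using hk))) ha
  exact ⟨hr0.trans h.1, h.2⟩

end Pool.Agent.Bu
end

-- part Pool.Agent.Lib.MP_5bec91_al.Bu.L2
section

/-!
Step L2: a finite subgroup whose image lies in the image of another finite subgroup is conjugate
into it.
-/

set_option autoImplicit false

namespace Pool.Agent.Bu

open MulAction

namespace L2a

variable {A G X C Gb Xb : Type} [CommGroup A] [Group G] [MulAction G X] [MulAction G C]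
  [Group Gb] [MulAction Gb Xb]

/-- The conjugate subgroup. -/
def cq (y : G) (Q : Subgroup G) : Subgroup G := Q.map (MulAut.conj y).toMonoidHom

theorem mem_cq {y g : G} {Q : Subgroup G} : g ∈ cq y Q ↔ ∃ g0 ∈ Q, y * g0 * y⁻¹ = g := by
  simp [cq, Subgroup.mem_map]

theorem cq_fin (y : G) {Q : Subgroup G} (h : Finite Q) : Finite (cq y Q) :=
  Finite.of_surjective _ ((MulAut.conj y).toMonoidHom.subgroupMap_surjective Q)

/-- The conclusion of the step for the pair `Q`, `Q'`. -/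
def Good (S : FS A G X C Gb Xb) (Q' Q : Subgroup G) : Prop :=
  ∃ y, S.π y = 1 ∧ (∀ g ∈ Q, y * g * y⁻¹ ∈ Q' ∧ S.φ (y * g * y⁻¹) = S.φ g) ∧
    (Q ⊓ S.π.ker = ⊥ → S.φ y = 1)

theorem good_of_cq {S : FS A G X C Gb Xb} {Q' Q : Subgroup G} {y : G} (h1 : S.π y = 1)
    (h2 : ∀ g ∈ Q, S.φ (y * g * y⁻¹) = S.φ g) (h3 : Q ⊓ S.π.ker = ⊥ → S.φ y = 1)
    (h : Good S Q' (cq y Q)) : Good S Q' Q := by
  obtain ⟨z, hz1, hz2, hz3⟩ := h
  refine ⟨z * y, by rw [map_mul, hz1, h1, one_mul], fun g hg => ?_, fun hb => ?_⟩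
  · have e : z * y * g * (z * y)⁻¹ = z * (y * g * y⁻¹) * z⁻¹ := by group
    have h4 := hz2 _ (mem_cq.2 ⟨g, hg, rfl⟩)
    rw [e]
    exact ⟨h4.1, h4.2.trans (h2 g hg)⟩
  · rw [map_mul, h3 hb, mul_one]
    apply hz3
    rw [eq_bot_iff]
    rintro _ ⟨hg0, hk⟩
    obtain ⟨g, hg, rfl⟩ := mem_cq.1 hg0
    have h5 : S.π g = 1 := by
      have h6 : S.π (y * g * y⁻¹) = 1 := hk
      simpa using h6
    have h7 : g ∈ Q ⊓ S.π.ker := ⟨hg, h5⟩
    rw [hb, Subgroup.mem_bot] at h7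
    rw [h7, Subgroup.mem_bot]
    simp

theorem pi_N (S : FS A G X C Gb Xb) {n : G} (hn : n ∈ S.N) : S.π n = 1 := by
  rw [← S.πb_φ, (S.φ_ker n).2 hn, map_one]

/-- Small angles: the subgroup already lies in `Q'`. -/
theorem small_case (S : FS A G X C Gb Xb) (hL : LiftLib S.toQS) {x x' : X} {g g' : G}
    (hx : S.d x (g • x) ≤ S.θ) (hx' : S.d x' (g' • x') ≤ S.θ) (hφ : S.φ g' = S.φ g)
    (hs : ∀ c, S.ang c x x' ≤ 10 ^ 9 * S.θ) : g' = g := by
  have hn : g' * g⁻¹ ∈ S.N := (S.φ_ker _).1 (by simp [hφ])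
  have h := hL.small (g • x') _ hn (fun c => by
    rw [mul_smul, inv_smul_smul]
    have h1 := S.ang_tri c (g • x') (g • x) (g' • x')
    have h2 := S.ang_tri c (g • x) x (g' • x')
    have h3 := S.ang_tri c x x' (g' • x')
    have h4 := S.ang_smul g (g⁻¹ • c) x' x
    rw [smul_inv_smul] at h4
    have h5 := hs (g⁻¹ • c)
    have h6 := S.ang_symm (g⁻¹ • c) x x'
    have h7 := S.ang_le_d c (g • x) x
    have h8 := S.ang_le_d c x' (g' • x')
    have h9 := hs c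
    have h10 := S.D.symm x (g • x)
    simp only [CS.d] at *
    omega)
  exact mul_inv_eq_one.1 h

/-- The first large cone on an optimal chain. -/
theorem first_cone (S : CS G X C) (hE : Elec S) {x x' : X} {c0 : C}
    (h0 : 10 ^ 9 * S.θ < S.ang c0 x x') :
    ∃ c a b, S.EJ c x x' a b ∧ 10 ^ 9 * S.θ < S.ang c x x' ∧
      ∀ e, S.ang e x a ≤ 10 ^ 9 * S.θ + 10 * S.θ := by
  classical
  have hex : ∃ k, ∃ c a b, S.EJ c x x' a b ∧ 10 ^ 9 * S.θ < S.ang c x x' ∧ S.dh x a = k := by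
    obtain ⟨a, b, h⟩ := hE.f1 c0 x x' (by omega)
    exact ⟨_, c0, a, b, h, h0, rfl⟩
  obtain ⟨c, a, b, hj, hc, hk⟩ := Nat.find_spec hex
  refine ⟨c, a, b, hj, hc, fun e => ?_⟩
  have hθ := S.θ_pos
  by_contra hlt
  push Not at hlt
  by_cases hec : e = c
  · subst hec
    have := (hE.st e x x' a b hj).1
    omega
  · obtain ⟨v, hv⟩ := S.ne e
    have h1 := S.behr e c x v a hec hv hj.1
    have h2 := S.behr e c x' v a hec hv hj.1
    have h3 := S.ang_tri c x v x'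
    have h4 := S.ang_symm c v x'
    have h5 := S.ang_tri e x x' a
    have h6 : 10 ^ 9 * S.θ < S.ang e x x' := by
      simp only [CS.ang] at *
      omega
    obtain ⟨a1, b1, ha1, hb1, hj1⟩ := hE.f1 e x a (by omega)
    have h7 := S.dh_jump hj.1 hj.2.1
    have h8 := S.dh_jump ha1 hb1
    have h9 := hj.2.2
    have h10 := S.dh_tri b1 a x'
    have h11 := S.dh_tri a b x'
    have h12 := S.dh_tri x a1 x'
    have h13 := S.dh_tri a1 b1 x'
    have h14 : S.EJ e x x' a1 b1 := ⟨ha1, hb1, by omega⟩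
    have h15 := Nat.find_min' hex ⟨e, a1, b1, h14, h6, rfl⟩
    omega

theorem db_small (S : QS G X C Gb Xb) {x y : X} {R : ℕ} (h : S.d x y ≤ R) :
    S.db (S.q x) (S.q y) ≤ R := ((S.db_le x y).trans (S.dh_le_d x y)).trans h

/-- Elements that move both end points little fix the first large cone. -/
theorem fix_cone (S : QS G X C Gb Xb) (hL : LiftLib S) (hG : QGeo S) {x x' a : X} {g g' : G}
    {c : C} (hx : S.d x (g • x) ≤ S.θ) (hx' : S.d x' (g' • x') ≤ S.θ) (hφ : S.φ g' = S.φ g)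
    (ha : a ∈ S.Y c) (hq : 10 ^ 8 * S.θ ≤ S.qang c (S.q x) (S.q x'))
    (hs : ∀ e, S.ang e x a ≤ 10 ^ 9 * S.θ + 10 * S.θ) : g • c = c := by
  have hθ := S.θ_pos
  have d1 := db_small S hx
  have d2 := db_small S hx'
  have e1 : S.φ g • S.q x = S.q (g • x) := (S.q_smul g x).symm
  have e2 : S.φ g • S.q x' = S.q (g' • x') := by rw [S.q_smul, hφ]
  have hsim : S.Sim c (g • c) := by
    by_contra hns
    have h1 := S.qang_smul g c (S.q x) (S.q x')
    rw [e1, e2] at h1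
    have h2 := hG.q5 (g • c) (S.q x) (S.q (g • x)) (by omega)
    have h3 := hG.q5 (g • c) (S.q x') (S.q (g' • x')) (by omega)
    have h4 := hG.q1 (g • c) (S.q (g • x)) (S.q x) (S.q (g' • x'))
    have h5 := hG.q1 (g • c) (S.q x) (S.q x') (S.q (g' • x'))
    have h6 := S.qang_symm (g • c) (S.q (g • x)) (S.q x)
    have h7 := hG.sep c (g • c) (S.q x) (S.q x') hns (by omega) (by omega)
    have h8 := S.r_smul g c (S.q x)
    rw [e1] at h8
    have h9 := S.r_lip (g • c) (S.q x) (S.q (g • x))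
    have h10 := S.r_lip (g • c) (S.q (g • x)) (S.q x)
    have h11 := S.Db.symm (S.q (g • x)) (S.q x)
    simp only [QS.db] at *
    omega
  obtain ⟨n, hn, hnc⟩ := hsim
  rw [hnc]
  refine hL.uniq c a (g • a) n hn ha (hnc ▸ S.Yeq g c a ha) (fun e => ?_)
  have h1 := S.ang_tri e a x (g • a)
  have h2 := S.ang_tri e x (g • x) (g • a)
  have h3 := S.ang_smul g (g⁻¹ • e) x a
  rw [smul_inv_smul] at h3
  have h4 := hs e
  have h5 := hs (g⁻¹ • e)
  have h6 := S.ang_symm e a x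
  have h7 := S.ang_le_d e x (g • x)
  omega

/-- Up to a rotation the exit point is moved little. -/
theorem rot_near (S : QS G X C Gb Xb) (hG : QGeo S) {x' b : X} {g g' : G} {c : C}
    (hx' : S.d x' (g' • x') ≤ S.θ) (hφ : S.φ g' = S.φ g) (hc : g • c = c)
    (hb : S.Pi c (S.q x') b) : ∃ h ∈ S.H c, S.d b (h • g • b) ≤ 301 * S.θ := by
  have hθ := S.θ_pos
  have d2 := db_small S hx'
  have e2 : S.φ g • S.q x' = S.q (g' • x') := by rw [S.q_smul, hφ]
  have hb' := hb.smul S g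
  rw [hc, e2] at hb'
  have h1 := hG.q5 c (S.q x') (S.q (g' • x')) (by omega)
  obtain ⟨p, p', hp, hp', e⟩ := S.qang_ex c (S.q x') (S.q (g' • x'))
  obtain ⟨h, hh, h2⟩ := hG.q0 c _ b p hb hp
  obtain ⟨k, hk, h3⟩ := hG.q0 c _ (h • p') (g • b) (hp'.rot S hh) hb'
  refine ⟨k, hk, ?_⟩
  have h4 := S.iso h p p'
  have h5 := S.D.tri b (h • p) (k • g • b)
  have h6 := S.D.tri (h • p) (h • p') (k • g • b)
  simp only [CS.d] at *
  omega

/-- A finite subgroup of a cone stabilizer is conjugated to move the point `b` little. -/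
theorem cone_case (S : FS A G X C Gb Xb) {Q : Subgroup G} (hQ : Finite Q) {c : C} {b : X}
    (hb : b ∈ S.Y c) (hc : ∀ g ∈ Q, g • c = c)
    (hr : ∀ g ∈ Q, ∃ h ∈ S.H c, S.d b (h • g • b) ≤ 301 * S.θ) :
    ∃ y, S.π y = 1 ∧ (∀ g ∈ Q, S.φ (y * g * y⁻¹) = S.φ g) ∧ (Q ⊓ S.π.ker = ⊥ → S.φ y = 1) ∧
      ∀ g ∈ Q, S.d b ((y * g * y⁻¹) • b) ≤ 302 * S.θ := by
  obtain ⟨ε, t, a, n, hD⟩ := S.cone c
  have hst : ∀ g ∈ Q, g ∈ stabilizer G c := fun g hg => mem_stabilizer_iff.2 (hc g hg)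
  have hmov : ∀ g ∈ Q, ε g = 1 → S.d b (g • b) ≤ S.θ := by
    intro g hg he
    have hf : IsOfFinOrder g := by
      have h1 : IsOfFinOrder (⟨g, hg⟩ : Q) := isOfFinOrder_of_finite _
      exact Q.subtype.isOfFinOrder h1
    rcases (hD.aff.fin_iff (hst g hg)).1 hf with h | h
    · omega
    · exact S.mov c ε t hD.aff g (hst g hg) he h b hb
  by_cases hrefl : ∀ g ∈ Q, ε g = 1
  · refine ⟨1, map_one _, fun g _ => by simp, fun _ => map_one _, fun g hg => ?_⟩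
    have := hmov g hg (hrefl g hg)
    simp only [one_mul, inv_one, mul_one]
    omega
  push Not at hrefl
  obtain ⟨r, hrQ, hre⟩ := hrefl
  have hre' : ε r = -1 := (hD.aff.sq r (hst r hrQ)).resolve_left hre
  rcases hD.typ with ⟨hker, m, k0, hn, -, hcj⟩ | ⟨hE, -⟩
  swap
  · exfalso
    have h1 := hst r hrQ
    rw [hE] at h1
    obtain ⟨j, rfl⟩ := Subgroup.mem_zpowers_iff.1 h1
    exact hre (hD.aff.zpow_of_e hD.mem hD.ea j).1
  obtain ⟨h, hh, hd⟩ := hr r hrQ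
  have hh' := hh
  rw [hD.rot] at hh'
  obtain ⟨k, hk⟩ := Subgroup.mem_zpowers_iff.1 hh'
  have hw : h = (a ^ m) ^ (2 * k) * (a ^ m) ^ (2 * k) := by
    rw [← hk, hn, ← zpow_add, mul_comm 4 m, pow_mul, ← zpow_natCast (a ^ m) 4, ← zpow_mul]
    congr 1
    push_cast
    ring
  have hy : (a ^ m) ^ (2 * k) ∈ stabilizer G c :=
    Subgroup.zpow_mem _ (Subgroup.pow_mem _ hD.mem m) _
  have hpos : ∀ g ∈ Q, ε g = 1 → (a ^ m) ^ (2 * k) * g * ((a ^ m) ^ (2 * k))⁻¹ = g := by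
    intro g hg he
    have h1 := hcj g (hst g hg)
    rw [he, zpow_one] at h1
    have h2 := conj_zpow_mul h1 (2 * k)
    calc (a ^ m) ^ (2 * k) * g * ((a ^ m) ^ (2 * k))⁻¹
        = (g * (a ^ m) ^ (2 * k) * g⁻¹) * g * ((a ^ m) ^ (2 * k))⁻¹ := by rw [h2]
      _ = g := by group
  have hneg : ∀ g ∈ Q, ε g = -1 → (a ^ m) ^ (2 * k) * g * ((a ^ m) ^ (2 * k))⁻¹ = h * g := by
    intro g hg he
    have h1 := hcj g (hst g hg)
    rw [he, zpow_neg_one] at h1
    have h2 := conj_zpow_mul h1 (2 * k)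
    rw [inv_zpow] at h2
    rw [hw]
    calc (a ^ m) ^ (2 * k) * g * ((a ^ m) ^ (2 * k))⁻¹
        = (a ^ m) ^ (2 * k) * (g * (a ^ m) ^ (2 * k) * g⁻¹)⁻¹ * g := by group
      _ = _ := by rw [h2, inv_inv]
  refine ⟨(a ^ m) ^ (2 * k), hker hy, fun g hg => ?_, fun hbot => ?_, fun g hg => ?_⟩
  · rcases hD.aff.sq g (hst g hg) with he | he
    · rw [hpos g hg he]
    · rw [hneg g hg he, map_mul, (S.φ_ker h).2 (S.H_le_N c hh), one_mul]
  · exfalso
    have h1 : r ∈ Q ⊓ S.π.ker := ⟨hrQ, hker (hst r hrQ)⟩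
    rw [hbot, Subgroup.mem_bot] at h1
    rw [h1, hD.aff.e_one] at hre
    exact hre rfl
  · rcases hD.aff.sq g (hst g hg) with he | he
    · rw [hpos g hg he]
      have := hmov g hg he
      omega
    · rw [hneg g hg he]
      have hm : r⁻¹ * g ∈ Q := Q.mul_mem (Q.inv_mem hrQ) hg
      have h1 : ε (r⁻¹ * g) = 1 := by
        rw [hD.aff.em _ (Subgroup.inv_mem _ (hst r hrQ)) _ (hst g hg),
          hD.aff.e_inv (hst r hrQ), hre', he]
        rfl
      have h2 := hmov _ hm h1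
      have h3 := S.iso (h * r) b ((r⁻¹ * g) • b)
      have e1 : (h * r) • (r⁻¹ * g) • b = (h * g) • b := by
        rw [← mul_smul]
        congr 1
        group
      rw [e1, mul_smul h r] at h3
      have h4 := S.D.tri b (h • r • b) ((h * g) • b)
      simp only [CS.d] at *
      omega

theorem cq_map {S : FS A G X C Gb Xb} {Q' Q : Subgroup G} {y : G}
    (h2 : ∀ g ∈ Q, S.φ (y * g * y⁻¹) = S.φ g) (h : Q.map S.φ ≤ Q'.map S.φ) :
    (cq y Q).map S.φ ≤ Q'.map S.φ := by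
  rintro _ ⟨g, hg, rfl⟩
  obtain ⟨g0, hg0, rfl⟩ := mem_cq.1 hg
  rw [h2 g0 hg0]
  exact h ⟨g0, hg0, rfl⟩

theorem main (hH : HypLib) (S : FS A G X C Gb Xb) (hE : Elec S.toCS) (hL : LiftLib S.toQS)
    (hG : QGeo S.toQS) {Q' : Subgroup G} {x' : X} (hx' : ∀ g ∈ Q', S.d x' (g • x') ≤ 7 * S.δ)
    (k : ℕ) : ∀ (Q : Subgroup G) (x : X), Finite Q → Q.map S.φ ≤ Q'.map S.φ →
      (∀ g ∈ Q, S.d x (g • x) ≤ 7 * S.δ) → S.db (S.q x') (S.q x) < k → Good S Q' Q := by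
  induction k with
  | zero => intro Q x _ _ _ h; omega
  | succ k ih =>
    have hθ := S.θ_pos
    have hδ := S.hθ
    have tight : ∀ (Q : Subgroup G) (x : X), Finite Q → Q.map S.φ ≤ Q'.map S.φ →
        (∀ g ∈ Q, S.d x (g • x) ≤ 7 * S.δ) → S.db (S.q x') (S.q x) < k + 1 → S.Exact x' x →
        (∀ c, S.ang c x' x ≤ 2000 * S.θ ∨
          S.ang c x' x ≤ S.qang c (S.q x') (S.q x) + 300 * S.θ) → Good S Q' Q := by
      intro Q x hQ hle hx hk hex ht
      have hlift : ∀ g ∈ Q, ∃ g' ∈ Q', S.φ g' = S.φ g := fun g hg => hle ⟨g, hg, rfl⟩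
      have hxθ : ∀ g ∈ Q, S.d x (g • x) ≤ S.θ := fun g hg => (hx g hg).trans (by omega)
      have hxθ' : ∀ g ∈ Q', S.d x' (g • x') ≤ S.θ := fun g hg => (hx' g hg).trans (by omega)
      by_cases hs : ∀ c, S.ang c x x' ≤ 10 ^ 9 * S.θ
      · refine ⟨1, map_one _, fun g hg => ?_, fun _ => map_one _⟩
        obtain ⟨g', hg', hφ⟩ := hlift g hg
        have e := small_case S hL (hxθ g hg) (hxθ' g' hg') hφ hs
        simp only [one_mul, inv_one, mul_one, and_true]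
        exact e ▸ hg'
      push Not at hs
      obtain ⟨c0, h0⟩ := hs
      obtain ⟨c, a, b, hj, hc, hsm⟩ := first_cone S.toCS hE h0
      have hq : 10 ^ 8 * S.θ ≤ S.qang c (S.q x) (S.q x') := by
        have h1 := ht c
        have h2 := S.ang_symm c x x'
        have h3 := S.qang_symm c (S.q x) (S.q x')
        omega
      have hfix : ∀ g ∈ Q, g • c = c := by
        intro g hg
        obtain ⟨g', hg', hφ⟩ := hlift g hg
        exact fix_cone S.toQS hL hG (hxθ g hg) (hxθ' g' hg') hφ hj.1 hq hsm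
      have hb := (hG.q3 c x x' a b (hex.symm S.toQS) hj).2.1
      obtain ⟨y, hy1, hy2, hy3, hy4⟩ := cone_case S hQ hj.2.1 hfix (fun g hg => by
        obtain ⟨g', hg', hφ⟩ := hlift g hg
        exact rot_near S.toQS hG (hxθ' g' hg') hφ (hfix g hg) hb)
      refine good_of_cq hy1 hy2 hy3 ?_
      obtain ⟨x1, hx1, hx2⟩ := hH.center S.D S.δ (cq y Q) S.geom (cq_fin y hQ) b (302 * S.θ)
        (fun g hg => by
          obtain ⟨g0, hg0, rfl⟩ := mem_cq.1 hg
          exact hy4 g0 hg0)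
      refine ih (cq y Q) x1 (cq_fin y hQ) (cq_map hy2 hle) hx2 ?_
      have h1 := S.db_le x' x1
      have h2 := S.dh_tri x' b x1
      have h3 := S.dh_le_d b x1
      have h4 := S.D.symm b x1
      have h5 := hj.2.2
      have h6 := S.dh_symm x' b
      have h7 := S.dh_symm x' x
      unfold QS.Exact at hex
      simp only [CS.d, QS.db] at *
      omega
    intro Q x hQ hle hx hk
    obtain ⟨y0, hy0, hex, ht⟩ := hG.sl x' (S.q x)
    obtain ⟨n, hn, rfl⟩ := S.q_eq x y0 hy0.symm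
    have hφ := (S.φ_ker n).2 hn
    have h2 : ∀ g ∈ Q, S.φ (n * g * n⁻¹) = S.φ g := fun g _ => by simp [hφ]
    refine good_of_cq (pi_N S hn) h2 (fun _ => hφ) ?_
    refine tight (cq n Q) (n • x) (cq_fin n hQ) (cq_map h2 hle) (fun g hg => ?_)
      (by rw [hy0]; exact hk) hex (by rw [hy0]; exact ht)
    obtain ⟨g0, hg0, rfl⟩ := mem_cq.1 hg
    rw [mul_smul, inv_smul_smul, mul_smul, S.iso]
    exact hx g0 hg0

end L2a

theorem l2Stmt : HypLib → AlgA → AlgB → L2Stmt := by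
  intro hH _ _ A G X C Gb Xb _ _ _ _ _ _ S hE hL hG Q Q' hQ hQ' hle
  obtain ⟨x', hx'⟩ := hH.center0 S.D S.δ Q' S.geom hQ'
  obtain ⟨x, hx⟩ := hH.center0 S.D S.δ Q S.geom hQ
  exact L2a.main hH S hE hL hG hx' _ Q x hQ hle hx (Nat.lt_succ_self _)

end Pool.Agent.Bu
end
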