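import Pool.Agent.Lib.MP_5bec91_al.Bu.NewOne

-- part Pool.Agent.Lib.MP_5bec91_al.Bu.Hyp
section

/-!
Layer H: elementary hyperbolic geometry for natural-number valued pseudo-metrics.
-/

set_option autoImplicit false

namespace Pool.Agent.Bu

open MulAction

namespace Hyp

section Metric
variable {X : Type} (D : PM X)

theorem dist2 (δ a b : ℕ) (x y u p : X) (hh : D.Hyp δ) (hu : D.Btw a x u y)
    (hp : D.Btw b x p y) (ho : D.d x u + D.d p y ≤ D.d x p + D.d u y) :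
    2 * D.d u p + D.d x u + D.d p y ≤ D.d x p + D.d u y + a + b + 2 * δ := by
  have h1 := hh u p x y
  have h2 := D.symm u x
  have h3 := D.symm p x
  simp only [PM.Btw] at *
  omega

theorem align (δ a b : ℕ) (x y u v p : X) (hh : D.Hyp δ) (hu : D.Btw b x u y)
    (hv : D.Btw b x v y) (hp : D.Btw a x p y) (h1 : D.d x u + D.d p y ≤ D.d x p + D.d u y)
    (h2 : D.d x p + D.d v y ≤ D.d x v + D.d p y) : D.Btw (a + b + 2 * δ) u p v := by
  have h3 := dist2 D δ b a x y u p hh hu hp h1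
  have h4 := dist2 D δ a b x y p v hh hp hv h2
  have h5 := D.tri x u v
  have h6 := D.tri u v y
  simp only [PM.Btw] at *
  omega

theorem near (δ a : ℕ) (u v p : X) (h1 : 1 ≤ δ) (hh : D.Hyp δ) (hg : D.Geo δ)
    (hp : D.Btw a u p v) : ∃ z, D.d u z + D.d z v = D.d u v ∧ 2 * D.d z p ≤ a + 5 * δ := by
  have t1 := D.tri u v p
  have t2 := D.tri p u v
  have s1 := D.symm v p
  have s2 := D.symm p u
  obtain ⟨z, hz, h2, h3⟩ := hg u v ((D.d u p + D.d u v - D.d p v + 1) / 2) (by omega)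
  refine ⟨z, hz, ?_⟩
  have h4 := dist2 D δ a 0 u v p z hh hp (by simp only [PM.Btw]; omega) (by omega)
  have s3 := D.symm z p
  omega

theorem fellow (δ a b : ℕ) (x y z p q : X) (hh : D.Hyp δ) (hp : D.Btw a x p y)
    (hq : D.Btw b x q z) : D.d p q + D.d x p ≤ D.d x q + a + 2 * δ ∨
      D.d p q + D.d x q ≤ D.d x p + b + 2 * δ ∨
      D.d p q + D.d x y + D.d x z ≤ D.d x p + D.d x q + D.d y z + 2 * δ := by
  have h1 := hh p q y x
  have h2 := hh y q z x
  have s1 := D.symm y x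
  have s2 := D.symm q x
  have s3 := D.symm p x
  have s4 := D.symm q y
  have s5 := D.symm z x
  simp only [PM.Btw] at *
  omega

theorem chainL (δ a L : ℕ) (x : ℕ → X) (hh : D.Hyp δ)
    (hb : ∀ i, D.Btw a (x i) (x (i + 1)) (x (i + 2))) (hL : ∀ i, L ≤ D.d (x i) (x (i + 1)))
    (hs : 2 * a + 3 * δ < 2 * L) (i n : ℕ) :
    D.Btw (a + δ) (x i) (x (i + n)) (x (i + n + 1)) := by
  induction n with
  | zero =>
    have := D.refl (x i)
    simp only [PM.Btw, Nat.add_zero]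
    omega
  | succ n ih =>
    have h1 := hb (i + n)
    have h2 := hL (i + n)
    have h3 := hh (x (i + n)) (x (i + n + 2)) (x i) (x (i + n + 1))
    have s1 := D.symm (x (i + n)) (x i)
    have s2 := D.symm (x (i + n + 2)) (x (i + n + 1))
    have s3 := D.symm (x (i + n + 2)) (x i)
    show D.Btw (a + δ) (x i) (x (i + n + 1)) (x (i + n + 2))
    simp only [PM.Btw] at *
    omega

theorem chainR (δ a L : ℕ) (x : ℕ → X) (hh : D.Hyp δ)
    (hb : ∀ i, D.Btw a (x i) (x (i + 1)) (x (i + 2))) (hL : ∀ i, L ≤ D.d (x i) (x (i + 1)))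
    (hs : 2 * a + 3 * δ < 2 * L) (n : ℕ) :
    ∀ j, D.Btw (a + δ) (x j) (x (j + 1)) (x (j + 1 + n)) := by
  induction n with
  | zero =>
    intro j
    have := D.refl (x (j + 1))
    simp only [PM.Btw, Nat.add_zero]
    omega
  | succ n ih =>
    intro j
    have h0 := ih (j + 1)
    have e : j + 1 + (n + 1) = j + 1 + 1 + n := by omega
    rw [e]
    generalize x (j + 1 + 1 + n) = w at h0 ⊢
    have h1 := hb j
    have h2 := hL (j + 1)
    have h3 := hh (x j) (x (j + 2)) w (x (j + 1))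
    have s1 := D.symm w (x (j + 1))
    have s2 := D.symm (x (j + 2)) (x (j + 1))
    have e2 : j + 1 + 1 = j + 2 := rfl
    rw [e2] at h0 h2
    simp only [PM.Btw] at *
    omega

theorem chain (δ a L : ℕ) (x : ℕ → X) (hh : D.Hyp δ)
    (hb : ∀ i, D.Btw a (x i) (x (i + 1)) (x (i + 2))) (hL : ∀ i, L ≤ D.d (x i) (x (i + 1)))
    (hs : 2 * a + 3 * δ < 2 * L) :
    (∀ k, k * L ≤ D.d (x 0) (x k) + k * (a + δ)) ∧
      ∀ i j l, i ≤ j → j ≤ l → D.Btw (a + 2 * δ) (x i) (x j) (x l) := by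
  constructor
  · intro k
    induction k with
    | zero => simp
    | succ k ih =>
      have h1 := chainL D δ a L x hh hb hL hs 0 k
      have h2 := hL k
      simp only [PM.Btw, Nat.zero_add] at h1
      rw [Nat.succ_mul, Nat.succ_mul]
      omega
  · intro i j l hij hjl
    obtain ⟨n, rfl⟩ := Nat.exists_eq_add_of_le hij
    rcases hjl.eq_or_lt with e | hlt
    · subst e
      have := D.refl (x (i + n))
      simp only [PM.Btw]
      omega
    · obtain ⟨m, rfl⟩ := Nat.exists_eq_add_of_le (Nat.succ_le_of_lt hlt)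
      have h1 := chainL D δ a L x hh hb hL hs i n
      have h2 := chainR D δ a L x hh hb hL hs m (i + n)
      have h3 := hL (i + n)
      simp only [Nat.succ_eq_add_one]
      generalize x (i + n + 1 + m) = w at h2 ⊢
      have h4 := hh (x i) (x (i + n + 1)) w (x (i + n))
      have s1 := D.symm w (x (i + n))
      have s2 := D.symm (x (i + n + 1)) (x (i + n))
      simp only [PM.Btw] at *
      omega

theorem thin (τ γ : ℕ) (ht : D.Thin τ) (hg : D.Geo γ) : D.Hyp (3 * τ + 2 * γ + 1) := by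
  intro x y z w
  have t1 := D.tri x y w
  have t2 := D.tri y x w
  have s0 := D.symm y x
  obtain ⟨m, hm, h2, h3⟩ := hg x y ((D.d x y + D.d x w - D.d y w) / 2) (by omega)
  have h4 := ht x y w m hm
  have h5 := ht x y z m hm
  have t3 := D.tri x m w
  have t4 := D.tri z m w
  have t5 := D.tri y m w
  have s1 := D.symm w m
  have s2 := D.symm w y
  have s3 := D.symm z m
  have s4 := D.symm y m
  have s5 := D.symm z y
  simp only [PM.Btw] at *
  omega

end Metric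

section Act
variable {G X : Type} [Group G] [MulAction G X] (D : PM X)

theorem conv (δ a R : ℕ) (g : G) (x y z : X) (hi : D.Iso G) (hh : D.Hyp δ)
    (hz : D.Btw a x z y) (hx : D.d x (g • x) ≤ R) (hy : D.d y (g • y) ≤ R) :
    D.d z (g • z) ≤ R + a + δ := by
  have h1 := hh z (g • z) x y
  have h2 := D.tri (g • z) (g • y) y
  have h3 := D.tri (g • z) (g • x) x
  have h4 := hi g z y
  have h5 := hi g z x
  have s1 := D.symm (g • y) y
  have s2 := D.symm (g • x) x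
  have s3 := D.symm z x
  simp only [PM.Btw] at *
  omega

theorem rho_ex (Q : Subgroup G) (hQ : Finite Q) (b : X) :
    ∃ ρ : X → ℕ, (∀ v, ∀ g ∈ Q, D.d v (g • b) ≤ ρ v) ∧ ∀ v, ∃ g ∈ Q, D.d v (g • b) = ρ v := by
  have key : ∀ v, ∃ g0 : Q, ∀ g : Q, D.d v ((g : G) • b) ≤ D.d v ((g0 : G) • b) := fun v =>
    Finite.exists_max fun g : Q => D.d v ((g : G) • b)
  choose f hf using key
  exact ⟨fun v => D.d v ((f v : G) • b), fun v g hg => hf v ⟨g, hg⟩,
    fun v => ⟨f v, (f v).2, rfl⟩⟩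

theorem center (δ : ℕ) (Q : Subgroup G) (hG : Geom G D δ) (hQ : Finite Q) (b : X) (R : ℕ)
    (hR : ∀ g ∈ Q, D.d b (g • b) ≤ R) :
    ∃ x, D.d x b ≤ R ∧ ∀ g ∈ Q, D.d x (g • x) ≤ 7 * δ := by
  obtain ⟨ρ, h1, h2⟩ := rho_ex D Q hQ b
  have : Nonempty X := ⟨b⟩
  obtain ⟨x, hx⟩ : ∃ x, ∀ v, ρ x ≤ ρ v := ⟨Function.argmin ρ, fun v => Function.argmin_le ρ v⟩
  refine ⟨x, ?_, ?_⟩
  · have h3 := h1 x 1 Q.one_mem
    rw [one_smul] at h3
    obtain ⟨g, hg, e⟩ := h2 b
    have h4 := hR g hg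
    have h5 := hx b
    omega
  · intro g hg
    obtain ⟨m, hm, h3, h4⟩ := hG.geo x (g • x) (D.d x (g • x) / 2) (by omega)
    obtain ⟨k, hk, e⟩ := h2 m
    have h5 := hx m
    have h6 := h1 x k hk
    have h7 := h1 x (g⁻¹ * k) (Q.mul_mem (Q.inv_mem hg) hk)
    have h8 := hG.iso g x ((g⁻¹ * k) • b)
    rw [← mul_smul, mul_inv_cancel_left] at h8
    have h9 := hG.hyp m (k • b) x (g • x)
    have s1 := D.symm m x
    have s2 := D.symm (k • b) (g • x)
    have s3 := D.symm (k • b) x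
    have hp := hG.pos
    omega

theorem center0 (δ : ℕ) (Q : Subgroup G) (hG : Geom G D δ) (hQ : Finite Q) :
    ∃ x, ∀ g ∈ Q, D.d x (g • x) ≤ 7 * δ := by
  obtain ⟨b⟩ := hG.ne
  obtain ⟨ρ, h1, -⟩ := rho_ex D Q hQ b
  obtain ⟨x, -, hx⟩ := center D δ Q hG hQ b (ρ b) (h1 b)
  exact ⟨x, hx⟩

theorem chainO (δ a : ℕ) (h : G) (b : X) (hi : D.Iso G) (hh : D.Hyp δ)
    (hb : D.Btw a (h⁻¹ • b) b (h • b)) (hs : 2 * a + 3 * δ < 2 * D.d b (h • b)) :
    ¬ IsOfFinOrder h ∧ (∀ k : ℕ, k ≤ D.d b (h ^ k • b)) ∧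
      (∀ k : ℕ, k * D.d b (h • b) ≤ D.d b (h ^ k • b) + k * (a + δ)) ∧
      ∀ i j l : ℤ, i ≤ j → j ≤ l → D.Btw (a + 2 * δ) (h ^ i • b) (h ^ j • b) (h ^ l • b) := by
  have e0 : ∀ i : ℕ, h ^ i • b = h ^ (i + 1) • h⁻¹ • b := fun i => by
    rw [← mul_smul, pow_succ, mul_inv_cancel_right]
  have e1 : ∀ i : ℕ, h ^ (i + 1) • b = h ^ i • h • b := fun i => by
    rw [← mul_smul, pow_succ]
  obtain ⟨c1, c2⟩ := chain D δ a (D.d b (h • b)) (fun n => h ^ n • b) hh
    (fun i => by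
      simp only [PM.Btw] at hb ⊢
      rw [e0 i, e1 (i + 1), hi, hi, hi]
      exact hb)
    (fun i => by rw [e1 i, hi]) hs
  simp only [pow_zero, one_smul] at c1
  have c3 : ∀ k : ℕ, k ≤ D.d b (h ^ k • b) := fun k => by
    have h1 := c1 k
    have h2 : k * (a + δ + 1) ≤ k * D.d b (h • b) := Nat.mul_le_mul_left k (by omega)
    rw [Nat.mul_add_one] at h2
    omega
  refine ⟨?_, c3, c1, ?_⟩
  · intro hf
    obtain ⟨n, hn, e⟩ := isOfFinOrder_iff_pow_eq_one.1 hf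
    have h1 := c3 n
    rw [e, one_smul, D.refl] at h1
    omega
  · intro i j l hij hjl
    obtain ⟨m, rfl⟩ := Int.le.dest hij
    obtain ⟨n, rfl⟩ := Int.le.dest (hij.trans hjl)
    have h1 := c2 0 m n (Nat.zero_le _) (by omega)
    simp only [PM.Btw, pow_zero, one_smul] at h1 ⊢
    rw [zpow_add, zpow_add, mul_smul, mul_smul, hi, hi, hi, zpow_natCast, zpow_natCast]
    exact h1

theorem pow_le (hi : D.Iso G) (g : G) (x : X) (j : ℕ) :
    D.d x (g ^ j • x) ≤ j * D.d x (g • x) := by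
  induction j with
  | zero => simp [D.refl]
  | succ j ih =>
    have h1 := D.tri x (g ^ j • x) (g ^ (j + 1) • x)
    have h2 := hi (g ^ j) x (g • x)
    rw [← mul_smul, ← pow_succ] at h2
    rw [Nat.succ_mul]
    omega

theorem mult (g : G) (z : X) (u v w : ℕ) (hi : D.Iso G)
    (hz : ∀ k : ℕ, k * u ≤ v * D.d z (g ^ k • z) + w) (x : X) (k : ℕ) :
    k * u ≤ v * D.d x (g ^ k • x) := by
  by_contra hc
  push Not at hc
  set j := v * (2 * D.d x z) + w + 1 with hj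
  have h1 := hz (k * j)
  have h2 := pow_le D hi (g ^ k) x j
  rw [← pow_mul] at h2
  have h3 := D.tri z x (g ^ (k * j) • z)
  have h4 := D.tri x (g ^ (k * j) • x) (g ^ (k * j) • z)
  have h5 := hi (g ^ (k * j)) x z
  have s1 := D.symm z x
  have h6 : D.d z (g ^ (k * j) • z) ≤ 2 * D.d x z + j * D.d x (g ^ k • x) := by omega
  have h7 := Nat.mul_le_mul_left v h6
  have h8 := Nat.mul_le_mul_left j (Nat.succ_le_of_lt hc)
  have e1 : k * j * u = j * (k * u) := by ring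
  have e2 : v * (2 * D.d x z + j * D.d x (g ^ k • x)) =
      v * (2 * D.d x z) + j * (v * D.d x (g ^ k • x)) := by ring
  rw [Nat.mul_succ] at h8
  omega

theorem loxA (δ : ℕ) (g : G) (hG : Geom G D δ) (hd : ∀ x, 20 * δ ≤ D.d x (g • x)) :
    (∀ x (k : ℕ), k * δ ≤ D.d x (g ^ k • x)) ∧ ∃ b, D.Btw (2 * δ) (g⁻¹ • b) b (g • b) := by
  have := hG.ne
  obtain ⟨x, hx⟩ : ∃ x, ∀ v, D.d x (g • x) ≤ D.d v (g • v) :=
    ⟨Function.argmin (fun v => D.d v (g • v)),
      fun v => Function.argmin_le (fun v => D.d v (g • v)) v⟩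
  obtain ⟨m, hm, h1, h2⟩ := hG.geo x (g • x) (D.d x (g • x) / 2) (by omega)
  have hp := hG.pos
  have h3 := hd x
  have h4 := hx m
  have i1 := hG.iso g x m
  have i2 := hG.iso g m (g • x)
  have i3 := hG.iso g x (g • x)
  have s1 := D.symm (g • x) m
  have s2 := D.symm m x
  have s3 := D.symm (g • x) x
  have h5 := fellow D δ 0 0 (g • x) x (g • g • x) m (g • m) hG.hyp
    (by simp only [PM.Btw]; omega) (by simp only [PM.Btw]; omega)
  have h6 : D.Btw (2 * δ) (g⁻¹ • g • x) (g • x) (g • g • x) := by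
    rw [inv_smul_smul]
    simp only [PM.Btw]
    omega
  refine ⟨?_, g • x, h6⟩
  obtain ⟨-, -, c, -⟩ := chainO D δ (2 * δ) g (g • x) hG.iso hG.hyp h6 (by omega)
  intro y k
  have h7 := mult D g (g • x) δ 1 0 hG.iso (fun k => by
    have h8 := c k
    have h9 : k * (2 * δ + δ + δ) ≤ k * D.d (g • x) (g • g • x) :=
      Nat.mul_le_mul_left k (by omega)
    rw [Nat.mul_add] at h9
    omega) y k
  omega

theorem zpow_abs (hi : D.Iso G) (a : G) (x : X) (i : ℤ) :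
    D.d x (a ^ i • x) = D.d x (a ^ i.natAbs • x) := by
  obtain ⟨m, rfl | rfl⟩ := i.eq_nat_or_neg
  · rw [zpow_natCast, Int.natAbs_natCast]
  · rw [zpow_neg, zpow_natCast, Int.natAbs_neg, Int.natAbs_natCast, D.symm, hi.inv_smul]

theorem bern (I n : ℕ) : I ^ n * (I + n) ≤ (I + 1) ^ n * I := by
  induction n with
  | zero => simp
  | succ n ih =>
    calc I ^ (n + 1) * (I + (n + 1)) = I ^ n * (I * (I + n + 1)) := by ring
      _ ≤ I ^ n * ((I + n) * (I + 1)) := Nat.mul_le_mul_left _ (by nlinarith)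
      _ = I ^ n * (I + n) * (I + 1) := by ring
      _ ≤ (I + 1) ^ n * I * (I + 1) := Nat.mul_le_mul_right _ ih
      _ = _ := by ring

theorem bs_le (δ : ℕ) (hG : Geom G D δ) (hl : Lox G D δ) (g a : G) (i j : ℤ)
    (ha : ¬ IsOfFinOrder a) (h0 : i ≠ 0) (e : g * a ^ i * g⁻¹ = a ^ j) :
    j.natAbs ≤ i.natAbs := by
  have key : ∀ n : ℕ, ∀ x (k : ℕ),
      k * (j.natAbs ^ n * δ) ≤ i.natAbs ^ n * 10 ^ 18 * D.d x (a ^ k • x) := by
    intro n
    induction n with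
    | zero => simpa using hl a ha
    | succ n ih =>
      intro x k
      have h1 := ih (g • x) (j.natAbs * k)
      have h2 := conj_zpow_mul e k
      rw [← zpow_mul, ← zpow_mul] at h2
      have h3 := zpow_abs D hG.iso a (g • x) (j * k)
      have h4 := zpow_abs D hG.iso a x (i * k)
      rw [Int.natAbs_mul, Int.natAbs_natCast] at h3 h4
      rw [← h3, ← h2, mul_smul, mul_smul, inv_smul_smul, hG.iso, h4, mul_comm i.natAbs k,
        pow_mul] at h1
      have h5 := pow_le D hG.iso (a ^ k) x i.natAbs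
      calc k * (j.natAbs ^ (n + 1) * δ) = j.natAbs * k * (j.natAbs ^ n * δ) := by ring
        _ ≤ _ := h1
        _ ≤ i.natAbs ^ n * 10 ^ 18 * (i.natAbs * D.d x (a ^ k • x)) := Nat.mul_le_mul_left _ h5
        _ = _ := by ring
  by_contra hc
  push Not at hc
  obtain ⟨x⟩ := hG.ne
  have hI : 0 < i.natAbs := Int.natAbs_pos.2 h0
  generalize i.natAbs = I at *
  generalize j.natAbs = J at *
  set C := 10 ^ 18 * D.d x (a ^ 1 • x) with hC
  have h1 := key (C * I) x 1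
  have h2 := bern I (C * I)
  have h3 : (I + 1) ^ (C * I) ≤ J ^ (C * I) := Nat.pow_le_pow_left hc _
  have h4 : J ^ (C * I) ≤ I ^ (C * I) * C := by
    calc J ^ (C * I) = 1 * (J ^ (C * I) * 1) := by ring
      _ ≤ 1 * (J ^ (C * I) * δ) := Nat.mul_le_mul_left _ (Nat.mul_le_mul_left _ hG.pos)
      _ ≤ _ := h1
      _ = _ := by rw [hC]; ring
  have h5 : I ^ (C * I) * (I + C * I) ≤ I ^ (C * I) * (C * I) := by
    calc I ^ (C * I) * (I + C * I) ≤ (I + 1) ^ (C * I) * I := h2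
      _ ≤ I ^ (C * I) * C * I := Nat.mul_le_mul_right _ (h3.trans h4)
      _ = _ := by ring
  have h6 := Nat.le_of_mul_le_mul_left h5 (pow_pos hI _)
  omega

theorem bs (δ : ℕ) (hG : Geom G D δ) (hl : Lox G D δ) (g a : G) (i j : ℤ)
    (ha : ¬ IsOfFinOrder a) (h0 : i ≠ 0) (e : g * a ^ i * g⁻¹ = a ^ j) :
    (j = i ∨ j = -i) ∧ g ∈ E a := by
  have hj : j ≠ 0 := by
    rintro rfl
    apply ha
    rw [zpow_zero, conj_eq_one_iff] at e
    exact isOfFinOrder_iff_zpow_eq_one.2 ⟨i, h0, e⟩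
  have h1 := bs_le D δ hG hl g a i j ha h0 e
  have h2 := bs_le D δ hG hl g⁻¹ a j i ha hj (by rw [← e]; group)
  have h3 : j = i ∨ j = -i := by omega
  refine ⟨h3, i.natAbs, Int.natAbs_pos.2 h0, ?_⟩
  obtain ⟨m, rfl | rfl⟩ := i.eq_nat_or_neg
  · rw [Int.natAbs_natCast]
    rcases h3 with rfl | rfl
    · left; simpa using e
    · right; simpa using e
  · rw [Int.natAbs_neg, Int.natAbs_natCast]
    have e' : g * a ^ m * g⁻¹ = (a ^ j)⁻¹ := by rw [← e]; group
    rcases h3 with rfl | rfl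
    · left; simpa using e'
    · right; simpa using e'

end Act

end Hyp

theorem hypLib : HypLib where
  dist2 := Hyp.dist2
  align := Hyp.align
  near := Hyp.near
  fellow := Hyp.fellow
  conv := Hyp.conv
  center := Hyp.center
  center0 := Hyp.center0
  chain := Hyp.chain
  chainO := Hyp.chainO
  mult := Hyp.mult
  loxA := Hyp.loxA
  bs := Hyp.bs
  thin := Hyp.thin

end Pool.Agent.Bu
end

-- part Pool.Agent.Lib.MP_5bec91_al.Bu.Shift
section

/-!
Shifts along a long segment and the displacement form of the property `P1`.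
-/

set_option autoImplicit false

namespace Pool.Agent.Bu

open MulAction

namespace Shift

section Metric
variable {X : Type} (D : PM X) {δ : ℕ}

/-- Two points near a geodesic from `x` have a large Gromov product at `x`. -/
theorem gp {a : ℕ} {x y u v : X} (hy : D.Hyp δ) (hu : D.Btw a x u y) (hv : D.Btw a x v y) :
    D.d u v + 2 * min (D.d x u) (D.d x v) ≤ D.d x u + D.d x v + a + δ := by
  have h1 := hy u v y x
  have h2 := D.symm y x
  have h3 := D.symm u x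
  have h4 := D.symm v x
  simp only [PM.Btw] at hu hv
  omega

theorem btw_symm {a : ℕ} {x y u : X} (hu : D.Btw a x u y) : D.Btw a y u x := by
  have h2 := D.symm y x
  have h3 := D.symm u x
  have h4 := D.symm u y
  simp only [PM.Btw] at hu ⊢
  omega

/-- Changing the origin changes the distances to two deep points by almost the same amount. -/
theorem stab {R : ℕ} {x x' u v : X} (hy : D.Hyp δ) (hx : D.d x x' ≤ R)
    (hg : D.d u v + 2 * R + δ < D.d x u + D.d x v) :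
    D.d x u + D.d x' v ≤ D.d x v + D.d x' u + δ := by
  have h1 := hy x u v x'
  have h2 := D.symm v x'
  have h3 := D.symm u x'
  have h4 := D.tri x x' v
  omega

/-- Distance of two points near a geodesic in terms of the potential. -/
theorem dist {a b : ℕ} {x y u p : X} (hy : D.Hyp δ) (hu : D.Btw a x u y) (hp : D.Btw b x p y) :
    2 * D.d u p + D.d x u + D.d p y ≤ D.d x p + D.d u y + a + b + 2 * δ ∨
      2 * D.d u p + D.d x p + D.d u y ≤ D.d x u + D.d p y + a + b + 2 * δ := by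
  have h1 := hy u p x y
  have h3 := D.symm u x
  have h4 := D.symm p x
  simp only [PM.Btw] at hu hp
  omega

end Metric

section Act
variable {G X : Type} [Group G] [MulAction G X] (D : PM X) {δ : ℕ}

/-- `w` moves `x` by at most `K`. -/
def Mv (K : ℕ) (x : X) (w : G) : Prop := D.d x (w • x) ≤ K

variable {D}

theorem Mv.mul (hi : D.Iso G) {K L : ℕ} {x : X} {w w' : G} (h : Mv D K x w) (h' : Mv D L x w') :
    Mv D (K + L) x (w * w') := by
  have h1 := hi w x (w' • x)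
  have h2 := D.tri x (w • x) (w • w' • x)
  simp only [Mv, mul_smul] at *
  omega

theorem Mv.inv (hi : D.Iso G) {K : ℕ} {x : X} {w : G} (h : Mv D K x w) : Mv D K x w⁻¹ := by
  have h1 := hi w x (w⁻¹ • x)
  have h2 := D.symm x (w • x)
  rw [smul_inv_smul] at h1
  simp only [Mv] at *
  omega

theorem Mv.pow (hi : D.Iso G) {K : ℕ} {x : X} {w : G} (h : Mv D K x w) (i : ℕ) :
    Mv D (i * K) x (w ^ i) := by
  induction i with
  | zero => simp [Mv, D.refl]
  | succ i ih => rw [pow_succ, Nat.succ_mul]; exact ih.mul hi h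

theorem Mv.mono {K L : ℕ} {x : X} {w : G} (h : Mv D K x w) (hKL : K ≤ L) : Mv D L x w :=
  le_trans h hKL

/-- Depth of the translate of a point. -/
theorem Mv.deep (hi : D.Iso G) {K : ℕ} {x : X} {w : G} (h : Mv D K x w) (b : X) :
    D.d x b ≤ D.d x (w • b) + K := by
  have h1 := hi w x b
  have h2 := D.tri (w • x) x (w • b)
  have h3 := D.symm x (w • x)
  simp only [Mv] at h
  omega

/-- A translate of a deep point of a geodesic is near the geodesic. -/
theorem tr0 (hi : D.Iso G) (hy : D.Hyp δ) {K : ℕ} {x y b : X} {w : G} (hx : Mv D K x w)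
    (hy' : Mv D K y w) (hb : D.Btw 0 x b y) (h1 : K + δ < D.d x b) (h2 : K + δ < D.d y b) :
    D.Btw (2 * δ) x (w • b) y := by
  have a1 := hy (w • x) (w • y) x (w • b)
  have a2 := hy x (w • y) y (w • b)
  have a3 := hi w x y
  have a4 := hi w x b
  have a5 := hi w y b
  have a6 := hx.deep hi b
  have a7 := hy'.deep hi b
  have s1 := D.symm (w • x) x
  have s2 := D.symm (w • y) y
  have s3 := D.symm (w • y) x
  have s4 := D.symm (w • b) y
  have s5 := D.symm b y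
  simp only [Mv, PM.Btw] at *
  omega

/-- One side of the stability of the shift. -/
theorem tr1 (hi : D.Iso G) (hy : D.Hyp δ) {R : ℕ} {x y u v : X} {w : G} (hx : Mv D R x w)
    (hu : D.Btw (2 * δ) x u y) (hv : D.Btw (2 * δ) x v y) (h1 : R + 2 * δ < D.d x u)
    (h2 : R + 2 * δ < D.d x v) :
    D.d x u + D.d x (w • v) ≤ D.d x v + D.d x (w • u) + δ := by
  have a1 := gp D hy hu hv
  have a2 : D.d x (w⁻¹ • x) ≤ R := hx.inv hi
  have a3 := stab D (u := u) (v := v) hy a2 (by omega)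
  have a4 := hi w (w⁻¹ • x) u
  have a5 := hi w (w⁻¹ • x) v
  rw [smul_inv_smul] at a4 a5
  omega

/-- Stability of the shift `P (w v) - P v`. -/
theorem tr (hi : D.Iso G) (hy : D.Hyp δ) {R : ℕ} {x y u v : X} {w : G} (hx : Mv D R x w)
    (hy' : Mv D R y w) (hu : D.Btw (2 * δ) x u y) (hv : D.Btw (2 * δ) x v y)
    (h1 : R + 2 * δ < D.d x u) (h2 : R + 2 * δ < D.d x v) (h3 : R + 2 * δ < D.d y u)
    (h4 : R + 2 * δ < D.d y v) :
    D.d x u + D.d x (w • v) + D.d y v + D.d y (w • u) ≤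
      D.d x v + D.d x (w • u) + D.d y u + D.d y (w • v) + 2 * δ := by
  have a1 := tr1 hi hy hx hu hv h1 h2
  have a2 := tr1 hi hy hy' (btw_symm D hv) (btw_symm D hu) h4 h3
  omega

theorem btw_mono {a a' : ℕ} {x y u : X} (hu : D.Btw a x u y) (h : a ≤ a') : D.Btw a' x u y := by
  simp only [PM.Btw] at hu ⊢
  omega

theorem comm {R : ℕ} {s h : G} {x y b : X} (hi : D.Iso G) (hy : D.Hyp δ) (sx : Mv D R x s)
    (sy : Mv D R y s) (hx : Mv D R x h) (hy' : Mv D R y h) (hb : D.Btw 0 x b y)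
    (h1 : 10 * R + 10 * δ < D.d x b) (h2 : 10 * R + 10 * δ < D.d b y) (i : ℕ) (hi5 : i ≤ 5) :
    D.d b (cj h i (s * h * s⁻¹ * h⁻¹) • b) ≤ 20 * δ := by
  rw [D.symm b y] at h2
  have hiR : i * R ≤ 5 * R := Nat.mul_le_mul_right R hi5
  have key : ∀ z : X, Mv D R z s → Mv D R z h →
      Mv D (5 * R) z (h ^ i)⁻¹ ∧ Mv D (6 * R) z (h⁻¹ * (h ^ i)⁻¹) ∧
      Mv D (7 * R) z (s⁻¹ * (h⁻¹ * (h ^ i)⁻¹)) ∧
      Mv D (8 * R) z (h * (s⁻¹ * (h⁻¹ * (h ^ i)⁻¹))) ∧
      Mv D (9 * R) z (s * (h * (s⁻¹ * (h⁻¹ * (h ^ i)⁻¹)))) := by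
    intro z sz hz
    have m0 : Mv D (5 * R) z (h ^ i)⁻¹ := ((hz.pow hi i).inv hi).mono hiR
    have m1 := ((hz.inv hi).mul hi m0).mono (L := 6 * R) (by omega)
    have m2 := ((sz.inv hi).mul hi m1).mono (L := 7 * R) (by omega)
    have m3 := (hz.mul hi m2).mono (L := 8 * R) (by omega)
    have m4 := (sz.mul hi m3).mono (L := 9 * R) (by omega)
    exact ⟨m0, m1, m2, m3, m4⟩
  obtain ⟨x0, x1, x2, x3, x4⟩ := key x sx hx
  obtain ⟨y0, y1, y2, y3, y4⟩ := key y sy hy'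
  have b0 := tr0 hi hy x0 y0 hb (by omega) (by omega)
  have b1 := tr0 hi hy x1 y1 hb (by omega) (by omega)
  have b2 := tr0 hi hy x2 y2 hb (by omega) (by omega)
  have b3 := tr0 hi hy x3 y3 hb (by omega) (by omega)
  have b4 := tr0 hi hy x4 y4 hb (by omega) (by omega)
  have dx1 := x1.deep hi b
  have dx2 := x2.deep hi b
  have dx3 := x3.deep hi b
  have dy1 := y1.deep hi b
  have dy2 := y2.deep hi b
  have dy3 := y3.deep hi b
  have e : D.d b (cj h i (s * h * s⁻¹ * h⁻¹) • b) =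
      D.d ((h ^ i)⁻¹ • b) ((s * (h * (s⁻¹ * (h⁻¹ * (h ^ i)⁻¹)))) • b) := by
    rw [← hi (h ^ i)⁻¹, ← mul_smul]
    congr 2
    simp only [cj]
    group
  rw [e]
  simp only [mul_smul] at *
  generalize (h ^ i)⁻¹ • b = v0 at *
  have t1 := tr hi hy sx sy b2 b3 (by omega) (by omega) (by omega) (by omega)
  have t2 := tr hi hy sx sy b3 b2 (by omega) (by omega) (by omega) (by omega)
  have t3 := tr hi hy hx hy' b1 b2 (by omega) (by omega) (by omega) (by omega)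
  have t4 := tr hi hy hx hy' b2 b1 (by omega) (by omega) (by omega) (by omega)
  have t5 := dist D hy b0 b4
  rw [smul_inv_smul] at t1 t2 t3 t4
  have s1 := D.symm y v0
  have s2 := D.symm y (s • h • s⁻¹ • h⁻¹ • v0)
  omega

theorem small {R : ℕ} {h : G} {x y b b' : X} (hi : D.Iso G) (hy : D.Hyp δ)
    (hx : Mv D R x h) (hy' : Mv D R y h) (hb : D.Btw 0 x b y)
    (h1 : 10 * R + 10 * δ < D.d x b) (h2 : 10 * R + 10 * δ < D.d b y) (hb' : D.Btw 0 x b' y)
    (h3 : 10 * R + 10 * δ < D.d x b') (h4 : 10 * R + 10 * δ < D.d b' y) :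
    D.d b' (h • b') ≤ D.d b (h • b) + 10 * δ := by
  have s1 := D.symm b y
  have s2 := D.symm b' y
  have b1 := tr0 hi hy hx hy' hb' (by omega) (by omega)
  have c0 := btw_mono hb (Nat.zero_le (2 * δ))
  have c1 := btw_mono hb' (Nat.zero_le (2 * δ))
  have t1 := tr hi hy hx hy' c0 c1 (by omega) (by omega) (by omega) (by omega)
  have t2 := tr hi hy hx hy' c1 c0 (by omega) (by omega) (by omega) (by omega)
  have t3 := dist D hy hb' b1
  have s3 := D.symm y (h • b')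
  have s4 := D.symm b (h • b)
  have r1 := D.tri x b (h • b)
  have r2 := D.tri x (h • b) b
  have r3 := D.tri y b (h • b)
  have r4 := D.tri y (h • b) b
  omega

theorem big {R : ℕ} {h : G} {x y b : X} (hi : D.Iso G) (hy : D.Hyp δ)
    (hx : Mv D R x h) (hy' : Mv D R y h) (hb : D.Btw 0 x b y)
    (h1 : 10 * R + 10 * δ < D.d x b) (h2 : 10 * R + 10 * δ < D.d b y)
    (_h3 : 20 * δ < D.d b (h • b)) : D.Btw (12 * δ) (h⁻¹ • b) b (h • b) := by
  have s1 := D.symm b y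
  have b1 := tr0 hi hy hx hy' hb (by omega) (by omega)
  have b2 := tr0 hi hy (hx.inv hi) (hy'.inv hi) hb (by omega) (by omega)
  have c0 := btw_mono hb (Nat.zero_le (2 * δ))
  have d1 := (hx.inv hi).deep hi b
  have d2 := (hy'.inv hi).deep hi b
  have t1 := tr hi hy hx hy' c0 b2 (by omega) (by omega) (by omega) (by omega)
  have t2 := tr hi hy hx hy' b2 c0 (by omega) (by omega) (by omega) (by omega)
  rw [smul_inv_smul] at t1 t2
  have t3 := dist D hy hb b1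
  have e := hi h (h⁻¹ • b) b
  rw [smul_inv_smul] at e
  have s3 := D.symm y (h • b)
  have s4 := D.symm (h⁻¹ • b) (h • b)
  have r1 := D.tri x (h⁻¹ • b) (h • b)
  have r2 := D.tri x (h • b) (h⁻¹ • b)
  have r3 := D.tri y (h⁻¹ • b) (h • b)
  have r4 := D.tri y (h • b) (h⁻¹ • b)
  simp only [PM.Btw]
  omega

end Act

theorem conj_inf {G : Type} [Group G] (g : G) {v : G} (hv : ¬ IsOfFinOrder v) :
    ¬ IsOfFinOrder (g * v * g⁻¹) := by
  intro h
  obtain ⟨n, hn, e⟩ := isOfFinOrder_iff_pow_eq_one.1 h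
  rw [conj_pow, conj_eq_one_iff] at e
  exact hv (isOfFinOrder_iff_pow_eq_one.2 ⟨n, hn, e⟩)

/-- The algebraic part: the conjugator lies in the elementary group of `h`. -/
theorem mem_E (aA : AlgA) (aB : AlgB) {A G : Type} [CommGroup A] [Group G] (π : G →* A)
    (hc : Chn π) (st : St G)
    (bs : ∀ (g a : G) (i j : ℤ), ¬ IsOfFinOrder a → i ≠ 0 → g * a ^ i * g⁻¹ = a ^ j → g ∈ E a)
    {P : Subgroup G} (hP : Elem P) {s h : G} (hh : ¬ IsOfFinOrder h)
    (hm : ∀ i ≤ 5, cj h i (s * h * s⁻¹ * h⁻¹) ∈ P) : s ∈ E h := by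
  set u := s * h * s⁻¹ * h⁻¹ with hu
  have uh : u * h = s * h * s⁻¹ := by rw [hu]; group
  have πu : π u = 1 := by
    rw [hu]; simp only [map_mul, map_inv]
    rw [mul_comm (π s) (π h)]; group
  obtain ⟨c1, c2⟩ := aB.chN u h (hc u h πu ⟨P, hP, hm⟩)
  have uP : u ∈ P := by simpa [cj_zero] using hm 0 (by omega)
  have FP : Subgroup.closure {u, cj h 1 u, cj h 2 u} ≤ P := by
    rw [Subgroup.closure_le]
    intro z hz
    rcases hz with rfl | rfl | rfl
    · exact uP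
    · exact hm 1 (by omega)
    · exact hm 2 (by omega)
  by_cases hF : Finite (Subgroup.closure {u, cj h 1 u, cj h 2 u})
  · obtain ⟨m, hm0, -, e⟩ := c2 hF
    rw [uh, conj_pow] at e
    exact ⟨m, hm0, Or.inl e⟩
  · have hex : ∃ v ∈ Subgroup.closure {u, cj h 1 u, cj h 2 u}, ¬ IsOfFinOrder v := by
      by_contra hne
      push Not at hne
      exact hF (aA.tors _ (hP.mono FP) hne)
    obtain ⟨v, hv, hvi⟩ := hex
    have hv' : h⁻¹ * v * h⁻¹⁻¹ ∈ P := by rw [inv_inv]; exact FP (c1 v hv)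
    obtain ⟨i, j, hi, -, e⟩ := aA.comm P hP _ hv' v (FP hv) (conj_inf h⁻¹ hvi) hvi
    rw [conj_zpow] at e
    have hE : h ∈ E v := by simpa using (E v).inv_mem (bs h⁻¹ v i j hvi hi e)
    obtain ⟨i', j', hi', hj', e'⟩ := aA.comm (E v) (st v hvi) h hE v (mem_E_self v) hh hvi
    have EE : E h = E v := (aA.eqE h v i' j' hi' hj' e').1
    have uE : u ∈ E h := EE ▸ aA.leE P hP v (FP hv) hvi uP
    have sE : s * h * s⁻¹ ∈ E h := uh ▸ (E h).mul_mem uE (mem_E_self h)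
    obtain ⟨k, l, hk, -, e''⟩ :=
      aA.comm (E h) (st h hh) _ sE h (mem_E_self h) (conj_inf s hh) hh
    rw [conj_zpow] at e''
    exact bs s h k l hh hk e''

end Shift

theorem shiftLib : HypLib → ShiftLib := fun _ =>
  ⟨fun _ _ _ _ _ _ _ _ hi hy sx sy hx hy' hb h1 h2 i hi5 =>
      Shift.comm hi hy sx sy hx hy' hb h1 h2 i hi5,
    fun _ _ _ _ _ _ _ _ hi hy hx hy' hb h1 h2 hb' h3 h4 =>
      Shift.small hi hy hx hy' hb h1 h2 hb' h3 h4,
    fun _ _ _ _ _ _ _ hi hy hx hy' hb h1 h2 h3 => Shift.big hi hy hx hy' hb h1 h2 h3⟩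

theorem p1dStmt : HypLib → AlgA → AlgB → StStmt → P1DStmt := by
  intro hL aA aB hSt A G X _ _ _ π D δ inv x y R hxy
  have hi := inv.geom.iso
  have hy := inv.geom.hyp
  have hδ := inv.geom.pos
  have st : St G := hSt D δ inv.geom inv.lox inv.p1
  norm_num at hxy
  obtain ⟨b, e1, l1, u1⟩ := inv.geom.geo x y (10 * R + 10 * δ + 1) (by omega)
  have s1 := D.symm y b
  obtain ⟨b', e2, l2, u2⟩ := inv.geom.geo y b (10 * R + 10 * δ + 1) (by omega)
  have s2 := D.symm y b'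
  have s3 := D.symm b b'
  have r1 := D.tri x b b'
  have r2 := D.tri x b' y
  have hb : D.Btw 0 x b y := by simp only [PM.Btw]; omega
  have hb' : D.Btw 0 x b' y := by simp only [PM.Btw]; omega
  have h1 : 10 * R + 10 * δ < D.d x b := by omega
  have h2 : 10 * R + 10 * δ < D.d b y := by omega
  have h3 : 10 * R + 10 * δ < D.d x b' := by omega
  have h4 : 10 * R + 10 * δ < D.d b' y := by omega
  obtain ⟨P, hP, hm⟩ := inv.p1 b b' (by norm_num; omega)
  by_cases hall : ∀ g : G, D.d x (g • x) ≤ R → D.d y (g • y) ≤ R → D.d b (g • b) ≤ 100 * δ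
  · refine ⟨P, hP, fun g gx gy => ?_⟩
    have a1 := hall g gx gy
    have a2 := Shift.small hi hy gx gy hb h1 h2 hb' h3 h4
    exact hm g (by omega) (by omega)
  · push Not at hall
    obtain ⟨h, hx, hy', hbig⟩ := hall
    have a1 := Shift.big hi hy hx hy' hb h1 h2 (by omega)
    have hh : ¬ IsOfFinOrder h := (hL.chainO D δ (12 * δ) h b hi hy a1 (by omega)).1
    refine ⟨E h, st h hh, fun s sx sy => ?_⟩
    refine Shift.mem_E aA aB π inv.alg.chn st
      (fun g a i j ha hi0 e => (hL.bs D δ inv.geom inv.lox g a i j ha hi0 e).2) hP hh ?_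
    intro i hi5
    have a2 := Shift.comm hi hy sx sy hx hy' hb h1 h2 i hi5
    have a3 := Shift.comm hi hy sx sy hx hy' hb' h3 h4 i hi5
    exact hm _ (by omega) (by omega)

end Pool.Agent.Bu
end

-- part Pool.Agent.Lib.MP_5bec91_al.Bu.Line
section

/-!
Coarse axes: proof of `LineLib` from `HypLib`.
-/

set_option autoImplicit false

namespace Pool.Agent.Bu

open MulAction

namespace Line

variable {G X : Type} [Group G] [MulAction G X]

theorem btw_symm {D : PM X} {a : ℕ} {x z y : X} (h : D.Btw a x z y) : D.Btw a y z x := by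
  have h1 := D.symm x z
  have h2 := D.symm z y
  have h3 := D.symm x y
  simp only [PM.Btw] at *
  omega

theorem btw_mono {D : PM X} {a a' : ℕ} {x z y : X} (h : D.Btw a x z y) (ha : a ≤ a') :
    D.Btw a' x z y := by
  simp only [PM.Btw] at *
  omega

theorem ln_inv_le (D : PM X) (δ : ℕ) (h : G) {b : X} (hb : b ∈ D.Ln δ h) :
    b ∈ D.Ln δ h⁻¹ := by
  intro a a'
  obtain ⟨N, hN⟩ := hb a' a
  refine ⟨N, fun I I' hI hI' => ?_⟩
  have := btw_symm (hN I' I hI' hI)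
  rw [inv_pow, inv_inv, inv_pow]
  exact this

theorem ln_inv (D : PM X) (δ : ℕ) (h : G) : D.Ln δ h⁻¹ = D.Ln δ h := by
  ext b
  constructor
  · intro hb
    have := ln_inv_le D δ h⁻¹ hb
    rwa [inv_inv] at this
  · exact ln_inv_le D δ h

theorem ln_pow (D : PM X) (δ : ℕ) (h : G) {m : ℕ} (hm : 0 < m) :
    D.Ln δ (h ^ m) = D.Ln δ h := by
  ext b
  constructor
  · intro hb a a'
    choose N hN using fun r r' : ℕ => hb ((h ^ r)⁻¹ • a) (h ^ r' • a')
    let M : ℕ := (Finset.range m ×ˢ Finset.range m).sup fun p => N p.1 p.2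
    refine ⟨m * M, fun I I' hI hI' => ?_⟩
    have hr : I % m < m := Nat.mod_lt _ hm
    have hr' : I' % m < m := Nat.mod_lt _ hm
    have hM : N (I % m) (I' % m) ≤ M :=
      Finset.le_sup (f := fun p : ℕ × ℕ => N p.1 p.2) (b := (I % m, I' % m))
        (Finset.mem_product.2 ⟨Finset.mem_range.2 hr, Finset.mem_range.2 hr'⟩)
    have hq : M ≤ I / m := (Nat.le_div_iff_mul_le hm).2 (by rwa [mul_comm])
    have hq' : M ≤ I' / m := (Nat.le_div_iff_mul_le hm).2 (by rwa [mul_comm])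
    have key := hN (I % m) (I' % m) (I / m) (I' / m) (hM.trans hq) (hM.trans hq')
    have e1 : ((h ^ m) ^ (I / m))⁻¹ • (h ^ (I % m))⁻¹ • a = (h ^ I)⁻¹ • a := by
      rw [← mul_smul, ← mul_inv_rev, ← pow_mul, ← pow_add, Nat.mod_add_div]
    have e2 : (h ^ m) ^ (I' / m) • h ^ (I' % m) • a' = h ^ I' • a' := by
      rw [← mul_smul, ← pow_mul, ← pow_add, Nat.div_add_mod]
    rwa [e1, e2] at key
  · intro hb a a'
    obtain ⟨N, hN⟩ := hb a a'
    refine ⟨N, fun I I' hI hI' => ?_⟩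
    rw [← pow_mul, ← pow_mul]
    exact hN _ _ (hI.trans (Nat.le_mul_of_pos_left _ hm)) (hI'.trans (Nat.le_mul_of_pos_left _ hm))

theorem ln_zpow (D : PM X) (δ : ℕ) (h : G) {i : ℤ} (hi : i ≠ 0) :
    D.Ln δ (h ^ i) = D.Ln δ h := by
  obtain ⟨n, rfl | rfl⟩ := Int.eq_nat_or_neg i
  · rw [zpow_natCast]
    exact ln_pow D δ h (by omega)
  · rw [zpow_neg, zpow_natCast, ln_inv]
    exact ln_pow D δ h (by omega)

theorem comm (D : PM X) (δ : ℕ) (h h' : G) (i j : ℤ) (hi : i ≠ 0) (hj : j ≠ 0)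
    (e : h ^ i = h' ^ j) : D.Ln δ h = D.Ln δ h' := by
  rw [← ln_zpow D δ h hi, e, ln_zpow D δ h' hj]

theorem conj (D : PM X) (δ : ℕ) (g h : G) (b : X) (hI : D.Iso G) (hb : b ∈ D.Ln δ h) :
    g • b ∈ D.Ln δ (g * h * g⁻¹) := by
  intro a a'
  obtain ⟨N, hN⟩ := hb (g⁻¹ • a) (g⁻¹ • a')
  refine ⟨N, fun I I' h1 h2 => ?_⟩
  have key := hN I I' h1 h2
  have e1 : ((g * h * g⁻¹) ^ I)⁻¹ • a = g • (h ^ I)⁻¹ • g⁻¹ • a := by
    rw [conj_pow, ← mul_smul, ← mul_smul]
    congr 1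
    group
  have e2 : (g * h * g⁻¹) ^ I' • a' = g • h ^ I' • g⁻¹ • a' := by
    rw [conj_pow, ← mul_smul, ← mul_smul]
  rw [e1, e2]
  simp only [PM.Btw, hI g] at *
  exact key

theorem inv (D : PM X) (δ : ℕ) (g h : G) (b : X) (hI : D.Iso G) (hg : g ∈ E h)
    (hb : b ∈ D.Ln δ h) : g • b ∈ D.Ln δ h := by
  have h1 := conj D δ g h b hI hb
  obtain ⟨m, hm, e | e⟩ := hg
  · rwa [comm D δ (g * h * g⁻¹) h (m : ℤ) (m : ℤ) (by omega) (by omega)
      (by rw [zpow_natCast, zpow_natCast, conj_pow, e])] at h1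
  · rwa [comm D δ (g * h * g⁻¹) h (m : ℤ) (-(m : ℤ)) (by omega) (by omega)
      (by rw [zpow_neg, zpow_natCast, zpow_natCast, conj_pow, e])] at h1

theorem disp (H : HypLib) (D : PM X) (δ : ℕ) (g h : G) (b x : X) (hI : D.Iso G) (hH : D.Hyp δ)
    (hg : g ∈ Ep h) (hb : b ∈ D.Ln δ h) : D.d b (g • b) ≤ D.d x (g • x) + 7 * δ := by
  obtain ⟨m, hm, e⟩ := hg
  rw [← ln_pow D δ h hm] at hb
  obtain ⟨N, hN⟩ := hb x x
  have key := hN N N le_rfl le_rfl
  have e' := conj_pow_mul e N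
  set k := (h ^ m) ^ N with hk
  have c1 : g * k = k * g := by
    calc g * k = g * k * g⁻¹ * g := by group
      _ = k * g := by rw [e']
  have c2 : g * k⁻¹ = k⁻¹ * g := by
    calc g * k⁻¹ = k⁻¹ * (k * g) * k⁻¹ := by group
      _ = k⁻¹ * (g * k) * k⁻¹ := by rw [c1]
      _ = k⁻¹ * g := by group
  have d1 : D.d (k⁻¹ • x) (g • k⁻¹ • x) ≤ D.d x (g • x) := by
    rw [← mul_smul, c2, mul_smul, hI]
  have d2 : D.d (k • x) (g • k • x) ≤ D.d x (g • x) := by
    rw [← mul_smul, c1, mul_smul, hI]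
  have := H.conv D δ (6 * δ) (D.d x (g • x)) g _ _ b hI hH key d1 d2
  omega

/-- General membership criterion. -/
theorem gen_mem (D : PM X) (δ : ℕ) (k : G) (b0 z : X) (hI : D.Iso G) (hH : D.Hyp δ)
    (hgrow : ∀ i : ℕ, i ≤ D.d b0 (k ^ i • b0))
    (hz : ∃ N : ℕ, ∀ i i' : ℕ, N ≤ i → N ≤ i' →
      D.Btw (4 * δ) ((k ^ i)⁻¹ • b0) z (k ^ i' • b0)) : z ∈ D.Ln δ k := by
  obtain ⟨N, hN⟩ := hz
  intro a a'
  refine ⟨N + D.d b0 z + D.d b0 a + D.d b0 a' + 5 * δ + 1, fun I I' h1 h2 => ?_⟩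
  have key := hN I I' (by omega) (by omega)
  have g1 := hgrow I
  have g2 := hgrow I'
  have g1' : D.d ((k ^ I)⁻¹ • b0) b0 = D.d b0 (k ^ I • b0) := hI.inv_smul _ _ _
  have n1 : D.d ((k ^ I)⁻¹ • b0) ((k ^ I)⁻¹ • a) = D.d b0 a := hI _ _ _
  have n2 : D.d (k ^ I' • b0) (k ^ I' • a') = D.d b0 a' := hI _ _ _
  generalize (k ^ I)⁻¹ • b0 = u at *
  generalize (k ^ I)⁻¹ • a = u' at *
  generalize k ^ I' • b0 = v at *
  generalize k ^ I' • a' = v' at *
  have t1 := D.tri u z b0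
  have t2 := D.tri b0 z v
  have t3 := D.tri u u' z
  have t4 := D.tri z v' v
  have s1 := D.symm z b0
  have s2 := D.symm v v'
  have s3 := D.symm v z
  have s4 := D.symm v' z
  have s5 := D.symm v u'
  have y1 := hH u v u' z
  have y2 := hH u' v v' z
  simp only [PM.Btw] at *
  omega

theorem mem (H : HypLib) (D : PM X) (δ : ℕ) (h : G) (m : ℕ) (b : X) (hI : D.Iso G)
    (hH : D.Hyp δ) (hm : 0 < m) (hb : D.Btw (2 * δ) ((h ^ m)⁻¹ • b) b (h ^ m • b))
    (hd : 4 * δ < D.d b (h ^ m • b)) : b ∈ D.Ln δ h := by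
  rw [← ln_pow D δ h hm]
  obtain ⟨-, hg, -, hc⟩ := H.chainO D δ (2 * δ) (h ^ m) b hI hH hb (by omega)
  refine gen_mem D δ (h ^ m) b b hI hH hg ⟨0, fun i i' _ _ => ?_⟩
  have := hc (-(i : ℤ)) 0 (i' : ℤ) (by omega) (by omega)
  rw [zpow_neg, zpow_natCast, zpow_natCast, zpow_zero, one_smul] at this
  exact btw_mono this (by omega)

/-- Discrete intermediate values. -/
theorem divt (f : ℤ → ℤ) (c lo : ℤ) (n : ℕ) (h1 : f lo ≤ c) (h2 : c ≤ f (lo + (n + 1 : ℕ))) :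
    ∃ j, lo ≤ j ∧ j + 1 ≤ lo + (n + 1 : ℕ) ∧ f j ≤ c ∧ c ≤ f (j + 1) := by
  induction n with
  | zero => exact ⟨lo, le_rfl, by omega, h1, by simpa using h2⟩
  | succ n ih =>
    by_cases h : c ≤ f (lo + (n + 1 : ℕ))
    · obtain ⟨j, a1, a2, a3, a4⟩ := ih h
      exact ⟨j, a1, by omega, a3, a4⟩
    · refine ⟨lo + (n + 1 : ℕ), by omega, by omega, by omega, ?_⟩
      have e : lo + ((n + 1 : ℕ) : ℤ) + 1 = lo + ((n + 1 + 1 : ℕ) : ℤ) := by push_cast; ring
      rwa [e]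

theorem divt' (f : ℤ → ℤ) (c lo hi : ℤ) (hl : lo < hi) (h1 : f lo ≤ c) (h2 : c ≤ f hi) :
    ∃ j, lo ≤ j ∧ j + 1 ≤ hi ∧ f j ≤ c ∧ c ≤ f (j + 1) := by
  obtain ⟨n, rfl⟩ : ∃ n : ℕ, hi = lo + (n + 1 : ℕ) := ⟨(hi - lo - 1).toNat, by omega⟩
  exact divt f c lo n h1 h2

/-- Two-sided form of `dist2`, for the potential along `(u, v)`. -/
theorem pot (H : HypLib) (D : PM X) (δ a : ℕ) (u v p q : X) (hH : D.Hyp δ)
    (hp : D.Btw a u p v) (hq : D.Btw a u q v) :
    (D.d u p + D.d q v ≤ D.d u q + D.d p v + 2 * D.d p q ∧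
      D.d u q + D.d p v ≤ D.d u p + D.d q v + 2 * D.d p q) ∧
    (2 * D.d p q + D.d u p + D.d q v ≤ D.d u q + D.d p v + 2 * a + 2 * δ ∨
      2 * D.d p q + D.d u q + D.d p v ≤ D.d u p + D.d q v + 2 * a + 2 * δ) := by
  have t1 := D.tri u p q
  have t2 := D.tri u q p
  have t3 := D.tri p q v
  have t4 := D.tri q p v
  have s := D.symm p q
  refine ⟨by omega, ?_⟩
  rcases le_total (D.d u p + D.d q v) (D.d u q + D.d p v) with h | h
  · have := H.dist2 D δ a a u v p q hH hp hq h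
    omega
  · have := H.dist2 D δ a a u v q p hH hq hp h
    omega

theorem ivt (H : HypLib) (D : PM X) (δ : ℕ) (a g h : G) (b : X) (hI : D.Iso G) (hH : D.Hyp δ)
    (ha : a ∈ E h) (hg : g ∈ E h) (hb : b ∈ D.Ln δ h)
    (hgrow : ∀ R : ℕ, ∃ j0 : ℕ, ∀ j : ℕ, j0 ≤ j → R ≤ D.d b (a ^ j • b)) :
    ∃ j : ℤ, 2 * D.d b ((a ^ j * g) • b) ≤ D.d b (a • b) + 14 * δ := by
  obtain ⟨j0, hj0⟩ := hgrow (D.d b (g • b) + 14 * δ + 1)
  have hy : ∀ j : ℤ, a ^ j • b ∈ D.Ln δ h := fun j =>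
    inv D δ _ h b hI ((E h).zpow_mem ha j) hb
  have hgb : g • b ∈ D.Ln δ h := inv D δ g h b hI hg hb
  choose N hN using fun j : ℤ => hy j b b
  obtain ⟨Ng, hNg⟩ := hgb b b
  let M : ℕ := (Finset.Icc (-(j0 : ℤ)) j0).sup N + Ng
  have hM : ∀ j : ℤ, -(j0 : ℤ) ≤ j → j ≤ j0 → N j ≤ M := fun j h1 h2 =>
    (Finset.le_sup (f := N) (Finset.mem_Icc.2 ⟨h1, h2⟩)).trans (Nat.le_add_right _ _)
  have hMg : Ng ≤ M := Nat.le_add_left _ _
  have bg := hNg M M hMg hMg
  have bj : ∀ j : ℤ, -(j0 : ℤ) ≤ j → j ≤ j0 →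
      D.Btw (6 * δ) ((h ^ M)⁻¹ • b) (a ^ j • b) (h ^ M • b) :=
    fun j h1 h2 => hN j M M (hM j h1 h2) (hM j h1 h2)
  generalize (h ^ M)⁻¹ • b = u at bg bj
  generalize h ^ M • b = v at bg bj
  have b0 : D.Btw (6 * δ) u b v := by
    have := bj 0 (by omega) (by omega)
    rwa [zpow_zero, one_smul] at this
  have bp := bj j0 (by omega) le_rfl
  have bm := bj (-(j0 : ℤ)) le_rfl (by omega)
  have g1 : D.d b (g • b) + 14 * δ + 1 ≤ D.d b (a ^ (j0 : ℤ) • b) := by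
    rw [zpow_natCast]; exact hj0 j0 le_rfl
  have g2 : D.d b (a ^ (-(j0 : ℤ)) • b) = D.d b (a ^ (j0 : ℤ) • b) := by
    rw [D.symm, zpow_neg, hI.inv_smul]
  have g3 : D.d b (g • b) + 14 * δ + 1 ≤ D.d (a ^ (-(j0 : ℤ)) • b) (a ^ (j0 : ℤ) • b) := by
    rw [zpow_neg, hI.inv_smul, ← mul_smul, zpow_natCast, ← pow_add]
    exact hj0 _ (by omega)
  have j0pos : 0 < j0 := by
    rcases Nat.eq_zero_or_pos j0 with h0 | h0
    · subst h0
      simp only [Nat.cast_zero, zpow_zero, one_smul, D.refl] at g1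
      omega
    · exact h0
  have p1 := pot H D δ (6 * δ) u v b _ hH b0 bp
  have p2 := pot H D δ (6 * δ) u v b _ hH b0 bm
  have p3 := pot H D δ (6 * δ) u v _ _ hH bm bp
  have p4 := pot H D δ (6 * δ) u v b _ hH b0 bg
  have step : ∀ j : ℤ, D.d (a ^ j • b) (a ^ (j + 1) • b) = D.d b (a • b) := fun j => by
    rw [zpow_add_one, mul_smul, hI]
  have back : ∀ j : ℤ, D.d (a ^ j • b) (g • b) = D.d b ((a ^ (-j) * g) • b) := fun j => by
    rw [mul_smul, zpow_neg, ← hI (a ^ j) b, smul_inv_smul]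
  have fin : ∀ j : ℤ, D.Btw (14 * δ) (a ^ j • b) (g • b) (a ^ (j + 1) • b) →
      ∃ j : ℤ, 2 * D.d b ((a ^ j * g) • b) ≤ D.d b (a • b) + 14 * δ := fun j hj => by
    have s1 := step j
    have s2 := back j
    have s3 := back (j + 1)
    have s4 := D.symm (g • b) (a ^ (j + 1) • b)
    simp only [PM.Btw] at hj
    by_cases c : D.d (a ^ j • b) (g • b) ≤ D.d (a ^ (j + 1) • b) (g • b)
    · exact ⟨-j, by omega⟩
    · exact ⟨-(j + 1), by omega⟩
  by_cases c : D.d u (a ^ (-(j0 : ℤ)) • b) + D.d (a ^ (j0 : ℤ) • b) v ≤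
      D.d u (a ^ (j0 : ℤ) • b) + D.d (a ^ (-(j0 : ℤ)) • b) v
  · obtain ⟨j, a1, a2, a3, a4⟩ := divt'
      (fun j => (D.d u (a ^ j • b) : ℤ) - D.d (a ^ j • b) v)
      ((D.d u (g • b) : ℤ) - D.d (g • b) v) (-(j0 : ℤ)) j0 (by omega)
      (by omega) (by omega)
    have := H.align D δ (6 * δ) (6 * δ) u v _ _ _ hH (bj j a1 (by omega))
      (bj (j + 1) (by omega) a2) bg (by omega) (by omega)
    exact fin j (btw_mono this (by omega))
  · obtain ⟨j, a1, a2, a3, a4⟩ := divt'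
      (fun j => (D.d (a ^ j • b) v : ℤ) - D.d u (a ^ j • b))
      ((D.d (g • b) v : ℤ) - D.d u (g • b)) (-(j0 : ℤ)) j0 (by omega)
      (by omega) (by omega)
    have := H.align D δ (6 * δ) (6 * δ) u v _ _ _ hH (bj (j + 1) (by omega) a2)
      (bj j a1 (by omega)) bg (by omega) (by omega)
    exact fin j (btw_mono (btw_symm this) (by omega))

/-- The reference chain of an element of infinite order. -/
theorem ref (H : HypLib) (D : PM X) (δ : ℕ) (h : G) (hG : Geom G D δ) (hL : Lox G D δ)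
    (hh : ¬ IsOfFinOrder h) : ∃ (m : ℕ) (b : X), 0 < m ∧
      D.Btw (2 * δ) ((h ^ m)⁻¹ • b) b (h ^ m • b) ∧ 20 * δ ≤ D.d b (h ^ m • b) := by
  have big : ∀ x, 20 * δ ≤ D.d x (h ^ (20 * 10 ^ 18) • x) := fun x => by
    have := hL h hh x (20 * 10 ^ 18)
    generalize D.d x (h ^ (20 * 10 ^ 18) • x) = d at *
    have e : 20 * 10 ^ 18 * δ = 10 ^ 18 * (20 * δ) := by ring
    rw [e] at this
    exact Nat.le_of_mul_le_mul_left this (by positivity)
  obtain ⟨-, b, hb⟩ := H.loxA D δ _ hG big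
  exact ⟨20 * 10 ^ 18, b, by positivity, hb, big b⟩

theorem ne (H : HypLib) (D : PM X) (δ : ℕ) (h : G) (hG : Geom G D δ) (hL : Lox G D δ)
    (hh : ¬ IsOfFinOrder h) : (D.Ln δ h).Nonempty := by
  obtain ⟨m, b, hm, hb, hd⟩ := ref H D δ h hG hL hh
  have := hG.pos
  exact ⟨b, mem H D δ h m b hG.iso hG.hyp hm hb (by omega)⟩

/-- A point deep inside a step of the chain lies between far points of the chain. -/
theorem deep (D : PM X) (δ : ℕ) (u x z y v : X) (hH : D.Hyp δ) (h1 : D.Btw (4 * δ) u x y)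
    (h2 : D.Btw (4 * δ) x y v) (hz : D.d x z + D.d z y = D.d x y) (d1 : 5 * δ < D.d x z)
    (d2 : 5 * δ < D.d z y) : D.Btw (4 * δ) u z v := by
  have y1 := hH x y v z
  have y2 := hH x v u z
  have t1 := D.tri x z v
  have t2 := D.tri u z y
  have s1 := D.symm v z
  have s2 := D.symm y z
  have s3 := D.symm x u
  have s4 := D.symm v u
  simp only [PM.Btw] at *
  omega

/-- Quasi-convexity of the coarse axis. -/
theorem qconv (H : HypLib) (D : PM X) (δ : ℕ) (h : G) (hG : Geom G D δ) (hL : Lox G D δ)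
    (hh : ¬ IsOfFinOrder h) (p b z : X) (hp : p ∈ D.Ln δ h) (hb : b ∈ D.Ln δ h)
    (hz : D.d p z + D.d z b = D.d p b) : ∃ z' ∈ D.Ln δ h, D.d z z' ≤ 17 * δ := by
  obtain ⟨m, b0, hm, hb0, hd⟩ := ref H D δ h hG hL hh
  have hδ := hG.pos
  have hI := hG.iso
  have hH := hG.hyp
  rw [← ln_pow D δ h hm] at hp hb ⊢
  generalize h ^ m = k at *
  obtain ⟨-, hg, -, hc⟩ := H.chainO D δ (2 * δ) k b0 hI hH hb0 (by omega)
  have hc4 : ∀ i j l : ℤ, i ≤ j → j ≤ l → D.Btw (4 * δ) (k ^ i • b0) (k ^ j • b0) (k ^ l • b0) :=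
    fun i j l h1 h2 => btw_mono (hc i j l h1 h2) (by omega)
  have xmem : ∀ i : ℤ, k ^ i • b0 ∈ D.Ln δ k := fun i => by
    refine gen_mem D δ k b0 _ hI hH hg ⟨i.natAbs, fun J J' h1 h2 => ?_⟩
    have := hc4 (-(J : ℤ)) i (J' : ℤ) (by omega) (by omega)
    rwa [zpow_neg, zpow_natCast, zpow_natCast] at this
  obtain ⟨N1, hN1⟩ := hp b0 b0
  obtain ⟨N2, hN2⟩ := hb b0 b0
  have bp := hN1 (N1 + N2 + 1) (N1 + N2 + 1) (by omega) (by omega)
  have bb := hN2 (N1 + N2 + 1) (N1 + N2 + 1) (by omega) (by omega)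
  obtain ⟨I, hIe⟩ : ∃ I : ℕ, I = N1 + N2 + 1 := ⟨_, rfl⟩
  rw [← hIe, ← zpow_natCast, ← zpow_neg] at bp bb
  have bz : D.Btw (13 * δ) (k ^ (-(I : ℤ)) • b0) z (k ^ (I : ℤ) • b0) := by
    generalize k ^ (-(I : ℤ)) • b0 = u at *
    generalize k ^ (I : ℤ) • b0 = v at *
    have p1 := pot H D δ (6 * δ) u v p b hH bp bb
    have t1 := D.tri u p z
    have t2 := D.tri z b v
    have t3 := D.tri u b z
    have t4 := D.tri z p v
    have s1 := D.symm p z
    have s2 := D.symm b z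
    simp only [PM.Btw] at *
    omega
  have r1 := D.refl (k ^ (-(I : ℤ)) • b0)
  have r2 := D.refl (k ^ (I : ℤ) • b0)
  have t1 := D.tri z (k ^ (-(I : ℤ)) • b0) (k ^ (I : ℤ) • b0)
  have t2 := D.tri (k ^ (-(I : ℤ)) • b0) (k ^ (I : ℤ) • b0) z
  have s1 := D.symm z (k ^ (-(I : ℤ)) • b0)
  have s2 := D.symm z (k ^ (I : ℤ) • b0)
  obtain ⟨j, a1, a2, a3, a4⟩ := divt'
    (fun j => (D.d (k ^ (-(I : ℤ)) • b0) (k ^ j • b0) : ℤ) - D.d (k ^ j • b0) (k ^ (I : ℤ) • b0))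
    ((D.d (k ^ (-(I : ℤ)) • b0) z : ℤ) - D.d z (k ^ (I : ℤ) • b0)) (-(I : ℤ)) I (by omega)
    (by omega) (by omega)
  have al := H.align D δ (13 * δ) (4 * δ) _ _ _ _ z hH (hc4 _ j _ a1 (by omega))
    (hc4 _ (j + 1) _ (by omega) a2) bz (by omega) (by omega)
  obtain ⟨z', hz', hzz⟩ := H.near D δ _ _ _ z hδ hH hG.geo al
  have s3 := D.symm z z'
  by_cases c1 : D.d (k ^ j • b0) z' ≤ 5 * δ
  · refine ⟨_, xmem j, ?_⟩
    have t := D.tri z z' (k ^ j • b0)
    have s := D.symm z' (k ^ j • b0)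
    omega
  by_cases c2 : D.d z' (k ^ (j + 1) • b0) ≤ 5 * δ
  · refine ⟨_, xmem (j + 1), ?_⟩
    have t := D.tri z z' (k ^ (j + 1) • b0)
    omega
  refine ⟨z', ?_, by omega⟩
  refine gen_mem D δ k b0 _ hI hH hg ⟨j.natAbs + 1, fun J J' h1 h2 => ?_⟩
  have := deep D δ _ _ z' _ _ hH (hc4 (-(J : ℤ)) j (j + 1) (by omega) (by omega))
    (hc4 j (j + 1) (J' : ℤ) (by omega) (by omega)) hz' (by omega) (by omega)
  rwa [zpow_neg, zpow_natCast, zpow_natCast] at this

theorem gated (H : HypLib) (D : PM X) (δ : ℕ) (h : G) (hG : Geom G D δ) (hL : Lox G D δ)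
    (hh : ¬ IsOfFinOrder h) (x p b : X) (hp : D.Pr (D.Ln δ h) x p) (hb : b ∈ D.Ln δ h) :
    D.Btw (60 * δ) x p b := by
  have hδ := hG.pos
  have m1 := hp.2 b hb
  have t0 := D.tri x p b
  obtain ⟨z, hz, z1, z2⟩ := hG.geo p b ((D.d x p + D.d p b - D.d x b) / 2) (by omega)
  obtain ⟨z', hz', dz⟩ := qconv H D δ h hG hL hh p b z hp.1 hb hz
  have m2 := hp.2 z' hz'
  have t1 := D.tri x z z'
  have y := hG.hyp x z p b
  have s1 := D.symm z p
  simp only [PM.Btw]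
  omega

end Line

theorem lineLib : HypLib → LineLib := fun H =>
  { mem := fun D δ h m b => Line.mem H D δ h m b
    comm := fun D δ h h' i j => Line.comm D δ h h' i j
    conj := fun D δ g h b => Line.conj D δ g h b
    inv := fun D δ g h b => Line.inv D δ g h b
    disp := fun D δ g h b x => Line.disp H D δ g h b x
    ivt := fun D δ a g h b => Line.ivt H D δ a g h b
    ne := fun D δ h => Line.ne H D δ h
    gated := fun D δ h => Line.gated H D δ h }

end Pool.Agent.Bu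
end
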