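import Pool.Agent.Lib.MP_5bec91_al.Bu.NewOne

-- part Pool.Agent.Lib.MP_5bec91_al.Bu.QAxis
section

/-!
An element turning by a large angle at an apex is loxodromic in the quotient, and the elements
commuting with a power of it form an elementary group.
-/

set_option autoImplicit false

namespace Pool.Agent.Bu

open MulAction

namespace QAxisP

variable {G X C Gb Xb : Type} [Group G] [MulAction G X] [MulAction G C] [Group Gb]
  [MulAction Gb Xb] {S : QS G X C Gb Xb}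

/-- The angle at `c` between the two neighbouring cones is large. -/
def Turn (S : QS G X C Gb Xb) (h : G) (c : C) : Prop :=
  ¬ S.Sim c (h • c) ∧ ∀ u ∈ S.Y (h⁻¹ • c), ∀ v ∈ S.Y (h • c),
    24000 * S.θ ≤ S.qang c (S.q u) (S.q v)

theorem not_sim_inv {h : G} {c : C} (hs : ¬ S.Sim c (h • c)) : ¬ S.Sim c (h⁻¹ • c) := by
  intro h1
  have h2 := QS.Sim.smul S h1 h
  rw [smul_inv_smul] at h2
  exact hs (QS.Sim.symm S h2)

theorem turn_of (Q : QGeo S) {h : G} {c : C} {u v : X} (hs : ¬ S.Sim c (h • c))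
    (hu : u ∈ S.Y (h⁻¹ • c)) (hv : v ∈ S.Y (h • c))
    (ha : 25000 * S.θ ≤ S.qang c (S.q u) (S.q v)) : Turn S h c := by
  refine ⟨hs, fun u' hu' v' hv' => ?_⟩
  have h1 := Q.q4 c _ u u' (not_sim_inv hs) hu hu'
  have h2 := Q.q4 c _ v' v hs hv' hv
  have h3 := Q.q1 c (S.q u) (S.q u') (S.q v)
  have h4 := Q.q1 c (S.q u') (S.q v') (S.q v)
  omega

theorem Turn.inv {h : G} {c : C} (T : Turn S h c) : Turn S h⁻¹ c := by
  refine ⟨not_sim_inv T.1, fun u hu v hv => ?_⟩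
  rw [inv_inv] at hu
  rw [S.qang_symm]
  exact T.2 v hv u hu

theorem Turn.nsim {h : G} {c : C} (T : Turn S h c) (i : ℕ) :
    ¬ S.Sim (h ^ i • c) (h ^ (i + 1) • c) := by
  intro h1
  have h2 := QS.Sim.smul S h1 (h ^ i)⁻¹
  rw [inv_smul_smul, pow_succ, mul_smul, inv_smul_smul] at h2
  exact T.1 h2

theorem Turn.ang {h : G} {c : C} (T : Turn S h c) (i : ℕ) {u v : X} (hu : u ∈ S.Y (h ^ i • c))
    (hv : v ∈ S.Y (h ^ (i + 2) • c)) :
    24000 * S.θ ≤ S.qang (h ^ (i + 1) • c) (S.q u) (S.q v) := by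
  have h1 := S.Yeq (h ^ (i + 1))⁻¹ _ _ hu
  have h2 := S.Yeq (h ^ (i + 1))⁻¹ _ _ hv
  have e1 : (h ^ (i + 1))⁻¹ • h ^ i • c = h⁻¹ • c := by
    rw [← mul_smul]; congr 1; group
  have e2 : (h ^ (i + 1))⁻¹ • h ^ (i + 2) • c = h • c := by
    rw [← mul_smul]; congr 1; group
  rw [e1] at h1
  rw [e2] at h2
  have h3 := T.2 _ h1 _ h2
  have h4 := S.qang_smul (h ^ (i + 1))⁻¹ (h ^ (i + 1) • c) (S.q u) (S.q v)
  rw [inv_smul_smul, ← S.q_smul, ← S.q_smul] at h4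
  omega

theorem Turn.step (Q : QGeo S) {h : G} {c : C} (T : Turn S h c) {u0 : X} (h0 : u0 ∈ S.Y c)
    (i : ℕ) : (∀ y ∈ S.Y (h ^ i • c), S.qang (h ^ (i + 1) • c) (S.q u0) (S.q y) < 4000 * S.θ) ∧
      i * (1000 * S.θ) ≤ S.r (h ^ (i + 1) • c) (S.q u0) := by
  have hθ := S.θ_pos
  induction i with
  | zero =>
    refine ⟨fun y hy => ?_, by simp⟩
    have h1 := Q.q4 (h ^ (0 + 1) • c) (h ^ 0 • c) u0 y (fun k => T.nsim 0 (QS.Sim.symm S k))
      (by simpa using h0) hy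
    omega
  | succ i ih =>
    obtain ⟨y, hy⟩ := S.ne (h ^ i • c)
    obtain ⟨y', hy'⟩ := S.ne (h ^ (i + 2) • c)
    have h1 := ih.1 y hy
    have h2 := T.ang i hy hy'
    have h3 := Q.q1 (h ^ (i + 1) • c) (S.q y) (S.q u0) (S.q y')
    have h4 := S.qang_symm (h ^ (i + 1) • c) (S.q y) (S.q u0)
    obtain ⟨p, -, e⟩ := Q.q7 (h ^ (i + 1) • c) (h ^ (i + 2) • c) (S.q u0) y' (T.nsim (i + 1)) hy'
      (by omega)
    have h5 := ih.2
    refine ⟨fun z hz => ?_, ?_⟩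
    · by_contra hc
      obtain ⟨p', -, e'⟩ := Q.q7 (h ^ (i + 2) • c) (h ^ (i + 1) • c) (S.q u0) z
        (fun k => T.nsim (i + 1) (QS.Sim.symm S k)) hz (not_lt.1 hc)
      omega
    · change (i + 1) * (1000 * S.θ) ≤ S.r (h ^ (i + 2) • c) (S.q u0)
      rw [Nat.succ_mul]
      omega

theorem Turn.lox (HL : HypLib) (Q : QGeo S) {h : G} {c : C} (T : Turn S h c) (x : Xb) (k : ℕ) :
    k * (1000 * S.θ) ≤ S.db x (S.φ h ^ k • x) := by
  obtain ⟨u0, h0⟩ := S.ne c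
  have := HL.mult S.Db (S.φ h) (S.q u0) (1000 * S.θ) 1 (1000 * S.θ) S.db_iso (fun k => by
    cases k with
    | zero => simp
    | succ k =>
      have h1 := (T.step Q h0 k).2
      have h2 := S.r_le (S.Yeq (h ^ (k + 1)) c u0 h0) (S.q u0)
      rw [S.q_smul, map_pow] at h2
      rw [Nat.succ_mul]
      simp only [QS.db] at h2
      omega) x k
  simpa using this

/-- Far backward points see the backward neighbour under a small angle. -/
theorem Turn.back (Q : QGeo S) {h : G} {c : C} (T : Turn S h c) (u : Xb) :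
    ∃ N : ℕ, ∀ I, N ≤ I → ∀ y ∈ S.Y (h⁻¹ • c),
      S.qang c ((S.φ h ^ I)⁻¹ • u) (S.q y) < 7100 * S.θ := by
  have hθ := S.θ_pos
  obtain ⟨u0, h0⟩ := S.ne c
  refine ⟨S.db u (S.q u0) + 1, fun I hI y hy => ?_⟩
  obtain ⟨i, rfl⟩ : ∃ i, I = i + 1 := ⟨I - 1, by omega⟩
  have h1 := T.step Q h0 i
  have hy' : h ^ (i + 1) • y ∈ S.Y (h ^ i • c) := by
    have := S.Yeq (h ^ (i + 1)) _ _ hy
    have e : h ^ (i + 1) • h⁻¹ • c = h ^ i • c := by
      rw [← mul_smul]; congr 1; group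
    rwa [e] at this
  have h2 := h1.1 _ hy'
  have h3 := S.qang_smul (h ^ (i + 1)) c ((S.φ h ^ (i + 1))⁻¹ • S.q u0) (S.q y)
  rw [map_pow, smul_inv_smul, ← map_pow, ← S.q_smul, map_pow] at h3
  have h4 := S.r_smul (h ^ (i + 1)) c ((S.φ h ^ (i + 1))⁻¹ • S.q u0)
  rw [map_pow, smul_inv_smul] at h4
  have h5 := h1.2
  have h6 : S.qang c ((S.φ h ^ (i + 1))⁻¹ • u) ((S.φ h ^ (i + 1))⁻¹ • S.q u0) < 3000 * S.θ := by
    by_contra hc
    have h7 := Q.q2 c _ _ (not_lt.1 hc)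
    have h8 := S.db_iso (S.φ h ^ (i + 1))⁻¹ u (S.q u0)
    have h9 : i ≤ i * (1000 * S.θ) := Nat.le_mul_of_pos_right _ (by omega)
    simp only [QS.db] at *
    omega
  have h7 := Q.q1 c ((S.φ h ^ (i + 1))⁻¹ • u) ((S.φ h ^ (i + 1))⁻¹ • S.q u0) (S.q y)
  omega

theorem Turn.ess (Q : QGeo S) {h : G} {c : C} (T : Turn S h c) (u v : Xb) :
    ∃ N : ℕ, ∀ I I', N ≤ I → N ≤ I' →
      9000 * S.θ ≤ S.qang c ((S.φ h ^ I)⁻¹ • u) (S.φ h ^ I' • v) := by
  obtain ⟨N1, h1⟩ := T.back Q u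
  obtain ⟨N2, h2⟩ := T.inv.back Q v
  refine ⟨N1 + N2, fun I I' hI hI' => ?_⟩
  obtain ⟨y, hy⟩ := S.ne (h⁻¹ • c)
  obtain ⟨y', hy'⟩ := S.ne (h • c)
  have h3 := h1 I (by omega) y hy
  have h4 := h2 I' (by omega) y' (by rwa [inv_inv])
  rw [map_inv, inv_pow, inv_inv] at h4
  have h5 := T.2 y hy y' hy'
  have h6 := Q.q1 c (S.q y) ((S.φ h ^ I)⁻¹ • u) (S.q y')
  have h7 := Q.q1 c ((S.φ h ^ I)⁻¹ • u) (S.φ h ^ I' • v) (S.q y')
  have h8 := S.qang_symm c (S.q y) ((S.φ h ^ I)⁻¹ • u)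
  omega

theorem comm_fac {H g : Gb} (hg : g ∈ Ep H) :
    ∃ m : ℕ, ∀ j, m ≤ j → Commute g (H ^ j.factorial) := by
  obtain ⟨m, hm, e⟩ := hg
  refine ⟨m, fun j hj => ?_⟩
  obtain ⟨k, hk⟩ := Nat.dvd_factorial hm hj
  have h1 : Commute g (H ^ m) := by
    rw [commute_iff_eq, ← mul_inv_eq_iff_eq_mul]; exact e
  rw [hk, pow_mul]
  exact h1.pow_right k

theorem swapA {a g : Gb} (h : Commute g a) (u : Xb) : g⁻¹ • a⁻¹ • u = a⁻¹ • g⁻¹ • u := by
  rw [← mul_smul, ← mul_smul, h.inv_inv.eq]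

theorem swapB {a g : Gb} (h : Commute g a) (u : Xb) : g⁻¹ • a • u = a • g⁻¹ • u := by
  rw [← mul_smul, ← mul_smul, h.inv_left.eq]

theorem Turn.key (Q : QGeo S) {h : G} {c : C} (T : Turn S h c) {g : Gb} (hg : g ∈ Ep (S.φ h))
    (u v : Xb) : ∃ N : ℕ, ∀ j j' : ℕ, N ≤ j → N ≤ j' →
      9000 * S.θ ≤ S.qang c ((S.φ h ^ j.factorial)⁻¹ • u) (S.φ h ^ j'.factorial • v) ∧
      9000 * S.θ ≤ S.qang c (g⁻¹ • (S.φ h ^ j.factorial)⁻¹ • u)
        (g⁻¹ • S.φ h ^ j'.factorial • v) := by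
  obtain ⟨m, hm⟩ := comm_fac hg
  obtain ⟨N1, h1⟩ := T.ess Q u v
  obtain ⟨N2, h2⟩ := T.ess Q (g⁻¹ • u) (g⁻¹ • v)
  refine ⟨m + N1 + N2, fun j j' hj hj' => ?_⟩
  have e1 := Nat.self_le_factorial j
  have e2 := Nat.self_le_factorial j'
  refine ⟨h1 _ _ (by omega) (by omega), ?_⟩
  rw [swapA (hm j (by omega)), swapB (hm j' (by omega))]
  exact h2 _ _ (by omega) (by omega)

theorem shift (Q : QGeo S) {c : C} {g : Gb} {u1 u2 v : Xb}
    (a1 : 9000 * S.θ ≤ S.qang c u1 v ∧ 9000 * S.θ ≤ S.qang c (g⁻¹ • u1) (g⁻¹ • v))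
    (a2 : 9000 * S.θ ≤ S.qang c u2 v ∧ 9000 * S.θ ≤ S.qang c (g⁻¹ • u2) (g⁻¹ • v)) :
    S.r c (g⁻¹ • u1) + S.r c u2 = S.r c (g⁻¹ • u2) + S.r c u1 := by
  have h1 := Q.q2 c u1 v (by omega)
  have h2 := Q.q2 c u2 v (by omega)
  have h3 := Q.q2 c (g⁻¹ • u1) (g⁻¹ • v) (by omega)
  have h4 := Q.q2 c (g⁻¹ • u2) (g⁻¹ • v) (by omega)
  have h5 := S.db_iso g⁻¹ u1 v
  have h6 := S.db_iso g⁻¹ u2 v
  simp only [QS.db] at *
  omega

theorem Turn.const (Q : QGeo S) {h : G} {c : C} (T : Turn S h c) (g : Gb) :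
    ∃ s : ℤ, g ∈ Ep (S.φ h) → ∀ u : Xb, ∃ N : ℕ, ∀ j : ℕ, N ≤ j →
      (S.r c (g⁻¹ • (S.φ h ^ j.factorial)⁻¹ • u) : ℤ) =
        S.r c ((S.φ h ^ j.factorial)⁻¹ • u) + s := by
  by_cases hg : g ∈ Ep (S.φ h)
  · obtain ⟨u0⟩ := Q.geom.ne
    obtain ⟨N0, h0⟩ := T.key Q hg u0 u0
    refine ⟨(S.r c (g⁻¹ • (S.φ h ^ N0.factorial)⁻¹ • u0) : ℤ) -
      S.r c ((S.φ h ^ N0.factorial)⁻¹ • u0), fun _ u => ?_⟩
    obtain ⟨N1, h1⟩ := T.key Q hg u u0
    refine ⟨N1, fun j hj => ?_⟩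
    have := shift Q (h1 j (N0 + N1) hj (by omega)) (h0 N0 (N0 + N1) le_rfl (by omega))
    omega
  · exact ⟨0, fun k => absurd k hg⟩

theorem Turn.elem (Q : QGeo S) {h : G} {c : C} (T : Turn S h c)
    (hf : Finite ((stabilizer G c).map S.φ)) : Elem (Ep (S.φ h)) := by
  have hθ := S.θ_pos
  choose s hs using T.const Q
  obtain ⟨u0⟩ := Q.geom.ne
  refine Elem.of_hom s (fun g1 h1 g2 h2 => ?_) ?_
  · obtain ⟨m, hm⟩ := comm_fac h1
    obtain ⟨N1, e1⟩ := hs g1 h1 u0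
    obtain ⟨N2, e2⟩ := hs g2 h2 (g1⁻¹ • u0)
    obtain ⟨N3, e3⟩ := hs (g1 * g2) (Subgroup.mul_mem _ h1 h2) u0
    have f0 := swapA (hm (m + N1 + N2 + N3) (by omega)) u0
    have f1 := e1 (m + N1 + N2 + N3) (by omega)
    have f2 := e2 (m + N1 + N2 + N3) (by omega)
    have f3 := e3 (m + N1 + N2 + N3) (by omega)
    rw [mul_inv_rev, mul_smul, f0] at f3
    rw [f0] at f1
    omega
  · refine (Set.toFinite ((stabilizer G c).map S.φ : Set Gb)).subset ?_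
    rintro gb ⟨h1, h2⟩
    obtain ⟨g, rfl⟩ := S.φ_surj gb
    refine (S.mem_stab_iff g c).2 ?_
    by_contra hn
    obtain ⟨N1, e1⟩ := hs _ h1 u0
    obtain ⟨N2, e2⟩ := T.key Q h1 u0 u0
    have f1 := e1 (N1 + N2) (by omega)
    have f2 := e2 (N1 + N2) (N1 + N2) (by omega) (by omega)
    have f3 := S.qang_smul g c ((S.φ g)⁻¹ • (S.φ h ^ (N1 + N2).factorial)⁻¹ • u0)
      ((S.φ g)⁻¹ • S.φ h ^ (N1 + N2).factorial • u0)
    have f4 := S.r_smul g c ((S.φ g)⁻¹ • (S.φ h ^ (N1 + N2).factorial)⁻¹ • u0)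
    rw [smul_inv_smul] at f4
    rw [smul_inv_smul, smul_inv_smul] at f3
    have f5 := Q.sep c (g • c) _ _ hn f2.1 (by omega)
    omega

end QAxisP

theorem qaxisStmt : HypLib → QAxisStmt := by
  intro HL G X C Gb Xb _ _ _ _ _ S Q h c u v hs hu hv ha
  have T := QAxisP.turn_of Q hs hu hv ha
  exact ⟨T.lox HL Q, T.elem Q⟩

end Pool.Agent.Bu
end

-- part Pool.Agent.Lib.MP_5bec91_al.Bu.L3
section

/-!
Elements of infinite order of the new level have a uniform translation length.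
-/

set_option autoImplicit false

namespace Pool.Agent.Bu

open MulAction

namespace L3

variable {A G X C Gb Xb : Type} [CommGroup A] [Group G] [MulAction G X] [MulAction G C]
  [Group Gb] [MulAction Gb Xb]

/-- A lift of an element of infinite order moves every cone class. -/
theorem not_sim (hB : AlgB) (S : FS A G X C Gb Xb) {g : G} (hg : ¬ IsOfFinOrder (S.φ g))
    (e : C) : ¬ S.Sim e (g • e) := by
  intro h
  obtain ⟨ε, t, a, n, hc⟩ := S.cone e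
  have hf := hB.coneFin S.π S.φ _ _ ε t a n hc fun k hk => (S.φ_ker k).2 (S.H_le_N e hk)
  have hm := (S.mem_stab_iff g e).2 h
  have h1 : IsOfFinOrder (⟨S.φ g, hm⟩ : (stabilizer G e).map S.φ) := isOfFinOrder_of_finite _
  exact hg (((stabilizer G e).map S.φ).subtype.isOfFinOrder h1)

/-- At a point of minimal displacement all angles are small, unless there is an axis. -/
theorem small_angle (S : QS G X C Gb Xb) (hQ : QGeo S) (g : G)
    (hs : ∀ e : C, ¬ S.Sim e (g • e))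
    (hno : ∀ (e : C) (u v : X), u ∈ S.Y (g⁻¹ • e) → v ∈ S.Y (g • e) →
      S.qang e (S.q u) (S.q v) < 25000 * S.θ)
    (x : Xb) (hx : ∀ w, S.db x (S.φ g • x) ≤ S.db w (S.φ g • w)) (e : C) :
    S.qang e x (S.φ g • x) < 34000 * S.θ := by
  by_contra hc
  have hθ := S.θ_pos
  obtain ⟨u, hu⟩ := S.ne (g⁻¹ • e)
  obtain ⟨v, hv⟩ := S.ne (g • e)
  have h1 := hno e u v hu hv
  have h2 := hQ.q1 e x (S.q u) (S.φ g • x)
  have h3 := hQ.q1 e (S.q u) (S.q v) (S.φ g • x)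
  have h4 := S.qang_symm e (S.q v) (S.φ g • x)
  have h5 := hQ.q2 e x (S.φ g • x) (by omega)
  by_cases hb : 4000 * S.θ ≤ S.qang e (S.φ g • x) (S.q v)
  · obtain ⟨p, hp, e1⟩ := hQ.q7 e (g • e) (S.φ g • x) v (hs e) hv hb
    have e2 := S.r_smul g e x
    have hp' : g⁻¹ • p ∈ S.Y e := by simpa using S.Yeq g⁻¹ _ _ hp
    have e3 := hx (S.q (g⁻¹ • p))
    rw [← S.q_smul, smul_inv_smul] at e3
    have e4 := S.db_le_r e (S.q (g⁻¹ • p)) (S.q p)
    have e5 := S.r_mem hp'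
    omega
  · have hs' : ¬ S.Sim e (g⁻¹ • e) := fun h => hs (g⁻¹ • e) (by
      rw [smul_inv_smul]; exact QS.Sim.symm S h)
    obtain ⟨p, hp, e1⟩ := hQ.q7 e (g⁻¹ • e) x u hs' hu (by omega)
    have e2 := S.r_smul g (g⁻¹ • e) x
    rw [smul_inv_smul] at e2
    have hp' : g • p ∈ S.Y e := by simpa using S.Yeq g _ _ hp
    have e3 := hx (S.q p)
    rw [← S.q_smul g p] at e3
    have e4 := S.db_le_r e (S.q p) (S.q (g • p))
    have e5 := S.r_mem hp'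
    omega

/-- A lift that moves one point by a bounded amount is a quasi-axis in the quotient. -/
theorem of_lift (hH : HypLib) (S : FS A G X C Gb Xb) (hE : Elec S.toCS) (hL : LiftLib S.toQS)
    (g : G) (hg : ¬ IsOfFinOrder (S.φ g)) (hs : ∀ e : C, ¬ S.Sim e (g • e)) (z : X)
    (hz : S.D.d z (g • z) ≤ 7200000 * S.θ) (k : ℕ) :
    k * (10 ^ 4 * S.θ) ≤ 10 ^ 18 * S.Db.d (S.q z) (S.φ g ^ k • S.q z) + 0 := by
  have hfix : ∀ e : C, g • e ≠ e := fun e h => hs e (by rw [h]; exact QS.Sim.refl _ e)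
  have hg' : ¬ IsOfFinOrder g := fun h => hg (S.φ.isOfFinOrder h)
  have hdisp : ∀ x, 20 * S.δ ≤ S.D.d x (g • x) := by
    intro x
    by_contra h
    obtain ⟨c, hc⟩ := S.short g x hg' (by omega)
    exact hfix c hc
  have h1 := (hH.loxA S.D S.δ g S.geom hdisp).1 z k
  have hang : ∀ c, S.D.ang (S.Y c) z (g ^ k • z) < 216000100 * S.θ := by
    intro c
    by_contra h
    refine hfix c (S.over2 c g z (g ^ k • z) (7200000 * S.θ) hz ?_ (by omega))
    rw [← mul_smul, ← pow_succ', pow_succ, mul_smul, S.geom.iso]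
    exact hz
  have h2 : S.Exact z (g ^ k • z) := hL.ec z _ fun c => by
    have := hang c
    simp only [CS.ang]
    omega
  have h3 := hE.dist z (g ^ k • z) 216002 (by norm_num) fun c => by
    have := hang c
    simp only [CS.ang]
    omega
  unfold QS.Exact at h2
  rw [S.q_smul, map_pow] at h2
  rw [h2] at h3
  have h4 : k * (10 ^ 4 * S.θ) = 10 ^ 12 * (k * S.δ) := by rw [S.hθδ]; ring
  simp only [CS.d, QS.db] at h3
  omega

end L3

theorem l3Stmt : HypLib → AlgB → L3Stmt := by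
  intro hH hB A G X C Gb Xb _ _ _ _ _ _ S hE hL hQ hA gb hg x k
  classical
  obtain ⟨g, rfl⟩ := S.φ_surj gb
  by_cases h1 : ∀ w, 20 * (10 ^ 4 * S.θ) ≤ S.Db.d w (S.φ g • w)
  · have := (hH.loxA S.Db _ (S.φ g) hQ.geom h1).1 x k
    omega
  by_cases h2 : ∃ (e : C) (u v : X), u ∈ S.Y (g⁻¹ • e) ∧ v ∈ S.Y (g • e) ∧
      25000 * S.θ ≤ S.qang e (S.q u) (S.q v)
  · obtain ⟨e, u, v, hu, hv, h⟩ := h2
    have h3 := (hA g e u v (L3.not_sim hB S hg e) hu hv h).1 x k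
    have h4 : k * (10 ^ 4 * S.θ) = 10 * (k * (1000 * S.θ)) := by ring
    simp only [QS.db] at h3
    omega
  have hno : ∀ (e : C) (u v : X), u ∈ S.Y (g⁻¹ • e) → v ∈ S.Y (g • e) →
      S.qang e (S.q u) (S.q v) < 25000 * S.θ := fun e u v hu hv =>
    lt_of_not_ge fun h => h2 ⟨e, u, v, hu, hv, h⟩
  have hex : ∃ n, ∃ w, S.Db.d w (S.φ g • w) = n := ⟨_, x, rfl⟩
  obtain ⟨w, hw⟩ := Nat.find_spec hex
  have hmin : ∀ w', S.db w (S.φ g • w) ≤ S.db w' (S.φ g • w') := fun w' => by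
    simp only [QS.db]
    rw [hw]
    exact Nat.find_min' hex ⟨w', rfl⟩
  have hD : S.db w (S.φ g • w) < 200000 * S.θ := by
    obtain ⟨w', hw'⟩ := not_forall.1 h1
    have := hmin w'
    simp only [QS.db] at *
    omega
  have hq := L3.small_angle S.toQS hQ g (L3.not_sim hB S hg) hno w hmin
  obtain ⟨z, rfl⟩ := S.q_surj w
  obtain ⟨y, hy, hyE, hyA⟩ := hQ.sl z (S.φ g • S.q z)
  obtain ⟨n, hn, rfl⟩ := S.q_eq (g • z) y (by rw [hy, S.q_smul])
  have e1 : S.φ (n * g) = S.φ g := by rw [map_mul, (S.φ_ker n).2 hn, one_mul]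
  have h3 := hE.dist z (n • g • z) 36 (by norm_num) fun c => by
    have := hq c
    have := hyA c
    have := S.θ_pos
    omega
  unfold QS.Exact at hyE
  rw [hy] at hyE
  rw [hyE] at h3
  have hg' : ¬ IsOfFinOrder (S.φ (n * g)) := by rwa [e1]
  have h4 := L3.of_lift hH S hE hL (n * g) hg' (L3.not_sim hB S hg') z (by
    rw [mul_smul]
    simp only [CS.d, QS.db] at *
    omega)
  rw [e1] at h4
  exact hH.mult S.Db (S.φ g) (S.q z) _ _ 0 S.db_iso h4 x k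

end Pool.Agent.Bu
end

-- part Pool.Agent.Lib.MP_5bec91_al.Bu.L4
section

/-!
The acylindricity property `P1` for the new level.
-/

set_option autoImplicit false

namespace Pool.Agent.Bu

open MulAction

namespace L4

section Q

variable {G X C Gb Xb : Type} [Group G] [MulAction G X] [MulAction G C]
  [Group Gb] [MulAction Gb Xb] {S : QS G X C Gb Xb}

theorem r_inv (g : G) (c : C) (u : Xb) : S.r (g • c) u = S.r c ((S.φ g)⁻¹ • u) := by
  rw [← S.r_smul g c, smul_inv_smul]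

theorem qang_inv (g : G) (c : C) (u v : Xb) :
    S.qang (g • c) u v = S.qang c ((S.φ g)⁻¹ • u) ((S.φ g)⁻¹ • v) := by
  rw [← S.qang_smul g c, smul_inv_smul, smul_inv_smul]

theorem near_small (Q : QGeo S) {c : C} {u v : Xb} (h : S.db u v ≤ S.r c u) :
    S.qang c u v < 3000 * S.θ := by
  by_contra hc
  have h1 := Q.q2 c u v (by omega)
  have h2 := S.θ_pos
  omega

theorem q11 (Q : QGeo S) (c : C) (u u' v' v : Xb) :
    S.qang c u v ≤ S.qang c u u' + S.qang c u' v' + S.qang c v v' + 200 * S.θ := by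
  have h1 := Q.q1 c u u' v
  have h2 := Q.q1 c u' v' v
  have h3 := S.qang_symm c v v'
  omega

theorem ext3 (Q : QGeo S) (c : C) {u m v : Xb} (h : S.db u m + S.db m v = S.db u v) :
    S.qang c u m < 3000 * S.θ ∨ S.qang c m v < 3000 * S.θ := by
  by_contra hc
  have h1 := Q.q2 c u m (by omega)
  have h2 := Q.q2 c m v (by omega)
  have h3 := S.db_le_r c u v
  have h4 := S.θ_pos
  omega

/-- `w` moves `x` and `y` by at most `k`. -/
def Mv (S : QS G X C Gb Xb) (x y : Xb) (w : Gb) (k : ℕ) : Prop :=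
  S.db x (w • x) ≤ k ∧ S.db y (w • y) ≤ k

theorem mv_inv1 (w : Gb) (x : Xb) : S.db x (w⁻¹ • x) = S.db x (w • x) := by
  have h1 := PM.Iso.inv_smul S.db_iso w x x
  have h2 := S.Db.symm x (w⁻¹ • x)
  simp only [QS.db]
  omega

theorem mv_mul1 (w w' : Gb) (x : Xb) :
    S.db x ((w * w') • x) ≤ S.db x (w • x) + S.db x (w' • x) := by
  have h1 := S.Db.tri x (w • x) ((w * w') • x)
  have h2 := S.db_iso w x (w' • x)
  rw [← mul_smul] at h2
  simp only [QS.db]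
  omega

theorem Mv.inv {x y : Xb} {w : Gb} {k : ℕ} (h : Mv S x y w k) : Mv S x y w⁻¹ k :=
  ⟨by rw [mv_inv1]; exact h.1, by rw [mv_inv1]; exact h.2⟩

theorem Mv.mul {x y : Xb} {w w' : Gb} {k k' : ℕ} (h : Mv S x y w k) (h' : Mv S x y w' k') :
    Mv S x y (w * w') (k + k') :=
  ⟨(mv_mul1 w w' x).trans (Nat.add_le_add h.1 h'.1),
    (mv_mul1 w w' y).trans (Nat.add_le_add h.2 h'.2)⟩

/-- A cone crossed by the segment from `x` to `y` far from both ends. -/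
def Deep (S : QS G X C Gb Xb) (c : C) (x y : Xb) : Prop :=
  35000 * S.θ ≤ S.qang c x y ∧ 150000000 * S.θ ≤ S.r c x ∧ 150000000 * S.θ ≤ S.r c y

theorem Deep.sum (Q : QGeo S) {c : C} {x y : Xb} (h : Deep S c x y) {x' y' : Xb}
    (hx : S.db x x' ≤ 150000000 * S.θ) (hy : S.db y y' ≤ 150000000 * S.θ) :
    28000 * S.θ ≤ S.qang c x' y' ∧ S.db x' y' = S.r c x' + 1000 * S.θ + S.r c y' := by
  obtain ⟨h1, h2, h3⟩ := h
  have h4 := near_small Q (hx.trans h2)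
  have h5 := near_small Q (hy.trans h3)
  have h6 := q11 Q c x x' y' y
  have h7 : 28000 * S.θ ≤ S.qang c x' y' := by omega
  exact ⟨h7, Q.q2 c x' y' (by omega)⟩

/-- The shift of `w` seen from the cone `c`. -/
noncomputable def sg (S : QS G X C Gb Xb) (c : C) (x : Xb) (w : Gb) : ℤ :=
  (S.r c (w⁻¹ • x) : ℤ) - S.r c x

theorem sg_mul (Q : QGeo S) {c : C} {x y : Xb} (h : Deep S c x y) {w w' : Gb} {k k' : ℕ}
    (hw : Mv S x y w k) (hw' : Mv S x y w' k') (hk : k + k' ≤ 150000000 * S.θ) :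
    sg S c x (w * w') = sg S c x w + sg S c x w' := by
  have r0 : ∀ u : Xb, S.db u u ≤ 150000000 * S.θ := fun u =>
    (S.Db.refl u).le.trans (Nat.zero_le _)
  have a1 := (hw.mul hw').inv.1
  have a2 := hw.inv.1
  have a3 := hw'.inv.1
  have a4 := hw'.inv.2
  have e1 := (h.sum Q (x' := (w * w')⁻¹ • x) (y' := w'⁻¹ • y) (by omega) (by omega)).2
  have e2 := (h.sum Q (x' := w'⁻¹ • x) (y' := w'⁻¹ • y) (by omega) (by omega)).2
  have e3 := (h.sum Q (x' := w⁻¹ • x) (y' := y) (by omega) (r0 y)).2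
  have e4 := (h.sum Q (r0 x) (r0 y)).2
  have i1 := S.db_iso w'⁻¹ (w⁻¹ • x) y
  have i2 := S.db_iso w'⁻¹ x y
  rw [← mul_smul, ← mul_inv_rev] at i1
  simp only [sg, QS.db] at *
  omega

theorem sg_one (c : C) (x : Xb) : sg S c x 1 = 0 := by simp [sg]

theorem mem_of_sg (Q : QGeo S) {c : C} {x y : Xb} (h : Deep S c x y) {w : Gb} {k : ℕ}
    (hw : Mv S x y w k) (hk : k ≤ 150000000 * S.θ) (h0 : sg S c x w = 0) :
    w ∈ (stabilizer G c).map S.φ := by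
  obtain ⟨g, rfl⟩ := S.φ_surj w
  rw [S.mem_stab_iff]
  by_contra hs
  have a1 := (h.sum Q (hw.inv.1.trans hk) (hw.inv.2.trans hk)).1
  rw [← qang_inv] at a1
  have a2 := h.1
  have a3 := Q.sep c (g • c) x y hs (by omega) (by omega)
  have a4 := r_inv (S := S) g c x
  have a5 := S.θ_pos
  simp only [sg] at h0
  omega

/-- Bookkeeping of displacement and shift. -/
def Gd (S : QS G X C Gb Xb) (c : C) (x y : Xb) (w : Gb) (k : ℕ) (z : ℤ) : Prop :=
  Mv S x y w (k * (10000000 * S.θ)) ∧ (k ≤ 15 → sg S c x w = z)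

theorem Gd.mul (Q : QGeo S) {c : C} {x y : Xb} (h : Deep S c x y) {w w' : Gb} {k k' : ℕ}
    {z z' : ℤ} (hw : Gd S c x y w k z) (hw' : Gd S c x y w' k' z') :
    Gd S c x y (w * w') (k + k') (z + z') := by
  refine ⟨by rw [add_mul]; exact hw.1.mul hw'.1, fun hk => ?_⟩
  rw [sg_mul Q h hw.1 hw'.1, hw.2 (by omega), hw'.2 (by omega)]
  rw [← add_mul]
  exact (Nat.mul_le_mul_right _ hk).trans (by omega)

theorem gd_pair (Q : QGeo S) {c : C} {x y : Xb} (h : Deep S c x y) {w : Gb}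
    (hw : Mv S x y w (10000000 * S.θ)) :
    Gd S c x y w 1 (sg S c x w) ∧ Gd S c x y w⁻¹ 1 (-sg S c x w) := by
  refine ⟨⟨by rw [one_mul]; exact hw, fun _ => rfl⟩, by rw [one_mul]; exact hw.inv, fun _ => ?_⟩
  have := sg_mul Q h hw hw.inv (by omega)
  rw [mul_inv_cancel, sg_one] at this
  omega

theorem cj_mem (Q : QGeo S) {c : C} {x y : Xb} (h : Deep S c x y) {s w : Gb}
    (hs : Mv S x y s (10000000 * S.θ)) (hw : Mv S x y w (10000000 * S.θ)) :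
    ∀ i ≤ 5, cj w i (s * w * s⁻¹ * w⁻¹) ∈ (stabilizer G c).map S.φ := by
  obtain ⟨s1, s2⟩ := gd_pair Q h hs
  obtain ⟨w1, w2⟩ := gd_pair Q h hw
  have key : ∀ i, Gd S c x y (cj w i (s * w * s⁻¹ * w⁻¹)) (4 + 2 * i) 0 := by
    intro i
    induction i with
    | zero =>
      rw [cj_zero]
      have := ((s1.mul Q h w1).mul Q h s2).mul Q h w2
      convert this using 1
      ring
    | succ i ih =>
      rw [cj_succ]
      have := (w1.mul Q h ih).mul Q h w2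
      convert this using 1 <;> ring
  intro i hi
  refine mem_of_sg Q h (key i).1 ?_ ((key i).2 (by omega))
  have : 4 + 2 * i ≤ 15 := by omega
  exact (Nat.mul_le_mul_right _ this).trans (by omega)

/-- A point seen before the cone `e` from `u` makes a small angle at `c`. -/
theorem q7c (Q : QGeo S) {c e : C} (hs : ¬ S.Sim c e) {u : Xb} (h : S.r e u ≤ S.r c u) {p : X}
    (hp : p ∈ S.Y e) : S.qang c u (S.q p) < 4000 * S.θ := by
  by_contra hc
  obtain ⟨_, -, e1⟩ := Q.q7 c e u p hs hp (by omega)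
  have := S.θ_pos
  omega

theorem big_turn (Q : QGeo S) {c : C} {x y : Xb} (h : Deep S c x y) {g : G}
    (hg : Mv S x y (S.φ g) (10000000 * S.θ)) (hs : ¬ S.Sim c (g • c)) {u v : X}
    (hu : u ∈ S.Y (g⁻¹ • c)) (hv : v ∈ S.Y (g • c)) :
    25000 * S.θ ≤ S.qang c (S.q u) (S.q v) := by
  have hs' : ¬ S.Sim c (g⁻¹ • c) := fun h1 => hs (by
    have := h1.smul S g
    rw [smul_inv_smul] at this
    exact this.symm S)
  have r0 : ∀ u : Xb, S.db u u ≤ 150000000 * S.θ := fun u =>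
    (S.Db.refl u).le.trans (Nat.zero_le _)
  have a1 := (gd_pair Q h hg).2.2 (by omega)
  have b1 := r_inv (S := S) g c x
  have b2 := r_inv (S := S) g c y
  have b3 := r_inv (S := S) g⁻¹ c x
  have b4 := r_inv (S := S) g⁻¹ c y
  rw [map_inv] at b3 b4
  have e0 := (h.sum Q (r0 x) (r0 y)).2
  have e1 := (h.sum Q (hg.inv.1.trans (by omega)) (hg.inv.2.trans (by omega))).2
  have e2 := (h.sum Q (hg.inv.inv.1.trans (by omega)) (hg.inv.inv.2.trans (by omega))).2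
  have i1 := S.db_iso (S.φ g)⁻¹ x y
  have i2 := S.db_iso (S.φ g)⁻¹⁻¹ x y
  have a2 := h.1
  simp only [sg, QS.db] at a1 e0 e1 e2
  rcases le_total (S.r (g⁻¹ • c) x) (S.r c x) with h1 | h1
  · have c1 := q7c Q hs' h1 hu
    have c2 := q7c Q hs (u := y) (by omega) hv
    have c3 := q11 Q c x (S.q u) (S.q v) y
    omega
  · have c1 := q7c Q hs (u := x) (by omega) hv
    have c2 := q7c Q hs' (u := y) (by omega) hu
    have c3 := q11 Q c x (S.q v) (S.q u) y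
    have c4 := S.qang_symm c (S.q u) (S.q v)
    omega

theorem caseA {A : Type} [CommGroup A] (πb : Gb →* A) (hB : AlgB) (Q : QGeo S) (hQ : QAxis S)
    (hC : ChFin πb) {c : C} (hfin : Finite ((stabilizer G c).map S.φ)) {x y : Xb}
    (h : Deep S c x y) :
    ∃ P : Subgroup Gb, Elem P ∧ ∀ s : Gb, Mv S x y s (10000000 * S.θ) → s ∈ P := by
  by_cases hall : ∀ s : Gb, Mv S x y s (10000000 * S.θ) → s ∈ (stabilizer G c).map S.φ
  · exact ⟨_, Elem.of_fin hfin, hall⟩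
  push Not at hall
  obtain ⟨w, hw, hn⟩ := hall
  obtain ⟨g, rfl⟩ := S.φ_surj w
  rw [S.mem_stab_iff] at hn
  obtain ⟨u, hu⟩ := S.ne (g⁻¹ • c)
  obtain ⟨v, hv⟩ := S.ne (g • c)
  refine ⟨_, (hQ g c u v hn hu hv (big_turn Q h hw hn hu hv)).2 hfin, fun s hs => ?_⟩
  have hm := cj_mem Q h hs hw
  have h1 := hC (s * S.φ g * s⁻¹ * (S.φ g)⁻¹) (S.φ g) (by simp) ⟨_, hfin, hm⟩
  have hle : Subgroup.closure {s * S.φ g * s⁻¹ * (S.φ g)⁻¹,
      cj (S.φ g) 1 (s * S.φ g * s⁻¹ * (S.φ g)⁻¹), cj (S.φ g) 2 (s * S.φ g * s⁻¹ * (S.φ g)⁻¹)} ≤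
      (stabilizer G c).map S.φ := by
    rw [Subgroup.closure_le]
    rintro _ (rfl | rfl | rfl)
    · have := hm 0 (by omega)
      rwa [cj_zero] at this
    · exact hm 1 (by omega)
    · exact hm 2 (by omega)
  obtain ⟨m, hm0, -, e⟩ := (hB.chN _ _ h1).2
    (Finite.of_injective _ (Subgroup.inclusion_injective hle))
  refine ⟨m, hm0, ?_⟩
  rw [inv_mul_cancel_right, conj_pow] at e
  exact e

theorem b1 (Q : QGeo S) {x y x' y' : Xb} (hnd : ∀ c, ¬ Deep S c x y)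
    (e1 : S.db x x' + S.db x' y = S.db x y) (e2 : S.db x' y' + S.db y' y = S.db x' y)
    (hx : 180000000 * S.θ ≤ S.db x x') (hy : 180000000 * S.θ ≤ S.db y' y) (c : C) :
    S.qang c x' y' < 42000 * S.θ := by
  by_contra hc
  have t1 := S.Db.tri x x' y'
  have t2 := S.Db.tri x y' y
  have e3 : S.db x x' + S.db x' y' = S.db x y' := by simp only [QS.db] at *; omega
  have a1 := ext3 Q c e3
  have a2 := ext3 Q c e2
  have s1 := S.qang_symm c x x'
  have s2 := S.qang_symm c y y'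
  have a3 := q11 Q c x' x y y'
  have a4 := Q.q1 c x' x y'
  have a5 := Q.q1 c x' y y'
  have f1 := Q.q2 c x' y' (by omega)
  have f2 := Q.q2 c x y' (by omega)
  have f3 := Q.q2 c x' y (by omega)
  exact hnd c ⟨by omega, by omega, by omega⟩

theorem b2a (Q : QGeo S) {x y m : Xb} (hnd : ∀ c, ¬ Deep S c x y)
    (e1 : S.db x m + S.db m y = S.db x y)
    (hx : 180000000 * S.θ ≤ S.db x m) (hy : 180000000 * S.θ ≤ S.db m y) {c : C}
    (hr : S.r c m ≤ 20000000 * S.θ) :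
    S.qang c x m < 39000 * S.θ ∧ 150000000 * S.θ ≤ S.r c x := by
  have a1 := S.db_le_r c x m
  have a2 := S.db_le_r c m y
  have a3 : S.qang c x y < 35000 * S.θ := by
    by_contra hc
    exact hnd c ⟨by omega, by omega, by omega⟩
  have a4 := ext3 Q c e1
  have a5 := Q.q1 c x y m
  have a6 := S.qang_symm c y m
  exact ⟨by omega, by omega⟩

theorem b2 (Q : QGeo S) {x y m : Xb} (hnd : ∀ c, ¬ Deep S c x y)
    (e1 : S.db x m + S.db m y = S.db x y)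
    (hx : 180000000 * S.θ ≤ S.db x m) (hy : 180000000 * S.θ ≤ S.db m y) {s : Gb}
    (hs : S.db x (s • x) ≤ 10000000 * S.θ) (hm : S.db m (s • m) ≤ 20000000 * S.θ) (c : C) :
    S.qang c m (s • m) < 82000 * S.θ := by
  by_contra hc
  obtain ⟨g, rfl⟩ := S.φ_surj s
  have f1 := Q.q2 c m (S.φ g • m) (by omega)
  have i1 := r_inv (S := S) g⁻¹ c m
  have i2 := qang_inv (S := S) g⁻¹ c x m
  rw [map_inv, inv_inv] at i1 i2
  obtain ⟨a1, a2⟩ := b2a Q hnd e1 hx hy (c := c) (by omega)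
  obtain ⟨a3, -⟩ := b2a Q hnd e1 hx hy (c := g⁻¹ • c) (by omega)
  have a4 := near_small Q (c := c) (u := x) (v := S.φ g • x) (by omega)
  have a5 := q11 Q c m x (S.φ g • x) (S.φ g • m)
  have a6 := S.qang_symm c x m
  have a7 := S.qang_symm c (S.φ g • x) (S.φ g • m)
  omega

/-- Tight lifts have small angles. -/
theorem tight (Q : QGeo S) (x : X) (v : Xb) (h : ∀ c, S.qang c (S.q x) v < 82000 * S.θ) :
    ∃ y, S.q y = v ∧ S.Exact x y ∧ ∀ c, S.ang c x y ≤ 83000 * S.θ := by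
  obtain ⟨y, h1, h2, h3⟩ := Q.sl x v
  refine ⟨y, h1, h2, fun c => ?_⟩
  have := h c
  have := h3 c
  omega

theorem caseB (hH : HypLib) (hA : AlgA) (hE : Elec S.toCS) (hL : LiftLib S) (Q : QGeo S)
    (hP : P1D G S.D S.θ) {x y : Xb} (hxy : 100000000000 * S.θ ≤ S.db x y)
    (hnd : ∀ c, ¬ Deep S c x y) :
    ∃ P : Subgroup Gb, Elem P ∧ ∀ s : Gb, Mv S x y s (10000000 * S.θ) → s ∈ P := by
  obtain ⟨x', e1, l1, u1⟩ := Q.geom.geo x y (180000000 * S.θ) (by simp only [QS.db] at *; omega)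
  have sy := S.Db.symm y x'
  obtain ⟨y', e2, l2, u2⟩ := Q.geom.geo y x' (180000000 * S.θ) (by simp only [QS.db] at *; omega)
  have s1 := S.Db.symm y y'
  have s2 := S.Db.symm y' x'
  have t1 := S.Db.tri x x' y'
  have t2 := S.Db.tri x y' y
  have e2' : S.db x' y' + S.db y' y = S.db x' y := by simp only [QS.db] at *; omega
  have e3 : S.db x y' + S.db y' y = S.db x y := by simp only [QS.db] at *; omega
  have l2' : 180000000 * S.θ ≤ S.db y' y := by simp only [QS.db] at *; omega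
  have l3 : 180000000 * S.θ ≤ S.db x' y := by simp only [QS.db] at *; omega
  have l4 : 180000000 * S.θ ≤ S.db x y' := by simp only [QS.db] at *; omega
  obtain ⟨x0, rfl⟩ := S.q_surj x'
  obtain ⟨y0, rfl, ex0, an0⟩ := tight Q x0 y' fun c => by
    have := b1 Q hnd e1 e2' l1 l2' c
    omega
  have d0 := S.dh_le_d x0 y0
  obtain ⟨P, hP1, hP2⟩ := hP x0 y0 (84 * (20000000 * S.θ)) (by
    simp only [QS.db, QS.Exact, CS.d] at *; omega)
  refine ⟨P.map S.φ, hA.map _ _ hP1, fun s hs => ?_⟩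
  have m1 := hH.conv S.Db _ 0 _ s x y (S.q x0) S.db_iso Q.geom.hyp e1.le hs.1 hs.2
  have m2 := hH.conv S.Db _ 0 _ s x y (S.q y0) S.db_iso Q.geom.hyp e3.le hs.1 hs.2
  have m1' : S.db (S.q x0) (s • S.q x0) ≤ 20000000 * S.θ := by simp only [QS.db] at *; omega
  have m2' : S.db (S.q y0) (s • S.q y0) ≤ 20000000 * S.θ := by simp only [QS.db] at *; omega
  obtain ⟨x1, q1, ex1, an1⟩ := tight Q x0 (s • S.q x0) (b2 Q hnd e1 l1 l3 hs.1 m1')
  obtain ⟨y1, q2, ex2, an2⟩ := tight Q y0 (s • S.q y0) (b2 Q hnd e3 l4 l2' hs.1 m2')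
  obtain ⟨g0, rfl⟩ := S.φ_surj s
  obtain ⟨n, hn, rfl⟩ := S.q_eq (g0 • x0) x1 (by rw [q1, S.q_smul])
  have hφ : S.φ (n * g0) = S.φ g0 := by rw [map_mul, (S.φ_ker n).2 hn, one_mul]
  rw [← mul_smul] at ex1 an1 q1
  obtain ⟨n', hn', rfl⟩ := S.q_eq ((n * g0) • y0) y1 (by rw [q2, S.q_smul, hφ])
  have h1 : n' = 1 := hL.small ((n * g0) • y0) n' hn' fun c => by
    have c1 := S.ang_tri c ((n * g0) • y0) ((n * g0) • x0) (n' • (n * g0) • y0)
    have c2 := S.ang_tri c ((n * g0) • x0) x0 (n' • (n * g0) • y0)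
    have c3 := S.ang_tri c x0 y0 (n' • (n * g0) • y0)
    have c4 := S.ang_smul (n * g0) ((n * g0)⁻¹ • c) y0 x0
    rw [smul_inv_smul] at c4
    have c5 := S.ang_symm ((n * g0)⁻¹ • c) y0 x0
    have c6 := S.ang_symm c ((n * g0) • x0) x0
    have := an0 c
    have := an0 ((n * g0)⁻¹ • c)
    have := an1 c
    have := an2 c
    omega
  subst h1
  rw [one_smul] at ex2 an2 q2
  have d1 := hE.dist x0 ((n * g0) • x0) 84 (by omega) fun c => by have := an1 c; omega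
  have d2 := hE.dist y0 ((n * g0) • y0) 84 (by omega) fun c => by have := an2 c; omega
  refine ⟨n * g0, hP2 _ ?_ ?_, hφ⟩
  · rw [QS.Exact, q1] at ex1
    simp only [QS.db, CS.d] at *
    omega
  · rw [QS.Exact, q2] at ex2
    simp only [QS.db, CS.d] at *
    omega

end Q

end L4

open L4

theorem l4Stmt : HypLib → AlgA → AlgB → L4Stmt := by
  intro hH hA hB A G X C Gb Xb _ _ _ _ _ _ S hE hL Q hQ hC x y hxy
  have key : ∃ P : Subgroup Gb, Elem P ∧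
      ∀ s : Gb, Mv S.toQS x y s (10000000 * S.θ) → s ∈ P := by
    by_cases h : ∃ c, Deep S.toQS c x y
    · obtain ⟨c, hc⟩ := h
      obtain ⟨ε, t, a, n, hd⟩ := S.cone c
      exact caseA S.πb hB Q hQ hC
        (hB.coneFin S.π S.φ _ _ ε t a n hd fun h hh => (S.φ_ker h).2 (S.H_le_N c hh)) hc
    · exact caseB hH hA hE hL Q S.p1d (by simp only [QS.db]; omega) fun c hc => h ⟨c, hc⟩
  obtain ⟨P, h1, h2⟩ := key
  exact ⟨P, h1, fun g hx hy => h2 g ⟨by simp only [QS.db]; omega, by simp only [QS.db]; omega⟩⟩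

end Pool.Agent.Bu
end

-- part Pool.Agent.Lib.MP_5bec91_al.Bu.NewLib
section

/-!
Algebraic tools in the setting of the induction step.
-/

set_option autoImplicit false

namespace Pool.Agent.Bu

open MulAction

namespace NewLibAux

variable {A G C Gb : Type} [CommGroup A] [Group G] [MulAction G C] [Group Gb]
  {π : G →* A} {φ : G →* Gb} {πb : Gb →* A} {H : C → Subgroup G}

theorem fin_of_mem {Q : Subgroup G} (hQ : Finite Q) {g : G} (hg : g ∈ Q) : IsOfFinOrder g :=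
  Q.subtype.isOfFinOrder (isOfFinOrder_of_finite (⟨g, hg⟩ : Q))

theorem inj (S : AlgS π φ πb H) {Q : Subgroup G} (hQ : Finite Q) {g g' : G} (hg : g ∈ Q)
    (hg' : g' ∈ Q) (e : φ g = φ g') : g = g' := by
  have h1 := S.tf (g * g'⁻¹) (by simp [e]) (fin_of_mem hQ (Q.mul_mem hg (Q.inv_mem hg')))
  exact mul_inv_eq_one.1 h1

theorem stab' (S : AlgS π φ πb H) (c : C) : ∀ g ∈ stabilizer G c, φ g = 1 ↔ g ∈ H c :=
  fun g hg => S.stab c g hg

theorem H_ker (S : AlgS π φ πb H) (c : C) : ∀ h ∈ H c, φ h = 1 := by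
  obtain ⟨ε, t, a, n, hc⟩ := S.cone c
  intro h hh
  refine (S.stab c h ?_).2 hh
  rw [hc.rot] at hh
  exact (Subgroup.zpowers_le.2 ((stabilizer G c).pow_mem hc.mem n)) hh

theorem alt (hB : AlgB) (S : AlgS π φ πb H) (P : Subgroup Gb) (hP : Finite P) :
    (∃ Q : Subgroup G, Finite Q ∧ Q.map φ = P) ∨
    ∃ c : C, P ≤ (stabilizer G c).map φ ∧ ∃ g : G, g • c = c ∧ Wild (H c) g ∧ φ g ∈ P := by
  rcases S.l1 P hP with h | ⟨c, hc⟩
  · exact Or.inl h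
  · by_cases hw : ∃ g : G, g • c = c ∧ Wild (H c) g ∧ φ g ∈ P
    · exact Or.inr ⟨c, hc, hw⟩
    · obtain ⟨ε, t, a, n, hd⟩ := S.cone c
      obtain ⟨Q, h1, -, h2⟩ := hB.tame π φ _ _ ε t a n hd (stab' S c) P hc
        fun g hg h1 h2 => hw ⟨g, hg, h2, h1⟩
      exact Or.inl ⟨Q, h1, h2⟩

theorem fix (S : AlgS π φ πb H) (c : C) (g : G) (hg : g • c = c) (hw : Wild (H c) g) (k : Gb)
    (hk : k * φ g * k⁻¹ ∈ (stabilizer G c).map φ) : k ∈ (stabilizer G c).map φ := by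
  obtain ⟨k0, rfl⟩ := S.surj k
  obtain ⟨g', hg', e⟩ := hk
  have hg'' : g' • c = c := hg'
  obtain ⟨n, hn, e'⟩ := S.rot1 c g hg hw (k0⁻¹ • c) (k0⁻¹ * g' * k0)
    (by rw [mul_smul, smul_inv_smul, mul_smul, hg'']) (by
      rw [map_mul, map_mul, map_inv, e]; group)
  refine ⟨k0 * n, ?_, by rw [map_mul, hn, mul_one]⟩
  change (k0 * n) • c = c
  rw [mul_smul, ← e', smul_inv_smul]

theorem cfin (hB : AlgB) (S : AlgS π φ πb H) (c : C) : Finite ((stabilizer G c).map φ) := by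
  obtain ⟨ε, t, a, n, hd⟩ := S.cone c
  exact hB.coneFin π φ _ _ ε t a n hd (H_ker S c)

theorem claw (S : AlgS π φ πb H) (c : C) : SqC ((stabilizer G c).map φ) := by
  obtain ⟨ε, t, a, n, hd⟩ := S.cone c
  rintro _ ⟨x, hx, rfl⟩ _ ⟨y, hy, rfl⟩
  rw [← map_pow, ← map_pow]
  refine Commute.map ?_ φ
  rcases hd.typ with ⟨h1, -⟩ | ⟨h1, -⟩
  · exact S.old.law _ ⟨ε, t, hd.aff⟩ h1 x hx y hy
  · rw [h1] at hx hy
    obtain ⟨i, rfl⟩ := Subgroup.mem_zpowers_iff.1 hx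
    obtain ⟨j, rfl⟩ := Subgroup.mem_zpowers_iff.1 hy
    exact (Commute.zpow_zpow_self a i j).pow_pow 2 2

theorem chain (S : AlgS π φ πb H) (g : ℕ → G) (k : Gb) (P : Subgroup G) (hP : Elem P)
    (hg : ∀ i ≤ 5, g i ∈ P) (h0 : π (g 0) = 1)
    (hk : ∀ i ≤ 4, φ (g (i + 1)) = k * φ (g i) * k⁻¹)
    (f0 : Finite (Subgroup.closure {g 0, g 1, g 2, g 3, g 4}))
    (f1 : Finite (Subgroup.closure {g 1, g 2, g 3, g 4, g 5})) :
    g 0 ∈ Subgroup.closure {g 1, g 2, g 3} := by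
  obtain ⟨k0, rfl⟩ := S.surj k
  set Q0 := Subgroup.closure {g 0, g 1, g 2, g 3, g 4} with hQ0
  set Q1 := Subgroup.closure {g 1, g 2, g 3, g 4, g 5} with hQ1
  have m0 : ∀ i ≤ 4, g i ∈ Q0 := fun i hi => Subgroup.subset_closure (by
    interval_cases i <;> simp)
  have m1 : ∀ i ≤ 4, g (i + 1) ∈ Q1 := fun i hi => Subgroup.subset_closure (by
    interval_cases i <;> simp)
  let κ : G →* G := (MulAut.conj k0).toMonoidHom
  have hκ : ∀ x, κ x = k0 * x * k0⁻¹ := fun _ => rfl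
  have fQ : Finite (Q0.map κ) := Finite.of_surjective _ (κ.subgroupMap_surjective Q0)
  have hle : (Q0.map κ).map φ ≤ Q1.map φ := by
    rw [Subgroup.map_le_iff_le_comap, Subgroup.map_le_iff_le_comap, hQ0, Subgroup.closure_le]
    have key : ∀ i ≤ 4, φ (κ (g i)) ∈ Q1.map φ := fun i hi =>
      ⟨g (i + 1), m1 i hi, by rw [hk i hi, hκ, map_mul, map_mul, map_inv]⟩
    intro x hx
    simp only [Set.mem_insert_iff, Set.mem_singleton_iff] at hx
    rcases hx with rfl | rfl | rfl | rfl | rfl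
    · exact key 0 (by norm_num)
    · exact key 1 (by norm_num)
    · exact key 2 (by norm_num)
    · exact key 3 (by norm_num)
    · exact key 4 (by norm_num)
  obtain ⟨y, -, hy, -⟩ := S.l2 _ _ fQ f1 hle
  have hstep : ∀ i ≤ 4, (y * k0) * g i * (y * k0)⁻¹ = g (i + 1) := by
    intro i hi
    obtain ⟨e1, e2⟩ := hy (κ (g i)) ⟨g i, m0 i hi, rfl⟩
    have e3 : (y * k0) * g i * (y * k0)⁻¹ = y * κ (g i) * y⁻¹ := by rw [hκ]; group
    rw [e3]
    refine inj S f1 e1 (m1 i hi) ?_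
    rw [e2, hk i hi, hκ, map_mul, map_mul, map_inv]
  have hcj : ∀ i ≤ 5, cj (y * k0) i (g 0) = g i := by
    intro i hi
    induction i with
    | zero => exact cj_zero _ _
    | succ i ih => rw [cj_succ, ih (by omega), hstep i (by omega)]
  have := S.old.chn (g 0) (y * k0) h0 ⟨P, hP, fun i hi => by rw [hcj i hi]; exact hg i hi⟩
  rwa [hcj 1 (by norm_num), hcj 2 (by norm_num), hcj 3 (by norm_num)] at this

theorem map_inf {Q : Subgroup G} {M R : Subgroup Gb} (hQ : Q.map φ = R) (hM : M ≤ R) :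
    (Q ⊓ M.comap φ).map φ = M := by
  apply le_antisymm
  · rintro _ ⟨x, hx, rfl⟩
    exact hx.2
  · intro μ hμ
    have := hM hμ
    rw [← hQ] at this
    obtain ⟨x, hx, rfl⟩ := this
    exact ⟨x, ⟨hx, hμ⟩, rfl⟩

theorem fin_inf {Q : Subgroup G} (hQ : Finite Q) (R : Subgroup G) :
    Finite (Q ⊓ R : Subgroup G) :=
  Finite.of_injective _ (Subgroup.inclusion_injective (inf_le_left : Q ⊓ R ≤ Q))

theorem pair (S : AlgS π φ πb H) (M : Subgroup Gb) (s t : Gb)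
    (hs : ∀ μ ∈ M, s * μ * s⁻¹ ∈ M) (ht : ∀ μ ∈ M, t * μ * t⁻¹ ∈ M) (hs2 : s ^ 2 ∈ M)
    (ht2 : t ^ 2 ∈ M) (ls : ∃ Q : Subgroup G, Finite Q ∧ Q.map φ = M ⊔ Subgroup.zpowers s)
    (lt : ∃ Q : Subgroup G, Finite Q ∧ Q.map φ = M ⊔ Subgroup.zpowers t) :
    ∃ (M' : Subgroup G) (s' t' : G) (y : Gb), Finite M' ∧ M'.map φ = M ∧ φ s' = s ∧
      φ t' = y * t * y⁻¹ ∧ πb y = 1 ∧ (∀ μ ∈ M, Commute y μ) ∧
      (∀ μ ∈ M', s' * μ * s'⁻¹ ∈ M') ∧ (∀ μ ∈ M', t' * μ * t'⁻¹ ∈ M') ∧ s' ^ 2 ∈ M' ∧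
      t' ^ 2 ∈ M' := by
  obtain ⟨Qs, fs, es⟩ := ls
  obtain ⟨Qt, ft, et⟩ := lt
  have ms := map_inf es (le_sup_left : M ≤ _)
  have mt := map_inf et (le_sup_left : M ≤ _)
  obtain ⟨y, hy1, hy2, -⟩ := S.l2 _ _ (fin_inf ft (M.comap φ)) (fin_inf fs (M.comap φ))
    (by rw [ms, mt])
  have hs' : s ∈ Qs.map φ := by
    rw [es]; exact Subgroup.mem_sup_right (Subgroup.mem_zpowers s)
  have ht' : t ∈ Qt.map φ := by
    rw [et]; exact Subgroup.mem_sup_right (Subgroup.mem_zpowers t)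
  obtain ⟨s', hs', rfl⟩ := hs'
  obtain ⟨t0, ht0, rfl⟩ := ht'
  refine ⟨Qs ⊓ M.comap φ, s', y * t0 * y⁻¹, φ y, fin_inf fs _, ms, rfl, by simp, ?_, ?_, ?_, ?_,
    ?_, ?_⟩
  · rw [S.comp, hy1]
  · intro μ hμ
    rw [← mt] at hμ
    obtain ⟨x, hx, rfl⟩ := hμ
    have := (hy2 x hx).2
    rw [map_mul, map_mul, map_inv, mul_inv_eq_iff_eq_mul] at this
    exact this
  · intro μ hμ
    refine ⟨Qs.mul_mem (Qs.mul_mem hs' hμ.1) (Qs.inv_mem hs'), ?_⟩
    change φ (s' * μ * s'⁻¹) ∈ M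
    rw [map_mul, map_mul, map_inv]
    exact hs _ hμ.2
  · intro μ hμ
    have h1 : φ μ ∈ (Qt ⊓ M.comap φ).map φ := by rw [mt]; exact hμ.2
    obtain ⟨ν, hν, e⟩ := h1
    have h2 : y * ν * y⁻¹ = μ := inj S fs (hy2 ν hν).1.1 hμ.1 (by rw [(hy2 ν hν).2, e])
    have h3 : t0 * ν * t0⁻¹ ∈ Qt ⊓ M.comap φ := by
      refine ⟨Qt.mul_mem (Qt.mul_mem ht0 hν.1) (Qt.inv_mem ht0), ?_⟩
      change φ (t0 * ν * t0⁻¹) ∈ M
      rw [map_mul, map_mul, map_inv]
      exact ht _ hν.2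
    have h4 : y * t0 * y⁻¹ * μ * (y * t0 * y⁻¹)⁻¹ = y * (t0 * ν * t0⁻¹) * y⁻¹ := by
      rw [← h2]; group
    rw [h4]
    exact (hy2 _ h3).1
  · refine ⟨Qs.pow_mem hs' 2, ?_⟩
    change φ (s' ^ 2) ∈ M
    rw [map_pow]; exact hs2
  · have h3 : t0 ^ 2 ∈ Qt ⊓ M.comap φ := by
      refine ⟨Qt.pow_mem ht0 2, ?_⟩
      change φ (t0 ^ 2) ∈ M
      rw [map_pow]; exact ht2
    rw [conj_pow]
    exact (hy2 _ h3).1

theorem repair (hA : AlgA) (hB : AlgB) (S : AlgS π φ πb H) (M : Subgroup Gb) (s : Gb) (c : C)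
    (ε t : G → ℤ) (a : G) (m : ℕ) (hd : ConeData π (stabilizer G c) (H c) ε t a (4 * m))
    (hm : ∀ g ∈ stabilizer G c, g * a ^ m * g⁻¹ = (a ^ m) ^ (ε g))
    (lM : ∃ Q : Subgroup G, Finite Q ∧ Q.map φ = M) (hs : ∀ μ ∈ M, s * μ * s⁻¹ ∈ M)
    (hs2 : s ^ 2 ∈ M) (hle : M ⊔ Subgroup.zpowers s ≤ (stabilizer G c).map φ)
    (hw : ∃ g : G, g • c = c ∧ Wild (H c) g ∧ φ g ∈ M ⊔ Subgroup.zpowers s) :
    (∃ Q : Subgroup G, Finite Q ∧ Q.map φ = M ⊔ Subgroup.zpowers (φ (a ^ (2 * m)) * s)) ∧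
      (∀ x ∈ (stabilizer G c).map φ, Commute (φ (a ^ (2 * m))) x) ∧ φ (a ^ (2 * m)) ^ 2 = 1 ∧
      ∀ g : G, g • c = c → Wild (H c) g → φ g ∈ M ⊔ Subgroup.zpowers s →
        φ g ∉ M ∧ ε g = 1 ∧ ((4 * m : ℕ) : ℤ) ∣ t g - 2 * m := by
  obtain ⟨Q, fQ, eQ⟩ := lM
  have hw' := fun g hg => (hB.coneWild π _ _ ε t a _ hd g hg).1
  have ha2 : a ^ (2 * m) ∈ stabilizer G c := (stabilizer G c).pow_mem hd.mem _
  set z := φ (a ^ (2 * m)) with hz
  have z2 : z ^ 2 = 1 := by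
    rw [hz, ← map_pow, ← pow_mul]
    refine H_ker S c _ ?_
    rw [hd.rot, show 2 * m * 2 = 4 * m by ring]
    exact Subgroup.mem_zpowers _
  have zinv : z⁻¹ = z := by
    rw [inv_eq_iff_mul_eq_one, ← pow_two, z2]
  have zc : ∀ x ∈ (stabilizer G c).map φ, Commute z x := by
    rintro _ ⟨g, hg, rfl⟩
    have h1 := conj_pow_mul (hm g hg) 2
    rw [← pow_mul, mul_comm m 2] at h1
    have h2 : φ g * z * (φ g)⁻¹ = z := by
      rw [hz, ← map_inv, ← map_mul, ← map_mul, h1]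
      rcases hd.aff.sq g hg with e | e <;> rw [e]
      · rw [zpow_one, ← pow_mul, mul_comm m 2]
      · rw [zpow_neg_one, inv_pow, ← pow_mul, mul_comm m 2, map_inv, ← hz, zinv]
    rw [mul_inv_eq_iff_eq_mul] at h2
    exact h2.symm
  have noM : ∀ g : G, g • c = c → Wild (H c) g → φ g ∉ M := by
    intro g hg hwg hM
    rw [← eQ] at hM
    obtain ⟨g', hg', e⟩ := hM
    exact S.rot2 c g hg hwg g' e (fin_of_mem fQ hg')
  have divM : ∀ g ∈ stabilizer G c, ε g = 1 → φ g ∈ M → ((4 * m : ℕ) : ℤ) ∣ t g := by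
    intro g hg e hM
    by_contra h
    exact noM g hg ((hw' g hg).2 ⟨e, h⟩) hM
  have two := (hA.two M s hs hs2).1
  have wild : ∀ g : G, g • c = c → Wild (H c) g → φ g ∈ M ⊔ Subgroup.zpowers s →
      φ g * s⁻¹ ∈ M ∧ ε g = 1 ∧ ((4 * m : ℕ) : ℤ) ∣ t g - 2 * m := by
    intro g hg hwg hR
    have hg' : g ∈ stabilizer G c := hg
    have h1 := ((two _).1 hR).resolve_left (noM g hg hwg)
    obtain ⟨e, h2⟩ := (hw' g hg').1 hwg
    refine ⟨h1, e, ?_⟩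
    have h3 : φ (g ^ 2) ∈ M := by
      have : φ (g ^ 2) = (φ g * s⁻¹) * (s * (φ g * s⁻¹) * s⁻¹) * s ^ 2 := by
        rw [map_pow, pow_two, pow_two]; group
      rw [this]
      exact M.mul_mem (M.mul_mem h1 (hs _ h1)) hs2
    have h4 := hd.aff.pow_of_e hg' e 2
    have h5 := divM _ ((stabilizer G c).pow_mem hg' 2) h4.1 h3
    rw [h4.2] at h5
    obtain ⟨j, hj⟩ := h5
    push_cast at hj h2 ⊢
    have h6 : t g = 2 * m * j := by linarith
    rcases Int.even_or_odd' j with ⟨i, rfl | rfl⟩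
    · exact absurd ⟨i, by rw [h6]; ring⟩ h2
    · exact ⟨i, by rw [h6]; ring⟩
  refine ⟨?_, zc, z2, fun g hg hwg hR => ⟨noM g hg hwg, (wild g hg hwg hR).2⟩⟩
  have hMle : M ≤ (stabilizer G c).map φ := le_sup_left.trans hle
  have hsle : s ∈ (stabilizer G c).map φ := hle (Subgroup.mem_sup_right (Subgroup.mem_zpowers s))
  have zs := zc s hsle
  have n1 : ∀ μ ∈ M, z * s * μ * (z * s)⁻¹ ∈ M := by
    intro μ hμ
    have h1 := zc _ (hMle (hs μ hμ))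
    have : z * s * μ * (z * s)⁻¹ = z * (s * μ * s⁻¹) * z⁻¹ := by group
    rw [this, h1.eq, mul_inv_cancel_right]
    exact hs μ hμ
  have n2 : (z * s) ^ 2 ∈ M := by
    rw [zs.mul_pow, z2, one_mul]; exact hs2
  have two' := (hA.two M (z * s) n1 n2).1
  obtain ⟨g0, hg0, hw0, hR0⟩ := hw
  obtain ⟨k1, k2, k3⟩ := wild g0 hg0 hw0 hR0
  have hg0' : g0 ∈ stabilizer G c := hg0
  obtain ⟨Q', f1, -, f2⟩ := hB.tame π φ _ _ ε t a _ hd (stab' S c)
    (M ⊔ Subgroup.zpowers (z * s)) (sup_le hMle (Subgroup.zpowers_le.2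
      (Subgroup.mul_mem _ ⟨_, ha2, rfl⟩ hsle))) (by
      intro g hg hR hwg
      have h1 := ((two' _).1 hR).resolve_left (noM g hg hwg)
      obtain ⟨e, h2⟩ := (hw' g hg).1 hwg
      have p1 := hd.aff.pow_of_e hd.mem hd.ea (2 * m)
      have i1 := (stabilizer G c).inv_mem ha2
      have i0 := (stabilizer G c).inv_mem hg0'
      have m1 := (stabilizer G c).mul_mem hg i1
      have hx : φ (g * (a ^ (2 * m))⁻¹ * g0⁻¹) ∈ M := by
        have : φ (g * (a ^ (2 * m))⁻¹ * g0⁻¹) = (φ g * (z * s)⁻¹) * (φ g0 * s⁻¹)⁻¹ := by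
          rw [map_mul, map_mul, map_inv, map_inv, ← hz, zs.eq]; group
        rw [this]
        exact M.mul_mem h1 (M.inv_mem k1)
      have e1 : ε (g * (a ^ (2 * m))⁻¹) = 1 := by
        rw [hd.aff.em _ hg _ i1, hd.aff.e_inv ha2, e, p1.1]; rfl
      have e2 : ε (g * (a ^ (2 * m))⁻¹ * g0⁻¹) = 1 := by
        rw [hd.aff.em _ m1 _ i0, hd.aff.e_inv hg0', e1, k2]; rfl
      have h3 := divM _ ((stabilizer G c).mul_mem m1 i0) e2 hx
      rw [hd.aff.tm _ m1 _ i0, hd.aff.tm _ hg _ i1, hd.aff.t_inv hg0', hd.aff.t_inv ha2, e1, e, k2,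
        p1.1, p1.2, hd.ta] at h3
      apply h2
      obtain ⟨i, hi⟩ := h3
      obtain ⟨j, hj⟩ := k3
      refine ⟨i + j + 1, ?_⟩
      push_cast at hi hj ⊢
      linarith)
  exact ⟨Q', f1, f2⟩

end NewLibAux

theorem newLibStmt : AlgA → AlgB → NewLibStmt := by
  intro hA hB A G C Gb _ _ _ _ π φ πb H S
  exact ⟨NewLibAux.alt hB S, NewLibAux.fix S, NewLibAux.cfin hB S, NewLibAux.claw S,
    NewLibAux.chain S, fun M s t _ => NewLibAux.pair S M s t, NewLibAux.repair hA hB S⟩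

end Pool.Agent.Bu
end
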