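import Pool.Agent.Lib.MP_5bec91_al.Bu.Defs

-- part Pool.Agent.Lib.MP_5bec91_al.Bu.Stmts
section

/-!
Statements of the steps of the construction (proofs: team-store bu_PLAN.md).
Units: `J = 1000 θ`, `T = 10 ^ 10 θ`, new hyperbolicity constant `10 J = 10 ^ 4 θ`.
-/

set_option autoImplicit false

namespace Pool.Agent.Bu

open MulAction

/-! ### Layer H: hyperbolic geometry -/

structure HypLib : Prop where
  /-- distance of two points near a geodesic, `u` before `p` -/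
  dist2 : ∀ {X : Type} (D : PM X) (δ a b : ℕ) (x y u p : X), D.Hyp δ → D.Btw a x u y →
    D.Btw b x p y → D.d x u + D.d p y ≤ D.d x p + D.d u y →
    2 * D.d u p + D.d x u + D.d p y ≤ D.d x p + D.d u y + a + b + 2 * δ
  /-- three points near a geodesic, in the order `u, p, v` -/
  align : ∀ {X : Type} (D : PM X) (δ a b : ℕ) (x y u v p : X), D.Hyp δ → D.Btw b x u y →
    D.Btw b x v y → D.Btw a x p y → D.d x u + D.d p y ≤ D.d x p + D.d u y →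
    D.d x p + D.d v y ≤ D.d x v + D.d p y → D.Btw (a + b + 2 * δ) u p v
  near : ∀ {X : Type} (D : PM X) (δ a : ℕ) (u v p : X), 1 ≤ δ → D.Hyp δ → D.Geo δ →
    D.Btw a u p v → ∃ z, D.d u z + D.d z v = D.d u v ∧ 2 * D.d z p ≤ a + 5 * δ
  /-- fellow travelling from a common origin -/
  fellow : ∀ {X : Type} (D : PM X) (δ a b : ℕ) (x y z p q : X), D.Hyp δ → D.Btw a x p y →
    D.Btw b x q z → D.d p q + D.d x p ≤ D.d x q + a + 2 * δ ∨
      D.d p q + D.d x q ≤ D.d x p + b + 2 * δ ∨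
      D.d p q + D.d x y + D.d x z ≤ D.d x p + D.d x q + D.d y z + 2 * δ
  conv : ∀ {G X : Type} [Group G] [MulAction G X] (D : PM X) (δ a R : ℕ) (g : G) (x y z : X),
    D.Iso G → D.Hyp δ → D.Btw a x z y → D.d x (g • x) ≤ R → D.d y (g • y) ≤ R →
    D.d z (g • z) ≤ R + a + δ
  center : ∀ {G X : Type} [Group G] [MulAction G X] (D : PM X) (δ : ℕ) (Q : Subgroup G),
    Geom G D δ → Finite Q → ∀ b R, (∀ g ∈ Q, D.d b (g • b) ≤ R) →
    ∃ x, D.d x b ≤ R ∧ ∀ g ∈ Q, D.d x (g • x) ≤ 7 * δ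
  center0 : ∀ {G X : Type} [Group G] [MulAction G X] (D : PM X) (δ : ℕ) (Q : Subgroup G),
    Geom G D δ → Finite Q → ∃ x, ∀ g ∈ Q, D.d x (g • x) ≤ 7 * δ
  chain : ∀ {X : Type} (D : PM X) (δ a L : ℕ) (x : ℕ → X), D.Hyp δ →
    (∀ i, D.Btw a (x i) (x (i + 1)) (x (i + 2))) → (∀ i, L ≤ D.d (x i) (x (i + 1))) →
    2 * a + 3 * δ < 2 * L →
    (∀ k, k * L ≤ D.d (x 0) (x k) + k * (a + δ)) ∧
      ∀ i j l, i ≤ j → j ≤ l → D.Btw (a + 2 * δ) (x i) (x j) (x l)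
  /-- chain lemma for an orbit -/
  chainO : ∀ {G X : Type} [Group G] [MulAction G X] (D : PM X) (δ a : ℕ) (h : G) (b : X),
    D.Iso G → D.Hyp δ → D.Btw a (h⁻¹ • b) b (h • b) → 2 * a + 3 * δ < 2 * D.d b (h • b) →
    ¬ IsOfFinOrder h ∧ (∀ k : ℕ, k ≤ D.d b (h ^ k • b)) ∧
      (∀ k : ℕ, k * D.d b (h • b) ≤ D.d b (h ^ k • b) + k * (a + δ)) ∧
      ∀ i j l : ℤ, i ≤ j → j ≤ l → D.Btw (a + 2 * δ) (h ^ i • b) (h ^ j • b) (h ^ l • b)
  /-- multiples trick -/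
  mult : ∀ {G X : Type} [Group G] [MulAction G X] (D : PM X) (g : G) (z : X) (u v w : ℕ),
    D.Iso G → (∀ k : ℕ, k * u ≤ v * D.d z (g ^ k • z) + w) →
    ∀ x (k : ℕ), k * u ≤ v * D.d x (g ^ k • x)
  loxA : ∀ {G X : Type} [Group G] [MulAction G X] (D : PM X) (δ : ℕ) (g : G), Geom G D δ →
    (∀ x, 20 * δ ≤ D.d x (g • x)) →
    (∀ x (k : ℕ), k * δ ≤ D.d x (g ^ k • x)) ∧ ∃ b, D.Btw (2 * δ) (g⁻¹ • b) b (g • b)
  /-- no Baumslag-Solitar relations -/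
  bs : ∀ {G X : Type} [Group G] [MulAction G X] (D : PM X) (δ : ℕ), Geom G D δ → Lox G D δ →
    ∀ (g a : G) (i j : ℤ), ¬ IsOfFinOrder a → i ≠ 0 → g * a ^ i * g⁻¹ = a ^ j →
    (j = i ∨ j = -i) ∧ g ∈ E a
  thin : ∀ {X : Type} (D : PM X) (τ γ : ℕ), D.Thin τ → D.Geo γ → D.Hyp (3 * τ + 2 * γ + 1)

/-- Shifts along a long segment; no geodesicity, `δ = 0` allowed. -/
structure ShiftLib : Prop where
  comm : ∀ {G X : Type} [Group G] [MulAction G X] (D : PM X) (δ R : ℕ) (s h : G) (x y b : X),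
    D.Iso G → D.Hyp δ → D.d x (s • x) ≤ R → D.d y (s • y) ≤ R → D.d x (h • x) ≤ R →
    D.d y (h • y) ≤ R → D.Btw 0 x b y → 10 * R + 10 * δ < D.d x b → 10 * R + 10 * δ < D.d b y →
    ∀ i ≤ 5, D.d b (cj h i (s * h * s⁻¹ * h⁻¹) • b) ≤ 20 * δ
  small : ∀ {G X : Type} [Group G] [MulAction G X] (D : PM X) (δ R : ℕ) (h : G) (x y b b' : X),
    D.Iso G → D.Hyp δ → D.d x (h • x) ≤ R → D.d y (h • y) ≤ R →
    D.Btw 0 x b y → 10 * R + 10 * δ < D.d x b → 10 * R + 10 * δ < D.d b y →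
    D.Btw 0 x b' y → 10 * R + 10 * δ < D.d x b' → 10 * R + 10 * δ < D.d b' y →
    D.d b' (h • b') ≤ D.d b (h • b) + 10 * δ
  big : ∀ {G X : Type} [Group G] [MulAction G X] (D : PM X) (δ R : ℕ) (h : G) (x y b : X),
    D.Iso G → D.Hyp δ → D.d x (h • x) ≤ R → D.d y (h • y) ≤ R →
    D.Btw 0 x b y → 10 * R + 10 * δ < D.d x b → 10 * R + 10 * δ < D.d b y →
    20 * δ < D.d b (h • b) → D.Btw (12 * δ) (h⁻¹ • b) b (h • b)

/-- Coarse axes. The first five items allow `δ = 0`. -/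
structure LineLib : Prop where
  mem : ∀ {G X : Type} [Group G] [MulAction G X] (D : PM X) (δ : ℕ) (h : G) (m : ℕ) (b : X),
    D.Iso G → D.Hyp δ → 0 < m → D.Btw (2 * δ) ((h ^ m)⁻¹ • b) b (h ^ m • b) →
    4 * δ < D.d b (h ^ m • b) → b ∈ D.Ln δ h
  comm : ∀ {G X : Type} [Group G] [MulAction G X] (D : PM X) (δ : ℕ) (h h' : G) (i j : ℤ),
    i ≠ 0 → j ≠ 0 → h ^ i = h' ^ j → D.Ln δ h = D.Ln δ h'
  conj : ∀ {G X : Type} [Group G] [MulAction G X] (D : PM X) (δ : ℕ) (g h : G) (b : X),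
    D.Iso G → b ∈ D.Ln δ h → g • b ∈ D.Ln δ (g * h * g⁻¹)
  inv : ∀ {G X : Type} [Group G] [MulAction G X] (D : PM X) (δ : ℕ) (g h : G) (b : X),
    D.Iso G → g ∈ E h → b ∈ D.Ln δ h → g • b ∈ D.Ln δ h
  disp : ∀ {G X : Type} [Group G] [MulAction G X] (D : PM X) (δ : ℕ) (g h : G) (b x : X),
    D.Iso G → D.Hyp δ → g ∈ Ep h → b ∈ D.Ln δ h → D.d b (g • b) ≤ D.d x (g • x) + 7 * δ
  ivt : ∀ {G X : Type} [Group G] [MulAction G X] (D : PM X) (δ : ℕ) (a g h : G) (b : X),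
    D.Iso G → D.Hyp δ → a ∈ E h → g ∈ E h → b ∈ D.Ln δ h →
    (∀ R : ℕ, ∃ j0 : ℕ, ∀ j : ℕ, j0 ≤ j → R ≤ D.d b (a ^ j • b)) →
    ∃ j : ℤ, 2 * D.d b ((a ^ j * g) • b) ≤ D.d b (a • b) + 14 * δ
  ne : ∀ {G X : Type} [Group G] [MulAction G X] (D : PM X) (δ : ℕ) (h : G), Geom G D δ →
    Lox G D δ → ¬ IsOfFinOrder h → (D.Ln δ h).Nonempty
  gated : ∀ {G X : Type} [Group G] [MulAction G X] (D : PM X) (δ : ℕ) (h : G), Geom G D δ →
    Lox G D δ → ¬ IsOfFinOrder h → ∀ x p b, D.Pr (D.Ln δ h) x p → b ∈ D.Ln δ h →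
    D.Btw (60 * δ) x p b

/-! ### Layer A: algebra of elementary groups -/

structure AlgA : Prop where
  map : ∀ {G G' : Type} [Group G] [Group G'] (φ : G →* G') (P : Subgroup G), Elem P →
    Elem (P.map φ)
  cyc : ∀ {G : Type} [Group G] (M : Subgroup G) (a : G), Finite M →
    (∀ μ ∈ M, a * μ * a⁻¹ ∈ M) → Elem (M ⊔ Subgroup.zpowers a)
  dih : ∀ {G : Type} [Group G] (M : Subgroup G) (s t : G), Finite M →
    (∀ μ ∈ M, s * μ * s⁻¹ ∈ M) → (∀ μ ∈ M, t * μ * t⁻¹ ∈ M) → s ^ 2 ∈ M → t ^ 2 ∈ M →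
    Elem (M ⊔ Subgroup.closure {s, t})
  dec : ∀ {G : Type} [Group G] (P : Subgroup G) (ε t : G → ℤ) (h : Aff P ε t),
    (∃ a ∈ P, P = h.ker ⊔ Subgroup.zpowers a) ∨
      ∃ s ∈ P, ∃ s' ∈ P, s ^ 2 ∈ h.ker ∧ s' ^ 2 ∈ h.ker ∧ P = h.ker ⊔ Subgroup.closure {s, s'}
  tors : ∀ {G : Type} [Group G] (P : Subgroup G), Elem P → (∀ g ∈ P, IsOfFinOrder g) → Finite P
  comm : ∀ {G : Type} [Group G] (P : Subgroup G), Elem P → ∀ u ∈ P, ∀ v ∈ P,
    ¬ IsOfFinOrder u → ¬ IsOfFinOrder v → ∃ i j : ℤ, i ≠ 0 ∧ j ≠ 0 ∧ u ^ i = v ^ j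
  leE : ∀ {G : Type} [Group G] (P : Subgroup G), Elem P → ∀ v ∈ P, ¬ IsOfFinOrder v → P ≤ E v
  eqE : ∀ {G : Type} [Group G] (u v : G) (i j : ℤ), i ≠ 0 → j ≠ 0 → u ^ i = v ^ j →
    E u = E v ∧ Ep u = Ep v
  norm : ∀ {G : Type} [Group G] (P : Subgroup G), Elem P → (∃ v ∈ P, ¬ IsOfFinOrder v) →
    ∃ ε t a, Aff P ε t ∧ a ∈ P ∧ ε a = 1 ∧ t a = 1
  epE : ∀ {G : Type} [Group G] (h : G), ¬ IsOfFinOrder h → Elem (Ep h) → Elem (E h)
  /-- one-sided normalisation of a finite subgroup is two-sided -/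
  nrm : ∀ {G : Type} [Group G] (M : Subgroup G) (g : G), Finite M →
    (∀ μ ∈ M, g * μ * g⁻¹ ∈ M) → ∀ μ ∈ M, g⁻¹ * μ * g ∈ M
  pw : ∀ {G : Type} [Group G] (M : Subgroup G) (h : G), Finite M →
    (∀ μ ∈ M, h * μ * h⁻¹ ∈ M) → ∃ m : ℕ, 0 < m ∧
      ∀ μ ∈ M, Commute (h ^ m) μ ∧ (μ * h) ^ m = h ^ m
  /-- a subgroup of the form `M ∪ M s` is finite -/
  two : ∀ {G : Type} [Group G] (M : Subgroup G) (s : G), (∀ μ ∈ M, s * μ * s⁻¹ ∈ M) →
    s ^ 2 ∈ M → (∀ g, g ∈ M ⊔ Subgroup.zpowers s ↔ g ∈ M ∨ g * s⁻¹ ∈ M) ∧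
      (Finite M → Finite (M ⊔ Subgroup.zpowers s : Subgroup G))

structure AlgB : Prop where
  law1 : ∀ {G : Type} [Group G] (M : Subgroup G) (a : G), (∀ μ ∈ M, a * μ * a⁻¹ ∈ M) →
    (∀ μ ∈ M, a⁻¹ * μ * a ∈ M) → ∀ x ∈ M ⊔ Subgroup.zpowers a, ∀ y ∈ M ⊔ Subgroup.zpowers a,
    x * y * x⁻¹ * y⁻¹ ∈ M
  law2 : ∀ {G : Type} [Group G] (M : Subgroup G) (s t : G), (∀ μ ∈ M, s * μ * s⁻¹ ∈ M) →
    (∀ μ ∈ M, t * μ * t⁻¹ ∈ M) → s ^ 2 ∈ M → t ^ 2 ∈ M →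
    ∀ x ∈ M ⊔ Subgroup.closure {s, t}, ∀ y ∈ M ⊔ Subgroup.closure {s, t},
    x ^ 2 * y ^ 2 * (x ^ 2)⁻¹ * (y ^ 2)⁻¹ ∈ M
  /-- transfer of the law, cyclic type -/
  tr1 : ∀ {G : Type} [Group G] (M : Subgroup G) (a a' : G), Finite M →
    (∀ μ ∈ M, a * μ * a⁻¹ ∈ M) → (∀ μ ∈ M, a' * μ * a'⁻¹ = a * μ * a⁻¹) →
    SqC (M ⊔ Subgroup.zpowers a') → SqC (M ⊔ Subgroup.zpowers a)
  /-- transfer of the law, dihedral type -/
  tr2 : ∀ {G : Type} [Group G] (M : Subgroup G) (s t s' t' : G),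
    (∀ μ ∈ M, s * μ * s⁻¹ ∈ M) → (∀ μ ∈ M, t * μ * t⁻¹ ∈ M) → s ^ 2 ∈ M → t ^ 2 ∈ M →
    (∀ μ ∈ M, s' * μ * s'⁻¹ = s * μ * s⁻¹) → (∀ μ ∈ M, t' * μ * t'⁻¹ = t * μ * t⁻¹) →
    s' ^ 2 = s ^ 2 → t' ^ 2 = t ^ 2 →
    SqC (M ⊔ Subgroup.closure {s', t'}) → SqC (M ⊔ Subgroup.closure {s, t})
  chA : ∀ {G : Type} [Group G] (P : Subgroup G), SqC P → ∀ g ∈ P, ∀ h ∈ P,
    g ∈ Subgroup.closure {cj h 1 g, cj h 2 g, cj h 3 g}
  /-- consequence of the chain property -/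
  chN : ∀ {G : Type} [Group G] (g h : G), g ∈ Subgroup.closure {cj h 1 g, cj h 2 g, cj h 3 g} →
    (∀ μ ∈ Subgroup.closure {g, cj h 1 g, cj h 2 g},
      h⁻¹ * μ * h ∈ Subgroup.closure {g, cj h 1 g, cj h 2 g}) ∧
    (Finite (Subgroup.closure {g, cj h 1 g, cj h 2 g}) →
      ∃ m : ℕ, 0 < m ∧ Commute (h ^ m) g ∧ (g * h) ^ m = h ^ m)
  dich : ∀ {A G : Type} [CommGroup A] [Group G] (π : G →* A), AOK A → NK π → Mal π →
    ∀ (P : Subgroup G) (ε t : G → ℤ) (a : G), Aff P ε t → a ∈ P → ε a = 1 → t a = 1 →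
    P ≤ π.ker ∨ (P = Subgroup.zpowers a ∧ π a ≠ 1)
  elemLaw : ∀ {A G : Type} [CommGroup A] [Group G] (π : G →* A), AOK A → NK π → Mal π →
    Law π → ∀ P : Subgroup G, Elem P → (∃ v ∈ P, ¬ IsOfFinOrder v) → SqC P
  coneEx : ∀ {A G : Type} [CommGroup A] [Group G] (π : G →* A), AOK A → AInv π →
    ∀ P : Subgroup G, Elem P → (∃ v ∈ P, ¬ IsOfFinOrder v) →
    ∃ ε t a n, ConeData π P (Subgroup.zpowers (a ^ n)) ε t a n
  coneConj : ∀ {A G : Type} [CommGroup A] [Group G] (π : G →* A) (P H P' H' : Subgroup G)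
    (ε t : G → ℤ) (a : G) (n : ℕ) (g : G), ConeData π P H ε t a n →
    (∀ x, x ∈ P' ↔ g⁻¹ * x * g ∈ P) → (∀ x, x ∈ H' ↔ g⁻¹ * x * g ∈ H) →
    ConeData π P' H' (fun x => ε (g⁻¹ * x * g)) (fun x => t (g⁻¹ * x * g)) (g * a * g⁻¹) n
  coneWild : ∀ {A G : Type} [CommGroup A] [Group G] (π : G →* A) (P H : Subgroup G)
    (ε t : G → ℤ) (a : G) (n : ℕ), ConeData π P H ε t a n → ∀ g ∈ P,
    (Wild H g ↔ ε g = 1 ∧ ¬ (n : ℤ) ∣ t g) ∧ (Wild H g → π g = 1 → P ≤ π.ker)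
  coneFin : ∀ {A G G' : Type} [CommGroup A] [Group G] [Group G'] (π : G →* A) (φ : G →* G')
    (P H : Subgroup G) (ε t : G → ℤ) (a : G) (n : ℕ), ConeData π P H ε t a n →
    (∀ h ∈ H, φ h = 1) → Finite (P.map φ)
  /-- a subgroup of the image of a cone stabilizer without wild elements lifts -/
  tame : ∀ {A G G' : Type} [CommGroup A] [Group G] [Group G'] (π : G →* A) (φ : G →* G')
    (P H : Subgroup G) (ε t : G → ℤ) (a : G) (n : ℕ), ConeData π P H ε t a n →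
    (∀ g ∈ P, φ g = 1 ↔ g ∈ H) → ∀ Q : Subgroup G', Q ≤ P.map φ →
    (∀ g ∈ P, φ g ∈ Q → ¬ Wild H g) → ∃ Q' : Subgroup G, Finite Q' ∧ Q' ≤ P ∧ Q'.map φ = Q

def StStmt : Prop :=
  ∀ {G X : Type} [Group G] [MulAction G X] (D : PM X) (δ : ℕ), Geom G D δ → Lox G D δ →
    P1 G D δ → St G

def P1DStmt : Prop :=
  ∀ {A G X : Type} [CommGroup A] [Group G] [MulAction G X] (π : G →* A) (D : PM X) (δ : ℕ),
    Inv π D δ → P1D G D (2 * 10 ^ 7 * δ)

/-- Geometry of the cones of a level (`θ = 10 ^ 8 δ`). -/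
structure ConeGeo (G : Type) {X C : Type} [Group G] [MulAction G X] [MulAction G C] (D : PM X)
    (δ : ℕ) (Y : C → Set X) : Prop where
  ne : ∀ c, (Y c).Nonempty
  Yeq : ∀ (g : G) c x, x ∈ Y c → g • x ∈ Y (g • c)
  gate : ∀ c x p x' p', D.Pr (Y c) x p → D.Pr (Y c) x' p' →
    D.d p p' ≤ 10 ^ 8 * δ ∨ D.d x p + D.d p p' + D.d p' x' ≤ D.d x x' + 10 ^ 8 * δ
  ovl : ∀ c c' x x', c ≠ c' → x ∈ Y c' → x' ∈ Y c' → D.ang (Y c) x x' ≤ 10 ^ 8 * δ
  behr : ∀ c c' x y y', c ≠ c' → y ∈ Y c → y' ∈ Y c' →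
    D.ang (Y c) x y' ≤ 10 ^ 8 * δ ∨ D.ang (Y c') x y ≤ 10 ^ 8 * δ
  elem : ∀ c : C, Elem (stabilizer G c) ∧ ∃ h ∈ stabilizer G c, ¬ IsOfFinOrder h
  mov : ∀ c ε t, Aff (stabilizer G c) ε t → ∀ g ∈ stabilizer G c, ε g = 1 → t g = 0 →
    ∀ b ∈ Y c, D.d b (g • b) ≤ 10 ^ 8 * δ
  far : ∀ c ε t a, Aff (stabilizer G c) ε t → a ∈ stabilizer G c → ε a = 1 → t a = 1 →
    ∀ g ∈ stabilizer G c, ε g = 1 → (n0 : ℤ) ≤ 3 * |t g| → ∀ b ∈ Y c,
    10 ^ 10 * (10 ^ 8 * δ) ≤ D.d b (g • b)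
  over2 : ∀ c (g : G) z z' R, D.d z (g • z) ≤ R → D.d z' (g • z') ≤ R →
    30 * R + 100 * (10 ^ 8 * δ) ≤ D.ang (Y c) z z' → g • c = c
  short : ∀ (g : G) x, ¬ IsOfFinOrder g → D.d x (g • x) ≤ 21 * δ → ∃ c : C, g • c = c

def ConesStmt : Prop :=
  ∀ {A G X : Type} [CommGroup A] [Group G] [MulAction G X] (π : G →* A) (D : PM X) (δ : ℕ),
    Inv π D δ → ∃ (C : Type) (_ : MulAction G C) (Y : C → Set X), ConeGeo G D δ Y

/-! ### Layer W: windmill, electric metric, lifting -/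

def WindStmt : Prop :=
  ∀ {G X C : Type} [Group G] [MulAction G X] [MulAction G C] (S : CS G X C), S.Gr

structure Elec {G X C : Type} [Group G] [MulAction G X] [MulAction G C] (S : CS G X C) :
    Prop where
  st : ∀ c x y a b, S.EJ c x y a b → S.ang c x a ≤ 2 * S.θ ∧ S.ang c b y ≤ 2 * S.θ ∧
    1000 * S.θ ≤ S.d a b ∧ S.d x a + S.d a b + S.d b y ≤ S.d x y + 9 * S.θ
  f1 : ∀ c x y, 2000 * S.θ ≤ S.ang c x y → ∃ a b, S.EJ c x y a b
  ent : ∀ c x a, a ∈ S.Y c → (∀ a' ∈ S.Y c, S.dh x a ≤ S.dh x a') → S.ang c x a ≤ 40 * S.θ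
  dist : ∀ x y m, 1 ≤ m → (∀ c, S.ang c x y + 4 * S.θ ≤ m * (1000 * S.θ)) →
    S.d x y ≤ m * S.dh x y
  geo : S.Dh.Geo (1000 * S.θ)
  thin : S.Dh.Thin (2040 * S.θ)

def ElecStmt : Prop :=
  ∀ {G X C : Type} [Group G] [MulAction G X] [MulAction G C] (S : CS G X C), Elec S

structure LiftLib {G X C Gb Xb : Type} [Group G] [MulAction G X] [MulAction G C]
    [Group Gb] [MulAction Gb Xb] (S : QS G X C Gb Xb) : Prop where
  small : ∀ y, ∀ n ∈ S.N, (∀ c, 10 * S.ang c y (n • y) ≤ 9 * 10 ^ 10 * S.θ) → n = 1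
  stab : ∀ c b, ∀ n ∈ S.N, b ∈ S.Y c → n • b ∈ S.Y c → n ∈ S.H c
  uniq : ∀ c p p', ∀ n ∈ S.N, p ∈ S.Y c → p' ∈ S.Y (n • c) →
    (∀ e, 3 * S.ang e p p' ≤ 10 ^ 10 * S.θ) → n • c = c
  tf : ∀ n ∈ S.N, IsOfFinOrder n → n = 1
  ec : ∀ x y, (∀ c, 2 * S.ang c x y ≤ 10 ^ 10 * S.θ) → S.Exact x y
  /-- lifting of closed polygons; edge `i` is exact (`none`) or lies in a cone (`some c`) -/
  lift : ∀ (k : ℕ) (y : ℕ → X) (e : ℕ → Option C), k ≤ 8 →
    (∀ i < k, e i = none → S.Exact (y i) (y (i + 1))) →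
    (∀ i < k, ∀ c, e i = some c → y i ∈ S.Y c ∧ y (i + 1) ∈ S.Y c) →
    S.q (y k) = S.q (y 0) →
    ∃ n : ℕ → G, (∀ i, n i ∈ S.N) ∧ n 0 = 1 ∧ n k • y k = y 0 ∧
      (∀ i < k, e i = none → S.Exact (n i • y i) (n (i + 1) • y (i + 1))) ∧
      (∀ i < k, ∀ c, e i = some c → (n i)⁻¹ * n (i + 1) ∈ S.H c)

def LiftStmt : Prop :=
  ∀ {G X C Gb Xb : Type} [Group G] [MulAction G X] [MulAction G C] [Group Gb] [MulAction Gb Xb]
    (S : QS G X C Gb Xb), S.Gr → Elec S.toCS → LiftLib S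

/-- Geometry of the quotient. -/
structure QGeo {G X C Gb Xb : Type} [Group G] [MulAction G X] [MulAction G C]
    [Group Gb] [MulAction Gb Xb] (S : QS G X C Gb Xb) : Prop where
  geom : Geom Gb S.Db (10 ^ 4 * S.θ)
  q0 : ∀ c u p p', S.Pi c u p → S.Pi c u p' → ∃ h ∈ S.H c, S.d p (h • p') ≤ 100 * S.θ
  q1 : ∀ c u v w, S.qang c u w ≤ S.qang c u v + S.qang c v w + 100 * S.θ
  q2 : ∀ c u v, 3000 * S.θ ≤ S.qang c u v → S.db u v = S.r c u + 1000 * S.θ + S.r c v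
  q3 : ∀ c x y a b, S.Exact x y → S.EJ c x y a b → S.Pi c (S.q x) a ∧ S.Pi c (S.q y) b ∧
    S.r c (S.q x) = S.dh x a ∧ S.r c (S.q y) = S.dh b y
  q4 : ∀ c c' x y, ¬ S.Sim c c' → x ∈ S.Y c' → y ∈ S.Y c' →
    S.qang c (S.q x) (S.q y) ≤ 100 * S.θ
  q5 : ∀ c u v, S.db u v < 1000 * S.θ → S.qang c u v ≤ S.db u v + 100 * S.θ
  q7 : ∀ c c' u y, ¬ S.Sim c c' → y ∈ S.Y c' → 4000 * S.θ ≤ S.qang c u (S.q y) →
    ∃ p ∈ S.Y c', S.r c' u = S.r c u + 1000 * S.θ + S.r c (S.q p)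
  sep : ∀ c c' u v, ¬ S.Sim c c' → 9000 * S.θ ≤ S.qang c u v → 3000 * S.θ ≤ S.qang c' u v →
    S.r c u + 1000 * S.θ ≤ S.r c' u ∨ S.r c' u + 1000 * S.θ ≤ S.r c u
  /-- tight lifts -/
  sl : ∀ x v, ∃ y, S.q y = v ∧ S.Exact x y ∧
    ∀ c, S.ang c x y ≤ 2000 * S.θ ∨ S.ang c x y ≤ S.qang c (S.q x) v + 300 * S.θ

def QGeoStmt : Prop :=
  ∀ {G X C Gb Xb : Type} [Group G] [MulAction G X] [MulAction G C] [Group Gb] [MulAction Gb Xb]
    (S : QS G X C Gb Xb), Elec S.toCS → LiftLib S → QGeo S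

/-! ### Layer L: the new level -/

section
variable {A G X C Gb Xb : Type} [CommGroup A] [Group G] [MulAction G X] [MulAction G C]
  [Group Gb] [MulAction Gb Xb]

def L1 (S : QS G X C Gb Xb) : Prop :=
  ∀ P : Subgroup Gb, Finite P →
    (∃ Q : Subgroup G, Finite Q ∧ Q.map S.φ = P) ∨ ∃ c : C, P ≤ (stabilizer G c).map S.φ

def Rot (S : QS G X C Gb Xb) : Prop :=
  ∀ c (g : G), g • c = c → Wild (S.H c) g →
    (∀ (c' : C) (g' : G), g' • c' = c' → S.φ g' = S.φ g → S.Sim c c') ∧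
      ∀ g', S.φ g' = S.φ g → ¬ IsOfFinOrder g'

def L2 (S : FS A G X C Gb Xb) : Prop :=
  ∀ Q Q' : Subgroup G, Finite Q → Finite Q' → Q.map S.φ ≤ Q'.map S.φ →
    ∃ y, S.π y = 1 ∧ (∀ g ∈ Q, y * g * y⁻¹ ∈ Q' ∧ S.φ (y * g * y⁻¹) = S.φ g) ∧
      (Q ⊓ S.π.ker = ⊥ → S.φ y = 1)

/-- An element turning by a large angle at an apex. -/
def QAxis (S : QS G X C Gb Xb) : Prop :=
  ∀ (h : G) (c : C) (u v : X), ¬ S.Sim c (h • c) → u ∈ S.Y (h⁻¹ • c) → v ∈ S.Y (h • c) →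
    25000 * S.θ ≤ S.qang c (S.q u) (S.q v) →
    (∀ (x : Xb) (k : ℕ), k * (1000 * S.θ) ≤ S.db x (S.φ h ^ k • x)) ∧
      (Finite ((stabilizer G c).map S.φ) → Elem (Ep (S.φ h)))

end

def L1Stmt : Prop :=
  ∀ {G X C Gb Xb : Type} [Group G] [MulAction G X] [MulAction G C] [Group Gb] [MulAction Gb Xb]
    (S : QS G X C Gb Xb), LiftLib S → QGeo S → L1 S

def RotStmt : Prop :=
  ∀ {A G X C Gb Xb : Type} [CommGroup A] [Group G] [MulAction G X] [MulAction G C] [Group Gb]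
    [MulAction Gb Xb] (S : FS A G X C Gb Xb), QGeo S.toQS → Rot S.toQS

def L2Stmt : Prop :=
  ∀ {A G X C Gb Xb : Type} [CommGroup A] [Group G] [MulAction G X] [MulAction G C] [Group Gb]
    [MulAction Gb Xb] (S : FS A G X C Gb Xb), Elec S.toCS → LiftLib S.toQS → QGeo S.toQS → L2 S

def QAxisStmt : Prop :=
  ∀ {G X C Gb Xb : Type} [Group G] [MulAction G X] [MulAction G C] [Group Gb] [MulAction Gb Xb]
    (S : QS G X C Gb Xb), QGeo S → QAxis S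

def L3Stmt : Prop :=
  ∀ {A G X C Gb Xb : Type} [CommGroup A] [Group G] [MulAction G X] [MulAction G C] [Group Gb]
    [MulAction Gb Xb] (S : FS A G X C Gb Xb), Elec S.toCS → LiftLib S.toQS → QGeo S.toQS →
    QAxis S.toQS → Lox Gb S.Db (10 ^ 4 * S.θ)

def L4Stmt : Prop :=
  ∀ {A G X C Gb Xb : Type} [CommGroup A] [Group G] [MulAction G X] [MulAction G C] [Group Gb]
    [MulAction Gb Xb] (S : FS A G X C Gb Xb), Elec S.toCS → LiftLib S.toQS → QGeo S.toQS →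
    QAxis S.toQS → ChFin S.πb → P1 Gb S.Db (10 ^ 4 * S.θ)

/-- Algebraic tools in the setting of the step. -/
structure NewLib {A G C Gb : Type} [CommGroup A] [Group G] [MulAction G C] [Group Gb]
    (π : G →* A) (φ : G →* Gb) (πb : Gb →* A) (H : C → Subgroup G) : Prop where
  /-- a finite subgroup lifts or contains a wild element -/
  alt : ∀ P : Subgroup Gb, Finite P → (∃ Q : Subgroup G, Finite Q ∧ Q.map φ = P) ∨
    ∃ c : C, P ≤ (stabilizer G c).map φ ∧ ∃ g : G, g • c = c ∧ Wild (H c) g ∧ φ g ∈ P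
  /-- conjugating a wild element into the same cone group -/
  fix : ∀ (c : C) (g : G), g • c = c → Wild (H c) g → ∀ k : Gb,
    k * φ g * k⁻¹ ∈ (stabilizer G c).map φ → k ∈ (stabilizer G c).map φ
  cfin : ∀ c : C, Finite ((stabilizer G c).map φ)
  claw : ∀ c : C, SqC ((stabilizer G c).map φ)
  /-- lifting a chain -/
  chain : ∀ (g : ℕ → G) (k : Gb) (P : Subgroup G), Elem P → (∀ i ≤ 5, g i ∈ P) → π (g 0) = 1 →
    (∀ i ≤ 4, φ (g (i + 1)) = k * φ (g i) * k⁻¹) →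
    Finite (Subgroup.closure {g 0, g 1, g 2, g 3, g 4}) →
    Finite (Subgroup.closure {g 1, g 2, g 3, g 4, g 5}) →
    g 0 ∈ Subgroup.closure {g 1, g 2, g 3}
  /-- lifting a pair of finite groups over a common subgroup of index at most two -/
  pair : ∀ (M : Subgroup Gb) (s t : Gb), Finite M → (∀ μ ∈ M, s * μ * s⁻¹ ∈ M) →
    (∀ μ ∈ M, t * μ * t⁻¹ ∈ M) → s ^ 2 ∈ M → t ^ 2 ∈ M →
    (∃ Q : Subgroup G, Finite Q ∧ Q.map φ = M ⊔ Subgroup.zpowers s) →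
    (∃ Q : Subgroup G, Finite Q ∧ Q.map φ = M ⊔ Subgroup.zpowers t) →
    ∃ (M' : Subgroup G) (s' t' : G) (y : Gb), Finite M' ∧ M'.map φ = M ∧ φ s' = s ∧
      φ t' = y * t * y⁻¹ ∧ πb y = 1 ∧ (∀ μ ∈ M, Commute y μ) ∧
      (∀ μ ∈ M', s' * μ * s'⁻¹ ∈ M') ∧ (∀ μ ∈ M', t' * μ * t'⁻¹ ∈ M') ∧ s' ^ 2 ∈ M' ∧ t' ^ 2 ∈ M'
  /-- repairing a wild extension of index two of a liftable group -/
  repair : ∀ (M : Subgroup Gb) (s : Gb) (c : C) (ε t : G → ℤ) (a : G) (m : ℕ),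
    ConeData π (stabilizer G c) (H c) ε t a (4 * m) →
    (∀ g ∈ stabilizer G c, g * a ^ m * g⁻¹ = (a ^ m) ^ (ε g)) →
    (∃ Q : Subgroup G, Finite Q ∧ Q.map φ = M) → (∀ μ ∈ M, s * μ * s⁻¹ ∈ M) → s ^ 2 ∈ M →
    M ⊔ Subgroup.zpowers s ≤ (stabilizer G c).map φ →
    (∃ g : G, g • c = c ∧ Wild (H c) g ∧ φ g ∈ M ⊔ Subgroup.zpowers s) →
    (∃ Q : Subgroup G, Finite Q ∧ Q.map φ = M ⊔ Subgroup.zpowers (φ (a ^ (2 * m)) * s)) ∧
      (∀ x ∈ (stabilizer G c).map φ, Commute (φ (a ^ (2 * m))) x) ∧ φ (a ^ (2 * m)) ^ 2 = 1 ∧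
      ∀ g : G, g • c = c → Wild (H c) g → φ g ∈ M ⊔ Subgroup.zpowers s →
        φ g ∉ M ∧ ε g = 1 ∧ ((4 * m : ℕ) : ℤ) ∣ t g - 2 * m

def NewLibStmt : Prop :=
  ∀ {A G C Gb : Type} [CommGroup A] [Group G] [MulAction G C] [Group Gb]
    (π : G →* A) (φ : G →* Gb) (πb : Gb →* A) (H : C → Subgroup G), AlgS π φ πb H →
    NewLib π φ πb H

def New1Stmt : Prop :=
  ∀ {A G C Gb : Type} [CommGroup A] [Group G] [MulAction G C] [Group Gb]
    (π : G →* A) (φ : G →* Gb) (πb : Gb →* A) (H : C → Subgroup G), AlgS π φ πb H →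
    NewLib π φ πb H → Fin1 πb ∧ NK πb ∧ Mal πb ∧ Sec πb ∧ NT πb ∧ ChFin πb

def NewLawStmt : Prop :=
  ∀ {A G C Gb : Type} [CommGroup A] [Group G] [MulAction G C] [Group Gb]
    (π : G →* A) (φ : G →* Gb) (πb : Gb →* A) (H : C → Subgroup G), AlgS π φ πb H →
    NewLib π φ πb H → Law πb

def NewChnStmt : Prop :=
  ∀ {A G C Gb : Type} [CommGroup A] [Group G] [MulAction G C] [Group Gb]
    (π : G →* A) (φ : G →* Gb) (πb : Gb →* A) (H : C → Subgroup G), AlgS π φ πb H →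
    NewLib π φ πb H → NK πb → Mal πb → Law πb → ChFin πb → St Gb →
    (∀ (g a : Gb) (i j : ℤ), ¬ IsOfFinOrder a → i ≠ 0 → g * a ^ i * g⁻¹ = a ^ j → g ∈ E a) →
    Chn πb

/-! ### Layer E: the extension -/

structure ExtLib : Prop where
  /-- equivariant choice of the lifted rotation groups -/
  choose : ∀ {F G Gt C : Type} [Field F] [CharP F 2] [Infinite F] [Group G] [Group Gt]
    [MulAction G C] (π : G →* Fˣ) (p : Gt →* G) (ι : Multiplicative F →* Gt) (σ : Fˣ →* Gt),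
    ExtD π p ι σ →
    (∀ c : C, ∃ ε t a n, ConeData π (stabilizer G c) (Subgroup.zpowers (a ^ n)) ε t a n) →
    ∃ Ht : C → Subgroup Gt, (∀ c, ExtCone π p (stabilizer G c) (Ht c)) ∧
      ∀ (g : Gt) c, ∀ h ∈ Ht c, g * h * g⁻¹ ∈ Ht (p g • c)
  /-- involutions of the new extension -/
  invol : ∀ {F G Gt C Gb : Type} [Field F] [CharP F 2] [Group G] [Group Gt] [MulAction G C]
    [Group Gb] (π : G →* Fˣ) (p : Gt →* G) (ι : Multiplicative F →* Gt) (σ : Fˣ →* Gt)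
    (φ : G →* Gb) (πb : Gb →* Fˣ) (Ht : C → Subgroup Gt) (Nt : Subgroup Gt),
    ExtD π p ι σ → AlgS π φ πb (fun c => (Ht c).map p) → NewLib π φ πb (fun c => (Ht c).map p) →
    (∀ c, ExtCone π p (stabilizer G c) (Ht c)) → Nt.Normal → (∀ c, Ht c ≤ Nt) →
    (∀ g, φ g = 1 ↔ g ∈ Nt.map p) → (∀ x ∈ Nt, p x = 1 → x = 1) →
    ∀ x, π (p x) = 1 → x ^ 2 ∈ Nt → ∃ f, x * (ι f)⁻¹ ∈ Nt

/-! ### Base, step, limit -/

def FieldStmt : Prop :=
  ∃ (F : Type) (_ : Field F), CharP F 2 ∧ Infinite F ∧ AOK Fˣ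

def Base (F : Type) [Field F] : Prop :=
  ∃ (L : Lvl F) (t : L.Gt), L.π (L.p t) = 1 ∧
    ∀ g, L.π (L.p g) = 1 → g ∈ Subgroup.normalClosure (insert t (Set.range L.ι))

def BaseStmt : Prop := ∀ (F : Type) [Field F], AOK Fˣ → Base F

def Step (F : Type) [Field F] : Prop :=
  ∀ L : Lvl F, ∃ (L' : Lvl F) (ψ : L.Gt →* L'.Gt), Function.Surjective ψ ∧
    (∀ f, ψ (L.ι f) = L'.ι f) ∧ (∀ a, ψ (L.σ a) = L'.σ a) ∧
    (∀ g, L'.π (L'.p (ψ g)) = L.π (L.p g)) ∧ L.δ < L'.δ ∧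
    (∀ g, L'.D.d 1 (L'.p (ψ g)) ≤ L.D.d 1 (L.p g)) ∧
    ∀ g, L.D.d 1 (L.p g) ≤ L.δ → IsOfFinOrder (L'.p (ψ g))

def Main : Prop :=
  ¬ (∀ (G : Type) [Group G],
      (∀ g : G, ∃ n : ℕ, g ^ (2 ^ n) = 1) →
      ∀ A : Subgroup (MulAut G),
        (∀ a ∈ A, IsOfFinOrder a) →
        (∀ H : Subgroup (MulAut G), H ≤ A → H.FG → IsCyclic H) →
        (∀ a ∈ A, a ≠ 1 → ∀ g : G, g ≠ 1 → a g ≠ g) →
        (∀ x y : G, orderOf x = 2 → orderOf y = 2 → ∃ a ∈ A, a x = y) →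
        ∀ H : Subgroup G, H.FG → Finite H)

def LimitStmt : Prop :=
  ∀ (F : Type) [Field F] [CharP F 2] [Infinite F], AOK Fˣ → Base F → Step F → Main

end Pool.Agent.Bu
end

-- part Pool.Agent.Lib.MP_5bec91_al.Bu.NewChn
section

/-! The chain property at the new level. -/

set_option autoImplicit false

namespace Pool.Agent.Bu

open MulAction

namespace NewChn

variable {A G C Gb : Type} [CommGroup A] [Group G] [MulAction G C] [Group Gb]
  {π : G →* A} {φ : G →* Gb} {πb : Gb →* A} {H : C → Subgroup G}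

theorem eps_eq (S : AlgS π φ πb H) {c : C} {ε t : G → ℤ} {a : G} {n : ℕ}
    (d : ConeData π (stabilizer G c) (H c) ε t a n) {x y : G} (hx : x ∈ stabilizer G c)
    (hy : y ∈ stabilizer G c) (e : φ x = φ y) : ε x = ε y := by
  have hxy : x * y⁻¹ ∈ stabilizer G c := mul_mem hx (inv_mem hy)
  have h1 : x * y⁻¹ ∈ H c := (S.stab c _ hxy).1 (by simp [e])
  rw [d.rot] at h1
  obtain ⟨k, hk⟩ := Subgroup.mem_zpowers_iff.1 h1
  have h2 := (d.aff.zpow_of_e (pow_mem d.mem n) (d.aff.pow_of_e d.mem d.ea n).1 k).1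
  rw [hk, d.aff.em _ hx _ (inv_mem hy), d.aff.e_inv hy] at h2
  rcases d.aff.sq x hx with h3 | h3 <;> rcases d.aff.sq y hy with h4 | h4 <;>
    rw [h3, h4] at h2 ⊢ <;> omega

theorem not_lift (S : AlgS π φ πb H) {M : Subgroup Gb}
    (hM : ∃ Q : Subgroup G, Finite Q ∧ Q.map φ = M) {c : C} {x : G} (hx : x • c = c)
    (hw : Wild (H c) x) : φ x ∉ M := by
  obtain ⟨Q, hQ, rfl⟩ := hM
  rintro ⟨y, hy, e⟩
  refine S.rot2 c x hx hw y e ?_
  have h1 : IsOfFinOrder (⟨y, hy⟩ : Q) := isOfFinOrder_of_finite _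
  exact Q.subtype.isOfFinOrder h1

theorem le_cone (S : AlgS π φ πb H) (L : NewLib π φ πb H) {R : Subgroup Gb} (hR : Finite R)
    {c : C} {x : G} (hx : x • c = c) (hw : Wild (H c) x) (hm : φ x ∈ R) :
    R ≤ (stabilizer G c).map φ := by
  rcases L.alt R hR with h | ⟨c', h, -⟩
  · exact absurd hm (not_lift S h hx hw)
  · obtain ⟨y, hy, e⟩ := h hm
    obtain ⟨n, hn, rfl⟩ := S.rot1 c x hx hw c' y hy e
    intro u hu
    obtain ⟨z, hz, rfl⟩ := h hu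
    refine ⟨n⁻¹ * z * n, ?_, by simp [hn]⟩
    have hz' : z • n • c = n • c := hz
    change (n⁻¹ * z * n) • c = c
    rw [mul_smul, mul_smul, hz', inv_smul_smul]

theorem ktype (hB : AlgB) (S : AlgS π φ πb H) {c : C} {x : G} (hx : x • c = c)
    (hw : Wild (H c) x) (h1 : πb (φ x) = 1) :
    ∃ ε t a m, ConeData π (stabilizer G c) (H c) ε t a (4 * m) ∧
      (∀ g ∈ stabilizer G c, g * a ^ m * g⁻¹ = (a ^ m) ^ (ε g)) ∧ π a = 1 := by
  obtain ⟨ε, t, a, n, d⟩ := S.cone c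
  have hk := (hB.coneWild π _ _ ε t a n d x hx).2 hw (by rw [← S.comp]; exact h1)
  rcases d.typ with ⟨-, m, k, rfl, -, h⟩ | ⟨-, h⟩
  · exact ⟨ε, t, a, m, d, h, hk d.mem⟩
  · exfalso
    have h2 : π a = 1 := hk d.mem
    have h3 := d.big
    rw [h2, orderOf_one] at h
    rw [← h] at h3
    unfold n0 at h3
    norm_num at h3

theorem wild_mul (hB : AlgB) {c : C} {ε t : G → ℤ} {a : G} {n : ℕ}
    (d : ConeData π (stabilizer G c) (H c) ε t a n) {x y : G} (hx : x ∈ stabilizer G c)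
    (hy : y ∈ stabilizer G c) (ex : ε x = 1) (hw : Wild (H c) y)
    (hn : ¬ Wild (H c) (x * y⁻¹)) : Wild (H c) x := by
  have hxy : x * y⁻¹ ∈ stabilizer G c := mul_mem hx (inv_mem hy)
  obtain ⟨ey, hy2⟩ := (hB.coneWild π _ _ ε t a n d y hy).1.1 hw
  rw [(hB.coneWild π _ _ ε t a n d _ hxy).1, d.aff.em _ hx _ (inv_mem hy),
    d.aff.tm _ hx _ (inv_mem hy), d.aff.e_inv hy, d.aff.t_inv hy, ex, ey] at hn
  rw [(hB.coneWild π _ _ ε t a n d x hx).1]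
  refine ⟨ex, fun h => hy2 ?_⟩
  have h1 : (n : ℤ) ∣ t x + 1 * -(1 * t y) := by
    by_contra h2
    exact hn ⟨by norm_num, h2⟩
  have h2 := dvd_sub h h1
  have e : t x - (t x + 1 * -(1 * t y)) = t y := by ring
  rwa [e] at h2

theorem conj_w {c : C} {ε : G → ℤ} {a : G} {m : ℕ}
    (hw : ∀ g ∈ stabilizer G c, g * a ^ m * g⁻¹ = (a ^ m) ^ (ε g)) {x : G}
    (hx : x ∈ stabilizer G c) :
    (ε x = 1 → φ (a ^ m) * φ x * (φ (a ^ m))⁻¹ = φ x) ∧
      (ε x = -1 → φ (a ^ m) * φ x * (φ (a ^ m))⁻¹ = φ (a ^ (2 * m)) * φ x) := by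
  have h := hw x hx
  constructor
  · intro e
    rw [e, zpow_one] at h
    rw [← map_inv, ← map_mul, ← map_mul]
    congr 1
    calc a ^ m * x * (a ^ m)⁻¹ = (x * a ^ m * x⁻¹) * x * (a ^ m)⁻¹ := by rw [h]
      _ = x := by group
  · intro e
    rw [e, zpow_neg, zpow_one] at h
    rw [← map_inv, ← map_mul, ← map_mul, ← map_mul]
    congr 1
    calc a ^ m * x * (a ^ m)⁻¹ = a ^ m * (x * a ^ m * x⁻¹)⁻¹ * x := by group
      _ = a ^ (2 * m) * x := by rw [h, inv_inv, two_mul, pow_add]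

theorem not_mem_cl (S : AlgS π φ πb H) {c : C} {ε t : G → ℤ} {a : G} {n : ℕ}
    (d : ConeData π (stabilizer G c) (H c) ε t a n) {T : Set Gb}
    (hT : ∀ u ∈ T, ∃ x ∈ stabilizer G c, ε x = 1 ∧ φ x = u) {y : G} (hy : y ∈ stabilizer G c)
    (ey : ε y = -1) : φ y ∉ Subgroup.closure T := by
  have key : ∀ u ∈ Subgroup.closure T, ∃ x ∈ stabilizer G c, ε x = 1 ∧ φ x = u := by
    intro u hu
    induction hu using Subgroup.closure_induction with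
    | mem u hu => exact hT u hu
    | one => exact ⟨1, one_mem _, d.aff.e_one, map_one _⟩
    | mul u v _ _ ih1 ih2 =>
      obtain ⟨x, hx, ex, rfl⟩ := ih1
      obtain ⟨z, hz, ez, rfl⟩ := ih2
      exact ⟨x * z, mul_mem hx hz, by rw [d.aff.em _ hx _ hz, ex, ez]; rfl, map_mul _ _ _⟩
    | inv u _ ih =>
      obtain ⟨x, hx, ex, rfl⟩ := ih
      exact ⟨x⁻¹, inv_mem hx, by rw [d.aff.e_inv hx, ex], map_inv _ _⟩
  intro h
  obtain ⟨x, hx, ex, e⟩ := key _ h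
  have := eps_eq S d hx hy e
  omega

/-- A chain whose two ends extend a common finite group liftably. -/
theorem finish (hA : AlgA) (S : AlgS π φ πb H) (L : NewLib π φ πb H) {M : Subgroup Gb}
    (hM : Finite M) {g0 g1 g2 g3 g4 g5 k : Gb} (m1 : g1 ∈ M) (m2 : g2 ∈ M) (m3 : g3 ∈ M)
    (m4 : g4 ∈ M) (e0 : k * g0 * k⁻¹ = g1) (e1 : k * g1 * k⁻¹ = g2) (e2 : k * g2 * k⁻¹ = g3)
    (e3 : k * g3 * k⁻¹ = g4) (e4 : k * g4 * k⁻¹ = g5)
    (n0 : ∀ μ ∈ M, g0 * μ * g0⁻¹ ∈ M) (n5 : ∀ μ ∈ M, g5 * μ * g5⁻¹ ∈ M) (s0 : g0 ^ 2 ∈ M)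
    (s5 : g5 ^ 2 ∈ M) (l0 : ∃ Q : Subgroup G, Finite Q ∧ Q.map φ = M ⊔ Subgroup.zpowers g0)
    (l5 : ∃ Q : Subgroup G, Finite Q ∧ Q.map φ = M ⊔ Subgroup.zpowers g5) (k0 : πb g0 = 1) :
    g0 ∈ Subgroup.closure {g1, g2, g3} := by
  obtain ⟨M', s, t, y, hM', hmap, hs, ht, -, hy, ns, nt, ss, st⟩ :=
    L.pair M g0 g5 hM n0 n5 s0 s5 l0 l5
  have hc : ∀ μ ∈ M, y * μ * y⁻¹ = μ := fun μ hμ => by rw [(hy μ hμ).eq]; simp
  rw [← hmap] at m1 m2 m3 m4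
  obtain ⟨x1, hx1, rfl⟩ := m1
  obtain ⟨x2, hx2, rfl⟩ := m2
  obtain ⟨x3, hx3, rfl⟩ := m3
  obtain ⟨x4, hx4, rfl⟩ := m4
  have hm : ∀ x ∈ M', φ x ∈ M := fun x hx => by rw [← hmap]; exact ⟨x, hx, rfl⟩
  let g : ℕ → G := fun i => match i with
    | 0 => s | 1 => x1 | 2 => x2 | 3 => x3 | 4 => x4 | _ => t
  have hP := hA.dih M' s t hM' ns nt ss st
  have ms : s ∈ M' ⊔ Subgroup.closure {s, t} :=
    Subgroup.mem_sup_right (Subgroup.subset_closure (by simp))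
  have mt : t ∈ M' ⊔ Subgroup.closure {s, t} :=
    Subgroup.mem_sup_right (Subgroup.subset_closure (by simp))
  have f0 := (hA.two M' s ns ss).2 hM'
  have f5 := (hA.two M' t nt st).2 hM'
  have ek : ∀ u v : Gb, k * u * k⁻¹ = v → y * k * u * (y * k)⁻¹ = y * v * y⁻¹ := by
    intro u v e; rw [← e]; group
  have key := L.chain g (y * k) _ hP ?_ ?_ ?_ ?_ ?_
  · have h1 : φ (g 0) ∈ (Subgroup.closure {g 1, g 2, g 3}).map φ := ⟨_, key, rfl⟩
    rw [MonoidHom.map_closure] at h1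
    simp only [Set.image_insert_eq, Set.image_singleton] at h1
    rw [← hs]
    exact h1
  · intro i hi
    interval_cases i
    · exact ms
    · exact Subgroup.mem_sup_left hx1
    · exact Subgroup.mem_sup_left hx2
    · exact Subgroup.mem_sup_left hx3
    · exact Subgroup.mem_sup_left hx4
    · exact mt
  · change π s = 1
    rw [← S.comp, hs, k0]
  · intro i hi
    interval_cases i
    · change φ x1 = y * k * φ s * (y * k)⁻¹
      rw [hs, ek _ _ e0, hc _ (hm _ hx1)]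
    · change φ x2 = y * k * φ x1 * (y * k)⁻¹
      rw [ek _ _ e1, hc _ (hm _ hx2)]
    · change φ x3 = y * k * φ x2 * (y * k)⁻¹
      rw [ek _ _ e2, hc _ (hm _ hx3)]
    · change φ x4 = y * k * φ x3 * (y * k)⁻¹
      rw [ek _ _ e3, hc _ (hm _ hx4)]
    · change φ t = y * k * φ x4 * (y * k)⁻¹
      rw [ek _ _ e4, ht]
  · refine Finite.Set.subset (↑(M' ⊔ Subgroup.zpowers s) : Set G) ?_
    change Subgroup.closure {s, x1, x2, x3, x4} ≤ _
    rw [Subgroup.closure_le]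
    rintro u (rfl | rfl | rfl | rfl | rfl)
    · exact Subgroup.mem_sup_right (Subgroup.mem_zpowers _)
    · exact Subgroup.mem_sup_left hx1
    · exact Subgroup.mem_sup_left hx2
    · exact Subgroup.mem_sup_left hx3
    · exact Subgroup.mem_sup_left hx4
  · refine Finite.Set.subset (↑(M' ⊔ Subgroup.zpowers t) : Set G) ?_
    change Subgroup.closure {x1, x2, x3, x4, t} ≤ _
    rw [Subgroup.closure_le]
    rintro u (rfl | rfl | rfl | rfl | rfl)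
    · exact Subgroup.mem_sup_left hx1
    · exact Subgroup.mem_sup_left hx2
    · exact Subgroup.mem_sup_left hx3
    · exact Subgroup.mem_sup_left hx4
    · exact Subgroup.mem_sup_right (Subgroup.mem_zpowers _)

/-- Properties of the repaired generator. -/
theorem rep (S : AlgS π φ πb H) (L : NewLib π φ πb H) {M : Subgroup Gb} {s : Gb} {c : C}
    {ε t : G → ℤ} {a : G} {m : ℕ} (d : ConeData π (stabilizer G c) (H c) ε t a (4 * m))
    (hw : ∀ g ∈ stabilizer G c, g * a ^ m * g⁻¹ = (a ^ m) ^ (ε g)) (ha : π a = 1)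
    (hl : ∃ Q : Subgroup G, Finite Q ∧ Q.map φ = M) (ns : ∀ μ ∈ M, s * μ * s⁻¹ ∈ M)
    (ss : s ^ 2 ∈ M) (hle : M ⊔ Subgroup.zpowers s ≤ (stabilizer G c).map φ) {x : G}
    (hx : x • c = c) (hwx : Wild (H c) x) (hxm : φ x ∈ M ⊔ Subgroup.zpowers s) (ks : πb s = 1) :
    (∃ Q : Subgroup G, Finite Q ∧ Q.map φ = M ⊔ Subgroup.zpowers (φ (a ^ (2 * m)) * s)) ∧
      (∀ μ ∈ M, (φ (a ^ (2 * m)) * s) * μ * (φ (a ^ (2 * m)) * s)⁻¹ ∈ M) ∧
      (φ (a ^ (2 * m)) * s) ^ 2 ∈ M ∧ πb (φ (a ^ (2 * m)) * s) = 1 ∧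
      φ (a ^ (2 * m)) * φ (a ^ (2 * m)) = 1 ∧ Commute (φ (a ^ m)) (φ (a ^ (2 * m))) := by
  obtain ⟨h1, h2, h3, -⟩ := L.repair M s c ε t a m d hw hl ns ss hle ⟨x, hx, hwx, hxm⟩
  have cs := h2 s (hle (Subgroup.mem_sup_right (Subgroup.mem_zpowers _)))
  refine ⟨h1, ?_, ?_, ?_, by rw [← pow_two, h3], ?_⟩
  · intro μ hμ
    have h4 := h2 _ (hle (Subgroup.mem_sup_left (ns μ hμ)))
    have e : φ (a ^ (2 * m)) * s * μ * (φ (a ^ (2 * m)) * s)⁻¹ =
        φ (a ^ (2 * m)) * (s * μ * s⁻¹) * (φ (a ^ (2 * m)))⁻¹ := by group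
    rw [e, h4.eq, mul_inv_cancel_right]
    exact ns μ hμ
  · rw [cs.mul_pow, h3, one_mul]; exact ss
  · rw [map_mul, S.comp, ks, map_pow, ha, one_pow, one_mul]
  · exact (Commute.pow_pow_self a m (2 * m)).map φ

/-- For elements of sign one over `M ⊔ zpowers s`, lying outside `M` means being wild. -/
theorem wild_of_out (hA : AlgA) (hB : AlgB) (S : AlgS π φ πb H) {M : Subgroup Gb} {s : Gb}
    {c : C} {ε t : G → ℤ} {a : G} {n : ℕ} (d : ConeData π (stabilizer G c) (H c) ε t a n)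
    (hl : ∃ Q : Subgroup G, Finite Q ∧ Q.map φ = M) (ns : ∀ μ ∈ M, s * μ * s⁻¹ ∈ M)
    (ss : s ^ 2 ∈ M) {x y : G} (hx : x • c = c) (hwx : Wild (H c) x)
    (hxm : φ x ∈ M ⊔ Subgroup.zpowers s) (hy : y ∈ stabilizer G c) (ey : ε y = 1)
    (hym : φ y ∈ M ⊔ Subgroup.zpowers s) (hyo : φ y ∉ M) : Wild (H c) y := by
  have hx' : x ∈ stabilizer G c := hx
  refine wild_mul hB d hy hx' ey hwx fun hw => ?_
  have h1 := (((hA.two M s ns ss).1 _).1 hxm).resolve_left (not_lift S hl hx hwx)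
  have h2 := (((hA.two M s ns ss).1 _).1 hym).resolve_left hyo
  refine not_lift S hl (c := c) (mul_mem hy (inv_mem hx') : _ ∈ stabilizer G c) hw ?_
  have e : φ (y * x⁻¹) = φ y * s⁻¹ * (φ x * s⁻¹)⁻¹ := by rw [map_mul, map_inv]; group
  rw [e]
  exact M.mul_mem h2 (M.inv_mem h1)

/-- Repair when the short group contains no wild element. -/
theorem repairL (hA : AlgA) (hB : AlgB) (S : AlgS π φ πb H) (L : NewLib π φ πb H)
    {M : Subgroup Gb} (hM : Finite M) (hl : ∃ Q : Subgroup G, Finite Q ∧ Q.map φ = M)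
    (hK : M ≤ πb.ker) {s : Gb} (ns : ∀ μ ∈ M, s * μ * s⁻¹ ∈ M) (ss : s ^ 2 ∈ M) (so : s ∉ M)
    (ks : πb s = 1) {T : Set Gb} (hT : T ⊆ M)
    (hno : ∀ (c : C) (x : G), x • c = c → Wild (H c) x → φ x ∉ Subgroup.closure (insert s T)) :
    ∃ s' w : Gb, (∀ u ∈ T, w * u * w⁻¹ = u) ∧ w * s' * w⁻¹ = s ∧ w * s * w⁻¹ = s' ∧
      (∀ μ ∈ M, s' * μ * s'⁻¹ ∈ M) ∧ s' ^ 2 ∈ M ∧
      (∃ Q : Subgroup G, Finite Q ∧ Q.map φ = M ⊔ Subgroup.zpowers s') ∧ πb s' = 1 ∧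
      s' ∉ Subgroup.closure T := by
  rcases L.alt _ ((hA.two M s ns ss).2 hM) with h | ⟨c, hle, x, hx, hwx, hxm⟩
  · exact ⟨s, 1, by simp, by simp, by simp, ns, ss, h, ks,
      fun h => so ((Subgroup.closure_le M).2 hT h)⟩
  have hRK : M ⊔ Subgroup.zpowers s ≤ πb.ker := sup_le hK (by simpa using ks)
  obtain ⟨ε, t, a, m, d, hw, ha⟩ := ktype hB S hx hwx (hRK hxm)
  obtain ⟨r1, r2, r3, r4, r5, r6⟩ := rep S L d hw ha hl ns ss hle hx hwx hxm ks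
  have ms : s ∈ M ⊔ Subgroup.zpowers s := Subgroup.mem_sup_right (Subgroup.mem_zpowers _)
  obtain ⟨x0, hx0, rfl⟩ := hle ms
  have e0 : ε x0 = -1 := by
    refine (d.aff.sq x0 hx0).resolve_left fun e => ?_
    exact hno c x0 hx0 (wild_of_out hA hB S d hl ns ss hx hwx hxm hx0 e ms so)
      (Subgroup.subset_closure (Set.mem_insert _ _))
  have hT1 : ∀ u ∈ T, ∃ y ∈ stabilizer G c, ε y = 1 ∧ φ y = u := by
    intro u hu
    obtain ⟨y, hy, rfl⟩ := hle (Subgroup.mem_sup_left (hT hu))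
    refine ⟨y, hy, (d.aff.sq y hy).resolve_right fun e => ?_, rfl⟩
    have hy0 : y * x0 ∈ stabilizer G c := mul_mem hy hx0
    refine hno c (y * x0) hy0 (wild_of_out hA hB S d hl ns ss hx hwx hxm hy0 ?_ ?_ ?_) ?_
    · rw [d.aff.em _ hy _ hx0, e, e0]; rfl
    · rw [map_mul]; exact mul_mem (Subgroup.mem_sup_left (hT hu)) ms
    · rw [map_mul]; exact fun h => so ((M.mul_mem_cancel_left (hT hu)).1 h)
    · rw [map_mul]
      exact mul_mem (Subgroup.subset_closure (Set.mem_insert_of_mem _ hu))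
        (Subgroup.subset_closure (Set.mem_insert _ _))
  have c0 := (conj_w (φ := φ) hw hx0).2 e0
  refine ⟨φ (a ^ (2 * m)) * φ x0, φ (a ^ m), ?_, ?_, c0, r2, r3, r1, r4, ?_⟩
  · intro u hu
    obtain ⟨y, hy, ey, rfl⟩ := hT1 u hu
    exact (conj_w hw hy).1 ey
  · calc φ (a ^ m) * (φ (a ^ (2 * m)) * φ x0) * (φ (a ^ m))⁻¹
        = φ (a ^ (2 * m)) * (φ (a ^ m) * φ x0 * (φ (a ^ m))⁻¹) := by
          rw [← mul_assoc, r6.eq]; group
      _ = φ x0 := by rw [c0, ← mul_assoc, r5, one_mul]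
  · rw [← map_mul]
    have ha2 : a ^ (2 * m) ∈ stabilizer G c := pow_mem d.mem _
    refine not_mem_cl S d hT1 (mul_mem ha2 hx0) ?_
    rw [d.aff.em _ ha2 _ hx0, (d.aff.pow_of_e d.mem d.ea _).1, e0]; rfl

theorem cl_conj {k : Gb} {T T' : Set Gb} (h : ∀ u ∈ T, k * u * k⁻¹ ∈ Subgroup.closure T') :
    ∀ u ∈ Subgroup.closure T, k * u * k⁻¹ ∈ Subgroup.closure T' := by
  intro u hu
  induction hu using Subgroup.closure_induction with
  | mem u hu => exact h u hu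
  | one => simp
  | mul u v _ _ ih1 ih2 =>
    have : k * (u * v) * k⁻¹ = k * u * k⁻¹ * (k * v * k⁻¹) := by group
    rw [this]; exact mul_mem ih1 ih2
  | inv u _ ih =>
    have : k * u⁻¹ * k⁻¹ = (k * u * k⁻¹)⁻¹ := by group
    rw [this]; exact inv_mem ih

theorem wild_conj (S : AlgS π φ πb H) {c : C} {x : G} (hw : Wild (H c) x) (k : G) :
    Wild (H (k • c)) (k * x * k⁻¹) := by
  intro h hh hf
  have h1 := S.Hconj k⁻¹ _ h hh
  rw [inv_smul_smul, inv_inv] at h1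
  refine hw _ h1 ?_
  have h2 := (MulAut.conj k⁻¹).toMonoidHom.isOfFinOrder hf
  have e : (MulAut.conj k⁻¹).toMonoidHom (k * x * k⁻¹ * h) = x * (k⁻¹ * h * k) := by
    simp [mul_assoc]
  rwa [e] at h2

/-- Case D is impossible. -/
theorem caseD (hA : AlgA) (hB : AlgB) (S : AlgS π φ πb H) (L : NewLib π φ πb H)
    {M : Subgroup Gb} (hM : Finite M) (hl : ∃ Q : Subgroup G, Finite Q ∧ Q.map φ = M)
    (hK : M ≤ πb.ker) {g0 g1 g2 g3 g4 g5 k : Gb} (m1 : g1 ∈ M) (m2 : g2 ∈ M) (m3 : g3 ∈ M)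
    (m4 : g4 ∈ M) (o0 : g0 ∉ M) (o5 : g5 ∉ M) (e0 : k * g0 * k⁻¹ = g1) (e1 : k * g1 * k⁻¹ = g2)
    (e2 : k * g2 * k⁻¹ = g3) (e3 : k * g3 * k⁻¹ = g4) (e4 : k * g4 * k⁻¹ = g5)
    (n0 : ∀ μ ∈ M, g0 * μ * g0⁻¹ ∈ M) (n5 : ∀ μ ∈ M, g5 * μ * g5⁻¹ ∈ M) (s0 : g0 ^ 2 ∈ M)
    (s5 : g5 ^ 2 ∈ M) (k0 : πb g0 = 1) (k5 : πb g5 = 1) : False := by
  have hT : ({g1, g2, g3, g4} : Set Gb) ⊆ M := by
    rintro u (rfl | rfl | rfl | rfl) <;> assumption
  have c01 : ∀ u ∈ Subgroup.closure (insert g0 ({g1, g2, g3, g4} : Set Gb)),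
      k * u * k⁻¹ ∈ Subgroup.closure (insert g5 ({g1, g2, g3, g4} : Set Gb)) := by
    refine cl_conj ?_
    rintro u (rfl | rfl | rfl | rfl | rfl) <;> apply Subgroup.subset_closure <;> simp [*]
  have c10 : ∀ u ∈ Subgroup.closure (insert g5 ({g1, g2, g3, g4} : Set Gb)),
      k⁻¹ * u * k⁻¹⁻¹ ∈ Subgroup.closure (insert g0 ({g1, g2, g3, g4} : Set Gb)) := by
    have b : ∀ u v : Gb, k * u * k⁻¹ = v → k⁻¹ * v * k⁻¹⁻¹ = u := by
      intro u v e; rw [← e]; group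
    refine cl_conj ?_
    rintro u (rfl | rfl | rfl | rfl | rfl) <;> apply Subgroup.subset_closure
    · rw [b _ _ e4]; simp
    · rw [b _ _ e0]; simp
    · rw [b _ _ e1]; simp
    · rw [b _ _ e2]; simp
    · rw [b _ _ e3]; simp
  have q0 : Subgroup.closure (insert g0 ({g1, g2, g3, g4} : Set Gb)) ≤
      M ⊔ Subgroup.zpowers g0 := by
    rw [Subgroup.closure_le]
    rintro u (rfl | hu)
    · exact Subgroup.mem_sup_right (Subgroup.mem_zpowers _)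
    · exact Subgroup.mem_sup_left (hT hu)
  have q5 : Subgroup.closure (insert g5 ({g1, g2, g3, g4} : Set Gb)) ≤
      M ⊔ Subgroup.zpowers g5 := by
    rw [Subgroup.closure_le]
    rintro u (rfl | hu)
    · exact Subgroup.mem_sup_right (Subgroup.mem_zpowers _)
    · exact Subgroup.mem_sup_left (hT hu)
  have sub : Subgroup.closure ({g1, g2, g3} : Set Gb) ≤ Subgroup.closure {g1, g2, g3, g4} :=
    Subgroup.closure_mono (by rintro u (rfl | rfl | rfl) <;> simp)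
  obtain ⟨k', rfl⟩ := S.surj k
  by_cases hex : ∃ (c : C) (x : G), x • c = c ∧ Wild (H c) x ∧
      φ x ∈ Subgroup.closure (insert g0 ({g1, g2, g3, g4} : Set Gb))
  · obtain ⟨c, x, hx, hwx, hxm⟩ := hex
    have hle := le_cone S L ((hA.two M g0 n0 s0).2 hM) hx hwx (q0 hxm)
    have hRK : M ⊔ Subgroup.zpowers g0 ≤ πb.ker := sup_le hK (by simpa using k0)
    obtain ⟨ε, t, a, m, d, hw, ha⟩ := ktype hB S hx hwx (hRK (q0 hxm))
    obtain ⟨r1, r2, r3, r4, r5, r6⟩ := rep S L d hw ha hl n0 s0 hle hx hwx (q0 hxm) k0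
    -- the conjugate cone
    have hs1 : ∀ y, y ∈ stabilizer G (k' • c) ↔ k'⁻¹ * y * k' ∈ stabilizer G c := by
      intro y
      simp only [mem_stabilizer_iff, mul_smul]
      exact ⟨fun h => by rw [h, inv_smul_smul], fun h => by rw [inv_smul_eq_iff.1 h]⟩
    have hH1 : ∀ y, y ∈ H (k' • c) ↔ k'⁻¹ * y * k' ∈ H c := by
      intro y
      constructor
      · intro h
        have := S.Hconj k'⁻¹ _ y h
        rwa [inv_smul_smul, inv_inv] at this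
      · intro h
        have := S.Hconj k' _ _ h
        simpa [mul_assoc] using this
    have d1 := hB.coneConj π _ _ _ _ ε t a (4 * m) k' d hs1 hH1
    have hw1 : ∀ g ∈ stabilizer G (k' • c), g * (k' * a * k'⁻¹) ^ m * g⁻¹ =
        ((k' * a * k'⁻¹) ^ m) ^ (ε (k'⁻¹ * g * k')) := by
      intro g hg
      have h1 := hw _ ((hs1 g).1 hg)
      rw [conj_pow, conj_zpow, ← h1]; group
    have hx1 : (k' * x * k'⁻¹) • k' • c = k' • c := by
      rw [mul_smul, mul_smul, inv_smul_smul, hx]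
    have hwx1 := wild_conj S hwx k'
    have hxm1 : φ (k' * x * k'⁻¹) ∈ M ⊔ Subgroup.zpowers g5 := by
      rw [map_mul, map_mul, map_inv]; exact q5 (c01 _ hxm)
    have hle1 := le_cone S L ((hA.two M g5 n5 s5).2 hM) hx1 hwx1 hxm1
    obtain ⟨t1, t2, t3, -⟩ := rep S L d1 hw1 (by simp [ha]) hl n5 s5 hle1 hx1 hwx1 hxm1 k5
    -- wildness seen through the two characters
    have W0 : ∀ y ∈ stabilizer G c, ε y = 1 →
        φ y ∈ Subgroup.closure (insert g0 ({g1, g2, g3, g4} : Set Gb)) →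
        (φ y ∈ M ↔ φ k' * φ y * (φ k')⁻¹ ∈ M) := by
      intro y hy ey hym
      have hy1 : k' * y * k'⁻¹ ∈ stabilizer G (k' • c) := (hs1 _).2 (by simpa [mul_assoc] using hy)
      have ek : φ (k' * y * k'⁻¹) = φ k' * φ y * (φ k')⁻¹ := by rw [map_mul, map_mul, map_inv]
      constructor
      · intro h
        by_contra h'
        have h2 := wild_of_out hA hB S d1 hl n5 s5 hx1 hwx1 hxm1 hy1
          (by simpa [mul_assoc] using ey) (by rw [ek]; exact q5 (c01 _ hym)) (by rwa [ek])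
        have h3 := wild_conj S h2 k'⁻¹
        rw [inv_smul_smul] at h3
        have e : k'⁻¹ * (k' * y * k'⁻¹) * k'⁻¹⁻¹ = y := by group
        rw [e] at h3
        exact not_lift S hl hy h3 h
      · intro h
        by_contra h'
        have h2 := wild_of_out hA hB S d hl n0 s0 hx hwx (q0 hxm) hy ey (q0 hym) h'
        exact not_lift S hl hy1 (wild_conj S h2 k') (by rwa [ek])
    have i0 : g0 ∈ Subgroup.closure (insert g0 ({g1, g2, g3, g4} : Set Gb)) :=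
      Subgroup.subset_closure (by simp)
    have i4 : g4 ∈ Subgroup.closure (insert g0 ({g1, g2, g3, g4} : Set Gb)) :=
      Subgroup.subset_closure (by simp)
    obtain ⟨x0, hx0, ex0⟩ := hle (q0 i0)
    obtain ⟨x4, hx4, ex4⟩ := hle (q0 i4)
    have f0 : ε x0 = -1 := by
      refine (d.aff.sq x0 hx0).resolve_left fun e => o0 ?_
      have := (W0 x0 hx0 e (by rw [ex0]; exact i0)).2 (by rw [ex0, e0]; exact m1)
      rwa [ex0] at this
    have f4 : ε x4 = -1 := by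
      refine (d.aff.sq x4 hx4).resolve_left fun e => o5 ?_
      have := (W0 x4 hx4 e (by rw [ex4]; exact i4)).1 (by rw [ex4]; exact m4)
      rwa [ex4, e4] at this
    have mid : ∀ u v, u ∈ Subgroup.closure (insert g0 ({g1, g2, g3, g4} : Set Gb)) → u ∈ M →
        φ k' * u * (φ k')⁻¹ = v → v ∈ M → ∃ y ∈ stabilizer G c, ε y = 1 ∧ φ y = u := by
      intro u v hu hum huv hv
      obtain ⟨y, hy, rfl⟩ := hle (q0 hu)
      refine ⟨y, hy, (d.aff.sq y hy).resolve_right fun e => o0 ?_, rfl⟩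
      have hy0 : y * x0 ∈ stabilizer G c := mul_mem hy hx0
      have h1 := (W0 _ hy0 (by rw [d.aff.em _ hy _ hx0, e, f0]; rfl)
        (by rw [map_mul, ex0]; exact mul_mem hu i0)).2 (by
          have : φ k' * φ (y * x0) * (φ k')⁻¹ =
              φ k' * φ y * (φ k')⁻¹ * (φ k' * g0 * (φ k')⁻¹) := by rw [map_mul, ex0]; group
          rw [this, huv, e0]; exact M.mul_mem hv m1)
      rw [map_mul, ex0] at h1
      exact (M.mul_mem_cancel_left hum).1 h1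
    obtain ⟨x1, hx1', f1, ex1⟩ := mid g1 g2 (Subgroup.subset_closure (by simp)) m1 e1 m2
    obtain ⟨x2, hx2', f2, ex2⟩ := mid g2 g3 (Subgroup.subset_closure (by simp)) m2 e2 m3
    obtain ⟨x3, hx3', f3, ex3⟩ := mid g3 g4 (Subgroup.subset_closure (by simp)) m3 e3 m4
    have w0 := (conj_w (φ := φ) hw hx0).2 f0
    have w1 := (conj_w (φ := φ) hw hx1').1 f1
    have w2 := (conj_w (φ := φ) hw hx2').1 f2
    have w3 := (conj_w (φ := φ) hw hx3').1 f3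
    have w4 := (conj_w (φ := φ) hw hx4).2 f4
    rw [ex0] at w0
    rw [ex1] at w1
    rw [ex2] at w2
    rw [ex3] at w3
    rw [ex4] at w4
    have ek : ∀ u, φ k' * φ (a ^ m) * u * (φ k' * φ (a ^ m))⁻¹ =
        φ k' * (φ (a ^ m) * u * (φ (a ^ m))⁻¹) * (φ k')⁻¹ := by intro u; group
    have fin := finish hA S L hM (k := φ k' * φ (a ^ m)) m1 m2 m3 m4 ?_ (by rw [ek, w1, e1])
      (by rw [ek, w2, e2]) (by rw [ek, w3, e3]) ?_ r2 t2 r3 t3 r1 t1 r4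
    · rw [← ex0, ← map_mul] at fin
      have ha2 : a ^ (2 * m) ∈ stabilizer G c := pow_mem d.mem _
      refine not_mem_cl S d ?_ (mul_mem ha2 hx0) ?_ fin
      · rintro u (rfl | rfl | rfl)
        · exact ⟨x1, hx1', f1, ex1⟩
        · exact ⟨x2, hx2', f2, ex2⟩
        · exact ⟨x3, hx3', f3, ex3⟩
      · rw [d.aff.em _ ha2 _ hx0, (d.aff.pow_of_e d.mem d.ea _).1, f0]; rfl
    · have : φ (a ^ m) * (φ (a ^ (2 * m)) * g0) * (φ (a ^ m))⁻¹ = g0 :=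
        calc φ (a ^ m) * (φ (a ^ (2 * m)) * g0) * (φ (a ^ m))⁻¹
            = φ (a ^ (2 * m)) * (φ (a ^ m) * g0 * (φ (a ^ m))⁻¹) := by
              rw [← mul_assoc, r6.eq]; group
          _ = g0 := by rw [w0, ← mul_assoc, r5, one_mul]
      rw [ek, this, e0]
    · rw [ek, w4, conj_pow, map_mul, map_mul, map_inv, ← e4]; group
  · push Not at hex
    obtain ⟨s0', w0, a1, a2, -, a4, a5, a6, a7, a8⟩ :=
      repairL hA hB S L hM hl hK n0 s0 o0 k0 hT hex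
    obtain ⟨s5', w5, b1, -, b3, b4, b5, b6, -⟩ :=
      repairL hA hB S L hM hl hK n5 s5 o5 k5 hT (by
        intro c x hx hw hm
        refine hex (k'⁻¹ • c) (k'⁻¹ * x * k'⁻¹⁻¹) ?_ (wild_conj S hw k'⁻¹) ?_
        · rw [mul_smul, mul_smul, inv_smul_smul, hx]
        · rw [map_mul, map_mul, map_inv, map_inv, map_inv]; exact c10 _ hm)
    have ek : ∀ u, w5 * φ k' * w0 * u * (w5 * φ k' * w0)⁻¹ =
        w5 * (φ k' * (w0 * u * w0⁻¹) * (φ k')⁻¹) * w5⁻¹ := by intro u; group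
    refine a8 (sub (finish hA S L hM (k := w5 * φ k' * w0) m1 m2 m3 m4 ?_ ?_ ?_ ?_ ?_
      a4 b4 a5 b5 a6 b6 a7))
    · rw [ek, a2, e0, b1 _ (by simp)]
    · rw [ek, a1 _ (by simp), e1, b1 _ (by simp)]
    · rw [ek, a1 _ (by simp), e2, b1 _ (by simp)]
    · rw [ek, a1 _ (by simp), e3, b1 _ (by simp)]
    · rw [ek, a1 _ (by simp), e4, b3]

theorem fin_gens (hA : AlgA) {P : Subgroup Gb} {ε t : Gb → ℤ} (h : Aff P ε t) {T : Set Gb}
    (hT : Subgroup.closure T ≤ P) (t0 : ℤ)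
    (hg : ∀ u ∈ T, (ε u = 1 ∧ t u = 0) ∨ (ε u = -1 ∧ t u = t0)) :
    Finite (Subgroup.closure T) := by
  have key : ∀ u ∈ Subgroup.closure T, (ε u = 1 ∧ t u = 0) ∨ (ε u = -1 ∧ t u = t0) := by
    intro u hu
    induction hu using Subgroup.closure_induction with
    | mem u hu => exact hg u hu
    | one => exact Or.inl ⟨h.e_one, h.t_one⟩
    | mul u v hu hv ih1 ih2 =>
      rw [h.em _ (hT hu) _ (hT hv), h.tm _ (hT hu) _ (hT hv)]
      rcases ih1 with ⟨a, b⟩ | ⟨a, b⟩ <;> rcases ih2 with ⟨c, d⟩ | ⟨c, d⟩ <;>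
        rw [a, b, c, d] <;> simp
    | inv u hu ih =>
      rw [h.e_inv (hT hu), h.t_inv (hT hu)]
      rcases ih with ⟨a, b⟩ | ⟨a, b⟩ <;> rw [a, b] <;> simp
  refine hA.tors _ (Elem.mono ⟨ε, t, h⟩ hT) fun u hu => (h.fin_iff (hT hu)).2 ?_
  rcases key u hu with ⟨-, b⟩ | ⟨a, -⟩
  · exact Or.inr b
  · exact Or.inl a

theorem fin_mem {Q : Subgroup Gb} (hQ : Finite Q) {u : Gb} (hu : u ∈ Q) : IsOfFinOrder u := by
  have h1 : IsOfFinOrder (⟨u, hu⟩ : Q) := isOfFinOrder_of_finite _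
  exact Q.subtype.isOfFinOrder h1

end NewChn

open NewChn in
theorem newChnStmt (hA : AlgA) (hB : AlgB) : NewChnStmt := by
  intro A G C Gb _ _ _ _ π φ πb H S L nk mal law chf st bs g h hg ⟨P0, hP0, hmem⟩
  have e : ∀ i, h * cj h i g * h⁻¹ = cj h (i + 1) g := fun i => (cj_succ h g i).symm
  have kk : ∀ i, πb (cj h i g) = 1 := fun i => by rw [ker_cj, hg]
  have g0 : cj h 0 g = g := cj_zero h g
  set T : Set Gb := {cj h 0 g, cj h 1 g, cj h 2 g, cj h 3 g, cj h 4 g, cj h 5 g} with hTd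
  have hT : ∀ i ≤ 5, cj h i g ∈ Subgroup.closure T := by
    intro i hi
    apply Subgroup.subset_closure
    interval_cases i <;> simp [hTd]
  have hle : Subgroup.closure T ≤ P0 := by
    rw [Subgroup.closure_le]
    rintro u (rfl | rfl | rfl | rfl | rfl | rfl) <;> exact hmem _ (by norm_num)
  have hK : Subgroup.closure T ≤ πb.ker := by
    rw [Subgroup.closure_le]
    rintro u (rfl | rfl | rfl | rfl | rfl | rfl) <;> exact kk _
  have hP := hP0.mono hle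
  by_cases hf : Finite (Subgroup.closure T)
  · exact chf g h hg ⟨_, hf, hT⟩
  set T0 : Set Gb := {cj h 0 g, cj h 1 g, cj h 2 g, cj h 3 g, cj h 4 g} with hT0d
  have l0 : Subgroup.closure T0 ≤ Subgroup.closure T := by
    rw [Subgroup.closure_le]
    rintro u (rfl | rfl | rfl | rfl | rfl) <;> exact hT _ (by norm_num)
  have c0 : ∀ u ∈ Subgroup.closure T0, h * u * h⁻¹ ∈ Subgroup.closure T := by
    refine cl_conj ?_
    rintro u (rfl | rfl | rfl | rfl | rfl) <;> rw [e] <;> exact hT _ (by norm_num)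
  by_cases hf0 : ∀ u ∈ Subgroup.closure T0, IsOfFinOrder u
  swap
  · push Not at hf0
    obtain ⟨v, hv, hvi⟩ := hf0
    have hvi' : ¬ IsOfFinOrder (h * v * h⁻¹) := by
      intro h1
      have h2 := (MulAut.conj h⁻¹).toMonoidHom.isOfFinOrder h1
      have e' : (MulAut.conj h⁻¹).toMonoidHom (h * v * h⁻¹) = v := by simp [mul_assoc]
      exact hvi (e' ▸ h2)
    obtain ⟨i, j, hi, -, hij⟩ := hA.comm _ hP _ (c0 v hv) _ (l0 hv) hvi' hvi
    rw [conj_zpow] at hij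
    have h1 := bs h v i j hvi hi hij
    have h2 : g ∈ E v := hA.leE _ hP v (l0 hv) hvi (g0 ▸ hT 0 (by norm_num))
    exact hB.chA _ (hB.elemLaw πb S.hA nk mal law _ (st v hvi) ⟨v, mem_E_self v, hvi⟩) g h2 h h1
  exfalso
  obtain ⟨ε, t, af⟩ := hP
  have m0 : ∀ i ≤ 4, cj h i g ∈ Subgroup.closure T0 := by
    intro i hi
    apply Subgroup.subset_closure
    interval_cases i <;> simp [hT0d]
  have fconj : ∀ u, IsOfFinOrder u → IsOfFinOrder (h * u * h⁻¹) := fun u hu =>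
    (MulAut.conj h).toMonoidHom.isOfFinOrder hu
  have fo : ∀ i ≤ 5, IsOfFinOrder (cj h i g) := by
    intro i hi
    rcases Nat.lt_or_ge i 5 with h1 | h1
    · exact hf0 _ (m0 i (by omega))
    · obtain rfl : i = 4 + 1 := by omega
      rw [← e]; exact fconj _ (hf0 _ (m0 4 le_rfl))
  have A1 : ∀ i ≤ 5, ε (cj h i g) = 1 ∧ t (cj h i g) = 0 ∨ ε (cj h i g) = -1 := by
    intro i hi
    have h1 := (af.fin_iff (hT i hi)).1 (fo i hi)
    have h2 := af.sq _ (hT i hi)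
    omega
  have A2 : ∀ i ≤ 5, ∀ j ≤ 5, IsOfFinOrder (cj h i g * cj h j g) → ε (cj h i g) = -1 →
      ε (cj h j g) = -1 → t (cj h i g) = t (cj h j g) := by
    intro i hi j hj hfo a b
    have h1 := (af.fin_iff (mul_mem (hT i hi) (hT j hj))).1 hfo
    rw [af.em _ (hT i hi) _ (hT j hj), af.tm _ (hT i hi) _ (hT j hj), a, b] at h1
    omega
  have A3 : ∀ i ≤ 4, ∀ j ≤ 4, ε (cj h i g) = -1 → ε (cj h j g) = -1 →
      t (cj h i g) = t (cj h j g) := fun i hi j hj =>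
    A2 i (by omega) j (by omega) (hf0 _ (mul_mem (m0 i hi) (m0 j hj)))
  have A4 : ∀ i ≤ 4, ∀ j ≤ 4, ε (cj h (i + 1) g) = -1 → ε (cj h (j + 1) g) = -1 →
      t (cj h (i + 1) g) = t (cj h (j + 1) g) := by
    intro i hi j hj
    refine A2 _ (by omega) _ (by omega) ?_
    have : cj h (i + 1) g * cj h (j + 1) g = h * (cj h i g * cj h j g) * h⁻¹ := by
      rw [← e, ← e]; group
    rw [this]
    exact fconj _ (hf0 _ (mul_mem (m0 i hi) (m0 j hj)))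
  have fg : ∀ t0 : ℤ, (∀ i ≤ 5, ε (cj h i g) = -1 → t (cj h i g) = t0) → False := by
    intro t0 h0
    refine hf (fin_gens hA af le_rfl t0 ?_)
    have : ∀ i ≤ 5, (ε (cj h i g) = 1 ∧ t (cj h i g) = 0) ∨
        (ε (cj h i g) = -1 ∧ t (cj h i g) = t0) := fun i hi =>
      (A1 i hi).imp id fun a => ⟨a, h0 i hi a⟩
    rintro u (rfl | rfl | rfl | rfl | rfl | rfl) <;> exact this _ (by norm_num)
  have mid : ∀ i ≤ 3, cj h (i + 1) g ∈ af.ker := by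
    intro i hi
    rcases A1 (i + 1) (by omega) with ⟨a, b⟩ | a
    · exact ⟨hT _ (by omega), a, b⟩
    · exfalso
      refine fg (t (cj h (i + 1) g)) fun j hj b => ?_
      rcases Nat.lt_or_ge j 5 with h1 | h1
      · exact A3 j (by omega) (i + 1) (by omega) b a
      · obtain rfl : j = 4 + 1 := by omega
        exact A4 4 le_rfl i (by omega) b a
  have r0 : ε (cj h 0 g) = -1 := by
    rcases A1 0 (by norm_num) with ⟨a, -⟩ | a
    · exfalso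
      refine fg (t (cj h 5 g)) fun j hj b => ?_
      have b1 := (mid 0 (by norm_num)).2.1
      have b2 := (mid 1 (by norm_num)).2.1
      have b3 := (mid 2 (by norm_num)).2.1
      have b4 := (mid 3 (by norm_num)).2.1
      interval_cases j <;> first | rfl | (norm_num at b1 b2 b3 b4; omega)
    · exact a
  have r5 : ε (cj h 5 g) = -1 := by
    rcases A1 5 (by norm_num) with ⟨a, -⟩ | a
    · exfalso
      refine fg (t (cj h 0 g)) fun j hj b => ?_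
      have b1 := (mid 0 (by norm_num)).2.1
      have b2 := (mid 1 (by norm_num)).2.1
      have b3 := (mid 2 (by norm_num)).2.1
      have b4 := (mid 3 (by norm_num)).2.1
      interval_cases j <;> first | rfl | (norm_num at b1 b2 b3 b4; omega)
    · exact a
  have hl : ∃ Q : Subgroup G, Finite Q ∧ Q.map φ = af.ker := by
    rcases L.alt _ af.ker_fin with h1 | ⟨c, h1, x, hx, hw, hm⟩
    · exact h1
    · exfalso
      have := L.cfin c
      refine hf (Finite.Set.subset (↑((stabilizer G c).map φ) : Set Gb) fun u hu => ?_)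
      exact L.fix c x hx hw u (h1 (af.ker_conj hu hm))
  have p0 := hT 0 (by norm_num)
  have p5 := hT 5 (by norm_num)
  refine caseD hA hB S L af.ker_fin hl (fun u hu => hK hu.1) (mid 0 (by norm_num))
    (mid 1 (by norm_num)) (mid 2 (by norm_num)) (mid 3 (by norm_num)) (g0 := cj h 0 g)
    (g5 := cj h 5 g) (k := h) ?_ ?_ (e 0) (e 1) (e 2) (e 3) (e 4)
    (fun μ hμ => af.ker_conj p0 hμ) (fun μ hμ => af.ker_conj p5 hμ)
    ⟨pow_mem p0 2, af.sq_of_neg p0 r0⟩ ⟨pow_mem p5 2, af.sq_of_neg p5 r5⟩ (kk 0) (kk 5)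
  · intro h1
    have := h1.2.1
    omega
  · intro h1
    have := h1.2.1
    omega

end Pool.Agent.Bu
end

-- part Pool.Agent.Lib.MP_5bec91_al.Bu.NewOne
section

/-! The first algebraic invariants of the new level. -/

set_option autoImplicit false

namespace Pool.Agent.Bu

open MulAction

namespace NewOne

open NewChn

variable {A G C Gb : Type} [CommGroup A] [Group G] [MulAction G C] [Group Gb]
  {π : G →* A} {φ : G →* Gb} {πb : Gb →* A} {H : C → Subgroup G}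

theorem fm {Q : Subgroup G} (hQ : Finite Q) {g : G} (hg : g ∈ Q) : IsOfFinOrder g := by
  have h1 : IsOfFinOrder (⟨g, hg⟩ : Q) := isOfFinOrder_of_finite _
  exact Q.subtype.isOfFinOrder h1

theorem inj (S : AlgS π φ πb H) {Q : Subgroup G} (hQ : Finite Q) {g g' : G} (hg : g ∈ Q)
    (hg' : g' ∈ Q) (e : φ g = φ g') : g = g' := by
  have := S.tf (g * g'⁻¹) (by simp [e]) (fm hQ (Q.mul_mem hg (Q.inv_mem hg')))
  exact mul_inv_eq_one.1 this

theorem fin_conj {Q : Subgroup G} (hQ : Finite Q) (k : G) :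
    Finite (Q.map (MulAut.conj k).toMonoidHom) :=
  Finite.of_surjective _ ((MulAut.conj k).toMonoidHom.subgroupMap_surjective Q)

theorem fin_zp {G : Type} [Group G] {g : G} (h : IsOfFinOrder g) : Finite (Subgroup.zpowers g) :=
  h.finite_zpowers.to_subtype

theorem rot_one (S : AlgS π φ πb H) {c : C} {ε t : G → ℤ} {a : G} {n : ℕ}
    (d : ConeData π (stabilizer G c) (H c) ε t a n) (k : ℤ) : φ (a ^ ((n : ℤ) * k)) = 1 := by
  refine (S.stab c _ (zpow_mem d.mem _ : _ ∈ stabilizer G c)).2 ?_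
  rw [d.rot, zpow_mul, zpow_natCast]
  exact Subgroup.zpow_mem_zpowers _ _

theorem btype (S : AlgS π φ πb H) {c : C} {ε t : G → ℤ} {a : G} {n : ℕ}
    (d : ConeData π (stabilizer G c) (H c) ε t a n) (h1 : stabilizer G c = Subgroup.zpowers a)
    (h2 : orderOf (π a) = n) {g : G} (hg : g ∈ stabilizer G c) (hk : π g = 1) : φ g = 1 := by
  rw [h1] at hg
  obtain ⟨j, rfl⟩ := Subgroup.mem_zpowers_iff.1 hg
  rw [map_zpow, ← orderOf_dvd_iff_zpow_eq_one, h2] at hk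
  obtain ⟨k, rfl⟩ := hk
  exact rot_one S d k

theorem fin1 (S : AlgS π φ πb H) (L : NewLib π φ πb H) : Fin1 πb := by
  intro u hu hf
  rcases L.alt _ (fin_zp hf) with ⟨Q, hQ, e⟩ | ⟨c, hle, -⟩
  · obtain ⟨g, hg, rfl⟩ : u ∈ Q.map φ := e ▸ Subgroup.mem_zpowers u
    obtain ⟨k, hk⟩ := S.old.fin1 g (by rw [← S.comp, hu]) (fm hQ hg)
    exact ⟨k, by rw [← map_pow, hk, map_one]⟩
  · obtain ⟨g, hg, rfl⟩ := hle (Subgroup.mem_zpowers u)
    have hk : π g = 1 := by rw [← S.comp, hu]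
    obtain ⟨ε, t, a, n, d⟩ := S.cone c
    rcases d.typ with ⟨hK, m, k, -, hn, -⟩ | ⟨h1, h2⟩
    · have hg2 : g ^ 2 ∈ stabilizer G c := pow_mem hg 2
      have e2 : ε (g ^ 2) = 1 := by
        rw [pow_two, d.aff.em _ hg _ hg]
        rcases d.aff.sq g hg with h | h <;> rw [h] <;> rfl
      have h3 := d.aff.pow_of_e hg2 e2 n
      have h4 := d.aff.dec d.mem d.ea d.ta (pow_mem hg2 n) h3.1
      obtain ⟨l, hl⟩ := S.old.fin1 _ (hK h4.1) (d.aff.fin_of_ker h4)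
      refine ⟨1 + k + l, ?_⟩
      have h5 := congrArg φ hl
      rw [map_pow, map_mul, map_inv, h3.2, rot_one S d, inv_one, mul_one, map_one, map_pow,
        map_pow, ← pow_mul, ← pow_mul, hn] at h5
      rw [← h5, pow_add, pow_add, pow_one, mul_assoc]
    · exact ⟨0, by rw [btype S d h1 h2 hg hk]; simp⟩

theorem nk (hB : AlgB) (S : AlgS π φ πb H) (L : NewLib π φ πb H) : NK πb := by
  intro M hM hK hne u hu
  obtain ⟨g, rfl⟩ := S.surj u
  rcases L.alt M hM with ⟨Q, hQ, rfl⟩ | ⟨c, hle, x, hx, hw, hm⟩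
  · obtain ⟨y, hy, h1, -⟩ := S.l2 _ Q (fin_conj hQ g) hQ (by
      rintro _ ⟨_, ⟨x, hx, rfl⟩, rfl⟩
      simpa using hu _ ⟨x, hx, rfl⟩)
    have h2 := S.old.nk Q hQ (fun x hx => by
        rw [MonoidHom.mem_ker, ← S.comp]; exact hK ⟨x, hx, rfl⟩)
      (by rintro rfl; exact hne (Subgroup.map_bot φ)) (y * g) (fun μ hμ => by
        have := (h1 _ ⟨μ, hμ, rfl⟩).1
        simpa [mul_assoc] using this)
    rw [map_mul, hy, one_mul] at h2
    rw [S.comp, h2]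
  · obtain ⟨g', hg', e⟩ := L.fix c x hx hw _ (hle (hu _ hm))
    obtain ⟨ε, t, a, n, d⟩ := S.cone c
    have hk := (hB.coneWild π _ _ ε t a n d x hx).2 hw (by rw [← S.comp]; exact hK hm)
    rw [← e, S.comp]; exact hk hg'

theorem mal (S : AlgS π φ πb H) (L : NewLib π φ πb H) (hnk : NK πb) : Mal πb := by
  intro u v hf hu hv hc
  obtain ⟨k, rfl⟩ := S.surj v
  have hk : π k = 1 := by rw [← S.comp, hv]
  have hbot : Subgroup.zpowers u ⊓ πb.ker = ⊥ := by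
    by_contra hne
    have := fin_zp hf
    refine hu (hnk (Subgroup.zpowers u ⊓ πb.ker)
      (Finite.Set.subset (Subgroup.zpowers u : Set Gb) fun _ h => h.1) inf_le_right hne u ?_)
    rintro μ ⟨h1, h2⟩
    obtain ⟨j, rfl⟩ := Subgroup.mem_zpowers_iff.1 h1
    have : u * u ^ j * u⁻¹ = u ^ j := by group
    rw [this]; exact ⟨h1, h2⟩
  rcases L.alt _ (fin_zp hf) with ⟨Q, hQ, e⟩ | ⟨c, hle, x, hx, hw, hm⟩
  · obtain ⟨g, hg, rfl⟩ : u ∈ Q.map φ := e ▸ Subgroup.mem_zpowers u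
    have hgf := fm hQ hg
    have ec : φ k * φ g * (φ k)⁻¹ = φ g := by rw [← hc.eq]; simp
    have hle : ((Subgroup.zpowers g).map (MulAut.conj k).toMonoidHom).map φ ≤
        (Subgroup.zpowers g).map φ := by
      rw [MonoidHom.map_zpowers, MonoidHom.map_zpowers, MonoidHom.map_zpowers]
      simp [ec]
    obtain ⟨y, hy, h1, h2⟩ := S.l2 _ _ (fin_conj (fin_zp hgf) k) (fin_zp hgf) hle
    have h3 := h2 (by
      rw [eq_bot_iff]
      rintro x ⟨hx1, hx2⟩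
      have h4 : φ x ∈ Subgroup.zpowers (φ g) ⊓ πb.ker := by
        refine ⟨?_, ?_⟩
        · have := hle ⟨x, hx1, rfl⟩
          rwa [MonoidHom.map_zpowers] at this
        · change πb (φ x) = 1
          rw [S.comp]; exact hx2
      rw [hbot] at h4
      exact S.tf x h4 (fm (fin_conj (fin_zp hgf) k) hx1))
    obtain ⟨h4, h5⟩ := h1 _ ⟨g, Subgroup.mem_zpowers g, rfl⟩
    have h6 := inj S (fin_zp hgf) h4 (Subgroup.mem_zpowers g) (by rw [h5]; simpa using ec)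
    have h7 := S.old.mal g (y * k) hgf (by rw [← S.comp]; exact hu) (by rw [map_mul, hy, hk, one_mul])
      (by
        have h8 : y * k * g * (y * k)⁻¹ = g := by simpa [mul_assoc] using h6
        exact (mul_inv_eq_iff_eq_mul.1 h8).symm)
    have h8 := congrArg φ h7
    rwa [map_mul, h3, one_mul, map_one] at h8
  · obtain ⟨j, hj⟩ := Subgroup.mem_zpowers_iff.1 hm
    obtain ⟨k', hk', e⟩ := L.fix c x hx hw (φ k) (by
      rw [← hj, ← (hc.zpow_left j).eq, mul_inv_cancel_right, hj]; exact hle hm)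
    obtain ⟨g, hg, rfl⟩ := hle (Subgroup.mem_zpowers u)
    obtain ⟨ε, t, a, n, d⟩ := S.cone c
    rcases d.typ with ⟨hK, -⟩ | ⟨h1, h2⟩
    · exact absurd (by rw [S.comp]; exact hK hg) hu
    · rw [← e]
      exact btype S d h1 h2 hk' (by rw [← S.comp, e, hv])

theorem nt (hB : AlgB) (S : AlgS π φ πb H) : NT πb := by
  by_contra hn
  have h0 : ∀ g, π g = 1 → φ g = 1 := by
    intro g hg
    by_contra h
    exact hn ⟨φ g, by rw [S.comp, hg], h⟩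
  obtain ⟨g, hg, hne⟩ := S.old.nt
  obtain ⟨c⟩ := S.exc g (h0 g hg) hne
  obtain ⟨ε, t, a, n, d⟩ := S.cone c
  have hw : Wild (H c) a := by
    refine (hB.coneWild π _ _ ε t a n d a d.mem).1.2 ⟨d.ea, fun h => ?_⟩
    rw [d.ta] at h
    have h1 := Int.le_of_dvd one_pos h
    have h2 := d.big
    unfold n0 at h2
    omega
  obtain ⟨a', ha', e⟩ := S.old.sec a
  refine S.rot2 c a d.mem hw a' ?_ ha'
  have := h0 (a' * a⁻¹) (by simp [e])
  rwa [map_mul, map_inv, mul_inv_eq_one] at this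

theorem chfin (hA : AlgA) (hB : AlgB) (S : AlgS π φ πb H) (L : NewLib π φ πb H) : ChFin πb := by
  intro g h hg ⟨P, hP, hmem⟩
  have e : ∀ i, h * cj h i g * h⁻¹ = cj h (i + 1) g := fun i => (cj_succ h g i).symm
  have g0 : cj h 0 g = g := cj_zero h g
  have fin : ∀ (x : ℕ → G) (P : Subgroup G), Elem P → (∀ i ≤ 5, x i ∈ P ∧ φ (x i) = cj h i g) →
      Finite (Subgroup.closure {x 0, x 1, x 2, x 3, x 4}) →
      Finite (Subgroup.closure {x 1, x 2, x 3, x 4, x 5}) →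
      g ∈ Subgroup.closure {cj h 1 g, cj h 2 g, cj h 3 g} := by
    intro x P hP hx f0 f1
    have key := L.chain x h P hP (fun i hi => (hx i hi).1)
      (by rw [← S.comp, (hx 0 (by norm_num)).2, g0, hg])
      (fun i hi => by rw [(hx (i + 1) (by omega)).2, (hx i (by omega)).2, e]) f0 f1
    have h1 : φ (x 0) ∈ (Subgroup.closure {x 1, x 2, x 3}).map φ := ⟨_, key, rfl⟩
    rw [MonoidHom.map_closure] at h1
    simp only [Set.image_insert_eq, Set.image_singleton] at h1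
    rwa [(hx 0 (by norm_num)).2, (hx 1 (by norm_num)).2, (hx 2 (by norm_num)).2,
      (hx 3 (by norm_num)).2, g0] at h1
  rcases L.alt P hP with ⟨Q, hQ, rfl⟩ | ⟨c, hle, -⟩
  · have : ∀ i, ∃ x, i ≤ 5 → x ∈ Q ∧ φ x = cj h i g := by
      intro i
      by_cases hi : i ≤ 5
      · obtain ⟨x, hx, ex⟩ := hmem i hi
        exact ⟨x, fun _ => ⟨hx, ex⟩⟩
      · exact ⟨1, fun h => absurd h hi⟩
    choose x hx using this
    refine fin x Q (Elem.of_fin hQ) hx ?_ ?_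
    · refine Finite.Set.subset (Q : Set G) ?_
      change Subgroup.closure _ ≤ Q
      rw [Subgroup.closure_le]
      rintro u (rfl | rfl | rfl | rfl | rfl) <;> exact (hx _ (by norm_num)).1
    · refine Finite.Set.subset (Q : Set G) ?_
      change Subgroup.closure _ ≤ Q
      rw [Subgroup.closure_le]
      rintro u (rfl | rfl | rfl | rfl | rfl) <;> exact (hx _ (by norm_num)).1
  have gm : g ∈ (stabilizer G c).map φ := g0 ▸ hle (hmem 0 (by norm_num))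
  by_cases hh : h ∈ (stabilizer G c).map φ
  · exact hB.chA _ (L.claw c) g gm h hh
  obtain ⟨ε, t, a, n, d⟩ := S.cone c
  have hn : (0 : ℤ) < n := by
    have := d.big
    unfold n0 at this
    omega
  have : ∀ i, ∃ x, i ≤ 5 → (x ∈ stabilizer G c ∧ φ x = cj h i g) ∧ 0 ≤ t x ∧ t x < n := by
    intro i
    by_cases hi : i ≤ 5
    · obtain ⟨x, hx, ex⟩ := hle (hmem i hi)
      have ha := zpow_mem d.mem ((n : ℤ) * -(t x / n))
      have h1 := d.aff.zpow_of_e d.mem d.ea ((n : ℤ) * -(t x / n))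
      refine ⟨a ^ ((n : ℤ) * -(t x / n)) * x, fun _ => ⟨⟨mul_mem ha hx, ?_⟩, ?_⟩⟩
      · rw [map_mul, rot_one S d, one_mul, ex]
      · rw [d.aff.tm _ ha _ hx, h1.1, h1.2, d.ta]
        have h2 := Int.emod_nonneg (t x) hn.ne'
        have h3 := Int.emod_lt_of_pos (t x) hn
        have h4 := Int.emod_def (t x) n
        constructor <;> nlinarith
    · exact ⟨1, fun h => absurd h hi⟩
  choose x hx using this
  -- no wild element among the generators and their quotients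
  have w1 : ∀ y ∈ stabilizer G c, h * φ y * h⁻¹ ∈ P → ¬ Wild (H c) y :=
    fun y hy hm hw => hh (L.fix c y hy hw h (hle hm))
  have w2 : ∀ y ∈ stabilizer G c, h⁻¹ * φ y * h⁻¹⁻¹ ∈ P → ¬ Wild (H c) y :=
    fun y hy hm hw => hh (inv_mem_iff.1 (L.fix c y hy hw h⁻¹ (hle hm)))
  have b : ∀ i, h⁻¹ * cj h (i + 1) g * h⁻¹⁻¹ = cj h i g := by intro i; rw [← e]; group
  have nd : ∀ y ∈ stabilizer G c, ¬ Wild (H c) y → ε y = 1 → (n : ℤ) ∣ t y := by
    intro y hy hw ey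
    by_contra h1
    exact hw ((hB.coneWild π _ _ ε t a n d y hy).1.2 ⟨ey, h1⟩)
  have A1 : ∀ i ≤ 5, ε (x i) = 1 → t (x i) = 0 := by
    intro i hi ei
    obtain ⟨⟨h1, h2⟩, h3, h4⟩ := hx i hi
    have h5 : ¬ Wild (H c) (x i) := by
      rcases Nat.lt_or_ge i 5 with h6 | h6
      · exact w1 _ h1 (by rw [h2, e]; exact hmem _ (by omega))
      · obtain rfl : i = 4 + 1 := by omega
        exact w2 _ h1 (by rw [h2, b]; exact hmem _ (by omega))
    exact Int.eq_zero_of_dvd_of_nonneg_of_lt h3 h4 (nd _ h1 h5 ei)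
  have A2 : ∀ i ≤ 5, ∀ j ≤ 5, ¬ Wild (H c) (x i * x j) → ε (x i) = -1 → ε (x j) = -1 →
      t (x i) = t (x j) := by
    intro i hi j hj hw ei ej
    obtain ⟨⟨h1, -⟩, h3, h4⟩ := hx i hi
    obtain ⟨⟨h1', -⟩, h3', h4'⟩ := hx j hj
    have h5 := nd _ (mul_mem h1 h1') hw (by rw [d.aff.em _ h1 _ h1', ei, ej]; rfl)
    rw [d.aff.tm _ h1 _ h1', ei] at h5
    have h6 := Int.eq_zero_of_abs_lt_dvd h5 (by rw [abs_lt]; constructor <;> omega)
    omega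
  have A3 : ∀ i ≤ 4, ∀ j ≤ 4, ε (x i) = -1 → ε (x j) = -1 → t (x i) = t (x j) := by
    intro i hi j hj
    have h1 := (hx i (by omega)).1
    have h2 := (hx j (by omega)).1
    refine A2 i (by omega) j (by omega) (w1 _ (mul_mem h1.1 h2.1) ?_)
    have : h * φ (x i * x j) * h⁻¹ = cj h (i + 1) g * cj h (j + 1) g := by
      rw [map_mul, h1.2, h2.2, ← e, ← e]; group
    rw [this]; exact mul_mem (hmem _ (by omega)) (hmem _ (by omega))
  have A4 : ∀ i ≤ 4, ∀ j ≤ 4, ε (x (i + 1)) = -1 → ε (x (j + 1)) = -1 →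
      t (x (i + 1)) = t (x (j + 1)) := by
    intro i hi j hj
    have h1 := (hx (i + 1) (by omega)).1
    have h2 := (hx (j + 1) (by omega)).1
    refine A2 _ (by omega) _ (by omega) (w2 _ (mul_mem h1.1 h2.1) ?_)
    have : h⁻¹ * φ (x (i + 1) * x (j + 1)) * h⁻¹⁻¹ = cj h i g * cj h j g := by
      rw [map_mul, h1.2, h2.2, ← b i, ← b j]; group
    rw [this]; exact mul_mem (hmem _ (by omega)) (hmem _ (by omega))
  have FG : ∀ (s : ℕ), s ≤ 1 →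
      (∀ i ≤ 4, ∀ j ≤ 4, ε (x (i + s)) = -1 → ε (x (j + s)) = -1 → t (x (i + s)) = t (x (j + s))) →
      Finite (Subgroup.closure {x (0 + s), x (1 + s), x (2 + s), x (3 + s), x (4 + s)}) := by
    intro s hs hA3
    have ex : ∃ t0 : ℤ, ∀ i ≤ 4, ε (x (i + s)) = -1 → t (x (i + s)) = t0 := by
      by_cases h1 : ∃ j ≤ 4, ε (x (j + s)) = -1
      · obtain ⟨j, hj, ej⟩ := h1
        exact ⟨_, fun i hi ei => hA3 i hi j hj ei ej⟩
      · exact ⟨0, fun i hi ei => absurd ⟨i, hi, ei⟩ h1⟩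
    obtain ⟨t0, ht0⟩ := ex
    have pm : ∀ i ≤ 4, x (i + s) ∈ stabilizer G c := fun i hi => (hx _ (by omega)).1.1
    have pr : ∀ i ≤ 4, (ε (x (i + s)) = 1 ∧ t (x (i + s)) = 0) ∨
        (ε (x (i + s)) = -1 ∧ t (x (i + s)) = t0) := fun i hi =>
      (d.aff.sq _ (pm i hi)).imp (fun h1 => ⟨h1, A1 _ (by omega) h1⟩) fun h1 => ⟨h1, ht0 i hi h1⟩
    refine fin_gens hA d.aff ?_ t0 ?_
    · rw [Subgroup.closure_le]
      rintro u (rfl | rfl | rfl | rfl | rfl) <;> exact pm _ (by norm_num)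
    · rintro u (rfl | rfl | rfl | rfl | rfl) <;> exact pr _ (by norm_num)
  exact fin x _ ⟨ε, t, d.aff⟩ (fun i hi => (hx i hi).1) (FG 0 (by norm_num) A3)
    (FG 1 le_rfl A4)

end NewOne

open NewOne in
theorem newOneStmt (hA : AlgA) (hB : AlgB) : New1Stmt := by
  intro A G C Gb _ _ _ _ π φ πb H S L
  refine ⟨fin1 S L, nk hB S L, mal S L (nk hB S L), ?_, nt hB S, chfin hA hB S L⟩
  intro u
  obtain ⟨g, rfl⟩ := S.surj u
  obtain ⟨g', hg', e⟩ := S.old.sec g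
  exact ⟨φ g', φ.isOfFinOrder hg', by rw [S.comp, S.comp, e]⟩

end Pool.Agent.Bu
end
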