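import Pool.Agent.Lib.MP_5bec91_al.Bu.NewOne

-- part Pool.Agent.Lib.MP_5bec91_al.Bu.Elec
section

/-!
The electric metric of a cone system.
-/

set_option autoImplicit false

namespace Pool.Agent.Bu

namespace ElecA

variable {G X C : Type} [Group G] [MulAction G X] [MulAction G C] (S : CS G X C)

theorem hle (x y : X) : S.dh x y ≤ S.D.d x y := S.dh_le_d x y

theorem via {c : C} {a b : X} (ha : a ∈ S.Y c) (hb : b ∈ S.Y c) (x y : X) :
    S.dh x y ≤ S.dh x a + 1000 * S.θ + S.dh b y := by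
  have h1 := S.dh_tri x a y
  have h2 := S.dh_tri a b y
  have h3 := S.dh_jump ha hb
  omega

theorem ang_pr' {c : C} {x p : X} (hp : S.Pr c x p) : S.ang c p x ≤ S.θ := by
  rw [S.ang_symm]; exact S.ang_pr hp

theorem ang_mem {c : C} {a b : X} (ha : a ∈ S.Y c) (hb : b ∈ S.Y c) : S.ang c a b = S.D.d a b :=
  S.D.ang_mem ha hb

theorem ang_le (c : C) (x y : X) : S.ang c x y ≤ S.D.d x y + S.θ := S.ang_le_d c x y

theorem exit {b y : X} {n : ℕ} (h : S.Ch Set.univ b y n) : ∀ (c : C) (a : X), a ∈ S.Y c →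
    b ∈ S.Y c → n = S.dh b y → S.dh a y = 1000 * S.θ + n → S.ang c b y ≤ 2 * S.θ := by
  induction h with
  | seg b y =>
    intro c a ha hb h1 h2
    have hp : S.Pr c y b := ⟨hb, fun b' hb' => by
      have e1 := via S ha hb' a y
      have e2 := S.dh_refl a
      have e3 := hle S b' y
      have e4 := S.D.symm y b
      have e5 := S.D.symm y b'
      omega⟩
    have := ang_pr' S hp
    omega
  | jump b a1 b1 y c1 n1 _ ha1 hb1 hch ih =>
    intro c a ha hb h1 h2
    have hθ := S.θ_pos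
    have e0 := S.dh_refl a
    have e1 := hch.dh_le
    have e2 := via S ha1 hb1 b y
    have e3 := hle S b a1
    have e4 := S.dh_tri b a1 y
    have e5 := via S ha1 hb1 a1 y
    have e6 := S.dh_refl a1
    have hne : c ≠ c1 := by
      rintro rfl
      have := via S ha hb1 a y
      omega
    have hp : S.Pr c a1 b := ⟨hb, fun b' hb' => by
      have f1 := via S ha hb' a y
      have f2 := S.dh_tri b' a1 y
      have f3 := hle S b' a1
      have f4 := S.D.symm a1 b
      have f5 := S.D.symm a1 b'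
      omega⟩
    have hp1 : S.Pr c1 b a1 := ⟨ha1, fun a' ha' => by
      have f1 := via S ha' hb1 b y
      have f2 := hle S b a'
      omega⟩
    have e7 := ih c1 a1 ha1 hb1 (by omega) (by omega)
    have e8 := ang_mem S ha1 hb1
    have e9 := S.dh_tri a1 b1 y
    have e10 := hle S a1 b1
    have e11 := ang_pr' S hp1
    have e12 := S.ang_tri c1 a1 b b1
    have e13 := S.ang_tri c1 b y b1
    have e14 := S.ang_symm c1 y b1
    have e15 := S.ang_symm c1 y b
    have e16 : S.ang c y a1 ≤ S.θ ∨ S.ang c1 y b ≤ S.θ := S.behr c c1 y b a1 hne hb ha1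
    have e17 := ang_pr' S hp
    have e18 := S.ang_tri c b a1 y
    have e19 := S.ang_symm c a1 y
    omega

theorem st1 {c : C} {x y a b : X} (h : S.EJ c x y a b) : S.ang c b y ≤ 2 * S.θ := by
  obtain ⟨ha, hb, e⟩ := h
  refine exit S (S.dh_ch b y) c a ha hb rfl ?_
  have e1 := S.dh_tri x a y
  have e2 := via S ha hb a y
  have e3 := S.dh_refl a
  omega

theorem st {c : C} {x y a b : X} (h : S.EJ c x y a b) : S.ang c x a ≤ 2 * S.θ ∧
    S.ang c b y ≤ 2 * S.θ ∧ 1000 * S.θ ≤ S.D.d a b ∧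
    S.D.d x a + S.D.d a b + S.D.d b y ≤ S.D.d x y + 9 * S.θ := by
  have h1 := st1 S h
  have h2 := st1 S (CS.EJ.symm S h)
  rw [S.ang_symm] at h2
  obtain ⟨ha, hb, e⟩ := h
  have hθ := S.θ_pos
  have e1 := S.dh_tri x a y
  have e2 := S.dh_tri a b y
  have e3 := hle S a b
  refine ⟨h2, h1, by omega, ?_⟩
  obtain ⟨p, hp⟩ := S.pr_ex c x
  obtain ⟨p', hp'⟩ := S.pr_ex c y
  have e4 : S.D.d p a ≤ S.ang c x a := S.D.le_ang hp (S.D.pr_self ha)
  have e5 : S.D.d b p' ≤ S.ang c b y := S.D.le_ang (S.D.pr_self hb) hp'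
  have e6 := S.gate c x p y p' hp hp'
  have e7 := S.D.tri x p a
  have e8 := S.D.tri b p' y
  have e9 := S.D.tri a p b
  have e10 := S.D.tri p p' b
  have e11 := S.D.symm a p
  have e12 := S.D.symm b p'
  omega

theorem out {x m y : X} (h : S.dh x m + S.dh m y = S.dh x y) : ∃ a, S.dh m a = S.D.d m a ∧
    S.dh x m + S.dh m a = S.dh x a ∧ S.D.d x a + S.D.d a y ≤ S.D.d x y + 9 * S.θ := by
  have h1 := S.dh_ch m y
  generalize hn : S.dh m y = n at h1
  cases h1 with
  | seg =>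
    have := S.D.refl y
    exact ⟨y, hn, h, by omega⟩
  | jump _ a b _ c n _ ha hb hch =>
    have e1 := hch.dh_le
    have e2 := via S ha hb x y
    have e3 := S.dh_tri x m a
    have e4 := hle S m a
    have e5 := (st S (c := c) (x := x) (y := y) ⟨ha, hb, by omega⟩).2.2.2
    have e6 := S.D.tri a b y
    exact ⟨a, by omega, by omega, by omega⟩

theorem btw {x m y : X} (h : S.dh x m + S.dh m y = S.dh x y) : S.D.Btw (18 * S.θ) x m y := by
  obtain ⟨a, h1, h2, h3⟩ := out S h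
  have e1 := S.dh_symm a m
  have e2 := S.dh_symm m x
  have e3 := S.dh_symm a x
  obtain ⟨a', h4, h5, h6⟩ := out S (x := a) (m := m) (y := x) (by omega)
  have e4 := hle S a a'
  have e5 := S.D.tri x a' m
  have e6 := S.D.tri m a y
  have e7 := S.D.symm a' x
  have e8 := S.D.symm a' m
  have e9 := S.D.symm a x
  unfold PM.Btw
  omega

theorem nearby (hL : HypLib) {x y u v p : X} {e : ℕ} (hu : S.dh x u + S.dh u y = S.dh x y)
    (hv : S.dh x v + S.dh v y = S.dh x y) (hp : S.D.Btw e x p y)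
    (h1 : S.D.d x u + S.D.d p y ≤ S.D.d x p + S.D.d u y)
    (h2 : S.D.d x p + S.D.d v y ≤ S.D.d x v + S.D.d p y) :
    S.D.Btw (e + 18 * S.θ + 2 * S.δ) u p v ∧
      ∃ z, S.D.d u z + S.D.d z v = S.D.d u v ∧ 2 * S.D.d z p ≤ e + 19 * S.θ := by
  have h3 := hL.align S.D S.δ e (18 * S.θ) x y u v p S.geom.hyp (btw S hu) (btw S hv) hp h1 h2
  obtain ⟨z, h4, h5⟩ := hL.near S.D S.δ _ u v p S.geom.pos S.geom.hyp S.geom.geo h3
  have := S.hθ
  exact ⟨h3, z, h4, by omega⟩

theorem cover (hL : HypLib) {U : Set C} {x v y p : X} {n e : ℕ} (h : S.Ch U v y n) :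
    S.dh x v + n = S.dh x y → S.D.d x v + S.D.d p y ≤ S.D.d x p + S.D.d v y →
    S.D.Btw e x p y → ∃ z n', S.Ch U z y n' ∧ S.dh x z + n' = S.dh x y ∧
      (2 * S.D.d z p ≤ e + 19 * S.θ ∨ ∃ c ∈ U, ∃ a ∈ S.Y c, ∃ q ∈ S.Y c, z ∈ S.Y c ∧
        S.dh x a + 1000 * S.θ = S.dh x z ∧ 2 * S.D.d q p ≤ e + 21 * S.θ) := by
  induction h with
  | seg v y =>
    intro h1 h2 hp
    have e1 := S.dh_tri x v y
    have e2 := hle S v y
    have e3 := S.dh_refl y
    have e4 := S.D.refl y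
    have e5 := S.D.tri x y p
    have e6 := S.D.symm y p
    obtain ⟨-, z, h3, h4⟩ := nearby S hL (u := v) (v := y) (by omega) (by omega) hp h2 (by omega)
    have e7 := S.dh_tri x v z
    have e8 := hle S v z
    have e9 := S.dh_tri x z y
    have e10 := hle S z y
    exact ⟨z, _, CS.Ch.seg z y, by omega, Or.inl h4⟩
  | jump v a b y c n hc ha hb hch ih =>
    intro h1 h2 hp
    have e1 := hch.dh_le
    have e2 := via S ha hb x y
    have e3 := S.dh_tri x v a
    have e4 := hle S v a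
    have e5 := S.dh_tri x b y
    have e6 := via S ha hb x b
    have e7 := S.dh_refl b
    have e8 := S.dh_tri x a y
    have e9 := via S ha hb a y
    have e10 := S.dh_refl a
    have e11 := S.dh_tri x v y
    have e12 := S.dh_tri v a y
    by_cases k1 : S.D.d x b + S.D.d p y ≤ S.D.d x p + S.D.d b y
    · exact ih (by omega) k1 hp
    by_cases k2 : S.D.d x p + S.D.d a y ≤ S.D.d x a + S.D.d p y
    · obtain ⟨-, z, h3, h4⟩ := nearby S hL (u := v) (v := a) (by omega) (by omega) hp h2 k2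
      have f1 := S.dh_tri x v z
      have f2 := hle S v z
      have f3 := S.dh_tri x z a
      have f4 := hle S z a
      exact ⟨z, _, CS.Ch.jump z a b y c n hc ha hb hch, by omega, Or.inl h4⟩
    · obtain ⟨h3, -⟩ := nearby S hL (u := a) (v := b) (by omega) (by omega) hp (by omega)
        (by omega)
      obtain ⟨q, hq⟩ := S.pr_ex c p
      have f1 : 2 * S.D.d p q ≤ _ := S.qc ha hb h3 hq
      have f2 := S.D.symm p q
      have f3 := S.hθ
      exact ⟨b, n, hch, by omega, Or.inr ⟨c, hc, a, ha, q, hq.1, hb, by omega, by omega⟩⟩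

theorem cover0 (hL : HypLib) {U : Set C} {x y p : X} {n e : ℕ} (h : S.Ch U x y n)
    (hn : n = S.dh x y) (hp : S.D.Btw e x p y) :
    ∃ z n', S.Ch U z y n' ∧ S.dh x z + n' = S.dh x y ∧
      (2 * S.D.d z p ≤ e + 19 * S.θ ∨ ∃ c ∈ U, ∃ a ∈ S.Y c, ∃ q ∈ S.Y c, z ∈ S.Y c ∧
        S.dh x a + 1000 * S.θ = S.dh x z ∧ 2 * S.D.d q p ≤ e + 21 * S.θ) := by
  have e1 := S.dh_refl x
  have e2 := S.D.refl x
  have e3 := S.D.tri p x y
  have e4 := S.D.symm p x
  exact cover S hL h (by omega) (by omega) hp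

theorem half (hL : HypLib) {U : Set C} {x y p : X} {n : ℕ} {c : C} (h : S.Ch U x y n)
    (hn : n = S.dh x y) (hp : S.D.Btw S.θ x p y) (hc : c ∉ U) :
    ∃ z n', S.Ch U z y n' ∧ S.dh x z + n' = S.dh x y ∧ S.dh x p ≤ S.dh x z + 11 * S.θ ∧
      S.ang c z p ≤ 13 * S.θ := by
  obtain ⟨z, n', h1, h2, h3 | ⟨c1, hc1, a, ha, q, hq, hz, h3, h4⟩⟩ := cover0 S hL h hn hp
  · have e1 := S.dh_tri x z p
    have e2 := hle S z p
    have e3 := ang_le S c z p
    exact ⟨z, n', h1, h2, by omega, by omega⟩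
  · have e1 := via S ha hq x p
    have e2 := hle S q p
    have e3 := ang_le S c q p
    have e4 : S.ang c z q ≤ S.θ := S.ovl c c1 z q (fun hh => hc (hh ▸ hc1)) hz hq
    have e5 := S.ang_tri c z q p
    exact ⟨z, n', h1, h2, by omega, by omega⟩

theorem lb {U : Set C} {x y : X} {n : ℕ} {c : C} (h : S.Ch U x y n) (hc : c ∉ U) :
    S.ang c x y ≤ n + S.θ := by
  induction h with
  | seg x y => exact ang_le S c x y
  | jump x a b y c1 n hc1 ha hb _ ih =>
    have e1 := ang_le S c x a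
    have e2 : S.ang c a b ≤ S.θ := S.ovl c c1 a b (fun hh => hc (hh ▸ hc1)) ha hb
    have e3 := S.ang_tri c x a y
    have e4 := S.ang_tri c a b y
    omega

theorem split {x y : X} {n : ℕ} (c : C) (h : S.Ch Set.univ x y n) : S.Ch {c}ᶜ x y n ∨
    ∃ a ∈ S.Y c, ∃ b ∈ S.Y c, S.dh x a + 1000 * S.θ + S.dh b y ≤ n := by
  induction h with
  | seg x y => exact Or.inl (CS.Ch.seg x y)
  | jump x a1 b1 y c1 n _ ha1 hb1 hch ih =>
    have e1 := hle S x a1
    have e2 := hch.dh_le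
    by_cases hc : c1 = c
    · subst hc
      exact Or.inr ⟨a1, ha1, b1, hb1, by omega⟩
    · rcases ih with ih | ⟨a, ha, b, hb, ih⟩
      · exact Or.inl (CS.Ch.jump x a1 b1 y c1 n hc ha1 hb1 ih)
      · have e3 := via S ha1 hb1 x a
        exact Or.inr ⟨a, ha, b, hb, by omega⟩

theorem f1 (hL : HypLib) (c : C) (x y : X) (h : 2000 * S.θ ≤ S.ang c x y) :
    ∃ a b, S.EJ c x y a b := by
  have hθ := S.θ_pos
  have hc : c ∉ ({c}ᶜ : Set C) := fun hh => hh rfl
  rcases split S c (S.dh_ch x y) with h1 | ⟨a, ha, b, hb, h1⟩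
  swap
  · have := via S ha hb x y
    exact ⟨a, b, ha, hb, by omega⟩
  exfalso
  obtain ⟨p, p', hp, hp', e⟩ := S.ang_ex c x y
  have e0 : S.ang c x y = S.D.d p p' := e
  have e1 := S.gate c x p y p' hp hp'
  have e2 := S.D.tri p p' y
  obtain ⟨z, n', h2, h3, h4, h5⟩ := half S hL (p := p) h1 rfl (by unfold PM.Btw; omega) hc
  obtain ⟨k, hk, h6⟩ := h2.symm
  have e3 := h6.dh_le
  have e4 := S.dh_tri x z y
  have e5 := S.dh_symm z y
  obtain ⟨s, hs⟩ := S.pr_ex c z
  have e6 : S.D.d s p ≤ S.ang c z p := S.D.le_ang hs (S.D.pr_self hp.1)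
  have e7 := S.gate c y p' z s hp' hs
  have e8 := S.D.tri p s p'
  have e9 := S.D.symm s p
  have e10 := S.D.symm s p'
  have e11 := S.D.tri p' s z
  obtain ⟨z', n'', h7, h8, h9, h10⟩ :=
    half S hL (p := p') h6 (by omega) (by unfold PM.Btw; omega) hc
  have e12 := lb S h7 hc
  have e13 := ang_mem S hp.1 hp'.1
  have e14 := S.ang_tri c p z p'
  have e15 := S.ang_tri c z z' p'
  have e16 := S.ang_symm c p z
  have e17 := S.ang_symm c z z'
  have e18 := via S hp.1 hp'.1 x y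
  have e19 := S.dh_symm p' y
  omega

theorem ent (hL : HypLib) (c : C) (x a : X) (ha : a ∈ S.Y c)
    (h : ∀ a' ∈ S.Y c, S.dh x a ≤ S.dh x a') : S.ang c x a ≤ 40 * S.θ := by
  have hθ := S.θ_pos
  have hc : c ∉ ({c}ᶜ : Set C) := fun hh => hh rfl
  rcases split S c (S.dh_ch x a) with h1 | ⟨a', ha', b, -, h1⟩
  swap
  · have := h a' ha'
    omega
  obtain ⟨p, hp⟩ := S.pr_ex c x
  obtain ⟨z, n', h2, h3, h4, h5⟩ := half S hL (p := p) h1 rfl (S.gate0 hp ha) hc
  have e1 := h p hp.1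
  have e2 := lb S h2 hc
  have e3 := S.ang_pr hp
  have e4 := S.ang_tri c x p a
  have e5 := S.ang_tri c p z a
  have e6 := S.ang_symm c p z
  omega

theorem dist {x v y : X} {n m : ℕ} (hm : 1 ≤ m) (h : S.Ch Set.univ v y n) :
    (∀ c, S.ang c x y + 4 * S.θ ≤ m * (1000 * S.θ)) → S.dh x v + n = S.dh x y →
    S.D.d v y ≤ m * n := by
  induction h with
  | seg v y => exact fun _ _ => Nat.le_mul_of_pos_left _ hm
  | jump v a b y c n _ ha hb hch ih =>
    intro h1 h2
    have e1 := hch.dh_le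
    have e2 := via S ha hb x y
    have e3 := S.dh_tri x v a
    have e4 := hle S v a
    have e5 := S.dh_tri x b y
    have e6 := via S ha hb x b
    have e7 := S.dh_refl b
    have e8 := ih h1 (by omega)
    obtain ⟨e9, e10, -⟩ := st S (c := c) (x := x) (y := y) ⟨ha, hb, by omega⟩
    have e11 := ang_mem S ha hb
    have e12 := S.ang_tri c a x b
    have e13 := S.ang_tri c x y b
    have e14 := S.ang_symm c a x
    have e15 := S.ang_symm c y b
    have e16 := h1 c
    have e17 : S.D.d v a ≤ m * S.D.d v a := Nat.le_mul_of_pos_left _ hm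
    have e18 := S.D.tri v a y
    have e19 := S.D.tri a b y
    rw [mul_add, mul_add]
    omega

theorem geo {x v y : X} {n t : ℕ} (h : S.Ch Set.univ v y n) : S.dh x v + n = S.dh x y →
    S.dh x v ≤ t → t ≤ S.dh x y →
    ∃ z, S.dh x z + S.dh z y = S.dh x y ∧ t ≤ S.dh x z ∧ S.dh x z ≤ t + 1000 * S.θ := by
  have hθ := S.hθ
  induction h with
  | seg v y =>
    intro h1 h2 h3
    obtain ⟨z, h4, h5, h6⟩ := S.geom.geo v y (t - S.dh x v) (by omega)
    have e1 := S.dh_tri x v z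
    have e2 := hle S v z
    have e3 := S.dh_tri x z y
    have e4 := hle S z y
    exact ⟨z, by omega, by omega, by omega⟩
  | jump v a b y c n _ ha hb hch ih =>
    intro h1 h2 h3
    have e1 := hch.dh_le
    have e5 := S.dh_tri x b y
    have e6 := via S ha hb x b
    have e7 := S.dh_refl b
    have e8 := S.dh_tri x v a
    have e9 := hle S v a
    by_cases k1 : t ≤ S.dh x v + S.D.d v a
    · obtain ⟨z, h4, h5, h6⟩ := S.geom.geo v a (t - S.dh x v) (by omega)
      have f1 := S.dh_tri x v z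
      have f2 := hle S v z
      have f3 := S.dh_tri x z y
      have f4 := via S ha hb z y
      have f5 := hle S z a
      exact ⟨z, by omega, by omega, by omega⟩
    by_cases k2 : t ≤ S.dh x b
    · exact ⟨b, by omega, k2, by omega⟩
    · exact ih (by omega) (by omega) h3

theorem thin1 (hL : HypLib) {x y m : X} (h : S.D.Btw (19 * S.θ) x m y) :
    S.dh x m + S.dh m y ≤ S.dh x y + 2040 * S.θ := by
  have key : ∃ z, S.dh x z + S.dh z y ≤ S.dh x y ∧ S.dh z m ≤ 1020 * S.θ := by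
    obtain ⟨z, n', h1, h2, h3 | ⟨c1, -, a, -, q, hq, hz, -, h4⟩⟩ :=
      cover0 S hL (S.dh_ch x y) rfl h
    · have e1 := h1.dh_le
      have e2 := hle S z m
      exact ⟨z, by omega, by omega⟩
    · have e1 := h1.dh_le
      have e2 := hle S q m
      have e3 := via S hz hq z m
      have e4 := S.dh_refl z
      exact ⟨z, by omega, by omega⟩
  obtain ⟨z, h1, h2⟩ := key
  have e1 := S.dh_tri x z m
  have e2 := S.dh_tri m z y
  have e3 := S.dh_symm m z
  omega

end ElecA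

theorem elecStmt : HypLib → ElecStmt := by
  intro hL G X C _ _ _ S
  refine ⟨fun c x y a b h => ElecA.st S h, ElecA.f1 S hL, ElecA.ent S hL, fun x y m hm h => ?_,
    fun x y t ht => ?_, fun x y z m h => ?_⟩
  · exact ElecA.dist S hm (S.dh_ch x y) h (by rw [S.dh_refl, zero_add])
  · exact ElecA.geo S (S.dh_ch x y) (by rw [S.dh_refl, zero_add])
      (by rw [S.dh_refl]; exact Nat.zero_le _) ht
  · have h1 : S.D.d x m + S.D.d m y ≤ S.D.d x y + 18 * S.θ := ElecA.btw S h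
    have h2 := S.geom.hyp x y z m
    have h3 := S.hθ
    have h4 := S.D.symm z m
    have h5 := S.D.symm y m
    have h6 := S.D.symm y z
    by_cases k : S.D.Btw (19 * S.θ) x m z
    · exact Or.inl (ElecA.thin1 S hL k)
    · refine Or.inr (ElecA.thin1 S hL ?_)
      unfold PM.Btw at k ⊢
      omega

end Pool.Agent.Bu
end

-- part Pool.Agent.Lib.MP_5bec91_al.Bu.Lift
section

/-!
Lifting from the quotient: consequences of the Greendlinger property.
-/

set_option autoImplicit false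

namespace Pool.Agent.Bu

open MulAction

namespace Lift

section CSpart
variable {G X C : Type} [Group G] [MulAction G X] [MulAction G C] (S : CS G X C)

/-- Rotating one end around a cone shortens the distance by the change of the angle. -/
theorem short {c : C} {Q : G} (hQ : Q ∈ S.H c) (x y : X) (h : S.θ < S.ang c x y) :
    S.d x (Q • y) + S.ang c x y ≤ S.d x y + S.θ + S.ang c x (Q • y) := by
  obtain ⟨p, p', hp, hp', e⟩ := S.ang_ex c x y
  have h1 := S.gate c x p y p' hp hp'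
  have h2 := S.pr_smul Q hp'
  rw [S.Hfix c Q hQ] at h2
  have h3 := S.D.le_ang hp h2
  have h4 := S.D.tri x p (Q • y)
  have h5 := S.D.tri p (Q • p') (Q • y)
  have h6 := S.iso Q p' y
  simp only [CS.d, CS.ang] at *
  omega

/-- The Greendlinger property with its two consequences. -/
theorem star (hG : S.Gr) (y : X) {n : G} (hn : n ∈ S.N) (h1 : n ≠ 1) :
    ∃ c, ∃ Q ∈ S.H c, S.ang c y (Q • n • y) ≤ 13 * S.θ ∧
      10000000000 * S.θ ≤ S.ang c y (n • y) + 13 * S.θ ∧ S.d y (Q • n • y) < S.d y (n • y) := by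
  obtain ⟨c, Q, hQ, hQ1, h⟩ := hG y n hn h1
  rw [mul_smul] at h
  have h2 := S.spin_ang hQ hQ1 (n • y)
  have h3 := S.ang_tri c (n • y) y (Q • n • y)
  have h4 := S.ang_symm c (n • y) y
  have h5 := S.θ_pos
  have h6 : (10 : ℕ) ^ 10 = 10000000000 := by norm_num
  rw [h6] at h2
  have h7 : 10000000000 * S.θ ≤ S.ang c y (n • y) + 13 * S.θ := by omega
  refine ⟨c, Q, hQ, h, h7, ?_⟩
  have h8 := short S hQ y (n • y) (by omega)
  omega

theorem small (hG : S.Gr) (y : X) (n : G) (hn : n ∈ S.N)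
    (h : ∀ c, 10 * S.ang c y (n • y) ≤ 9 * 10 ^ 10 * S.θ) : n = 1 := by
  by_contra h1
  obtain ⟨c, Q, -, -, h2, -⟩ := star S hG y hn h1
  have h3 := h c
  have h5 := S.θ_pos
  have h6 : 9 * (10 : ℕ) ^ 10 = 90000000000 := by norm_num
  rw [h6] at h3
  omega

theorem stab (hG : S.Gr) (c : C) (b : X) (hb : b ∈ S.Y c) (m : ℕ) :
    ∀ n ∈ S.N, S.d b (n • b) = m → n • b ∈ S.Y c → n ∈ S.H c := by
  induction m using Nat.strong_induction_on with
  | _ m ih =>
    intro n hn hm hnb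
    by_cases h1 : n = 1
    · rw [h1]; exact (S.H c).one_mem
    obtain ⟨e, Q, hQ, -, h2, h3⟩ := star S hG b hn h1
    have hec : e = c := by
      by_contra hec
      have h4 := S.ovl e c b (n • b) hec hb hnb
      have h5 := S.θ_pos
      simp only [CS.ang] at h2
      omega
    subst hec
    have h4 : Q * n ∈ S.H e := by
      refine ih _ (hm ▸ h3) (Q * n) (S.N.mul_mem (S.H_le_N e hQ) hn) (by rw [mul_smul]) ?_
      rw [mul_smul]; exact S.H_mem hQ hnb
    have h5 := (S.H e).mul_mem ((S.H e).inv_mem hQ) h4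
    rwa [inv_mul_cancel_left] at h5

theorem uniq (hG : S.Gr) (c : C) (p p' : X) (hp : p ∈ S.Y c)
    (h : ∀ e, 3 * S.ang e p p' ≤ 10 ^ 10 * S.θ) (m : ℕ) :
    ∀ n ∈ S.N, S.d p' (n • p) = m → p' ∈ S.Y (n • c) → n • c = c := by
  induction m using Nat.strong_induction_on with
  | _ m ih =>
    intro n hn hm hp'
    by_cases h1 : n = 1
    · rw [h1, one_smul]
    obtain ⟨e, Q, hQ, h0, h2, -⟩ := star S hG p hn h1
    have h5 := S.θ_pos
    have h6 : (10 : ℕ) ^ 10 = 10000000000 := by norm_num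
    have h7 := h e
    rw [h6] at h7
    have h8 := S.ang_tri e p p' (n • p)
    have hec : e = n • c := by
      by_contra hec
      have h4 := S.ovl e (n • c) p' (n • p) hec hp' (S.Yeq n c p hp)
      simp only [CS.ang] at *
      omega
    have h9 : (Q * n) • c = n • c := by
      rw [mul_smul, ← hec]; exact S.Hfix e Q hQ
    have h10 := short S hQ p' (n • p) (by omega)
    have h11 := S.ang_tri e p' p (Q • n • p)
    have h12 := S.ang_symm e p' p
    rw [← h9]
    refine ih (S.d p' (Q • n • p)) (by omega) (Q * n) (S.N.mul_mem (S.H_le_N e hQ) hn)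
      (by rw [mul_smul]) ?_
    rw [h9]; exact hp'

theorem tf (hH : HypLib) (hG : S.Gr) (n : G) (hn : n ∈ S.N) (hf : IsOfFinOrder n) : n = 1 := by
  have hfin : Finite (Subgroup.zpowers n) := (finite_zpowers.2 hf).to_subtype
  obtain ⟨x, hx⟩ := hH.center0 S.D S.δ (Subgroup.zpowers n) S.geom hfin
  have h1 := hx n (Subgroup.mem_zpowers n)
  refine small S hG x n hn fun c => ?_
  have h2 := S.ang_le_d c x (n • x)
  have h3 := S.hθ
  have h6 : 9 * (10 : ℕ) ^ 10 = 90000000000 := by norm_num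
  rw [h6]
  simp only [CS.d] at h2
  omega

/-- A polygonal path with a large total angle has an edge with a large angle. -/
theorem edge (c : C) (y : ℕ → X) (k : ℕ)
    (h : ∀ i < k, S.ang c (y i) (y (i + 1)) < 2000 * S.θ) :
    S.ang c (y 0) (y k) ≤ S.θ + k * (2000 * S.θ) := by
  induction k with
  | zero =>
    have h1 := S.ang_le_d c (y 0) (y 0)
    have h2 := S.D.refl (y 0)
    simp only [CS.d] at h1
    omega
  | succ k ih =>
    have h1 := ih fun i hi => h i (by omega)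
    have h2 := h k (by omega)
    have h3 := S.ang_tri c (y 0) (y k) (y (k + 1))
    rw [Nat.succ_mul]
    omega

end CSpart

variable {G X C Gb Xb : Type} [Group G] [MulAction G X] [MulAction G C]
  [Group Gb] [MulAction Gb Xb] (S : QS G X C Gb Xb)

/-- Bending an exact pair around a cone with a large angle. -/
theorem bend (hE : Elec S.toCS) {c : C} {x y : X} {Q : G} (hxy : S.Exact x y)
    (h : 2000 * S.θ ≤ S.ang c x y) (hQ : Q ∈ S.H c) : S.Exact x (Q • y) := by
  obtain ⟨a, b, ha, hb, e⟩ := hE.f1 c x y h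
  have h1 := S.dh_jump ha (S.H_mem hQ hb)
  have h2 := S.dh_tri x a (Q • y)
  have h3 := S.dh_tri a (Q • b) (Q • y)
  have h4 := S.dh_smul Q b y
  have h5 := S.db_le x (Q • y)
  unfold QS.Exact at *
  rw [S.q_N (S.H_le_N c hQ)] at h5 ⊢
  simp only [QS.db] at *
  omega

theorem ec_aux (hG : S.Gr) (hE : Elec S.toCS) (x y : X)
    (h : ∀ c, 2 * S.ang c x y ≤ 10 ^ 10 * S.θ) (m : ℕ) :
    ∀ n ∈ S.N, S.d y (n • y) = m → S.Exact x (n • y) → S.Exact x y := by
  induction m using Nat.strong_induction_on with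
  | _ m ih =>
    intro n hn hm hx
    by_cases h1 : n = 1
    · rwa [h1, one_smul] at hx
    obtain ⟨c, Q, hQ, -, h2, h3⟩ := star S.toCS hG y hn h1
    have h5 := S.θ_pos
    have h6 : (10 : ℕ) ^ 10 = 10000000000 := by norm_num
    have h7 := h c
    rw [h6] at h7
    have h8 := S.ang_tri c y x (n • y)
    have h9 := S.ang_symm c y x
    have h10 := bend S hE hx (c := c) (by omega) hQ
    refine ih _ (hm ▸ h3) (Q * n) (S.N.mul_mem (S.H_le_N c hQ) hn) (by rw [mul_smul]) ?_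
    rwa [mul_smul]

theorem ec (hG : S.Gr) (hE : Elec S.toCS) (x y : X)
    (h : ∀ c, 2 * S.ang c x y ≤ 10 ^ 10 * S.θ) : S.Exact x y := by
  obtain ⟨n, hn, e⟩ := S.db_ex x y
  refine ec_aux S hG hE x y h _ n hn rfl ?_
  unfold QS.Exact
  rw [e, S.q_N hn]

theorem lift (hG : S.Gr) (hE : Elec S.toCS) (k : ℕ) (hk : k ≤ 8) (m : ℕ) :
    ∀ (y : ℕ → X) (e : ℕ → Option C), S.d (y 0) (y k) = m →
    (∀ i < k, e i = none → S.Exact (y i) (y (i + 1))) →
    (∀ i < k, ∀ c, e i = some c → y i ∈ S.Y c ∧ y (i + 1) ∈ S.Y c) →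
    S.q (y k) = S.q (y 0) →
    ∃ n : ℕ → G, (∀ i, n i ∈ S.N) ∧ n 0 = 1 ∧ n k • y k = y 0 ∧
      (∀ i < k, e i = none → S.Exact (n i • y i) (n (i + 1) • y (i + 1))) ∧
      (∀ i < k, ∀ c, e i = some c → (n i)⁻¹ * n (i + 1) ∈ S.H c) := by
  induction m using Nat.strong_induction_on with
  | _ m ih =>
    intro y e hm h1 h2 hq
    obtain ⟨g, hg, hy⟩ := S.q_eq (y 0) (y k) hq.symm
    by_cases hg1 : g = 1
    · refine ⟨fun _ => 1, fun _ => S.N.one_mem, rfl, ?_, ?_, ?_⟩
      · rw [hy, hg1, one_smul, one_smul]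
      · intro i hi he
        simpa only [one_smul] using h1 i hi he
      · intro i _ c _
        simp only [inv_one, mul_one]
        exact (S.H c).one_mem
    obtain ⟨c, Q, hQ, -, h3, h4⟩ := star S.toCS hG (y 0) hg hg1
    rw [← hy] at h3 h4
    have hθ := S.θ_pos
    obtain ⟨i, hi, hang⟩ : ∃ i < k, 2000 * S.θ ≤ S.ang c (y i) (y (i + 1)) := by
      by_contra hc
      have h5 := edge S.toCS c y k fun i hi => by
        by_contra h6
        exact hc ⟨i, hi, by omega⟩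
      have h6 : k * (2000 * S.θ) ≤ 8 * (2000 * S.θ) := Nat.mul_le_mul_right _ hk
      omega
    have hcone : ∀ c1, e i = some c1 → c1 = c := by
      intro c1 he
      by_contra hne
      have h5 := h2 i hi c1 he
      have h6 := S.ovl c c1 (y i) (y (i + 1)) (Ne.symm hne) h5.1 h5.2
      simp only [CS.ang] at hang
      omega
    obtain ⟨w, hw0, hw1⟩ : ∃ w : ℕ → G, (∀ j ≤ i, w j = 1) ∧ ∀ j, i < j → w j = Q :=
      ⟨fun j => if j ≤ i then 1 else Q, fun j hj => if_pos hj, fun j hj => if_neg (by omega)⟩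
    have hwN : ∀ j, w j ∈ S.N := by
      intro j
      rcases le_or_gt j i with hj | hj
      · rw [hw0 j hj]; exact S.N.one_mem
      · rw [hw1 j hj]; exact S.H_le_N c hQ
    have hws : ∀ j, j ≠ i → w (j + 1) = w j := by
      intro j hj
      rcases lt_or_gt_of_ne hj with hj | hj
      · rw [hw0 j hj.le, hw0 (j + 1) hj]
      · rw [hw1 j hj, hw1 (j + 1) (by omega)]
    have hwi : w i = 1 := hw0 i le_rfl
    have hwi' : w (i + 1) = Q := hw1 (i + 1) (by omega)
    obtain ⟨n, hnN, hn0, hnk, hne, hnc⟩ := ih (S.d (y 0) (Q • y k)) (hm ▸ h4)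
      (fun j => w j • y j) (fun j => (e j).map fun c1 => w j • c1)
      (by simp only [hw0 0 (Nat.zero_le i), hw1 k hi, one_smul])
      (by
        intro j hj he
        have he' : e j = none := by simpa using he
        by_cases hji : j = i
        · subst hji
          simp only [hwi, hwi', one_smul]
          exact bend S hE (h1 j hj he') hang hQ
        · simp only [hws j hji]
          exact (h1 j hj he').smul S (w j))
      (by
        intro j hj c1 he
        obtain ⟨c2, he2, rfl⟩ := Option.map_eq_some_iff.1 he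
        have h5 := h2 j hj c2 he2
        by_cases hji : j = i
        · subst hji
          simp only [hwi, hwi', one_smul]
          have h6 := hcone c2 he2
          subst h6
          exact ⟨h5.1, S.H_mem hQ h5.2⟩
        · simp only [hws j hji]
          exact ⟨S.Yeq _ _ _ h5.1, S.Yeq _ _ _ h5.2⟩)
      (by
        show S.q (w k • y k) = S.q (w 0 • y 0)
        rw [S.q_N (hwN k), S.q_N (hwN 0), hq])
    refine ⟨fun j => n j * w j, fun j => S.N.mul_mem (hnN j) (hwN j), ?_, ?_, ?_, ?_⟩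
    · show n 0 * w 0 = 1
      rw [hn0, hw0 0 (Nat.zero_le i), one_mul]
    · show (n k * w k) • y k = y 0
      rw [mul_smul, hnk, hw0 0 (Nat.zero_le i), one_smul]
    · intro j hj he
      simp only [mul_smul]
      exact hne j hj (by rw [he]; rfl)
    · intro j hj c1 he
      have h5 := hnc j hj (w j • c1) (by rw [he]; rfl)
      show (n j * w j)⁻¹ * (n (j + 1) * w (j + 1)) ∈ S.H c1
      by_cases hji : j = i
      · subst hji
        have h6 := hcone c1 he
        subst h6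
        rw [hwi, one_smul] at h5
        rw [hwi, hwi', mul_one, ← mul_assoc]
        exact (S.H c1).mul_mem h5 hQ
      · have h6 := S.Hconj (w j)⁻¹ _ _ h5
        rw [inv_smul_smul] at h6
        rw [hws j hji]
        convert h6 using 1
        group

end Lift

theorem liftStmt : HypLib → LiftStmt := by
  intro hH G X C Gb Xb _ _ _ _ _ S hG hE
  exact ⟨Lift.small S.toCS hG,
    fun c b n hn hb hnb => Lift.stab S.toCS hG c b hb _ n hn rfl hnb,
    fun c p p' n hn hp hp' h => Lift.uniq S.toCS hG c p p' hp h _ n hn rfl hp',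
    Lift.tf S.toCS hH hG, Lift.ec S hG hE,
    fun k y e hk h1 h2 hq => Lift.lift S hG hE k hk _ y e rfl h1 h2 hq⟩

end Pool.Agent.Bu
end

-- part Pool.Agent.Lib.MP_5bec91_al.Bu.QGeo
section

/-! Geometry of the quotient space. -/

set_option autoImplicit false

namespace Pool.Agent.Bu

open MulAction

namespace QGeoP
variable {G X C Gb Xb : Type} [Group G] [MulAction G X] [MulAction G C]
  [Group Gb] [MulAction Gb Xb] {S : QS G X C Gb Xb}

theorem ent' (hE : Elec S.toCS) {c : C} {x p : X} (hp : S.Pi c (S.q x) p) (hx : S.Exact x p) :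
    S.ang c x p ≤ 40 * S.θ := by
  refine hE.ent c x p hp.1 fun a ha => ?_
  have h1 := S.r_le ha (S.q x)
  have h2 := S.db_le x a
  have h3 := hp.2
  unfold QS.Exact at hx
  simp only [QS.db] at *
  omega

theorem key (hE : Elec S.toCS) (hL : LiftLib S) {c : C} {p p' x y : X} (e : Option C)
    (hp : S.Pi c (S.q x) p) (hp' : S.Pi c (S.q y) p') (hx : S.Exact p x)
    (h1 : e = none → S.Exact x y) (h2 : ∀ c', e = some c' → x ∈ S.Y c' ∧ y ∈ S.Y c') :
    ∃ m ∈ S.N, ∃ m' ∈ S.N, ∃ h ∈ S.H c, (e = none → S.Exact (m • x) (m' • y)) ∧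
      (∀ c', e = some c' → m⁻¹ * m' ∈ S.H c') ∧ S.ang c (m • x) p ≤ 40 * S.θ ∧
      S.ang c (m' • y) (h • p') ≤ 40 * S.θ := by
  obtain ⟨z, hz, hyz⟩ := S.exact_ex y (S.q p')
  obtain ⟨n, hn, rfl⟩ := S.q_eq p' z hz.symm
  obtain ⟨m, m1, m2, m3, m4, m5⟩ := hL.lift 4
    (fun i => match i with | 0 => p | 1 => x | 2 => y | 3 => n • p' | _ => n • p)
    (fun i => match i with | 1 => e | 3 => some (n • c) | _ => none) (by norm_num)
    (fun i hi he => by
      interval_cases i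
      · exact hx
      · exact h1 he
      · exact hyz
      · exact absurd he (by simp))
    (fun i hi c' he => by
      interval_cases i
      · exact absurd he (by simp)
      · exact h2 c' he
      · exact absurd he (by simp)
      · obtain rfl : n • c = c' := by simpa using he
        exact ⟨S.Yeq n c _ hp'.1, S.Yeq n c _ hp.1⟩)
    (S.q_N hn p)
  have a1 : m 4 * n ∈ S.H c := hL.stab c p _ (S.N.mul_mem (m1 4) hn) hp.1 (by
    rw [mul_smul]; exact (show m 4 • n • p = p from m3).symm ▸ hp.1)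
  have a2 := S.Hconj n⁻¹ _ _ (m5 3 (by norm_num) _ rfl)
  rw [inv_smul_smul] at a2
  have a3 : m 3 * n ∈ S.H c := by
    have := (S.H c).mul_mem a1 ((S.H c).inv_mem a2)
    rwa [show m 4 * n * (n⁻¹ * ((m 3)⁻¹ * m (3 + 1)) * n⁻¹⁻¹)⁻¹ = m 3 * n by group] at this
  refine ⟨m 1, m1 1, m 2, m1 2, m 3 * n, a3, m4 1 (by norm_num), m5 1 (by norm_num), ?_, ?_⟩
  · refine ent' hE (by rw [S.q_N (m1 1)]; exact hp) (QS.Exact.symm S ?_)
    have := m4 0 (by norm_num) rfl
    rwa [m2, one_smul] at this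
  · refine ent' hE (by rw [S.q_N (m1 2)]; exact hp'.rot S a3) ?_
    rw [mul_smul]
    exact m4 2 (by norm_num) rfl

theorem d_le {c : C} {p p' x y : X} (hp : p ∈ S.Y c) (hp' : p' ∈ S.Y c) :
    S.d p p' ≤ S.ang c x p + S.ang c x y + S.ang c y p' := by
  have h1 := S.D.ang_mem hp hp'
  have h2 := S.ang_tri c p x p'
  have h3 := S.ang_tri c x y p'
  have h4 := S.ang_symm c p x
  simp only [CS.d, CS.ang] at *
  omega

theorem key1 (hE : Elec S.toCS) (hL : LiftLib S) {c : C} {u v : Xb} {p p' : X}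
    (hp : S.Pi c u p) (hp' : S.Pi c v p') : ∃ x y, ∃ h ∈ S.H c, S.q x = u ∧ S.q y = v ∧
      S.Exact x y ∧ S.d p (h • p') ≤ S.ang c x y + 80 * S.θ := by
  obtain ⟨x, rfl, hx⟩ := S.exact_ex p u
  obtain ⟨y, rfl, hy⟩ := S.exact_ex x v
  obtain ⟨m, hm, m', hm', h, hh, a1, -, a2, a3⟩ := key hE hL none hp hp' hx (fun _ => hy)
    (fun _ h => absurd h (by simp))
  refine ⟨_, _, h, hh, S.q_N hm x, S.q_N hm' y, a1 rfl, ?_⟩
  have := d_le (x := m • x) (y := m' • y) hp.1 (S.H_mem hh hp'.1)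
  omega

theorem q5' (hE : Elec S.toCS) (hL : LiftLib S) {c : C} {u v : Xb} {p p' : X}
    (hp : S.Pi c u p) (hp' : S.Pi c v p') (h : S.db u v < 1000 * S.θ) :
    ∃ h ∈ S.H c, S.d p (h • p') ≤ S.db u v + 100 * S.θ := by
  obtain ⟨x, y, k, hk, rfl, rfl, a1, a2⟩ := key1 hE hL hp hp'
  unfold QS.Exact at a1
  have a3 := S.dh_small (x := x) (y := y) (by omega)
  have a4 := S.ang_le_d c x y
  exact ⟨k, hk, by omega⟩

theorem q0 (hE : Elec S.toCS) (hL : LiftLib S) (c : C) (u : Xb) (p p' : X) (hp : S.Pi c u p)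
    (hp' : S.Pi c u p') : ∃ h ∈ S.H c, S.d p (h • p') ≤ 100 * S.θ := by
  have h0 : S.db u u = 0 := S.Db.refl u
  have := S.θ_pos
  obtain ⟨h, hh, a⟩ := q5' hE hL hp hp' (by omega)
  exact ⟨h, hh, by omega⟩

theorem q5 (hE : Elec S.toCS) (hL : LiftLib S) (c : C) (u v : Xb) (h : S.db u v < 1000 * S.θ) :
    S.qang c u v ≤ S.db u v + 100 * S.θ := by
  obtain ⟨p, hp⟩ := S.pi_ex c u
  obtain ⟨p', hp'⟩ := S.pi_ex c v
  obtain ⟨k, hk, a⟩ := q5' hE hL hp hp' h
  exact (S.qang_le hp (hp'.rot S hk)).trans a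

theorem q1 (hE : Elec S.toCS) (hL : LiftLib S) (c : C) (u v w : Xb) :
    S.qang c u w ≤ S.qang c u v + S.qang c v w + 100 * S.θ := by
  obtain ⟨p, p', hp, hp', e⟩ := S.qang_ex c u v
  obtain ⟨s, s', hs, hs', e'⟩ := S.qang_ex c v w
  obtain ⟨h, hh, a⟩ := q0 hE hL c v p' s hp' hs
  have a1 := S.qang_le hp (hs'.rot S hh)
  have a2 := S.iso h s s'
  have a3 := S.D.tri p p' (h • s')
  have a4 := S.D.tri p' (h • s) (h • s')
  simp only [CS.d] at *
  omega

theorem q3 (c : C) (x y a b : X) (hx : S.Exact x y) (h : S.EJ c x y a b) :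
    S.Pi c (S.q x) a ∧ S.Pi c (S.q y) b ∧ S.r c (S.q x) = S.dh x a ∧ S.r c (S.q y) = S.dh b y := by
  obtain ⟨ha, hb, e⟩ := h
  have a1 := S.db_le_r c (S.q x) (S.q y)
  have a2 := S.r_le ha (S.q x)
  have a3 := S.r_le hb (S.q y)
  have a4 := S.db_le x a
  have a5 := S.db_le y b
  have a6 := S.dh_symm y b
  unfold QS.Exact at hx
  refine ⟨⟨ha, ?_⟩, ⟨hb, ?_⟩, ?_, ?_⟩ <;> simp only [QS.db] at * <;> omega

theorem q2 (hE : Elec S.toCS) (hL : LiftLib S) (c : C) (u v : Xb)
    (h : 3000 * S.θ ≤ S.qang c u v) : S.db u v = S.r c u + 1000 * S.θ + S.r c v := by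
  obtain ⟨p, hp⟩ := S.pi_ex c u
  obtain ⟨p', hp'⟩ := S.pi_ex c v
  obtain ⟨x, y, k, hk, rfl, rfl, a1, a2⟩ := key1 hE hL hp hp'
  have a3 := S.qang_le hp (hp'.rot S hk)
  obtain ⟨a, b, hj⟩ := hE.f1 c x y (by omega)
  obtain ⟨-, -, a4, a5⟩ := q3 c x y a b a1 hj
  have a6 := hj.2.2
  unfold QS.Exact at a1
  omega

theorem q4 (hE : Elec S.toCS) (hL : LiftLib S) (c c' : C) (x y : X) (hs : ¬ S.Sim c c')
    (hx : x ∈ S.Y c') (hy : y ∈ S.Y c') : S.qang c (S.q x) (S.q y) ≤ 100 * S.θ := by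
  obtain ⟨p, hp⟩ := S.pi_ex c (S.q x)
  obtain ⟨p', hp'⟩ := S.pi_ex c (S.q y)
  obtain ⟨z, hz, hpz⟩ := S.exact_ex p (S.q x)
  obtain ⟨n, hn, rfl⟩ := S.q_eq x z hz.symm
  obtain ⟨m, hm, m', hm', h, hh, -, a1, a2, a3⟩ := key hE hL (y := n • y) (some (n • c'))
    (by rw [S.q_N hn]; exact hp) (by rw [S.q_N hn]; exact hp') hpz
    (fun h => absurd h (by simp)) (fun c'' h => by
      obtain rfl : n • c' = c'' := by simpa using h
      exact ⟨S.Yeq n c' _ hx, S.Yeq n c' _ hy⟩)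
  have a4 : m' • n • y ∈ S.Y (m • n • c') := by
    have := S.Yeq m _ _ (S.H_mem (a1 _ rfl) (S.Yeq n c' _ hy))
    rwa [← mul_smul m (m⁻¹ * m'), mul_inv_cancel_left] at this
  have a5 := S.ovl c (m • n • c') _ _ (fun e => hs (QS.Sim.symm S
    ⟨m * n, S.N.mul_mem hm hn, by rw [mul_smul]; exact e⟩)) (S.Yeq m _ _ (S.Yeq n c' _ hx)) a4
  have a6 := d_le (x := m • n • x) (y := m' • n • y) hp.1 (S.H_mem hh hp'.1)
  have a7 := S.qang_le hp (hp'.rot S hh)
  simp only [CS.ang] at *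
  omega

theorem q7 (hE : Elec S.toCS) (hL : LiftLib S) (c c' : C) (u : Xb) (y : X) (hs : ¬ S.Sim c c')
    (hy : y ∈ S.Y c') (h : 4000 * S.θ ≤ S.qang c u (S.q y)) :
    ∃ p ∈ S.Y c', S.r c' u = S.r c u + 1000 * S.θ + S.r c (S.q p) := by
  obtain ⟨p, hp⟩ := S.pi_ex c' u
  have a1 := q4 hE hL c c' p y hs hp.1 hy
  have a2 := q1 hE hL c u (S.q p) (S.q y)
  exact ⟨p, hp.1, hp.2.symm.trans (q2 hE hL c u (S.q p) (by omega))⟩

theorem sep (hE : Elec S.toCS) (hL : LiftLib S) (c c' : C) (u v : Xb) (hs : ¬ S.Sim c c')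
    (h : 9000 * S.θ ≤ S.qang c u v) (h' : 3000 * S.θ ≤ S.qang c' u v) :
    S.r c u + 1000 * S.θ ≤ S.r c' u ∨ S.r c' u + 1000 * S.θ ≤ S.r c u := by
  obtain ⟨y, hy⟩ := S.ne c'
  have a1 := q1 hE hL c u (S.q y) v
  have a2 := S.qang_symm c (S.q y) v
  by_cases a3 : 4000 * S.θ ≤ S.qang c u (S.q y)
  · obtain ⟨p, -, e⟩ := q7 hE hL c c' u y hs hy a3
    omega
  · obtain ⟨p, -, e⟩ := q7 hE hL c c' v y hs hy (by omega)
    have a4 := q2 hE hL c u v (by omega)
    have a5 := q2 hE hL c' u v h'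
    omega

theorem sl (hE : Elec S.toCS) (hL : LiftLib S) (x : X) (v : Xb) : ∃ y, S.q y = v ∧ S.Exact x y ∧
    ∀ c, S.ang c x y ≤ 2000 * S.θ ∨ S.ang c x y ≤ S.qang c (S.q x) v + 300 * S.θ := by
  classical
  have hex : ∃ n, ∃ y, S.q y = v ∧ S.Exact x y ∧ S.d x y = n := by
    obtain ⟨y, h1, h2⟩ := S.exact_ex x v
    exact ⟨_, y, h1, h2, rfl⟩
  obtain ⟨y, rfl, hy, e⟩ := Nat.find_spec hex
  refine ⟨y, rfl, hy, fun c => ?_⟩
  by_cases h : S.ang c x y ≤ 2000 * S.θ
  · exact Or.inl h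
  right
  obtain ⟨a, b, hj⟩ := hE.f1 c x y (by omega)
  obtain ⟨ha, hb, -, -⟩ := q3 c x y a b hy hj
  obtain ⟨p, p', hp, hp', e1⟩ := S.qang_ex c (S.q x) (S.q y)
  obtain ⟨k, hk, a1⟩ := q0 hE hL c _ a p ha hp
  obtain ⟨g, hg, a2⟩ := q0 hE hL c _ (k • p') b (hp'.rot S hk) hb
  have a3 : S.q (g • y) = S.q y := S.q_N (S.H_le_N c hg) y
  have a4 : S.Exact x (g • y) := by
    have b1 := S.db_le x (g • y)
    have b2 := S.dh_tri x a (g • y)
    have b3 := S.dh_tri a (g • b) (g • y)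
    have b4 := S.dh_jump ha.1 (S.H_mem hg hb.1)
    have b5 := S.dh_smul g b y
    have b6 := hj.2.2
    unfold QS.Exact at *
    simp only [QS.db, a3] at *
    omega
  have a5 : S.d x y ≤ S.d x (g • y) := e ▸ Nat.find_min' hex ⟨g • y, a3, a4, rfl⟩
  obtain ⟨s1, s2, -, s3⟩ := hE.st c x y a b hj
  have a6 := S.ang_tri c x a y
  have a7 := S.ang_tri c a b y
  have a8 := S.D.ang_mem ha.1 hb.1
  have a9 := S.D.tri x a (g • y)
  have a10 := S.D.tri a (g • b) (g • y)
  have a11 := S.iso g b y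
  have a12 := S.D.tri a (k • p) (g • b)
  have a13 := S.D.tri (k • p) (k • p') (g • b)
  have a14 := S.iso k p p'
  simp only [CS.d, CS.ang] at *
  omega

theorem geo (hE : Elec S.toCS) : S.Db.Geo (1000 * S.θ) := by
  intro u v t ht
  obtain ⟨x, rfl⟩ := S.q_surj u
  obtain ⟨y, rfl, hy⟩ := S.exact_ex x v
  unfold QS.Exact at hy
  obtain ⟨z, h1, h2, h3⟩ := hE.geo x y t (ht.trans hy.ge)
  have a1 := S.db_le x z
  have a2 := S.db_le z y
  have a3 := S.Db.tri (S.q x) (S.q z) (S.q y)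
  simp only [CS.Dh, QS.db] at *
  exact ⟨S.q z, by omega, by omega, by omega⟩

theorem thin (hE : Elec S.toCS) (hL : LiftLib S) : S.Db.Thin (2040 * S.θ) := by
  intro u v w m hm
  obtain ⟨x, rfl⟩ := S.q_surj u
  obtain ⟨a, rfl, ha⟩ := S.exact_ex x m
  obtain ⟨y, rfl, hy⟩ := S.exact_ex a v
  obtain ⟨z, rfl, hz⟩ := S.exact_ex y w
  obtain ⟨x', hx, hx'⟩ := S.exact_ex z (S.q x)
  obtain ⟨n, n1, n2, n3, n4, -⟩ := hL.lift 4
    (fun i => match i with | 0 => x | 1 => a | 2 => y | 3 => z | _ => x') (fun _ => none)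
    (by norm_num) (fun i hi _ => by interval_cases i <;> assumption)
    (fun i _ c he => absurd he (by simp)) hx
  have e0 : S.Exact (n 0 • x) (n 1 • a) := n4 0 (by norm_num) rfl
  have e1 : S.Exact (n 1 • a) (n 2 • y) := n4 1 (by norm_num) rfl
  have e2 : S.Exact (n 2 • y) (n 3 • z) := n4 2 (by norm_num) rfl
  have e3 : S.Exact (n 3 • z) (n 4 • x') := n4 3 (by norm_num) rfl
  rw [show n 4 • x' = x from n3] at e3
  rw [n2, one_smul] at e0
  have a1 := S.db_le x (n 2 • y)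
  have a2 := S.db_le (n 1 • a) (n 3 • z)
  have a3 := S.dh_tri x (n 1 • a) (n 2 • y)
  have a4 := S.dh_symm (n 1 • a) (n 3 • z)
  have a5 := S.dh_symm x (n 3 • z)
  have a6 := S.dh_symm (n 2 • y) (n 3 • z)
  have a7 := S.Db.symm (S.q a) (S.q z)
  have a8 := S.Db.symm (S.q x) (S.q z)
  have a9 := S.Db.symm (S.q y) (S.q z)
  have a10 := hE.thin x (n 2 • y) (n 3 • z) (n 1 • a)
  unfold QS.Exact at *
  simp only [CS.Dh, QS.db, PM.Btw, S.q_N (n1 _)] at *
  omega

end QGeoP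

theorem qgeoStmt : HypLib → QGeoStmt := by
  intro hH G X C Gb Xb _ _ _ _ _ S hE hL
  have h0 := S.θ_pos
  refine ⟨⟨S.db_iso, by omega, fun x y z w => ?_, fun x y t ht => ?_, S.geom.ne.map S.q⟩,
    QGeoP.q0 hE hL, QGeoP.q1 hE hL, QGeoP.q2 hE hL, QGeoP.q3, QGeoP.q4 hE hL, QGeoP.q5 hE hL,
    QGeoP.q7 hE hL, QGeoP.sep hE hL, QGeoP.sl hE hL⟩
  · have := hH.thin S.Db _ _ (QGeoP.thin hE hL) (QGeoP.geo hE) x y z w
    omega
  · obtain ⟨z, h1, h2, h3⟩ := QGeoP.geo hE x y t ht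
    exact ⟨z, h1, h2, by omega⟩

end Pool.Agent.Bu
end
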