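import Pool.Agent.Lib.MP_5bec91_al.Bu.NewOne

-- part Pool.Agent.Lib.MP_5bec91_al.Bu.Limit
section

/-! The limit of the levels. -/

set_option autoImplicit false

namespace Pool.Agent.Bu

namespace Limit

theorem aok_fin {A : Type} [CommGroup A] (hA : AOK A) (a : A) : IsOfFinOrder a := by
  by_cases h : a = 1
  · rw [h]; exact IsOfFinOrder.one
  · refine orderOf_pos_iff.1 (lt_of_lt_of_le ?_ (hA a h).1)
    unfold n0
    positivity

theorem exists_invol {G : Type} [Group G] {g : G} (hg : g ≠ 1) (h : ∃ n : ℕ, g ^ (2 ^ n) = 1) :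
    ∃ k : ℕ, g ^ k ≠ 1 ∧ (g ^ k) ^ 2 = 1 := by
  obtain ⟨n, hn⟩ := h
  induction n with
  | zero => exact absurd (by simpa using hn) hg
  | succ n ih =>
    by_cases h : g ^ 2 ^ n = 1
    · exact ih h
    · exact ⟨2 ^ n, h, by rw [← pow_mul, ← pow_succ, hn]⟩

theorem cyc_range {F G : Type} [Field F] [Group G] (hA : AOK Fˣ) (φ : Fˣ →* G) (H : Subgroup G)
    (hH : H ≤ φ.range) (hf : H.FG) : IsCyclic H := by
  obtain ⟨T, rfl, hT⟩ := (Subgroup.fg_iff H).1 hf
  obtain ⟨T', -, hT', rfl⟩ := hT.exists_subset_finite_image_eq (f := φ) (s := Set.univ)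
    fun x hx => by
      obtain ⟨a, ha⟩ := hH (Subgroup.subset_closure hx)
      exact ⟨a, trivial, ha⟩
  have := hT'.to_subtype
  have : Finite (Subgroup.closure T') := CommGroup.finite_of_fg_isMulTorsion _ fun x =>
    ((Subgroup.closure T').subtype_injective.isOfFinOrder_iff).1 (aok_fin hA _)
  rw [← MonoidHom.map_closure]
  exact isCyclic_of_surjective _ (φ.subgroupMap_surjective _)

theorem core {F Γ : Type} [Field F] [Group Γ] (hA : AOK Fˣ) (π : Γ →* Fˣ)
    (ι : Multiplicative F →* Γ) (σ : Fˣ →* Γ) (inj : Function.Injective ι)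
    (conj : ∀ (g : Γ) (f : F), g * ι (Multiplicative.ofAdd f) * g⁻¹ =
      ι (Multiplicative.ofAdd ((π g : F) * f)))
    (sec : ∀ a, π (σ a) = a) (two : ∀ g, π g = 1 → ∃ n : ℕ, g ^ (2 ^ n) = 1)
    (invol : ∀ x, π x = 1 → x ^ 2 = 1 → x ∈ ι.range) (S : Set Γ) (hS : S.Finite)
    (hS' : ∀ s ∈ S, π s = 1) (inf : ¬ Finite (Subgroup.closure S)) : Main := by
  intro h
  have two' : ∀ g : π.ker, ∃ n : ℕ, g ^ (2 ^ n) = 1 := fun g =>
    (two g g.2).imp fun n hn => Subtype.ext hn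
  have inv' : ∀ x : π.ker, x ≠ 1 → x ^ 2 = 1 →
      ∃ f : F, f ≠ 0 ∧ ι (Multiplicative.ofAdd f) = x := by
    intro x h1 h2
    obtain ⟨f, hf⟩ := invol x x.2 (congrArg Subtype.val h2)
    refine ⟨f.toAdd, fun h0 => h1 (Subtype.ext ?_), hf⟩
    rw [← hf, show f = 1 from h0, map_one]
    rfl
  have act : ∀ (a : Fˣ) (x : π.ker) (f : F), ι (Multiplicative.ofAdd f) = x →
      ((MulAut.conjNormal.comp σ) a x : π.ker) = ι (Multiplicative.ofAdd ((a : F) * f)) := by
    intro a x f hf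
    rw [MonoidHom.comp_apply, MulAut.conjNormal_apply, ← hf, conj, sec]
  have := h π.ker two' (MulAut.conjNormal.comp σ).range ?_ (cyc_range hA _) ?_ ?_
    (Subgroup.closure (Subtype.val ⁻¹' S))
    ((Subgroup.fg_iff _).2 ⟨_, rfl, hS.preimage Subtype.val_injective.injOn⟩)
  · apply inf
    have e : Subgroup.closure S = (Subgroup.closure (Subtype.val ⁻¹' S)).map π.ker.subtype := by
      rw [MonoidHom.map_closure]
      congr 1
      exact (Set.image_preimage_eq_of_subset fun s hs => ⟨⟨s, hS' s hs⟩, rfl⟩).symm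
    rw [e]
    exact Finite.of_surjective _ (π.ker.subtype.subgroupMap_surjective _)
  · rintro _ ⟨a, rfl⟩
    exact MonoidHom.isOfFinOrder _ (aok_fin hA a)
  · rintro _ ⟨a, rfl⟩ ha g hg e
    obtain ⟨k, h1, h2⟩ := exists_invol hg (two' g)
    obtain ⟨f, hf, hx⟩ := inv' _ h1 h2
    have h3 := act a _ f hx
    rw [map_pow, e, ← hx] at h3
    have h4 : f = a * f := inj h3
    have h5 : a = 1 := Units.ext (by
      rw [Units.val_one]
      exact mul_right_cancel₀ hf (by rw [one_mul, ← h4]))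
    exact ha (by rw [h5, map_one])
  · intro x y hx hy
    obtain ⟨f, hf, ex⟩ := inv' x (by rintro rfl; simp at hx) (by rw [← hx, pow_orderOf_eq_one])
    obtain ⟨f', hf', ey⟩ := inv' y (by rintro rfl; simp at hy) (by rw [← hy, pow_orderOf_eq_one])
    refine ⟨_, ⟨Units.mk0 (f' / f) (div_ne_zero hf' hf), rfl⟩, Subtype.ext ?_⟩
    rw [act _ x f ex, Units.val_mk0, div_mul_cancel₀ _ hf, ey]

/-- A finitely generated group which is finite in the limit is finite at some level. -/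
theorem fin_level {K Γ : Type} [Group K] [Group.FG K] [Group Γ] (f : K →* Γ) [Finite f.range]
    (N : ℕ → Subgroup K) (hN : Monotone N) (h : ∀ x, f x = 1 → ∃ j, x ∈ N j) :
    ∃ j, (N j).FiniteIndex := by
  obtain ⟨T, e, hT⟩ := (Subgroup.fg_iff _).1 ((Group.fg_iff_subgroup_fg f.ker).1 inferInstance)
  choose! j hj using h
  obtain ⟨J, hJ⟩ := (hT.image j).bddAbove
  have : f.ker ≤ N J := by
    rw [← e, Subgroup.closure_le]
    intro x hx
    exact hN (hJ ⟨x, hx, rfl⟩) (hj x (e ▸ Subgroup.subset_closure hx : x ∈ f.ker))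
  exact ⟨J, Subgroup.finiteIndex_of_le this⟩

theorem quot {F Γ : Type} [Field F] [Group Γ] (hA : AOK Fˣ) (π : Γ →* Fˣ)
    (ι : Multiplicative F →* Γ) (σ : Fˣ →* Γ)
    (conj : ∀ (g : Γ) (f : F), g * ι (Multiplicative.ofAdd f) * g⁻¹ =
      ι (Multiplicative.ofAdd ((π g : F) * f)))
    (sec : ∀ a, π (σ a) = a) (N : ℕ → Subgroup Γ) (hN : Monotone N) (nrm : ∀ j, (N j).Normal)
    (ker : ∀ j, N j ≤ π.ker) (inj : ∀ j f, ι f ∈ N j → f = 1)
    (two : ∀ g, π g = 1 → ∃ j n : ℕ, g ^ (2 ^ n) ∈ N j)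
    (invol : ∀ j x, π x = 1 → x ^ 2 ∈ N j → ∃ f, (ι f)⁻¹ * x ∈ N j) (S : Set Γ) (hS : S.Finite)
    (hS' : ∀ s ∈ S, π s = 1)
    (inf : ∀ j, ¬ ((N j).subgroupOf (Subgroup.closure S)).FiniteIndex) : Main := by
  have mem : ∀ x, x ∈ (⨆ j, N j) ↔ ∃ j, x ∈ N j := fun x =>
    Subgroup.mem_iSup_of_directed hN.directed_le
  have : (⨆ j, N j).Normal := ⟨fun n hn g => by
    obtain ⟨j, hj⟩ := (mem n).1 hn
    exact (mem _).2 ⟨j, (nrm j).conj_mem n hj g⟩⟩
  let q := QuotientGroup.mk' (⨆ j, N j)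
  have hq : ∀ x, q x = 1 ↔ ∃ j, x ∈ N j := fun x => (QuotientGroup.eq_one_iff x).trans (mem x)
  refine core hA (QuotientGroup.lift (⨆ j, N j) π (iSup_le ker)) (q.comp ι) (q.comp σ) ?_ ?_ sec
    ?_ ?_ (q '' S) (hS.image q) ?_ ?_
  · refine (injective_iff_map_eq_one _).2 fun f hf => ?_
    obtain ⟨j, hj⟩ := (hq _).1 hf
    exact inj j f hj
  · intro g f
    obtain ⟨g, rfl⟩ := QuotientGroup.mk'_surjective _ g
    exact congrArg q (conj g f)
  · intro g hg
    obtain ⟨g, rfl⟩ := QuotientGroup.mk'_surjective _ g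
    obtain ⟨j, n, h⟩ := two g hg
    exact ⟨n, (map_pow q g _).symm.trans ((hq _).2 ⟨j, h⟩)⟩
  · intro x hx h2
    obtain ⟨x, rfl⟩ := QuotientGroup.mk'_surjective _ x
    obtain ⟨j, hj⟩ := (hq _).1 ((map_pow q x 2).trans h2)
    obtain ⟨f, hf⟩ := invol j x hx hj
    refine ⟨f, ?_⟩
    have := (hq _).2 ⟨j, hf⟩
    rwa [map_mul, map_inv, inv_mul_eq_one] at this
  · rintro _ ⟨s, hs, rfl⟩
    exact hS' s hs
  · intro hf
    have := hS.to_subtype
    have : Finite (q.comp (Subgroup.closure S).subtype).range := by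
      rwa [MonoidHom.range_comp, Subgroup.range_subtype, MonoidHom.map_closure]
    obtain ⟨j, hj⟩ := fin_level (q.comp (Subgroup.closure S).subtype)
      (fun j => (N j).subgroupOf (Subgroup.closure S))
      (fun i j hij => Subgroup.comap_mono (hN hij)) fun x hx => (hq _).1 hx
    exact inf j hj

variable {F : Type} [Field F]

/-- A level over `L0`. -/
structure Over (L0 : Lvl F) where
  L : Lvl F
  Ψ : L0.Gt →* L.Gt
  surj : Function.Surjective Ψ
  hι : ∀ f, Ψ (L0.ι f) = L.ι f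
  hσ : ∀ a, Ψ (L0.σ a) = L.σ a
  hπ : ∀ g, L.π (L.p (Ψ g)) = L0.π (L0.p g)
  hd : ∀ g, L.D.d 1 (L.p (Ψ g)) ≤ L0.D.d 1 (L0.p g)

theorem next {L0 : Lvl F} (hs : Step F) (O : Over L0) : ∃ O' : Over L0, O.Ψ.ker ≤ O'.Ψ.ker ∧
    O.L.δ < O'.L.δ ∧ ∀ g, L0.D.d 1 (L0.p g) ≤ O.L.δ → IsOfFinOrder (O'.L.p (O'.Ψ g)) := by
  obtain ⟨L', ψ, h1, h2, h3, h4, h5, h6, h7⟩ := hs O.L
  refine ⟨⟨L', ψ.comp O.Ψ, h1.comp O.surj, fun f => ?_, fun a => ?_, fun g => ?_, fun g => ?_⟩,
    fun g hg => ?_, h5, fun g hg => h7 _ ((O.hd g).trans hg)⟩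
  · rw [MonoidHom.comp_apply, O.hι, h2]
  · rw [MonoidHom.comp_apply, O.hσ, h3]
  · rw [MonoidHom.comp_apply, h4, O.hπ]
  · exact (h6 _).trans (O.hd g)
  · show ψ (O.Ψ g) = 1
    rw [show O.Ψ g = 1 from hg, map_one]

theorem tower (L0 : Lvl F) (hs : Step F) : ∃ O : ℕ → Over L0, Monotone (fun j => (O j).Ψ.ker) ∧
    ∀ g, ∃ j, IsOfFinOrder ((O j).L.p ((O j).Ψ g)) := by
  choose nx h1 h2 h3 using next (L0 := L0) hs
  let O0 : Over L0 := ⟨L0, MonoidHom.id _, Function.surjective_id, fun _ => rfl, fun _ => rfl,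
    fun _ => rfl, fun _ => le_rfl⟩
  let O : ℕ → Over L0 := fun j => Nat.rec O0 (fun _ x => nx x) j
  have hδ : ∀ j, j ≤ (O j).L.δ := fun j => by
    induction j with
    | zero => exact Nat.zero_le _
    | succ j ih => exact lt_of_le_of_lt ih (h2 (O j))
  exact ⟨O, monotone_nat_of_le_succ fun j => h1 (O j), fun g =>
    ⟨L0.D.d 1 (L0.p g) + 1, h3 (O _) g (hδ _)⟩⟩

namespace Over

variable {L0 : Lvl F} (O : Over L0)

theorem two [CharP F 2] (g : L0.Gt) (hg : L0.π (L0.p g) = 1) (h : IsOfFinOrder (O.L.p (O.Ψ g))) :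
    ∃ n : ℕ, g ^ (2 ^ n) ∈ O.Ψ.ker := by
  obtain ⟨k, hk⟩ := O.L.inv.alg.fin1 _ ((O.hπ g).trans hg) h
  rw [← map_pow, ← map_pow] at hk
  obtain ⟨f, hf⟩ := (O.L.ext.ker _).1 hk
  refine ⟨k + 1, ?_⟩
  rw [MonoidHom.mem_ker, pow_succ, pow_mul, map_pow, ← hf, ← map_pow, sq,
    show f * f = 1 from CharTwo.add_self_eq_zero f.toAdd, map_one]

theorem invol (x : L0.Gt) (hx : L0.π (L0.p x) = 1) (h : x ^ 2 ∈ O.Ψ.ker) :
    ∃ f, (L0.ι f)⁻¹ * x ∈ O.Ψ.ker := by
  obtain ⟨f, hf⟩ := O.L.ext.invol _ ((O.hπ x).trans hx) ((map_pow O.Ψ x 2).symm.trans h)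
  exact ⟨f, by rw [MonoidHom.mem_ker, map_mul, map_inv, O.hι, hf, inv_mul_cancel]⟩

theorem inf (t : L0.Gt) (ht : L0.π (L0.p t) = 1)
    (hn : ∀ g, L0.π (L0.p g) = 1 → g ∈ Subgroup.normalClosure (insert t (Set.range L0.ι)))
    (a : Fˣ) (ha : a ≠ 1) :
    ¬ (O.Ψ.ker.subgroupOf (Subgroup.closure (Set.range fun b : Subgroup.zpowers a =>
      L0.σ b * t * (L0.σ b)⁻¹))).FiniteIndex := by
  intro hf
  set S := Set.range fun b : Subgroup.zpowers a => L0.σ b * t * (L0.σ b)⁻¹ with hS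
  let r := O.L.p.comp O.Ψ
  have h1 : (r.comp (Subgroup.closure S).subtype).ker.FiniteIndex :=
    Subgroup.finiteIndex_of_le (H := O.Ψ.ker.subgroupOf (Subgroup.closure S)) fun x hx => by
      show O.L.p (O.Ψ x) = 1
      rw [show O.Ψ x = 1 from hx, map_one]
  have h2 : Finite (r.comp (Subgroup.closure S).subtype).range :=
    Finite.of_equiv _ (QuotientGroup.quotientKerEquivRange _).toEquiv
  rw [MonoidHom.range_comp, Subgroup.range_subtype] at h2
  have h3 := O.L.inv.alg.nk _ h2 ?_ ?_ (r (L0.σ a)) ?_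
  · exact ha ((L0.ext.sec a).symm.trans ((O.hπ _).symm.trans h3))
  · rw [MonoidHom.map_closure, Subgroup.closure_le]
    rintro _ ⟨_, ⟨b, rfl⟩, rfl⟩
    refine (O.hπ _).trans ?_
    simp [ht]
  · intro hb
    have h4 : r t = 1 := by
      rw [← Subgroup.mem_bot, ← hb]
      exact ⟨t, Subgroup.subset_closure ⟨1, by simp⟩, rfl⟩
    have h5 : Subgroup.normalClosure (insert t (Set.range L0.ι)) ≤ r.ker := by
      refine Subgroup.normalClosure_le_normal ?_
      rintro _ (rfl | ⟨f, rfl⟩)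
      · exact h4
      · show O.L.p (O.Ψ (L0.ι f)) = 1
        rw [O.hι]
        exact (O.L.ext.ker _).2 ⟨f, rfl⟩
    obtain ⟨g, hg, hg'⟩ := O.L.inv.alg.nt
    obtain ⟨g, rfl⟩ := (O.L.ext.surj.comp O.surj) g
    exact hg' (h5 (hn g ((O.hπ g).symm.trans hg)))
  · rintro _ ⟨μ, hμ, rfl⟩
    refine ⟨L0.σ a * μ * (L0.σ a)⁻¹, ?_, by simp⟩
    have : Subgroup.closure S ≤ (Subgroup.closure S).comap (MulAut.conj (L0.σ a)).toMonoidHom := by
      rw [Subgroup.closure_le]
      rintro _ ⟨b, rfl⟩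
      refine Subgroup.subset_closure ⟨⟨a, Subgroup.mem_zpowers a⟩ * b, ?_⟩
      simp [mul_assoc]
    exact this hμ

end Over

end Limit

open Limit in
theorem limitStmt : LimitStmt := by
  rintro F _ _ _ hA ⟨L0, t, ht, hn⟩ hs
  classical
  obtain ⟨O, hO, hfin⟩ := tower L0 hs
  obtain ⟨x, hx⟩ := Infinite.exists_notMem_finset ({0, 1} : Finset F)
  have hx0 : x ≠ 0 := fun h => hx (by simp [h])
  have ha : Units.mk0 x hx0 ≠ 1 := fun h => hx (by simp [show x = 1 from congrArg Units.val h])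
  have := (aok_fin hA (Units.mk0 x hx0)).finite_zpowers.to_subtype
  refine quot hA (L0.π.comp L0.p) L0.ι L0.σ L0.ext.conj L0.ext.sec (fun j => (O j).Ψ.ker) hO
    (fun _ => inferInstance) (fun j g hg => ?_) (fun j f hf => ?_) (fun g hg => ?_)
    (fun j => (O j).invol) _ (Set.finite_range _) ?_ fun j => (O j).inf t ht hn _ ha
  · refine ((O j).hπ g).symm.trans ?_
    rw [show (O j).Ψ g = 1 from hg, map_one, map_one]
  · exact (O j).L.ext.inj (((O j).hι f).symm.trans (hf.trans (map_one _).symm))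
  · obtain ⟨j, hj⟩ := hfin g
    exact ⟨j, (O j).two g hg hj⟩
  · rintro _ ⟨b, rfl⟩
    simp [ht]

end Pool.Agent.Bu
end

-- part Pool.Agent.Lib.MP_5bec91_al.Bu.Step
section

/-! The induction step, assembled from the statements of the layers. -/

set_option autoImplicit false

namespace Pool.Agent.Bu

open MulAction

namespace StepA

/-- The lifted normal subgroup meets the kernel of `p` trivially. -/
theorem tilde_inj {G Gt X C : Type} [Group G] [Group Gt] [MulAction G X] [MulAction G C]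
    (hW : WindStmt) (S : CS G X C) (p : Gt →* G) (Ht : C → Subgroup Gt)
    (h1 : ∀ c, ∀ h ∈ Ht c, p h ∈ S.H c)
    (hconj : ∀ (g : Gt) c, ∀ h ∈ Ht c, g * h * g⁻¹ ∈ Ht (p g • c))
    (hinj : ∀ c, ∀ h ∈ Ht c, p h = 1 → h = 1) :
    ∀ x ∈ ⨆ c, Ht c, p x = 1 → x = 1 := by
  let _ : MulAction Gt X := MulAction.compHom X p
  let _ : MulAction Gt C := MulAction.compHom C p
  let St : CS Gt X C :=
    { D := S.D, δ := S.δ, θ := S.θ, Y := S.Y, H := Ht
      geom := ⟨fun g x y => S.geom.iso (p g) x y, S.geom.pos, S.geom.hyp, S.geom.geo, S.geom.ne⟩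
      hθ := S.hθ, ne := S.ne
      Yeq := fun g c x hx => S.Yeq (p g) c x hx
      gate := S.gate, ovl := S.ovl, behr := S.behr
      Hfix := fun c h hh => S.Hfix c (p h) (h1 c h hh)
      Hconj := hconj
      spin := fun c h hh hne b hb =>
        S.spin c (p h) (h1 c h hh) (fun e => hne (hinj c h hh e)) b hb }
  intro x hx hp
  by_contra hne
  obtain ⟨y⟩ := S.geom.ne
  obtain ⟨c, Q, hQ, hQ1, hang⟩ := hW St y x hx hne
  have e : (Q * x) • y = p Q • y := by
    change p (Q * x) • y = p Q • y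
    rw [map_mul, hp, mul_one]
  have h2 := S.spin_ang (h1 c Q hQ) (fun e => hQ1 (hinj c Q hQ e)) y
  have h3 : S.ang c y (p Q • y) ≤ 13 * S.θ := by rw [← e]; exact hang
  have h4 := S.θ_pos
  omega

section Quot
variable {G C : Type} [Group G] [MulAction G C] (S : CS G G C)

instance instN : S.N.Normal := S.N_normal

noncomputable def dq (u v : G ⧸ S.N) : ℕ :=
  sInf {n | ∃ x y : G, (x : G ⧸ S.N) = u ∧ (y : G ⧸ S.N) = v ∧ n = S.dh x y}

theorem mk_eq {x y : G} (h : (x : G ⧸ S.N) = (y : G ⧸ S.N)) : ∃ n ∈ S.N, y = n • x := by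
  have h1 : x⁻¹ * y ∈ S.N := QuotientGroup.eq.1 h
  refine ⟨x * (x⁻¹ * y) * x⁻¹, S.N_normal.conj_mem _ h1 x, ?_⟩
  simp [smul_eq_mul]

theorem mk_N {n : G} (hn : n ∈ S.N) (x : G) : ((n • x : G) : G ⧸ S.N) = (x : G ⧸ S.N) := by
  rw [smul_eq_mul, QuotientGroup.mk_mul, (QuotientGroup.eq_one_iff n).2 hn, one_mul]

theorem dq_le (x y : G) : dq S x y ≤ S.dh x y := Nat.sInf_le ⟨x, y, rfl, rfl, rfl⟩

theorem dq_ex (x y : G) : ∃ n ∈ S.N, S.dh x (n • y) = dq S x y := by
  obtain ⟨x', y', hx, hy, e⟩ := Nat.sInf_mem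
    (s := {n | ∃ x' y' : G, (x' : G ⧸ S.N) = x ∧ (y' : G ⧸ S.N) = y ∧ n = S.dh x' y'})
    ⟨_, x, y, rfl, rfl, rfl⟩
  obtain ⟨m, hm, rfl⟩ := mk_eq S hx.symm
  obtain ⟨m', hm', rfl⟩ := mk_eq S hy.symm
  refine ⟨m⁻¹ * m', S.N.mul_mem (S.N.inv_mem hm) hm', ?_⟩
  rw [← S.dh_smul m, ← mul_smul, mul_inv_cancel_left]
  exact e.symm

noncomputable def Dq : PM (G ⧸ S.N) where
  d := dq S
  refl u := by
    obtain ⟨x, rfl⟩ := QuotientGroup.mk_surjective u
    have := dq_le S x x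
    have := S.dh_refl x
    omega
  symm u v := by
    have key : ∀ u v, dq S u v ≤ dq S v u := by
      intro u v
      obtain ⟨x, rfl⟩ := QuotientGroup.mk_surjective u
      obtain ⟨y, rfl⟩ := QuotientGroup.mk_surjective v
      obtain ⟨n, hn, e⟩ := dq_ex S y x
      rw [← e, S.dh_symm, ← mk_N S hn x]
      exact dq_le S _ _
    exact le_antisymm (key u v) (key v u)
  tri u v w := by
    obtain ⟨x, rfl⟩ := QuotientGroup.mk_surjective u
    obtain ⟨y, rfl⟩ := QuotientGroup.mk_surjective v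
    obtain ⟨z, rfl⟩ := QuotientGroup.mk_surjective w
    obtain ⟨n, hn, e⟩ := dq_ex S x y
    obtain ⟨m, hm, e'⟩ := dq_ex S (n • y) z
    have h1 := dq_le S x (m • z)
    have h2 := S.dh_tri x (n • y) (m • z)
    rw [mk_N S hn] at e'
    rw [mk_N S hm] at h1
    omega

noncomputable def qs : QS G G C (G ⧸ S.N) (G ⧸ S.N) where
  toCS := S
  φ := QuotientGroup.mk' S.N
  q := QuotientGroup.mk
  Db := Dq S
  φ_surj := QuotientGroup.mk'_surjective _
  φ_ker g := QuotientGroup.eq_one_iff g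
  q_surj := QuotientGroup.mk_surjective
  q_smul _ _ := rfl
  q_eq _ _ h := mk_eq S h
  db_le := dq_le S
  db_ex := dq_ex S

end Quot

theorem rot_ker {A G : Type} [CommGroup A] [Group G] {π : G →* A} {E H : Subgroup G}
    {ε t : G → ℤ} {a : G} {n : ℕ} (h : ConeData π E H ε t a n) : H ≤ π.ker := by
  rw [h.rot, Subgroup.zpowers_le, MonoidHom.mem_ker, map_pow]
  rcases h.typ with ⟨h1, -⟩ | ⟨-, h2⟩
  · rw [MonoidHom.mem_ker.1 (h1 h.mem), one_pow]
  · rw [← h2, pow_orderOf_eq_one]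

theorem rot_mem {A G : Type} [CommGroup A] [Group G] {π : G →* A} {E H : Subgroup G}
    {ε t : G → ℤ} {a : G} {n : ℕ} (h : ConeData π E H ε t a n) {g : G} (hg : g ∈ H) :
    ∃ k : ℤ, g = (a ^ n) ^ k ∧ g ∈ E ∧ ε g = 1 ∧ t g = k * n := by
  rw [h.rot] at hg
  obtain ⟨k, rfl⟩ := Subgroup.mem_zpowers_iff.1 hg
  have h1 := h.aff.pow_of_e h.mem h.ea n
  have h2 := h.aff.zpow_of_e (E.pow_mem h.mem n) h1.1 k
  refine ⟨k, rfl, E.zpow_mem (E.pow_mem h.mem n) k, h2.1, ?_⟩
  rw [h2.2, h1.2, h.ta, mul_one]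

end StepA

open StepA in
theorem stepStmt (F : Type) [Field F] [CharP F 2] [Infinite F] (hA : AOK Fˣ) (hH : HypLib)
    (hB : AlgB) (hSt : StStmt) (hP : P1DStmt) (hC : ConesStmt) (hW : WindStmt) (hE : ElecStmt)
    (hLi : LiftStmt) (hQ : QGeoStmt) (h1 : L1Stmt) (hR : RotStmt) (h2 : L2Stmt)
    (hX : QAxisStmt) (h3 : L3Stmt) (h4 : L4Stmt) (hN : NewLibStmt) (hN1 : New1Stmt)
    (hNL : NewLawStmt) (hNC : NewChnStmt) (hx : ExtLib) : Step F := by
  intro L
  obtain ⟨C, instC, Y, cg⟩ := hC L.π L.D L.δ L.inv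
  obtain ⟨Ht, hHt, hconj⟩ := hx.choose L.π L.p L.ι L.σ L.ext
    (fun c : C => hB.coneEx L.π hA L.inv.alg _ (cg.elem c).1 (cg.elem c).2)
  have hcone : ∀ c, ∃ ε t a n, ConeData L.π (stabilizer L.G c) ((Ht c).map L.p) ε t a n := by
    intro c
    obtain ⟨ε, t, a, n, ρ, h, -⟩ := hHt c
    exact ⟨ε, t, a, n, h⟩
  have hn0 : 0 < n0 := by unfold n0; positivity
  let S : CS L.G L.G C :=
    { D := L.D, δ := L.δ, θ := 10 ^ 8 * L.δ, Y := Y, H := fun c => (Ht c).map L.p
      geom := L.inv.geom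
      hθ := by omega
      ne := cg.ne, Yeq := cg.Yeq, gate := cg.gate, ovl := cg.ovl, behr := cg.behr
      Hfix := by
        intro c h hh
        obtain ⟨ε, t, a, n, hd⟩ := hcone c
        obtain ⟨k, -, hk, -⟩ := rot_mem hd hh
        exact hk
      Hconj := by
        rintro g c _ ⟨h, hh, rfl⟩
        obtain ⟨g, rfl⟩ := L.ext.surj g
        exact ⟨_, hconj g c h hh, by simp⟩
      spin := by
        intro c h hh hne b hb
        obtain ⟨ε, t, a, n, hd⟩ := hcone c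
        obtain ⟨k, e, hk, he, ht⟩ := rot_mem hd hh
        refine cg.far c ε t a hd.aff hd.mem hd.ea hd.ta h hk he ?_ b hb
        have hk0 : k ≠ 0 := by rintro rfl; exact hne (by rw [e, zpow_zero])
        have hb : (n0 : ℤ) ≤ n := by exact_mod_cast hd.big
        rw [ht, abs_mul, Nat.abs_cast]
        have : 1 ≤ |k| := Int.one_le_abs hk0
        nlinarith [Int.natCast_nonneg n] }
  have hNker : S.N ≤ L.π.ker := by
    refine iSup_le fun c => ?_
    obtain ⟨ε, t, a, n, hd⟩ := hcone c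
    exact rot_ker hd
  let πb : L.G ⧸ S.N →* Fˣ := QuotientGroup.lift S.N L.π hNker
  let T : FS Fˣ L.G L.G C (L.G ⧸ S.N) (L.G ⧸ S.N) :=
    { toQS := qs S
      π := L.π, πb := πb
      πb_φ := fun _ => rfl
      hA := hA, hθδ := rfl, inv := L.inv, cone := hcone
      mov := cg.mov, far := cg.far, over2 := cg.over2
      p1d := by
        intro x y R h
        refine hP L.π L.D L.δ L.inv x y R (le_trans ?_ h)
        change _ ≤ 30 * R + 10 ^ 8 * L.δ
        omega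
      short := cg.short }
  have gr : S.Gr := hW S
  have el : Elec S := hE S
  have li : LiftLib (qs S) := hLi (qs S) gr el
  have qg : QGeo (qs S) := hQ (qs S) el li
  have rot : Rot (qs S) := hR T qg
  have qa : QAxis (qs S) := hX (qs S) qg
  have alg : AlgS L.π (QuotientGroup.mk' S.N) πb (fun c => (Ht c).map L.p) :=
    { hA := hA, old := L.inv.alg
      surj := QuotientGroup.mk'_surjective _
      comp := fun _ => rfl
      cone := hcone
      Hconj := S.Hconj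
      stab := by
        intro c g hg
        constructor
        · intro h
          obtain ⟨b, hb⟩ := S.ne c
          refine li.stab c b g (((qs S).φ_ker g).1 h) hb ?_
          have := S.Yeq g c b hb
          rwa [hg] at this
        · intro h
          exact ((qs S).φ_ker g).2 (S.H_le_N c h)
      tf := fun g h hf => li.tf g (((qs S).φ_ker g).1 h) hf
      exc := by
        intro g h hne
        obtain ⟨c, -⟩ := gr 1 g (((qs S).φ_ker g).1 h) hne
        exact ⟨c⟩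
      l1 := h1 (qs S) li qg
      rot1 := by
        intro c g hg hw c' g' hg' e
        obtain ⟨n, hn, e'⟩ := (rot c g hg hw).1 c' g' hg' e
        exact ⟨n, ((qs S).φ_ker n).2 hn, e'⟩
      rot2 := fun c g hg hw => (rot c g hg hw).2
      l2 := h2 T el li qg }
  have nl := hN _ _ _ _ alg
  obtain ⟨f1, nk, mal, sec, nt, chf⟩ := hN1 _ _ _ _ alg nl
  have lox := h3 T el li qg qa
  have p1 := h4 T el li qg qa chf
  have law := hNL _ _ _ _ alg nl
  have st : St (L.G ⧸ S.N) := hSt _ _ qg.geom lox p1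
  have chn := hNC _ _ _ _ alg nl nk mal law chf st
    (fun g a i j ha hi e => (hH.bs _ _ qg.geom lox g a i j ha hi e).2)
  -- the extension
  let Nt : Subgroup L.Gt := ⨆ c, Ht c
  have hNt : Nt.Normal := by
    constructor
    intro n hn g
    refine Subgroup.iSup_induction Ht (C := fun n => g * n * g⁻¹ ∈ Nt) hn ?_ ?_ ?_
    · intro c h hh; exact (le_iSup Ht _ : Ht _ ≤ Nt) (hconj g c h hh)
    · simp
    · intro x y hx hy
      have : g * (x * y) * g⁻¹ = g * x * g⁻¹ * (g * y * g⁻¹) := by group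
      rw [this]; exact Nt.mul_mem hx hy
  have hmap : Nt.map L.p = S.N := Subgroup.map_iSup _ _
  have hinj : ∀ x ∈ Nt, L.p x = 1 → x = 1 := by
    refine tilde_inj hW S L.p Ht (fun c h hh => ⟨h, hh, rfl⟩) hconj ?_
    intro c h hh e
    obtain ⟨ε, t, a, n, ρ, hd, hz, hρ, -⟩ := hHt c
    rw [hz] at hh
    obtain ⟨k, rfl⟩ := Subgroup.mem_zpowers_iff.1 hh
    rw [map_zpow, hρ] at e
    have h5 := hd.aff.pow_of_e hd.mem hd.ea n
    have h6 := (hd.aff.zpow_of_e ((stabilizer L.G c).pow_mem hd.mem n) h5.1 k).2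
    rw [e, hd.aff.t_one, h5.2, hd.ta, mul_one] at h6
    have h7 : 0 < n := lt_of_lt_of_le hn0 hd.big
    have h8 : k = 0 := by
      rcases mul_eq_zero.1 h6.symm with h | h
      · exact h
      · exfalso; omega
    rw [h8, zpow_zero]
  let p' : L.Gt ⧸ Nt →* L.G ⧸ S.N :=
    QuotientGroup.map Nt S.N L.p (fun x hx => by rw [← hmap]; exact ⟨x, hx, rfl⟩)
  have hp' : ∀ g : L.Gt, p' (QuotientGroup.mk' Nt g) = QuotientGroup.mk' S.N (L.p g) :=
    fun _ => rfl
  have ext' : ExtD πb p' ((QuotientGroup.mk' Nt).comp L.ι) ((QuotientGroup.mk' Nt).comp L.σ) :=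
    { surj := by
        intro u
        obtain ⟨g, rfl⟩ := QuotientGroup.mk'_surjective S.N u
        obtain ⟨g, rfl⟩ := L.ext.surj g
        exact ⟨_, hp' g⟩
      inj := by
        rw [injective_iff_map_eq_one]
        intro f hf
        have h5 : L.ι f ∈ Nt := (QuotientGroup.eq_one_iff _).1 hf
        have h6 := hinj _ h5 ((L.ext.ker _).2 ⟨f, rfl⟩)
        exact (injective_iff_map_eq_one _).1 L.ext.inj f h6
      ker := by
        intro u
        obtain ⟨g, rfl⟩ := QuotientGroup.mk'_surjective Nt u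
        rw [hp']
        constructor
        · intro h
          have h5 : L.p g ∈ S.N := (QuotientGroup.eq_one_iff _).1 h
          rw [← hmap] at h5
          obtain ⟨ν, hν, e⟩ := h5
          obtain ⟨f, hf⟩ := (L.ext.ker (ν⁻¹ * g)).1 (by rw [map_mul, map_inv, e, inv_mul_cancel])
          refine ⟨f, ?_⟩
          have h6 : QuotientGroup.mk' Nt ν = 1 := (QuotientGroup.eq_one_iff _).2 hν
          rw [MonoidHom.comp_apply, hf, map_mul, map_inv, h6, inv_one, one_mul]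
        · rintro ⟨f, hf⟩
          rw [← hp', ← hf, MonoidHom.comp_apply, hp', (L.ext.ker _).2 ⟨f, rfl⟩, map_one]
      conj := by
        intro u f
        obtain ⟨g, rfl⟩ := QuotientGroup.mk'_surjective Nt u
        rw [MonoidHom.comp_apply, MonoidHom.comp_apply, ← map_inv, ← map_mul, ← map_mul,
          L.ext.conj]
        rfl
      sec := fun a => L.ext.sec a
      invol := by
        intro u hu hu2
        obtain ⟨g, rfl⟩ := QuotientGroup.mk'_surjective Nt u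
        have h5 : g ^ 2 ∈ Nt := by
          rw [← map_pow] at hu2
          exact (QuotientGroup.eq_one_iff _).1 hu2
        obtain ⟨f, hf⟩ := hx.invol L.π L.p L.ι L.σ _ πb Ht Nt L.ext alg nl hHt hNt
          (fun c => le_iSup Ht c) (fun g => by rw [hmap]; exact (qs S).φ_ker g) hinj g hu h5
        refine ⟨f, ?_⟩
        have h6 : QuotientGroup.mk' Nt (g * (L.ι f)⁻¹) = 1 := (QuotientGroup.eq_one_iff _).2 hf
        rw [map_mul, map_inv, mul_inv_eq_one] at h6
        exact h6.symm }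
  let L' : Lvl F :=
    { G := L.G ⧸ S.N, Gt := L.Gt ⧸ Nt, π := πb, p := p'
      ι := (QuotientGroup.mk' Nt).comp L.ι, σ := (QuotientGroup.mk' Nt).comp L.σ
      D := Dq S, δ := 10 ^ 4 * (10 ^ 8 * L.δ)
      inv := ⟨qg.geom, lox, p1, ⟨f1, nk, mal, law, chn, sec, nt⟩⟩
      ext := ext' }
  refine ⟨L', QuotientGroup.mk' Nt, QuotientGroup.mk'_surjective _, fun _ => rfl, fun _ => rfl,
    fun _ => rfl, ?_, ?_, ?_⟩
  · have := L.inv.geom.pos
    change L.δ < 10 ^ 4 * (10 ^ 8 * L.δ)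
    omega
  · intro g
    exact (dq_le S 1 (L.p g)).trans (S.dh_le_d _ _)
  · intro g hg
    change IsOfFinOrder (QuotientGroup.mk' S.N (L.p g))
    by_cases hf : IsOfFinOrder (L.p g)
    · exact (QuotientGroup.mk' S.N).isOfFinOrder hf
    · obtain ⟨c, hc⟩ := cg.short (L.p g) 1 hf (by rw [smul_eq_mul, mul_one]; omega)
      have := nl.cfin c
      have h5 : IsOfFinOrder (⟨QuotientGroup.mk' S.N (L.p g), ⟨L.p g, hc, rfl⟩⟩ :
          (stabilizer L.G c).map (QuotientGroup.mk' S.N)) := isOfFinOrder_of_finite _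
      exact (Subgroup.subtype _).isOfFinOrder h5

end Pool.Agent.Bu
end
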