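import Pool.Agent.Lib.MP_5bec91_al.Bu.NewOne

-- part Pool.Agent.Lib.MP_5bec91_al.Bu.St
section

/-!
The group `E h` of an element of infinite order is elementary.
-/

set_option autoImplicit false

namespace Pool.Agent.Bu

open MulAction

namespace St

variable {G X : Type} [Group G] [MulAction G X] {D : PM X} {δ : ℕ}

theorem grow (hG : Geom G D δ) (hL : Lox G D δ) {a : G} (ha : ¬ IsOfFinOrder a) (b : X) (R : ℕ) :
    ∃ j0 : ℕ, ∀ j : ℕ, j0 ≤ j → R ≤ D.d b (a ^ j • b) := by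
  refine ⟨10 ^ 18 * R, fun j hj => ?_⟩
  have h1 := hL a ha b j
  have h2 : j ≤ j * δ := Nat.le_mul_of_pos_right j hG.pos
  omega

theorem d_mul (hG : Geom G D δ) (b : X) (g k : G) :
    D.d b ((g * k) • b) ≤ D.d b (g • b) + D.d b (k • b) := by
  rw [mul_smul, ← hG.iso g b (k • b)]
  exact D.tri _ _ _

end St

theorem stStmt : HypLib → LineLib → AlgA → StStmt := by
  intro hH hLn hA G X _ _ D δ hG hL hP h hh
  classical
  refine hA.epE h hh ?_
  obtain ⟨b, hb⟩ := hLn.ne D δ h hG hL hh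
  have hb1 := hLn.inv D δ (h ^ (10 ^ 25)) h b hG.iso ((E h).pow_mem (mem_E_self h) _) hb
  obtain ⟨P, hPe, hP⟩ := hP b (h ^ (10 ^ 25) • b) (by
    have := hL h hh b (10 ^ 25)
    omega)
  have small : ∀ g ∈ Ep h, D.d b (g • b) ≤ 100 * δ → g ∈ P := fun g hg hf =>
    hP g (by omega) (by
      have := hLn.disp D δ g h _ b hG.iso hG.hyp hg hb1
      omega)
  have tor : ∀ g ∈ Ep h, IsOfFinOrder g → D.d b (g • b) ≤ 14 * δ := fun g hg hf => by
    obtain ⟨x, hx⟩ := hH.center0 D δ (Subgroup.zpowers g) hG hf.finite_zpowers.to_subtype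
    have h1 := hx g (Subgroup.mem_zpowers g)
    have h2 := hLn.disp D δ g h b x hG.iso hG.hyp hg hb
    omega
  have ivt : ∀ a ∈ Ep h, ¬ IsOfFinOrder a → ∀ g ∈ Ep h,
      ∃ j : ℤ, 2 * D.d b ((a ^ j * g) • b) ≤ D.d b (a • b) + 14 * δ := fun a ha hf g hg =>
    hLn.ivt D δ a g h b hG.iso hG.hyp (Ep_le_E h ha) (Ep_le_E h hg) hb (St.grow hG hL hf b)
  by_cases hv : ∃ v ∈ Ep h, ¬ IsOfFinOrder v ∧ D.d b (v • b) ≤ 100 * δ
  · obtain ⟨v, hv, hf, hd⟩ := hv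
    refine hPe.mono fun g hg => ?_
    obtain ⟨j, hj⟩ := ivt v hv hf g hg
    have h1 := small _ ((Ep h).mul_mem ((Ep h).zpow_mem hv j) hg) (by omega)
    exact (P.mul_mem_cancel_left (P.zpow_mem (small v hv hd) j)).1 h1
  · have big : ∀ v ∈ Ep h, D.d b (v • b) ≤ 100 * δ → IsOfFinOrder v := fun v h1 h2 => by
      by_contra h3
      exact hv ⟨v, h1, h3, h2⟩
    let M : Subgroup G :=
      { carrier := {g | g ∈ Ep h ∧ IsOfFinOrder g}
        one_mem' := ⟨(Ep h).one_mem, IsOfFinOrder.one⟩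
        mul_mem' := fun {g k} hg hk => ⟨(Ep h).mul_mem hg.1 hk.1,
          big _ ((Ep h).mul_mem hg.1 hk.1) (by
            have h1 := tor g hg.1 hg.2
            have h2 := tor k hk.1 hk.2
            have h3 := St.d_mul hG b g k
            omega)⟩
        inv_mem' := fun {g} hg => ⟨(Ep h).inv_mem hg.1, hg.2.inv⟩ }
    have hM : Finite M := hA.tors M (hPe.mono fun g hg => small g hg.1 (by
      have := tor g hg.1 hg.2
      omega)) fun g hg => hg.2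
    have ex : ∃ n, ∃ a ∈ Ep h, ¬ IsOfFinOrder a ∧ D.d b (a • b) = n :=
      ⟨_, h, mem_Ep_self h, hh, rfl⟩
    obtain ⟨a, ha, hf, e⟩ := Nat.find_spec ex
    have hbig : 100 * δ < D.d b (a • b) := by
      by_contra h1
      exact hf (big a ha (by omega))
    refine (hA.cyc M a hM fun μ hμ => ⟨(Ep h).mul_mem ((Ep h).mul_mem ha hμ.1)
      ((Ep h).inv_mem ha), (MulAut.conj a).toMonoidHom.isOfFinOrder hμ.2⟩).mono fun g hg => ?_
    obtain ⟨j, hj⟩ := ivt a ha hf g hg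
    have h1 := (Ep h).mul_mem ((Ep h).zpow_mem ha j) hg
    have h2 : IsOfFinOrder (a ^ j * g) := by
      by_contra h3
      have := Nat.find_min' ex ⟨_, h1, h3, rfl⟩
      omega
    exact (Subgroup.mul_mem_cancel_left _ (Subgroup.mem_sup_right
      (Subgroup.zpow_mem_zpowers a j))).1 (Subgroup.mem_sup_left (S := M) ⟨h1, h2⟩)

end Pool.Agent.Bu
end

-- part Pool.Agent.Lib.MP_5bec91_al.Bu.Cones
section

/-! The cones of a level: maximal elementary subgroups of short elements and their axes. -/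

set_option autoImplicit false

namespace Pool.Agent.Bu

open MulAction

namespace Cones

section Alg
variable {G : Type} [Group G]

/-- The conjugate `g P g⁻¹`. -/
def cjS (g : G) (P : Subgroup G) : Subgroup G := P.comap (MulAut.conj g⁻¹).toMonoidHom

theorem mem_cjS {g x : G} {P : Subgroup G} : x ∈ cjS g P ↔ g⁻¹ * x * g ∈ P := by
  simp [cjS]

theorem fin_conj {g v : G} (h : IsOfFinOrder (g * v * g⁻¹)) : IsOfFinOrder v := by
  obtain ⟨n, hn, e⟩ := isOfFinOrder_iff_pow_eq_one.1 h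
  refine isOfFinOrder_iff_pow_eq_one.2 ⟨n, hn, ?_⟩
  rw [conj_pow] at e
  calc v ^ n = g⁻¹ * (g * v ^ n * g⁻¹) * g := by group
    _ = 1 := by rw [e]; group

theorem mem_E_conj {g h x : G} (hx : x ∈ E h) : g * x * g⁻¹ ∈ E (g * h * g⁻¹) := by
  obtain ⟨m, hm, e⟩ := hx
  refine ⟨m, hm, ?_⟩
  have e1 : g * x * g⁻¹ * (g * h * g⁻¹) ^ m * (g * x * g⁻¹)⁻¹ = g * (x * h ^ m * x⁻¹) * g⁻¹ := by
    rw [conj_pow]; group
  rw [e1]
  rcases e with e | e
  · left; rw [e, conj_pow]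
  · right; rw [e, conj_pow]; group

theorem cjS_E (g h : G) : cjS g (E h) = E (g * h * g⁻¹) := by
  ext x
  rw [mem_cjS]
  constructor
  · intro hx
    have := mem_E_conj (g := g) hx
    rwa [show g * (g⁻¹ * x * g) * g⁻¹ = x by group] at this
  · intro hx
    have := mem_E_conj (g := g⁻¹) hx
    rwa [show g⁻¹ * (g * h * g⁻¹) * g⁻¹⁻¹ = h by group, inv_inv] at this

/-- Orientation preserving elements commute with a power of `h`. -/
theorem mem_Ep {h g : G} {ε t : G → ℤ} (hA : Aff (E h) ε t) (hh : ¬ IsOfFinOrder h)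
    (hg : g ∈ E h) (he : ε g = 1) : g ∈ Ep h := by
  obtain ⟨m, hm, e | e⟩ := id hg
  · exact ⟨m, hm, e⟩
  · exfalso
    have h0 := mem_E_self h
    have h1 := (hA.fin_iff h0).not.1 hh
    have h2 : ε h = 1 := by
      rcases hA.sq h h0 with h2 | h2
      · exact h2
      · exact absurd (Or.inl h2) h1
    have h3 := hA.pow_of_e h0 h2 m
    have h4 := (hA.conj hg ((E h).pow_mem h0 m) h3.1).2
    rw [e, hA.t_inv ((E h).pow_mem h0 m), h3.1, h3.2, he] at h4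
    have h5 : (m : ℤ) * t h = 0 := by linarith
    rcases mul_eq_zero.1 h5 with h6 | h6
    · omega
    · exact h1 (Or.inr h6)

end Alg

variable {G X : Type} [Group G] [MulAction G X]

/-- The cones. -/
def Cn (G : Type) [Group G] [MulAction G X] (D : PM X) (δ : ℕ) : Type :=
  {P : Subgroup G // ∃ h : G, ¬ IsOfFinOrder h ∧ (∃ x, D.d x (h • x) ≤ 21 * δ) ∧ P = E h}

/-- The action by conjugation. -/
@[reducible] def act (D : PM X) (δ : ℕ) (hI : D.Iso G) : MulAction G (Cn G D δ) where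
  smul g c := ⟨cjS g c.1, by
    obtain ⟨h, hh, ⟨x, hx⟩, e⟩ := c.2
    refine ⟨g * h * g⁻¹, fun h1 => hh (fin_conj h1), ⟨g • x, ?_⟩, by rw [e, cjS_E]⟩
    rw [mul_smul, mul_smul, inv_smul_smul, hI]
    exact hx⟩
  one_smul c := Subtype.ext (by
    ext x
    change x ∈ cjS 1 c.1 ↔ _
    rw [mem_cjS]; simp)
  mul_smul g g' c := Subtype.ext (by
    ext x
    change x ∈ cjS (g * g') c.1 ↔ x ∈ cjS g (cjS g' c.1)
    rw [mem_cjS, mem_cjS, mem_cjS, mul_inv_rev]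
    simp only [mul_assoc])

/-- The axis of a cone. -/
def Yc (D : PM X) (δ : ℕ) (c : Cn G D δ) : Set X :=
  {b | ∀ v ∈ c.1, ¬ IsOfFinOrder v → b ∈ D.Ln δ v}

/-- The standing hypotheses. -/
structure Ctx (G : Type) [Group G] [MulAction G X] (D : PM X) (δ : ℕ) : Prop where
  hl : HypLib
  ll : LineLib
  al : AlgA
  geom : Geom G D δ
  lox : Lox G D δ
  p1 : P1 G D δ
  st : St G
  p1d : P1D G D (2 * 10 ^ 7 * δ)

namespace Ctx
variable {D : PM X} {δ : ℕ} (K : Ctx G D δ)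
include K

theorem Y_eq {c : Cn G D δ} {h : G} (hh : ¬ IsOfFinOrder h) (e : c.1 = E h) :
    Yc D δ c = D.Ln δ h := by
  ext b
  constructor
  · intro hb
    exact hb h (e ▸ mem_E_self h) hh
  · intro hb v hv hv'
    rw [e] at hv
    obtain ⟨i, j, hi, hj, e1⟩ := K.al.comm (E h) (K.st h hh) h (mem_E_self h) v hv hh hv'
    rw [← K.ll.comm D δ h v i j hi hj e1]
    exact hb

theorem fix_iff {c : Cn G D δ} {h : G} (hh : ¬ IsOfFinOrder h) (e : c.1 = E h) (g : G) :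
    cjS g c.1 = c.1 ↔ g ∈ E h := by
  rw [e]
  constructor
  · intro e1
    have h1 : g * h * g⁻¹ ∈ E h := by
      rw [← e1, cjS_E]; exact mem_E_self _
    obtain ⟨i, j, hi, -, e2⟩ := K.al.comm (E h) (K.st h hh) _ h1 h (mem_E_self h)
      (fun h2 => hh (fin_conj h2)) hh
    rw [conj_zpow] at e2
    exact (K.hl.bs D δ K.geom K.lox g h i j hh hi e2).2
  · intro hg
    ext x
    rw [mem_cjS]
    constructor
    · intro hx
      have := (E h).mul_mem ((E h).mul_mem hg hx) ((E h).inv_mem hg)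
      rwa [show g * (g⁻¹ * x * g) * g⁻¹ = x by group] at this
    · intro hx
      exact (E h).mul_mem ((E h).mul_mem ((E h).inv_mem hg) hx) hg

theorem ne (c : Cn G D δ) : (Yc D δ c).Nonempty := by
  obtain ⟨h, hh, -, e⟩ := c.2
  rw [K.Y_eq hh e]
  exact K.ll.ne D δ h K.geom K.lox hh

theorem gate' {c : Cn G D δ} {x p x' p' : X} (hp : D.Pr (Yc D δ c) x p)
    (hp' : D.Pr (Yc D δ c) x' p') :
    2 * D.d p p' ≤ 121 * δ ∨ D.d x p + D.d p p' + D.d p' x' ≤ D.d x x' + 121 * δ := by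
  obtain ⟨h, hh, -, e⟩ := c.2
  rw [K.Y_eq hh e] at hp hp'
  have h1 := K.ll.gated D δ h K.geom K.lox hh x p p' hp hp'.1
  have h2 := K.ll.gated D δ h K.geom K.lox hh x' p' p hp' hp.1
  have h3 := K.geom.hyp x p' x' p
  have h4 := D.symm p p'
  have h5 := D.symm x' p'
  simp only [PM.Btw] at *
  omega

/-- Far apart projections lie between the two points. -/
theorem btw {c : Cn G D δ} {x p x' p' : X} (hp : D.Pr (Yc D δ c) x p)
    (hp' : D.Pr (Yc D δ c) x' p') (h : 121 * δ < 2 * D.d p p') :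
    D.Btw (121 * δ) x p x' ∧ D.Btw (121 * δ) x p' x' := by
  have h1 := K.gate' hp hp'
  have h2 := D.tri p p' x'
  have h3 := D.tri x p p'
  simp only [PM.Btw]
  omega

theorem disp28 {h : G} {x0 b : X} (hx : D.d x0 (h • x0) ≤ 21 * δ) (hb : b ∈ D.Ln δ h) :
    D.d b (h • b) ≤ 28 * δ := by
  have := K.ll.disp D δ h h b x0 K.geom.iso K.geom.hyp (mem_Ep_self h) hb
  omega

theorem ovl' {c c' : Cn G D δ} {x x' : X} (hc : c ≠ c') (hx : x ∈ Yc D δ c')
    (hx' : x' ∈ Yc D δ c') : D.ang (Yc D δ c) x x' ≤ 10 ^ 7 * δ := by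
  by_contra hlt
  obtain ⟨p, p', hp, hp', e⟩ := D.ang_ex (K.ne c) x x'
  rw [e] at hlt
  have hδ := K.geom.pos
  obtain ⟨b1, b2⟩ := K.btw hp hp' (by omega)
  obtain ⟨h, hh, ⟨y, hy⟩, ec⟩ := c.2
  obtain ⟨h', hh', ⟨y', hy'⟩, ec'⟩ := c'.2
  rw [K.Y_eq hh' ec'] at hx hx'
  rw [K.Y_eq hh ec] at hp hp'
  have d1 := K.disp28 hy' hx
  have d2 := K.disp28 hy' hx'
  have d3 := K.hl.conv D δ _ _ h' x x' p K.geom.iso K.geom.hyp b1 d1 d2
  have d4 := K.hl.conv D δ _ _ h' x x' p' K.geom.iso K.geom.hyp b2 d1 d2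
  have d5 := K.disp28 hy hp.1
  have d6 := K.disp28 hy hp'.1
  obtain ⟨P, hP, hmem⟩ := K.p1 p p' (by omega)
  obtain ⟨i, j, hi, hj, e1⟩ := K.al.comm P hP h (hmem h (by omega) (by omega)) h'
    (hmem h' (by omega) (by omega)) hh hh'
  exact hc (Subtype.ext (by rw [ec, ec', (K.al.eqE h h' i j hi hj e1).1]))

theorem behr' {c c' : Cn G D δ} {x y p p' : X} (hc : c ≠ c') (hy : y ∈ Yc D δ c)
    (hp : D.Pr (Yc D δ c) x p) (hp' : D.Pr (Yc D δ c') x p') (hle : D.d x p ≤ D.d x p') :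
    D.ang (Yc D δ c') x y ≤ 10 ^ 8 * δ := by
  obtain ⟨u, q, hu, hq, e⟩ := D.ang_ex (K.ne c') x y
  obtain ⟨s, hs⟩ := D.pr_ex (K.ne c') p
  have h1 := (D.le_ang hs hq).trans (K.ovl' hc.symm hp.1 hy)
  have h2 := K.gate' hu hs
  have h3 := hp'.2 u hu.1
  have h4 := D.tri u s q
  omega

theorem mov' {h g : G} {ε t : G → ℤ} (hh : ¬ IsOfFinOrder h) (hA : Aff (E h) ε t)
    (hg : g ∈ hA.ker) {b : X} (hb : b ∈ D.Ln δ h) : D.d b (g • b) ≤ 14 * δ := by
  have h1 := hA.fin_of_ker hg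
  have h2 : Finite (Subgroup.zpowers g) := h1.finite_zpowers.to_subtype
  obtain ⟨x, hx⟩ := K.hl.center0 D δ (Subgroup.zpowers g) K.geom h2
  have h3 := hx g (Subgroup.mem_zpowers g)
  have h4 := K.ll.disp D δ g h b x K.geom.iso K.geom.hyp (mem_Ep hA hh hg.1 hg.2.1) hb
  omega

theorem loxZ {a : G} (ha : ¬ IsOfFinOrder a) (b : X) (n : ℤ) :
    n.natAbs * δ ≤ 10 ^ 18 * D.d b (a ^ n • b) := by
  obtain ⟨m, rfl | rfl⟩ := n.eq_nat_or_neg
  · rw [zpow_natCast, Int.natAbs_natCast]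
    exact K.lox a ha b m
  · rw [zpow_neg, zpow_natCast, Int.natAbs_neg, Int.natAbs_natCast, D.symm,
      K.geom.iso.inv_smul]
    exact K.lox a ha b m

theorem far' {h g a : G} {ε t : G → ℤ} (hh : ¬ IsOfFinOrder h) (hA : Aff (E h) ε t)
    (ha : a ∈ E h) (ea : ε a = 1) (ta : t a = 1) (hg : g ∈ E h) (he : ε g = 1)
    (hn : (n0 : ℤ) ≤ 3 * |t g|) {b : X} (hb : b ∈ D.Ln δ h) :
    10 ^ 10 * (10 ^ 8 * δ) ≤ D.d b (g • b) := by
  have h1 : ¬ IsOfFinOrder a := by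
    rw [hA.fin_iff ha]; omega
  have h2 := K.mov' hh hA (hA.ker.inv_mem (hA.dec ha ea ta hg he)) hb
  have h3 := K.loxZ h1 b (t g)
  have h4 : 10 ^ 37 ≤ 3 * (t g).natAbs := by
    rw [Int.abs_eq_natAbs] at hn
    unfold n0 at hn
    exact_mod_cast hn
  have h5 : 10 ^ 37 * δ ≤ 3 * ((t g).natAbs * δ) := by
    rw [← mul_assoc]; exact Nat.mul_le_mul_right δ h4
  have h6 := K.geom.iso.inv_smul (g * (a ^ t g)⁻¹) b (a ^ t g • b)
  rw [← mul_smul, inv_mul_cancel_right] at h6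
  have h7 := D.tri b ((g * (a ^ t g)⁻¹)⁻¹ • b) (a ^ t g • b)
  generalize (t g).natAbs * δ = k at h3 h5
  omega

theorem over2' {c : Cn G D δ} {h : G} (hh : ¬ IsOfFinOrder h) {y : X}
    (hy : D.d y (h • y) ≤ 21 * δ) (ec : c.1 = E h) {g : G} {z z' : X} {R : ℕ}
    (hz : D.d z (g • z) ≤ R) (hz' : D.d z' (g • z') ≤ R)
    (hR : 30 * R + 100 * (10 ^ 8 * δ) ≤ D.ang (Yc D δ c) z z') : g ∈ E h := by
  obtain ⟨p, p', hp, hp', e⟩ := D.ang_ex (K.ne c) z z'
  rw [e] at hR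
  have hδ := K.geom.pos
  obtain ⟨b1, b2⟩ := K.btw hp hp' (by omega)
  rw [K.Y_eq hh ec] at hp hp'
  have d3 := K.hl.conv D δ _ _ g z z' p K.geom.iso K.geom.hyp b1 hz hz'
  have d4 := K.hl.conv D δ _ _ g z z' p' K.geom.iso K.geom.hyp b2 hz hz'
  have d5 := K.disp28 hy hp.1
  have d6 := K.disp28 hy hp'.1
  obtain ⟨P, hP, hmem⟩ := K.p1d p p' (R + 122 * δ) (by omega)
  exact K.al.leE P hP h (hmem h (by omega) (by omega)) hh (hmem g (by omega) (by omega))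

theorem main : ∃ (C : Type) (_ : MulAction G C) (Y : C → Set X), ConeGeo G D δ Y := by
  let _ := act D δ K.geom.iso
  have sm : ∀ (g : G) (c : Cn G D δ), (g • c).1 = cjS g c.1 := fun _ _ => rfl
  have fx : ∀ {c : Cn G D δ} {h : G}, ¬ IsOfFinOrder h → c.1 = E h → ∀ g : G,
      (g • c = c ↔ g ∈ E h) := fun {c h} hh e g => by
    rw [← K.fix_iff hh e, ← sm]
    exact Subtype.ext_iff
  have stab : ∀ {c : Cn G D δ} {h : G}, ¬ IsOfFinOrder h → c.1 = E h →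
      stabilizer G c = E h := fun {c h} hh e => by
    ext g
    rw [mem_stabilizer_iff, fx hh e]
  refine ⟨Cn G D δ, inferInstance, Yc D δ, K.ne, ?_, ?_, ?_, ?_, ?_, ?_, ?_, ?_, ?_⟩
  · intro g c x hx v hv hv'
    rw [sm, mem_cjS] at hv
    have h1 : ¬ IsOfFinOrder (g⁻¹ * v * g) := fun h1 =>
      hv' (fin_conj (g := g⁻¹) (by rwa [inv_inv]))
    have h2 := K.ll.conj D δ g _ x K.geom.iso (hx _ hv h1)
    rwa [show g * (g⁻¹ * v * g) * g⁻¹ = v by group] at h2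
  · intro c x p x' p' hp hp'
    have := K.gate' hp hp'
    omega
  · intro c c' x x' hc hx hx'
    have := K.ovl' hc hx hx'
    omega
  · intro c c' x y y' hc hy hy'
    obtain ⟨p, hp⟩ := D.pr_ex (K.ne c) x
    obtain ⟨p', hp'⟩ := D.pr_ex (K.ne c') x
    rcases le_total (D.d x p) (D.d x p') with h | h
    · exact Or.inr (K.behr' hc hy hp hp' h)
    · exact Or.inl (K.behr' hc.symm hy' hp' hp h)
  · intro c
    obtain ⟨h, hh, -, e⟩ := c.2
    rw [stab hh e]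
    exact ⟨K.st h hh, h, mem_E_self h, hh⟩
  · intro c ε t hA g hg he ht b hb
    obtain ⟨h, hh, -, e⟩ := c.2
    rw [stab hh e] at hA hg
    rw [K.Y_eq hh e] at hb
    have := K.mov' hh hA ⟨hg, he, ht⟩ hb
    omega
  · intro c ε t a hA ha ea ta g hg he hn b hb
    obtain ⟨h, hh, -, e⟩ := c.2
    rw [stab hh e] at hA hg ha
    rw [K.Y_eq hh e] at hb
    exact K.far' hh hA ha ea ta hg he hn hb
  · intro c g z z' R hz hz' hR
    obtain ⟨h, hh, ⟨y, hy⟩, e⟩ := c.2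
    exact (fx hh e g).2 (K.over2' hh hy e hz hz' hR)
  · intro g x hg hx
    exact ⟨⟨E g, g, hg, ⟨x, hx⟩, rfl⟩, (fx hg rfl g).2 (mem_E_self g)⟩

end Ctx

end Cones

theorem conesStmt : HypLib → LineLib → AlgA → StStmt → P1DStmt → ConesStmt := by
  intro hl ll al st p1d A G X _ _ _ π D δ hI
  exact Cones.Ctx.main ⟨hl, ll, al, hI.geom, hI.lox, hI.p1, st D δ hI.geom hI.lox hI.p1,
    p1d π D δ hI⟩

end Pool.Agent.Bu
end

-- part Pool.Agent.Lib.MP_5bec91_al.Bu.Wind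
section

/-!
Windmills: the Greendlinger property of a cone system.
-/

set_option autoImplicit false

namespace Pool.Agent.Bu

open MulAction

namespace Wind

variable {G X C : Type} [Group G] [MulAction G X] [MulAction G C] (S : CS G X C)

/-- The subgroup generated by the rotation groups of the cones in `A`. -/
def NA (A : Set C) : Subgroup G := ⨆ c : A, S.H c

theorem le_NA {A : Set C} {c : C} (hc : c ∈ A) : S.H c ≤ NA S A :=
  le_iSup (fun c : A => S.H c) ⟨c, hc⟩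

theorem NA_ind {A : Set C} {p : G → Prop} {g : G} (hg : g ∈ NA S A)
    (mem : ∀ c ∈ A, ∀ h ∈ S.H c, p h) (one : p 1) (mul : ∀ x y, p x → p y → p (x * y)) : p g :=
  Subgroup.iSup_induction (fun c : A => S.H c) (C := p) hg (fun c h hh => mem c.1 c.2 h hh) one mul

theorem ang_self (c : C) (x : X) : S.ang c x x ≤ S.θ := by
  have h1 := S.ang_le_d c x x
  have h2 := S.D.refl x
  simp only [CS.d] at h1
  omega

theorem ang_rot {c : C} {Q : G} (hQ : Q ∈ S.H c) (x y : X) :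
    S.ang c (Q • x) (Q • y) = S.ang c x y := by
  have h := S.ang_smul Q c x y
  rwa [S.Hfix c Q hQ] at h

theorem ang_inv (Q : G) (c : C) (u x : X) :
    S.ang c u (Q • x) = S.ang (Q⁻¹ • c) (Q⁻¹ • u) x := by
  have h := S.ang_smul Q⁻¹ c u (Q • x)
  rw [inv_smul_smul] at h
  exact h.symm

/-- Points obtained from a base point by a nonempty reduced word of rotations. -/
inductive Red {Z : Type} [MulAction G Z] (K : Set C) (B : C → Set Z) : C → Z → Prop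
  | base (c : C) (Q : G) (s : Z) : c ∈ K → Q ∈ S.H c → Q ≠ 1 → s ∈ B c → Red K B c (Q • s)
  | step (c : C) (Q : G) (c' : C) (x : Z) : c ∈ K → Q ∈ S.H c → Q ≠ 1 → c' ≠ c →
      Red K B c' x → Red K B c (Q • x)

variable {S}

theorem Red.mem {Z : Type} [MulAction G Z] {K : Set C} {B : C → Set Z} {c : C} {z : Z}
    (h : Red S K B c z) : c ∈ K := by
  induction h with
  | base c Q s hc _ _ _ => exact hc
  | step c Q c' x hc _ _ _ _ _ => exact hc

theorem Red.inv {Z : Type} [MulAction G Z] {K : Set C} {B : C → Set Z} {c : C} {z : Z}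
    (h : Red S K B c z) : ∃ Q ∈ S.H c, ∃ x, z = Q • x ∧
      (x ∈ B c ∨ ∃ c', c' ≠ c ∧ Red S K B c' x) := by
  induction h with
  | base c Q s _ hQ _ hs => exact ⟨Q, hQ, s, rfl, Or.inl hs⟩
  | step c Q c' x _ hQ _ hc hx _ => exact ⟨Q, hQ, x, rfl, Or.inr ⟨c', hc, hx⟩⟩

theorem Red.orbit {K : Set C} {B : C → Set G} {B' : C → Set X} {y : X}
    (hB : ∀ c, ∀ g ∈ B c, g • y ∈ B' c) {c : C} {g : G} (h : Red S K B c g) :
    Red S K B' c (g • y) := by
  induction h with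
  | base c Q s hc hQ h1 hs =>
    rw [smul_eq_mul, mul_smul]; exact Red.base c Q _ hc hQ h1 (hB c s hs)
  | step c Q c' x hc hQ h1 hne _ ih =>
    rw [smul_eq_mul, mul_smul]; exact Red.step c Q c' _ hc hQ h1 hne ih

theorem conj_ne {n Q : G} (h : Q ≠ 1) : n * Q * n⁻¹ ≠ 1 := by
  intro e
  apply h
  have : Q = n⁻¹ * (n * Q * n⁻¹) * n := by group
  rw [this, e]; group

theorem Red.conj {Z : Type} [MulAction G Z] {K : Set C} {B : C → Set Z} {n : G}
    (hK : ∀ c ∈ K, n • c ∈ K) (hB : ∀ c, ∀ s ∈ B c, n • s ∈ B (n • c)) {c : C} {z : Z}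
    (h : Red S K B c z) : Red S K B (n • c) (n • z) := by
  have e : ∀ (Q : G) (s : Z), n • Q • s = (n * Q * n⁻¹) • n • s := by
    intro Q s; rw [mul_smul, mul_smul, inv_smul_smul]
  induction h with
  | base c Q s hc hQ h1 hs =>
    rw [e]; exact Red.base _ _ _ (hK c hc) (S.Hconj n c Q hQ) (conj_ne h1) (hB c s hs)
  | step c Q c' x hc hQ h1 hne _ ih =>
    rw [e]
    exact Red.step _ _ (n • c') _ (hK c hc) (S.Hconj n c Q hQ) (conj_ne h1)
      (fun h => hne (smul_left_cancel n h)) ih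

/-- Normal form: the base set together with the reduced points is invariant. -/
theorem closed {Z : Type} [MulAction G Z] {A K : Set C} {B : C → Set Z} {B0 : Set Z}
    (hK : ∀ n ∈ NA S A, ∀ c ∈ K, n • c ∈ K)
    (hB : ∀ n ∈ NA S A, ∀ c, ∀ s ∈ B c, n • s ∈ B (n • c))
    (hB0 : ∀ n ∈ NA S A, ∀ s ∈ B0, n • s ∈ B0) (sub : ∀ c, B c ⊆ B0)
    (alt : ∀ c ∈ K, ∀ s ∈ B0, s ∈ B c ∨ ∀ Q ∈ S.H c, Q • s ∈ B0)
    {g : G} (hg : g ∈ NA S (A ∪ K)) :
    ∀ z, (z ∈ B0 ∨ ∃ c, Red S K B c z) → (g • z ∈ B0 ∨ ∃ c, Red S K B c (g • z)) := by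
  refine NA_ind S (p := fun g => ∀ z, (z ∈ B0 ∨ ∃ c, Red S K B c z) →
    (g • z ∈ B0 ∨ ∃ c, Red S K B c (g • z))) hg ?_ ?_ ?_
  · rintro c (hc | hc) h hh z hz
    · have hn := le_NA S hc hh
      rcases hz with hz | ⟨c', hz⟩
      · exact Or.inl (hB0 h hn z hz)
      · exact Or.inr ⟨_, hz.conj (hK h hn) (hB h hn)⟩
    · by_cases h1 : h = 1
      · rw [h1, one_smul]; exact hz
      rcases hz with hz | ⟨c', hz⟩
      · rcases alt c hc z hz with h2 | h2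
        · exact Or.inr ⟨c, Red.base c h z hc hh h1 h2⟩
        · exact Or.inl (h2 h hh)
      · by_cases hcc : c' = c
        · subst hcc
          obtain ⟨Q, hQ, x, rfl, hx⟩ := hz.inv
          rw [← mul_smul]
          by_cases h2 : h * Q = 1
          · rw [h2, one_smul]
            rcases hx with hx | ⟨c'', -, hx⟩
            · exact Or.inl (sub _ hx)
            · exact Or.inr ⟨c'', hx⟩
          · have h3 := (S.H c').mul_mem hh hQ
            rcases hx with hx | ⟨c'', hne, hx⟩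
            · exact Or.inr ⟨c', Red.base c' _ x hc h3 h2 hx⟩
            · exact Or.inr ⟨c', Red.step c' _ c'' x hc h3 h2 hne hx⟩
        · exact Or.inr ⟨c, Red.step c h c' z hc hh h1 hcc hz⟩
  · intro z hz; rw [one_smul]; exact hz
  · intro a b ha hb z hz; rw [mul_smul]; exact ha _ (hb z hz)

variable (S)

/-- The skeleton with the cones of `K` other than `c` attached. -/
def Sc (V : Set X) (K : Set C) (c : C) : Set X :=
  {x | x ∈ V ∨ ∃ c' ∈ K, c' ≠ c ∧ x ∈ S.Y c'}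

/-- The skeleton with all cones of `K` attached. -/
def S0 (V : Set X) (K : Set C) : Set X := {x | x ∈ V ∨ ∃ c' ∈ K, x ∈ S.Y c'}

/-- Hypotheses on the thickened windmill `V` and the set `K` of new cones. -/
structure Mill (V : Set X) (K A' : Set C) : Prop where
  ne : V.Nonempty
  ten : ∀ c ∈ K, ∀ w ∈ V, ∀ w' ∈ V, S.ang c w w' ≤ 10 * S.θ
  big : ∀ c ∈ K, ∃ w ∈ V, ∃ w' ∈ V, 2 * S.θ < S.ang c w w'
  out : ∀ c, c ∉ A' → c ∉ K ∧ ∀ w ∈ V, ∀ w' ∈ V, S.ang c w w' ≤ 2 * S.θ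
  rot : ∀ c, c ∉ A' → ∀ c1 ∈ K, ∀ Q ∈ S.H c1, Q⁻¹ • c ∉ A'

variable {S}

theorem Sc_sub {V : Set X} {K : Set C} (c : C) : Sc S V K c ⊆ S0 S V K := by
  rintro x (hx | ⟨c', h1, -, h2⟩)
  · exact Or.inl hx
  · exact Or.inr ⟨c', h1, h2⟩

theorem S0_cases {V : Set X} {K : Set C} (c : C) {x : X} (hx : x ∈ S0 S V K) :
    x ∈ Sc S V K c ∨ x ∈ S.Y c := by
  rcases hx with hx | ⟨c', h1, h2⟩
  · exact Or.inl (Or.inl hx)
  · by_cases h : c' = c
    · exact Or.inr (h ▸ h2)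
    · exact Or.inl (Or.inr ⟨c', h1, h, h2⟩)

namespace Mill

variable {V : Set X} {K A' : Set C} (M : Mill S V K A')
include M

theorem near {c : C} {s : X} (hs : s ∈ Sc S V K c) : ∃ w ∈ V, S.ang c w s ≤ S.θ := by
  rcases hs with hs | ⟨c', h1, h2, h3⟩
  · exact ⟨s, hs, ang_self S c s⟩
  · obtain ⟨v, hv⟩ := S.ne c
    obtain ⟨w, hw, w', hw', hb⟩ := M.big c' h1
    have t1 := S.ang_tri c' w v w'
    have t2 := S.ang_symm c' v w'
    have b1 := S.behr c c' w v s h2.symm hv h3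
    have b2 := S.behr c c' w' v s h2.symm hv h3
    simp only [CS.ang] at *
    rcases b1 with b1 | b1
    · exact ⟨w, hw, b1⟩
    · rcases b2 with b2 | b2
      · exact ⟨w', hw', b2⟩
      · omega

theorem eleven {c : C} (hc : c ∈ K) {s w : X} (hs : s ∈ Sc S V K c) (hw : w ∈ V) :
    S.ang c s w ≤ 11 * S.θ := by
  obtain ⟨w0, h0, h1⟩ := M.near hs
  have h2 := M.ten c hc w0 h0 w hw
  have t1 := S.ang_tri c s w0 w
  have t2 := S.ang_symm c s w0
  omega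

theorem four {c : C} (hc : c ∉ A') {s s' : X} (hs : s ∈ S0 S V K) (hs' : s' ∈ S0 S V K) :
    S.ang c s s' ≤ 4 * S.θ := by
  have key : ∀ x ∈ S0 S V K, x ∈ Sc S V K c := by
    rintro x (hx | ⟨c', h1, h2⟩)
    · exact Or.inl hx
    · exact Or.inr ⟨c', h1, fun e => (M.out c hc).1 (e ▸ h1), h2⟩
  obtain ⟨w, hw, h1⟩ := M.near (key s hs)
  obtain ⟨w', hw', h2⟩ := M.near (key s' hs')
  have h3 := (M.out c hc).2 w hw w' hw'
  have t1 := S.ang_tri c s w s'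
  have t2 := S.ang_tri c w w' s'
  have t3 := S.ang_symm c s w
  omega

theorem turn {c c' : C} (hc : c ∈ K) (hc' : c' ∈ K) (hne : c' ≠ c) {Q : G} (hQ : Q ∈ S.H c')
    (h1 : Q ≠ 1) {x : X} (hx : ∀ w ∈ V, S.ang c' x (Q • w) ≤ 13 * S.θ) :
    ∀ w ∈ V, S.ang c x w ≤ 13 * S.θ := by
  intro w hw
  obtain ⟨v, hv⟩ := S.ne c
  obtain ⟨u, hu⟩ := S.ne c'
  have a1 := M.eleven hc' (s := v) (Or.inr ⟨c, hc, hne.symm, hv⟩) hw
  have a2 := M.eleven hc (s := u) (Or.inr ⟨c', hc', hne, hu⟩) hw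
  have a3 := S.spin_ang hQ h1 w
  have a4 := hx w hw
  have t1 := S.ang_tri c' w v (Q • w)
  have t2 := S.ang_tri c' v x (Q • w)
  have t3 := S.ang_symm c' v w
  have t4 := S.ang_symm c' v x
  have t5 := S.ang_tri c x u w
  have b := S.behr c c' x v u hne.symm hv hu
  have p := S.θ_pos
  simp only [CS.ang] at *
  omega

theorem red {c : C} {x : X} (h : Red S K (Sc S V K) c x) :
    ∃ Q ∈ S.H c, Q ≠ 1 ∧ ∀ w ∈ V, S.ang c x (Q • w) ≤ 13 * S.θ := by
  induction h with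
  | base c Q s hc hQ h1 hs =>
    refine ⟨Q, hQ, h1, fun w hw => ?_⟩
    have := M.eleven hc hs hw
    rw [ang_rot S hQ]; omega
  | step c Q c' x hc hQ h1 hne hx ih =>
    obtain ⟨Q', hQ', h1', ih⟩ := ih
    refine ⟨Q, hQ, h1, fun w hw => ?_⟩
    rw [ang_rot S hQ]
    exact M.turn hc hx.mem hne hQ' h1' ih w hw

theorem fork {c1 c : C} (hc1 : c1 ∈ K) (hc : c ∉ A') {Q : G} (hQ : Q ∈ S.H c1) (h1 : Q ≠ 1)
    {x u s0 : X} (hx : ∀ w ∈ V, S.ang c1 x w ≤ 13 * S.θ) (hu : ∀ w ∈ V, S.ang c1 u w ≤ 13 * S.θ)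
    (hs0 : s0 ∈ S0 S V K) (h0 : S.ang c u s0 ≤ S.θ) :
    S.ang c u (Q • x) ≤ 6 * S.θ ∨ ∃ y1 ∈ S.Y c1, S.ang c u y1 ≤ S.θ := by
  obtain ⟨w, hw⟩ := M.ne
  obtain ⟨v, hv⟩ := S.ne c
  obtain ⟨y1, hy⟩ := S.ne c1
  have hne : c ≠ c1 := fun e => (M.out c hc).1 (e ▸ hc1)
  have b1 := S.behr c c1 (Q • x) v y1 hne hv hy
  have b2 := S.behr c c1 u v y1 hne hv hy
  have a1 := M.four hc hs0 (s' := y1) (Or.inr ⟨c1, hc1, hy⟩)
  have a2 := hx w hw
  have a3 := hu w hw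
  have a4 := S.spin_ang hQ h1 w
  have a5 := ang_rot S hQ x w
  have t1 := S.ang_tri c u s0 (Q • x)
  have t2 := S.ang_tri c s0 y1 (Q • x)
  have t3 := S.ang_symm c y1 (Q • x)
  have t4 := S.ang_tri c1 w u (Q • w)
  have t5 := S.ang_tri c1 u v (Q • w)
  have t6 := S.ang_tri c1 v (Q • x) (Q • w)
  have t7 := S.ang_symm c1 w u
  have t8 := S.ang_symm c1 v (Q • x)
  have p := S.θ_pos
  rcases b2 with b2 | b2
  · exact Or.inr ⟨y1, hy, b2⟩
  · left
    simp only [CS.ang] at *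
    omega

theorem six {c1 : C} {x : X} (h : Red S K (Sc S V K) c1 x) :
    ∀ c, c ∉ A' → ∀ u, (∀ w ∈ V, S.ang c1 u w ≤ 13 * S.θ) →
      (∃ s0 ∈ S0 S V K, S.ang c u s0 ≤ S.θ) → S.ang c u x ≤ 6 * S.θ := by
  induction h with
  | base c1 Q s hc1 hQ h1 hs =>
    rintro c hc u hu ⟨s0, hs0, h0⟩
    have hx : ∀ w ∈ V, S.ang c1 s w ≤ 13 * S.θ := fun w hw => by
      have := M.eleven hc1 hs hw
      omega
    rcases M.fork hc1 hc hQ h1 hx hu hs0 h0 with h | ⟨y1, hy, h⟩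
    · exact h
    · have hy' : Q⁻¹ • y1 ∈ S0 S V K := Or.inr ⟨c1, hc1, S.H_mem ((S.H c1).inv_mem hQ) hy⟩
      have a1 := M.four (M.rot c hc c1 hc1 Q hQ) hy' (Sc_sub c1 hs)
      have a2 := S.ang_smul Q⁻¹ c u y1
      have a3 := S.ang_tri (Q⁻¹ • c) (Q⁻¹ • u) (Q⁻¹ • y1) s
      rw [ang_inv]
      omega
  | step c1 Q c2 x hc1 hQ h1 hne hx ih =>
    rintro c hc u hu ⟨s0, hs0, h0⟩
    obtain ⟨Q', hQ', h1', hr⟩ := M.red hx
    have hx' := M.turn hc1 hx.mem hne hQ' h1' hr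
    rcases M.fork hc1 hc hQ h1 hx' hu hs0 h0 with h | ⟨y1, hy, h⟩
    · exact h
    · have hQi := (S.H c1).inv_mem hQ
      have hy' : Q⁻¹ • y1 ∈ S0 S V K := Or.inr ⟨c1, hc1, S.H_mem hQi hy⟩
      rw [ang_inv]
      refine ih _ (M.rot c hc c1 hc1 Q hQ) _ ?_ ⟨_, hy', ?_⟩
      · refine M.turn hx.mem hc1 hne.symm hQi (inv_ne_one.2 h1) fun w hw => ?_
        rw [ang_rot S hQi]; exact hu w hw
      · rw [S.ang_smul]; exact h

theorem six' {c1 : C} {x : X} (h : Red S K (Sc S V K) c1 x) :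
    ∀ c, c ∉ A' → ∀ u ∈ S0 S V K, S.ang c u x ≤ 6 * S.θ := by
  have gen : ∀ {c1 : C} {x : X}, Red S K (Sc S V K) c1 x → ∀ c, c ∉ A' → ∀ u ∈ Sc S V K c1,
      S.ang c u x ≤ 6 * S.θ := by
    intro c1 x h c hc u hu
    refine M.six h c hc u (fun w hw => ?_) ⟨u, Sc_sub c1 hu, ang_self S c u⟩
    have := M.eleven h.mem hu hw
    omega
  induction h with
  | base c1 Q s hc1 hQ h1 hs =>
    intro c hc u hu
    rcases S0_cases c1 hu with h | h
    · exact gen (Red.base c1 Q s hc1 hQ h1 hs) c hc u h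
    · have hy' : Q⁻¹ • u ∈ S0 S V K := Or.inr ⟨c1, hc1, S.H_mem ((S.H c1).inv_mem hQ) h⟩
      have a1 := M.four (M.rot c hc c1 hc1 Q hQ) hy' (Sc_sub c1 hs)
      rw [ang_inv]
      omega
  | step c1 Q c2 x hc1 hQ h1 hne hx ih =>
    intro c hc u hu
    rcases S0_cases c1 hu with h | h
    · exact gen (Red.step c1 Q c2 x hc1 hQ h1 hne hx) c hc u h
    · have hy' : Q⁻¹ • u ∈ S0 S V K := Or.inr ⟨c1, hc1, S.H_mem ((S.H c1).inv_mem hQ) h⟩
      rw [ang_inv]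
      exact ih _ (M.rot c hc c1 hc1 Q hQ) _ hy'

end Mill

variable (S)

/-- A windmill around `y`. -/
structure State (y : X) (A : Set C) (W : Set X) : Prop where
  base : y ∈ W
  invW : ∀ n ∈ NA S A, ∀ w ∈ W, n • w ∈ W
  invA : ∀ n ∈ NA S A, ∀ c ∈ A, n • c ∈ A
  small : ∀ c, c ∉ A → ∀ w ∈ W, ∀ w' ∈ W, S.ang c w w' ≤ 6 * S.θ
  gr : ∀ g ∈ NA S A, g ≠ 1 → ∃ c, ∃ Q ∈ S.H c, Q ≠ 1 ∧ S.ang c y ((Q * g) • y) ≤ 13 * S.θ

theorem start (y : X) : State S y ∅ {y} := by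
  have h : ∀ n ∈ NA S ∅, n = 1 := fun n hn =>
    NA_ind S (p := fun n => n = 1) hn (fun c hc => absurd hc (Set.notMem_empty c)) rfl
      (fun a b ha hb => by rw [ha, hb, mul_one])
  refine ⟨rfl, fun n hn w hw => ?_, fun n _ c hc => absurd hc (Set.notMem_empty c),
    fun c _ w hw w' hw' => ?_, fun g hg h1 => absurd (h g hg) h1⟩
  · rw [h n hn, one_smul]; exact hw
  · rw [Set.mem_singleton_iff] at hw hw'
    rw [hw, hw']
    have := ang_self S c y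
    omega

variable {S}

theorem grow {y : X} {A : Set C} {W : Set X} (h : State S y A W) :
    ∃ A' W', State S y A' W' ∧ ∀ x, ∀ w ∈ W, S.d x w ≤ 2 * S.δ → x ∈ W' := by
  obtain ⟨V, hV⟩ : ∃ V : Set X, ∀ x, x ∈ V ↔ ∃ w ∈ W, S.d x w ≤ 2 * S.δ :=
    ⟨{x | ∃ w ∈ W, S.d x w ≤ 2 * S.δ}, fun _ => Iff.rfl⟩
  obtain ⟨K, hK⟩ : ∃ K : Set C, ∀ c, c ∈ K ↔
      c ∉ A ∧ ∃ w ∈ V, ∃ w' ∈ V, 2 * S.θ < S.ang c w w' :=
    ⟨{c | c ∉ A ∧ ∃ w ∈ V, ∃ w' ∈ V, 2 * S.θ < S.ang c w w'}, fun _ => Iff.rfl⟩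
  obtain ⟨A', hA'⟩ : ∃ A' : Set C, ∀ c, c ∈ A' ↔ ∃ n ∈ NA S (A ∪ K), ∃ c0 ∈ A ∪ K, c = n • c0 :=
    ⟨{c | ∃ n ∈ NA S (A ∪ K), ∃ c0 ∈ A ∪ K, c = n • c0}, fun _ => Iff.rfl⟩
  obtain ⟨W', hW'⟩ : ∃ W' : Set X, ∀ x, x ∈ W' ↔
      ∃ n ∈ NA S (A ∪ K), ∃ s ∈ S0 S V K, x = n • s :=
    ⟨{x | ∃ n ∈ NA S (A ∪ K), ∃ s ∈ S0 S V K, x = n • s}, fun _ => Iff.rfl⟩
  have WV : ∀ w ∈ W, w ∈ V := fun w hw => (hV w).2 ⟨w, hw, by
    have := S.D.refl w
    simp only [CS.d]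
    omega⟩
  have VW : ∀ x ∈ V, x ∈ W' := fun x hx =>
    (hW' x).2 ⟨1, Subgroup.one_mem _, x, Or.inl hx, (one_smul G x).symm⟩
  have invV : ∀ n ∈ NA S A, ∀ x ∈ V, n • x ∈ V := by
    intro n hn x hx
    obtain ⟨w, hw, e⟩ := (hV x).1 hx
    exact (hV _).2 ⟨n • w, h.invW n hn w hw, by rw [S.iso]; exact e⟩
  have invK : ∀ n ∈ NA S A, ∀ c ∈ K, n • c ∈ K := by
    intro n hn c hc
    obtain ⟨h1, w, hw, w', hw', e⟩ := (hK c).1 hc
    refine (hK _).2 ⟨fun h2 => h1 ?_, n • w, invV n hn w hw, n • w', invV n hn w' hw', ?_⟩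
    · have := h.invA n⁻¹ (Subgroup.inv_mem _ hn) _ h2
      rwa [inv_smul_smul] at this
    · rw [S.ang_smul]; exact e
  have invA' : ∀ n ∈ NA S (A ∪ K), ∀ c ∈ A', n • c ∈ A' := by
    intro n hn c hc
    obtain ⟨m, hm, c0, h0, rfl⟩ := (hA' c).1 hc
    exact (hA' _).2 ⟨n * m, Subgroup.mul_mem _ hn hm, c0, h0, (mul_smul n m c0).symm⟩
  have outA' : ∀ n ∈ NA S (A ∪ K), ∀ c, c ∉ A' → n⁻¹ • c ∉ A' := by
    intro n hn c hc h1
    have := invA' n hn _ h1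
    rw [smul_inv_smul] at this
    exact hc this
  have subA' : ∀ c ∈ A ∪ K, c ∈ A' := fun c hc =>
    (hA' c).2 ⟨1, Subgroup.one_mem _, c, hc, (one_smul G c).symm⟩
  have leN : ∀ g ∈ NA S A', g ∈ NA S (A ∪ K) := by
    intro g hg
    refine NA_ind S (p := fun g => g ∈ NA S (A ∪ K)) hg ?_ (Subgroup.one_mem _)
      fun a b ha hb => Subgroup.mul_mem _ ha hb
    intro c hc Q hQ
    obtain ⟨m, hm, c0, h0, rfl⟩ := (hA' c).1 hc
    have h1 := S.Hconj m⁻¹ _ Q hQ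
    rw [inv_smul_smul] at h1
    have h2 := le_NA S h0 h1
    have e : Q = m * (m⁻¹ * Q * m⁻¹⁻¹) * m⁻¹ := by group
    rw [e]
    exact Subgroup.mul_mem _ (Subgroup.mul_mem _ hm h2) (Subgroup.inv_mem _ hm)
  have M : Mill S V K A' := by
    refine ⟨⟨y, WV y h.base⟩, ?_, fun c hc => ((hK c).1 hc).2, ?_, ?_⟩
    · intro c hc x hx x' hx'
      obtain ⟨w, hw, e⟩ := (hV x).1 hx
      obtain ⟨w', hw', e'⟩ := (hV x').1 hx'
      have a1 := h.small c ((hK c).1 hc).1 w hw w' hw'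
      have a2 := S.ang_le_d c x w
      have a3 := S.ang_le_d c x' w'
      have t1 := S.ang_tri c x w x'
      have t2 := S.ang_tri c w w' x'
      have t3 := S.ang_symm c w' x'
      have p := S.hθ
      omega
    · intro c hc
      have h1 : c ∉ A := fun h1 => hc (subA' c (Or.inl h1))
      have h2 : c ∉ K := fun h2 => hc (subA' c (Or.inr h2))
      refine ⟨h2, fun w hw w' hw' => ?_⟩
      by_contra h3
      exact h2 ((hK c).2 ⟨h1, w, hw, w', hw', not_le.1 h3⟩)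
    · intro c hc c1 hc1 Q hQ
      exact outA' Q (le_NA S (Or.inr hc1) hQ) c hc
  refine ⟨A', W', ⟨VW y (WV y h.base), ?_, fun n hn => invA' n (leN n hn), ?_, ?_⟩,
    fun x w hw e => VW x ((hV x).2 ⟨w, hw, e⟩)⟩
  · intro n hn x hx
    obtain ⟨m, hm, s, hs, rfl⟩ := (hW' x).1 hx
    exact (hW' _).2 ⟨n * m, Subgroup.mul_mem _ (leN n hn) hm, s, hs, (mul_smul n m s).symm⟩
  · intro c hc x hx x' hx'
    obtain ⟨m, hm, u, hu, rfl⟩ := (hW' x).1 hx
    obtain ⟨m', hm', s, hs, rfl⟩ := (hW' x').1 hx'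
    have e : m' • s = m • (m⁻¹ * m') • s := by rw [mul_smul, smul_inv_smul]
    rw [e, ang_inv, inv_smul_smul]
    have hc' := outA' m hm c hc
    have key := closed (S := S) (A := A) (K := K) (B := Sc S V K) (B0 := S0 S V K) invK ?_ ?_
      Sc_sub ?_ (Subgroup.mul_mem _ (Subgroup.inv_mem _ hm) hm') s (Or.inl hs)
    · rcases key with key | ⟨c1, key⟩
      · have := M.four hc' hu key
        omega
      · exact M.six' key _ hc' u hu
    · rintro n hn c0 z (hz | ⟨c', h1, h2, h3⟩)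
      · exact Or.inl (invV n hn z hz)
      · exact Or.inr ⟨n • c', invK n hn c' h1, fun e => h2 (smul_left_cancel n e),
          S.Yeq n c' z h3⟩
    · rintro n hn z (hz | ⟨c', h1, h3⟩)
      · exact Or.inl (invV n hn z hz)
      · exact Or.inr ⟨n • c', invK n hn c' h1, S.Yeq n c' z h3⟩
    · intro c0 hc0 z hz
      rcases S0_cases c0 hz with h1 | h1
      · exact Or.inl h1
      · exact Or.inr fun Q hQ => Or.inr ⟨c0, hc0, S.H_mem hQ h1⟩
  · intro g hg h1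
    have key := closed (S := S) (A := A) (K := K) (B := fun _ => (NA S A : Set G))
      (B0 := (NA S A : Set G)) invK (fun n hn _ s hs => (NA S A).mul_mem hn hs)
      (fun n hn s hs => (NA S A).mul_mem hn hs) (fun _ => Set.Subset.refl _)
      (fun _ _ s hs => Or.inl hs) (leN g hg) 1 (Or.inl (NA S A).one_mem)
    rw [smul_eq_mul, mul_one] at key
    rcases key with key | ⟨c, key⟩
    · exact h.gr g key h1
    · have k2 : Red S K (Sc S V K) c (g • y) :=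
        Red.orbit (B' := Sc S V K) (y := y)
          (fun c0 n hn => Or.inl (WV _ (h.invW n hn y h.base))) key
      obtain ⟨Q, hQ, hQ1, hr⟩ := M.red k2
      have hQi := (S.H c).inv_mem hQ
      refine ⟨c, Q⁻¹, hQi, inv_ne_one.2 hQ1, ?_⟩
      have a1 := hr y (WV y h.base)
      have a2 := ang_rot S hQi (g • y) (Q • y)
      rw [inv_smul_smul, ← mul_smul] at a2
      rw [S.ang_symm, a2]
      exact a1

variable (S)

theorem exists_state (y : X) (k : ℕ) :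
    ∃ A W, State S y A W ∧ ∀ x, S.d x y ≤ k * S.δ → x ∈ W := by
  induction k with
  | zero =>
    obtain ⟨A, W, h, hW⟩ := grow (start S y)
    exact ⟨A, W, h, fun x hx => hW x y rfl (by omega)⟩
  | succ k ih =>
    obtain ⟨A0, W0, h0, hW0⟩ := ih
    obtain ⟨A, W, h, hW⟩ := grow h0
    refine ⟨A, W, h, fun x hx => ?_⟩
    by_cases h1 : S.δ ≤ S.d x y
    · obtain ⟨z, e1, e2, e3⟩ := S.geom.geo x y S.δ h1
      rw [add_mul, one_mul] at hx
      refine hW x z (hW0 z ?_) ?_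
      · simp only [CS.d] at *
        omega
      · simp only [CS.d] at *
        omega
    · exact hW x y h0.base (by omega)

theorem eventually (y : X) {g : G} (hg : g ∈ S.N) :
    ∃ k : ℕ, ∀ A W, State S y A W → (∀ x, S.d x y ≤ k * S.δ → x ∈ W) → g ∈ NA S A := by
  refine Subgroup.iSup_induction S.H (C := fun g => ∃ k : ℕ, ∀ A W, State S y A W →
    (∀ x, S.d x y ≤ k * S.δ → x ∈ W) → g ∈ NA S A) hg ?_ ?_ ?_
  · intro c Q hQ
    refine ⟨S.d (Q • y) y, fun A W h hW => ?_⟩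
    by_cases h1 : Q = 1
    · rw [h1]; exact Subgroup.one_mem _
    by_cases hc : c ∈ A
    · exact le_NA S hc hQ
    · exfalso
      have a1 := h.small c hc y h.base (Q • y) (hW _ (Nat.le_mul_of_pos_right _ S.geom.pos))
      have a2 := S.spin_ang hQ h1 y
      have p := S.θ_pos
      omega
  · exact ⟨0, fun _ _ _ _ => Subgroup.one_mem _⟩
  · rintro a b ⟨k, hk⟩ ⟨k', hk'⟩
    refine ⟨k + k', fun A W h hW => Subgroup.mul_mem _ (hk A W h fun x hx => hW x ?_)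
      (hk' A W h fun x hx => hW x ?_)⟩
    · rw [add_mul]; omega
    · rw [add_mul]; omega

end Wind

theorem windStmt : WindStmt := by
  intro G X C _ _ _ S y g hg h1
  obtain ⟨k, hk⟩ := Wind.eventually S y hg
  obtain ⟨A, W, h, hW⟩ := Wind.exists_state S y k
  exact h.gr g (hk A W h hW) h1

end Pool.Agent.Bu
end
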